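import Mathlib

/-! # HGQ part B: descending lists and binomial coefficients

PAPER PROOF. A strictly `r`-descending list with elements in `S` is determined by its set of elements
(`f` injective), which can be any `k`-subset: `L ↦ L.toFinset` is a bijection onto `S.powersetCard k` (inverse:
sort by `f`). Alternatively induct on `S` by its `f`-maximum (`Finset.induction_on_max_value`):
lists containing it have it as head.
-/

namespace HGQ

theorem card_desc {H : Type*} [DecidableEq H] (f : H → ℕ) (hf : Function.Injective f)
    (S : Finset H) (k : ℕ) :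
    Nat.card {l : List H // l.length = k ∧ (∀ u ∈ l, u ∈ S) ∧
      l.Pairwise (fun u w => f w < f u)} = S.card.choose k := by
  have hnd : ∀ l : List H, l.Pairwise (fun u w => f w < f u) → l.Nodup := by
    intro l hl
    refine List.Pairwise.imp ?_ hl
    intro a b h hab
    rw [hab] at h
    exact lt_irrefl _ h
  have hcard : Nat.card {T : Finset H // T ∈ S.powersetCard k} = S.card.choose k := by
    rw [Nat.card_eq_fintype_card, Fintype.card_coe, Finset.card_powersetCard]
  rw [← hcard]
  refine Nat.card_congr (Equiv.ofBijective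
    (fun l => ⟨l.1.toFinset, ?_⟩) ⟨?_, ?_⟩)
  · obtain ⟨l, h1, h2, h3⟩ := l
    rw [Finset.mem_powersetCard]
    refine ⟨fun u hu => h2 u (List.mem_toFinset.1 hu), ?_⟩
    rw [List.toFinset_card_of_nodup (hnd l h3), h1]
  · rintro ⟨l, h1, h2, h3⟩ ⟨l', h1', h2', h3'⟩ h
    simp only [Subtype.mk.injEq] at h ⊢
    have hp : l.Perm l' := by
      rw [List.perm_ext_iff_of_nodup (hnd l h3) (hnd l' h3')]
      intro a
      rw [← List.mem_toFinset, h, List.mem_toFinset]
    refine List.Perm.eq_of_pairwise ?_ h3 h3' hp
    intro a b _ _ hab hba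
    exact absurd hab (by omega)
  · rintro ⟨T, hT⟩
    rw [Finset.mem_powersetCard] at hT
    let r : H → H → Prop := fun a b => f b ≤ f a
    have : DecidableRel r := fun a b => inferInstanceAs (Decidable (f b ≤ f a))
    have : IsTrans H r := ⟨fun a b c h1 h2 => le_trans h2 h1⟩
    have : Std.Antisymm r := ⟨fun a b h1 h2 => hf (le_antisymm h2 h1)⟩
    have : Std.Total r := ⟨fun a b => le_total _ _⟩
    refine ⟨⟨T.sort r, ?_, ?_, ?_⟩, ?_⟩
    · rw [Finset.length_sort, hT.2]
    · intro u hu
      exact hT.1 ((Finset.mem_sort r).1 hu)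
    · have h1 := Finset.pairwise_sort T r
      have h2 := Finset.sort_nodup T r
      refine (h1.and h2).imp ?_
      rintro a b ⟨hab, hne⟩
      exact lt_of_le_of_ne hab fun h => hne (hf h.symm)
    · simp only [Finset.sort_toFinset]

end HGQ
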