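import Pool.Agent.HGQ.BCyc

/-! # HGQ part B: minima of vertices

PAPER PROOF. Everything is immediate from `Finset.exists_min_image` and the injectivity of `rk e`;
`m ↦ cyc (sg al e) m` is a bijection from the minima with label `i` onto the cycles with label `i`.
-/

namespace HGQ

open Equiv

variable {H : Type*} [Fintype H] [DecidableEq H] {L : Type*} [DecidableEq L] {M : ℕ}

theorem amin_mem {e : H ≃ Fin M} {S : Finset H} (d : H) (h : S.Nonempty) : amin e S d ∈ S := by
  unfold amin
  rw [dif_pos h]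
  exact (S.exists_min_image (rk e) h).choose_spec.1

theorem rk_amin_le {e : H ≃ Fin M} {S : Finset H} (d : H) {k : H} (hk : k ∈ S) :
    rk e (amin e S d) ≤ rk e k := by
  have h : S.Nonempty := ⟨k, hk⟩
  unfold amin
  rw [dif_pos h]
  exact (S.exists_min_image (rk e) h).choose_spec.2 k hk

/-- the element of smallest rank is unique -/
theorem amin_eq {e : H ≃ Fin M} {S : Finset H} (d : H) {m : H} (hm : m ∈ S)
    (h : ∀ k ∈ S, rk e m ≤ rk e k) : amin e S d = m :=
  rk_injective e (le_antisymm (rk_amin_le d hm) (h _ (amin_mem d ⟨m, hm⟩)))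

theorem sameCycle_mn (al : Perm H) (e : H ≃ Fin M) (h : H) :
    (sg al e).SameCycle h (mn al e h) :=
  mem_cyc.mp (amin_mem h ⟨h, mem_cyc.mpr (Perm.SameCycle.refl _ _)⟩)

private theorem bmin_rk_le (al : Perm H) (e : H ≃ Fin M) {h k : H}
    (hk : (sg al e).SameCycle h k) : rk e (mn al e h) ≤ rk e k :=
  rk_amin_le h (mem_cyc.mpr hk)

theorem isMn_mn (al : Perm H) (e : H ≃ Fin M) (h : H) : IsMn al e (mn al e h) :=
  fun _ hk => bmin_rk_le al e ((sameCycle_mn al e h).trans hk)

theorem rk_mn_le (al : Perm H) (e : H ≃ Fin M) {h k : H} (hk : (sg al e).SameCycle h k) :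
    rk e (mn al e h) ≤ rk e k :=
  bmin_rk_le al e hk

theorem mn_eq {al : Perm H} {e : H ≃ Fin M} {h m : H} (hm : (sg al e).SameCycle h m)
    (h' : ∀ k, (sg al e).SameCycle h k → rk e m ≤ rk e k) : mn al e h = m :=
  amin_eq h (mem_cyc.mpr hm) fun k hk => h' k (mem_cyc.mp hk)

open Classical in
/-- the number of minima with label `i` is the number of cycles with label `i` -/
theorem card_isMn {al : Perm H} {e : H ≃ Fin M} {x : H → L} (hx : ∀ h, x (sg al e h) = x h) (i : L) :
    (Finset.univ.filter (fun m => IsMn al e m ∧ x m = i)).card = prof x (sg al e) i := by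
  unfold prof
  refine Finset.card_nbij (cyc (sg al e)) ?_ ?_ ?_
  · intro m hm
    rw [Finset.mem_coe, Finset.mem_filter] at hm
    rw [Finset.mem_coe]
    refine Finset.mem_image_of_mem _ ?_
    simp only [Finset.mem_filter, Finset.mem_univ, true_and]
    exact hm.2.2
  · intro m hm k hk hmk
    rw [Finset.mem_coe, Finset.mem_filter] at hm hk
    have h : (sg al e).SameCycle m k := cyc_eq_iff.mp hmk
    exact rk_injective e (le_antisymm (hm.2.1 k h) (hk.2.1 m h.symm))
  · intro S hS
    rw [Finset.mem_coe, Finset.mem_image] at hS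
    obtain ⟨h, hh, rfl⟩ := hS
    simp only [Finset.mem_filter, Finset.mem_univ, true_and] at hh
    refine ⟨mn al e h, ?_, cyc_eq_iff.mpr (sameCycle_mn al e h).symm⟩
    rw [Finset.mem_coe, Finset.mem_filter]
    exact ⟨Finset.mem_univ _, isMn_mn al e h,
      (label_const hx (sameCycle_mn al e h)).trans hh⟩

open Classical in
theorem card_isMn_total (al : Perm H) (e : H ≃ Fin M) :
    (Finset.univ.filter (fun m => IsMn al e m)).card = ncyc (sg al e) := by
  unfold ncyc
  refine Finset.card_nbij (cyc (sg al e)) ?_ ?_ ?_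
  · intro m _
    rw [Finset.mem_coe]
    exact Finset.mem_image_of_mem _ (Finset.mem_univ _)
  · intro m hm k hk hmk
    rw [Finset.mem_coe, Finset.mem_filter] at hm hk
    have h : (sg al e).SameCycle m k := cyc_eq_iff.mp hmk
    exact rk_injective e (le_antisymm (hm.2 k h) (hk.2 m h.symm))
  · intro S hS
    rw [Finset.mem_coe, Finset.mem_image] at hS
    obtain ⟨h, _, rfl⟩ := hS
    refine ⟨mn al e h, ?_, cyc_eq_iff.mpr (sameCycle_mn al e h).symm⟩
    rw [Finset.mem_coe, Finset.mem_filter]
    exact ⟨Finset.mem_univ _, isMn_mn al e h⟩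

end HGQ
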