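import Pool.Agent.HGQ.BDefs

/-! # HGQ part B: exchange of two blocks of a tour

PAPER PROOF. With `p = rk e a < q = rk e b < s = rk e c` the tour `e` reads `[0,p) [p,q) [q,s) [s,M)` and
`sw e a b c` reads `[0,p) [q,s) [p,q) [s,M)`. So the successor (cyclically) of the last element before `p` is
`b` instead of `a`; the successor of the last element of the block `[q,s)` is `a` instead of `c`; the
successor of the last element of `[p,q)` is `c` instead of `b`. That is
`gam (sw e a b c) = swap a c * swap a b * gam e` (`a ↦ b`, `b ↦ c`, `c ↦ a` after `gam e`).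
Check by ranks: `rk_gam` and `rk_sw` and `omega`.
-/

namespace HGQ

open Equiv

variable {H : Type*} [Fintype H] [DecidableEq H] {M : ℕ}

theorem rk_gam (e : H ≃ Fin M) (h : H) :
    rk e (gam e h) = if rk e h + 1 = M then 0 else rk e h + 1 := by
  have h0 : rk e (gam e h) = ((finRotate M (e h) : Fin M) : ℕ) := by
    unfold rk gam
    simp
  rw [h0]
  unfold rk
  generalize e h = i
  cases M with
  | zero => exact i.elim0
  | succ m =>
    rw [coe_finRotate]
    by_cases hi : i = Fin.last m
    · subst hi
      simp
    · rw [if_neg hi, if_neg]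
      intro h1
      apply hi
      apply Fin.ext
      rw [Fin.val_last]
      omega

theorem gam_sw {e : H ≃ Fin M} {a b c : H} (h1 : rk e a < rk e b) (h2 : rk e b < rk e c) :
    gam (sw e a b c) = swap a c * swap a b * gam e := by
  have hab : a ≠ b := fun h => by rw [h] at h1; omega
  have hbc : b ≠ c := fun h => by rw [h] at h2; omega
  have hac : a ≠ c := fun h => by rw [h] at h1; omega
  apply Equiv.ext
  intro h
  apply rk_injective (sw e a b c)
  rw [rk_gam, rk_sw h1 h2, rk_sw h1 h2]
  show _ = bsf (rk e a) (rk e b) (rk e c) (rk e (swap a c (swap a b (gam e h))))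
  have hk := rk_gam e h
  have hlt := rk_lt e h
  have hcl := rk_lt e c
  generalize gam e h = k at hk ⊢
  have hinj := rk_injective e
  by_cases hka : k = a
  · subst hka
    rw [swap_apply_left, swap_apply_of_ne_of_ne hab.symm hbc]
    unfold bsf
    split_ifs at hk ⊢ <;> omega
  · by_cases hkb : k = b
    · subst hkb
      rw [swap_apply_right, swap_apply_left]
      unfold bsf
      split_ifs at hk ⊢ <;> omega
    · by_cases hkc : k = c
      · subst hkc
        rw [swap_apply_of_ne_of_ne hac.symm hbc.symm, swap_apply_right]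
        unfold bsf
        split_ifs at hk ⊢ <;> omega
      · rw [swap_apply_of_ne_of_ne hka hkb, swap_apply_of_ne_of_ne hka hkc]
        have n1 : rk e k ≠ rk e a := fun h => hka (hinj h)
        have n2 : rk e k ≠ rk e b := fun h => hkb (hinj h)
        have n3 : rk e k ≠ rk e c := fun h => hkc (hinj h)
        unfold bsf
        split_ifs at hk ⊢ <;> omega

theorem sg_sw (al : Perm H) {e : H ≃ Fin M} {a b c : H} (h1 : rk e a < rk e b)
    (h2 : rk e b < rk e c) :
    sg al (sw e a b c) = swap a c * swap a b * sg al e := by
  unfold sg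
  rw [gam_sw h1 h2, mul_assoc]

/-- exchanging twice -/
theorem sw_sw {e : H ≃ Fin M} {a b c : H} (h1 : rk e a < rk e b) (h2 : rk e b < rk e c) :
    sw (sw e a b c) b a c = e := by
  have e1 : rk (sw e a b c) a = rk e a + (rk e c - rk e b) := by
    rw [rk_sw h1 h2]
    unfold bsf
    split_ifs <;> omega
  have e2 : rk (sw e a b c) b = rk e a := by
    rw [rk_sw h1 h2]
    unfold bsf
    split_ifs <;> omega
  have e3 : rk (sw e a b c) c = rk e c := by
    rw [rk_sw h1 h2]
    unfold bsf
    split_ifs <;> omega
  apply tour_ext
  intro k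
  rw [rk_sw (by rw [e1, e2]; omega) (by rw [e1, e3]; omega), e1, e2, e3, rk_sw h1 h2]
  unfold bsf
  split_ifs <;> omega

end HGQ
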