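import Pool.Agent.HGQ.BProf
import Pool.Agent.HGQ.BMin
import Pool.Agent.HGQ.BTour

/-! # HGQ part B: gluing

PAPER PROOF. Let `t = (e', b :: a :: l, c) ∈ XS (bump v i) i (k+2)`, `σ' = sg al e'`; so `a, b` are minima
of their `σ'`-cycles, `rk e' a < rk e' b < rk e' z` for all `z` in the `σ'`-cycle of `c`
(so `a, b, c` are in three different `σ'`-cycles), `rk e' c ≤ rk e' (σ'⁻¹ c)`.
`e = sw e' a b c`, `σ = sg al e = swap a c * swap a b * σ'` (`sg_sw`), `glue t = (e, l, a)`.
`sameCycle_three`: `σ.SameCycle h k ↔ σ'.SameCycle h k ∨ (h, k both in the σ'-cycles of a, b, c)`.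
Ranks: `P = rk e' a < Q = rk e' b < R = rk e' c`; `rk e b = P`, `rk e a = P + (R-Q)`, `rk e c = R`,
ranks `< P` or `≥ R` unchanged, and all elements of `e'`-rank `≥ P` have `e`-rank `≥ P`.
* `good`, `prof_eq`: as `x a = x b = x c = i`; `prof_three`.
* the `σ`-cycle of `a` consists of the `σ'`-cycles of `a, b, c`, whose elements have `e'`-rank `≥ P`, so
  `e`-rank `≥ P = rk e b`: its minimum is `b`; `a` is not a minimum (`rk e b < rk e a`).
* `down`: with `τ = σ'⁻¹ c`: `σ τ = a`, so `(sg al e)⁻¹ a = τ`, `rk e' τ ≥ R` so `rk e τ = rk e' τ ≥ R > rk e a`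
  (as `P + R - Q < R`).
* `u ∈ l`: `rk e' u < P`, unchanged; its `σ'`-cycle is none of those of `a,b,c` (all their elements have
  `e'`-rank `≥ P > rk e' u`), so it is a `σ`-cycle, and `u` is still its minimum.
  `above`: elements of the `σ`-cycle of `a` have `e`-rank `≥ P > rk e u`.
`slice_glue`: `mn al e a = b` (`mn_eq`). `swap b a * σ = swap b c * σ'` (computation), so by the merge lemma
`(swap b a * σ).SameCycle b z ↔ σ'.SameCycle b z ∨ σ'.SameCycle c z`. `c` is in the set `S` of `cut`, and for `z` in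
these two cycles `rk e' z ≥ Q`; if `rk e' z < R` then `rk e z = rk e' z - (Q - P) < P + (R - Q) = rk e a`, not in
`S`; so `z ∈ S` has `rk e z ≥ R = rk e c`: `cut al e a = c` (`amin_eq`). Finally `sw (sw e' a b c) b a c = e'`.
-/

namespace HGQ

open Equiv

variable {H : Type*} [Fintype H] [DecidableEq H] {L : Type*} [DecidableEq L] {M : ℕ}

/-- a function with equal values at `a` and `b` does not see `swap a b` -/
theorem glue_label_swap {x : H → L} {a b : H} (h : x a = x b) (y : H) : x (swap a b y) = x y := by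
  rw [swap_apply_def]
  split_ifs with h1 h2
  · rw [h1, h]
  · rw [h2, h]
  · rfl

/-- the facts on a triple `a, b, c` that can be glued -/
structure GlueFacts (al : Perm H) (e : H ≃ Fin M) (a b c : H) : Prop where
  h1 : rk e a < rk e b
  h2 : rk e b < rk e c
  ma : IsMn al e a
  mb : IsMn al e b
  ab : ∀ w, (sg al e).SameCycle c w → rk e b < rk e w

namespace GlueFacts

variable {al : Perm H} {e : H ≃ Fin M} {a b c : H}

theorem nab (g : GlueFacts al e a b c) : ¬ (sg al e).SameCycle a b := fun h =>
  absurd (g.mb a h.symm) (by have := g.h1; omega)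

theorem nac (g : GlueFacts al e a b c) : ¬ (sg al e).SameCycle a c := fun h =>
  absurd (g.ab a h.symm) (by have := g.h1; omega)

theorem nbc (g : GlueFacts al e a b c) : ¬ (sg al e).SameCycle b c := fun h =>
  absurd (g.ab b h.symm) (by omega)

theorem sg_eq (g : GlueFacts al e a b c) :
    sg al (sw e a b c) = swap a c * swap a b * sg al e := sg_sw al g.h1 g.h2

theorem iff (g : GlueFacts al e a b c) (h k : H) :
    (sg al (sw e a b c)).SameCycle h k ↔ (sg al e).SameCycle h k ∨
      (((sg al e).SameCycle a h ∨ (sg al e).SameCycle b h ∨ (sg al e).SameCycle c h) ∧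
        ((sg al e).SameCycle a k ∨ (sg al e).SameCycle b k ∨ (sg al e).SameCycle c k)) := by
  rw [g.sg_eq]
  exact sameCycle_three g.nab g.nac g.nbc h k

theorem u_rk (g : GlueFacts al e a b c) {h : H}
    (hh : (sg al e).SameCycle a h ∨ (sg al e).SameCycle b h ∨ (sg al e).SameCycle c h) :
    rk e a ≤ rk e h := by
  have h1 := g.h1
  rcases hh with hh | hh | hh
  · exact g.ma h hh
  · have := g.mb h hh
    omega
  · have := g.ab h hh
    omega

theorem rk_eq (g : GlueFacts al e a b c) (h : H) :
    rk (sw e a b c) h = bsf (rk e a) (rk e b) (rk e c) (rk e h) := rk_sw g.h1 g.h2 h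

theorem rk_b (g : GlueFacts al e a b c) : rk (sw e a b c) b = rk e a := by
  rw [g.rk_eq]
  have h1 := g.h1
  have h2 := g.h2
  unfold bsf
  split_ifs <;> omega

theorem rk_a (g : GlueFacts al e a b c) :
    rk (sw e a b c) a = rk e a + (rk e c - rk e b) := by
  rw [g.rk_eq]
  have h1 := g.h1
  have h2 := g.h2
  unfold bsf
  split_ifs <;> omega

theorem rk_small (g : GlueFacts al e a b c) {h : H} (hh : rk e h < rk e a) :
    rk (sw e a b c) h = rk e h := by
  rw [g.rk_eq]
  unfold bsf
  rw [if_pos hh]

theorem rk_large (g : GlueFacts al e a b c) {h : H} (hh : rk e c ≤ rk e h) :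
    rk (sw e a b c) h = rk e h := by
  rw [g.rk_eq]
  have h1 := g.h1
  have h2 := g.h2
  unfold bsf
  split_ifs <;> omega

theorem rk_ge (g : GlueFacts al e a b c) {h : H} (hh : rk e a ≤ rk e h) :
    rk e a ≤ rk (sw e a b c) h := by
  rw [g.rk_eq]
  have h1 := g.h1
  have h2 := g.h2
  unfold bsf
  split_ifs <;> omega

/-- an element of the new cycle of `a` -/
theorem of_a (g : GlueFacts al e a b c) {h : H} (hh : (sg al (sw e a b c)).SameCycle a h) :
    (sg al e).SameCycle a h ∨ (sg al e).SameCycle b h ∨ (sg al e).SameCycle c h := by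
  rcases (g.iff a h).mp hh with h' | h'
  · exact Or.inl h'
  · exact h'.2

theorem a_b (g : GlueFacts al e a b c) : (sg al (sw e a b c)).SameCycle a b :=
  (g.iff a b).mpr (Or.inr ⟨Or.inl (Perm.SameCycle.refl _ _), Or.inr (Or.inl (Perm.SameCycle.refl _ _))⟩)

theorem ne_ab (g : GlueFacts al e a b c) : a ≠ b := by
  intro h
  have := g.h1
  rw [h] at this
  omega

theorem ne_bc (g : GlueFacts al e a b c) : b ≠ c := by
  intro h
  have := g.h2
  rw [h] at this
  omega

theorem ne_ac (g : GlueFacts al e a b c) : a ≠ c := by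
  intro h
  have := g.h1
  have := g.h2
  rw [h] at *
  omega

theorem mn_a (g : GlueFacts al e a b c) : mn al (sw e a b c) a = b := by
  refine mn_eq g.a_b ?_
  intro k hk
  rw [g.rk_b]
  exact g.rk_ge (g.u_rk (g.of_a hk))

/-- the permutation after the first step of slicing -/
theorem swap_ba (g : GlueFacts al e a b c) :
    swap b a * sg al (sw e a b c) = swap b c * sg al e := by
  rw [g.sg_eq]
  have hab := g.ne_ab
  have hbc := g.ne_bc
  have hac := g.ne_ac
  ext y
  simp only [Perm.mul_apply]
  generalize sg al e y = z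
  by_cases hya : z = a
  · subst hya
    rw [swap_apply_left z b, swap_apply_of_ne_of_ne hab.symm hbc, swap_apply_left,
      swap_apply_of_ne_of_ne hab hac]
  · by_cases hyb : z = b
    · subst hyb
      rw [swap_apply_right a z, swap_apply_left, swap_apply_left,
        swap_apply_of_ne_of_ne hbc.symm hac.symm]
    · by_cases hyc : z = c
      · subst hyc
        rw [swap_apply_of_ne_of_ne hac.symm hbc.symm, swap_apply_right, swap_apply_right,
          swap_apply_right]
      · rw [swap_apply_of_ne_of_ne hya hyb, swap_apply_of_ne_of_ne hya hyc,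
          swap_apply_of_ne_of_ne hyb hya, swap_apply_of_ne_of_ne hyb hyc]

theorem cut_a (g : GlueFacts al e a b c) : cut al (sw e a b c) a = c := by
  classical
  have h1 := g.h1
  have h2 := g.h2
  unfold cut
  rw [g.mn_a, g.swap_ba]
  have key : ∀ z, (swap b c * sg al e).SameCycle b z ↔
      (sg al e).SameCycle b z ∨ (sg al e).SameCycle c z := by
    intro z
    rw [sameCycle_swap_mul g.nbc b z]
    constructor
    · rintro (h | h)
      · exact Or.inl h
      · exact h.2
    · intro h
      exact Or.inr ⟨Or.inl (Perm.SameCycle.refl _ _), h⟩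
  refine amin_eq _ ?_ ?_
  · rw [Finset.mem_filter]
    refine ⟨Finset.mem_univ _, (key c).mpr (Or.inr (Perm.SameCycle.refl _ _)), ?_⟩
    rw [g.rk_a, g.rk_large le_rfl]
    omega
  · intro z hz
    rw [Finset.mem_filter] at hz
    obtain ⟨-, hz1, hz2⟩ := hz
    have hzb : rk e b ≤ rk e z := by
      rcases (key z).mp hz1 with h | h
      · exact g.mb z h
      · exact le_of_lt (g.ab z h)
    rw [g.rk_a, g.rk_eq] at hz2
    rw [g.rk_large le_rfl, g.rk_eq]
    unfold bsf at hz2 ⊢
    split_ifs at hz2 ⊢ <;> omega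

end GlueFacts

/-- from a triple of `XS` with at least two minima to the facts -/
theorem XS.glueFacts {al : Perm H} {x : H → L} {v : L → ℕ} {i : L} {k : ℕ} {e : H ≃ Fin M}
    {a b c : H} {l : List H} (ht : XS al x v i k (e, b :: a :: l, c)) : GlueFacts al e a b c where
  h1 := by
    have h := ht.desc
    simp only [List.pairwise_cons] at h
    exact h.1 a (by simp)
  h2 := ht.above b (by simp) c (Perm.SameCycle.refl _ _)
  ma := (ht.mins a (by simp)).1
  mb := (ht.mins b (by simp)).1
  ab := fun w hw => ht.above b (by simp) w hw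

theorem glue_mem {al : Perm H} {x : H → L} {v : L → ℕ} {i : L} {k : ℕ}
    {t : (H ≃ Fin M) × List H × H} (ht : XS al x (bump v i) i (k + 2) t) :
    AS al x v i k (glue t) := by
  obtain ⟨e, ll, c⟩ := t
  have hlen := ht.len
  obtain _ | ⟨b, _ | ⟨a, l⟩⟩ := ll
  · simp at hlen
  · simp at hlen
  have g := ht.glueFacts
  have hgl : glue (e, b :: a :: l, c) = (sw e a b c, l, a) := rfl
  rw [hgl]
  have hxa : x a = i := (ht.mins a (by simp)).2
  have hxb : x b = i := (ht.mins b (by simp)).2
  have hxc : x c = i := ht.lab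
  have hdesc := ht.desc
  simp only [List.pairwise_cons] at hdesc
  have hla : ∀ u ∈ l, rk e u < rk e a := fun u hu => hdesc.2.1 u hu
  have h1 := g.h1
  have h2 := g.h2
  have hnU : ∀ u ∈ l, ∀ w, (sg al e).SameCycle u w →
      ¬ ((sg al e).SameCycle a w ∨ (sg al e).SameCycle b w ∨ (sg al e).SameCycle c w) := by
    intro u hu w huw h
    have hu' : (sg al e).SameCycle a u ∨ (sg al e).SameCycle b u ∨ (sg al e).SameCycle c u := by
      rcases h with h | h | h
      · exact Or.inl (h.trans huw.symm)
      · exact Or.inr (Or.inl (h.trans huw.symm))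
      · exact Or.inr (Or.inr (h.trans huw.symm))
    have := g.u_rk hu'
    have := hla u hu
    omega
  refine ⟨⟨?_, ?_, ?_, ?_, ?_, hxa, ?_, ?_⟩, ?_⟩
  · intro h
    show x (sg al (sw e a b c) h) = x h
    rw [g.sg_eq, Perm.mul_apply, Perm.mul_apply, glue_label_swap (hxa.trans hxc.symm),
      glue_label_swap (hxa.trans hxb.symm)]
    exact ht.good h
  · intro j
    show prof x (sg al (sw e a b c)) j = v j
    have hp := prof_three g.nab g.nac g.nbc ht.good (by rw [hxa, hxb]) (by rw [hxa, hxc]) j
    rw [← g.sg_eq] at hp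
    have hq := ht.prof_eq j
    simp only at hq hp
    rw [hq, hxa] at hp
    by_cases hj : i = j
    · subst hj
      rw [if_pos rfl, bump, Function.update_self] at hp
      omega
    · rw [if_neg hj, bump, Function.update_of_ne (Ne.symm hj)] at hp
      omega
  · show l.length = k
    simp at hlen
    exact hlen
  · intro u hu
    have hu' : u ∈ b :: a :: l := by simp [hu]
    refine ⟨?_, (ht.mins u hu').2⟩
    intro w hw
    have hw' : (sg al e).SameCycle u w := by
      rcases (g.iff u w).mp hw with h | h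
      · exact h
      · exact absurd h.1 (hnU u hu u (Perm.SameCycle.refl _ _))
    have hm : rk e u ≤ rk e w := (ht.mins u hu').1 w hw'
    show rk (sw e a b c) u ≤ rk (sw e a b c) w
    rw [g.rk_small (hla u hu)]
    by_cases hwa : rk e w < rk e a
    · rw [g.rk_small hwa]
      exact hm
    · have := g.rk_ge (not_lt.mp hwa)
      have := hla u hu
      omega
  · show l.Pairwise (fun u w => rk (sw e a b c) w < rk (sw e a b c) u)
    refine hdesc.2.2.imp_of_mem ?_
    intro u w hu hw h
    rw [g.rk_small (hla u hu), g.rk_small (hla w hw)]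
    exact h
  · show rk (sw e a b c) a ≤ rk (sw e a b c) ((sg al (sw e a b c))⁻¹ a)
    have hinv : (sg al (sw e a b c))⁻¹ a = (sg al e)⁻¹ c := by
      have hc : sg al e ((sg al e)⁻¹ c) = c := (Perm.inv_eq_iff_eq.mp rfl).symm
      rw [Perm.inv_eq_iff_eq, g.sg_eq, Perm.mul_apply, Perm.mul_apply, hc,
        swap_apply_of_ne_of_ne g.ne_ac.symm g.ne_bc.symm, swap_apply_right]
    rw [hinv, g.rk_a]
    have hd : rk e c ≤ rk e ((sg al e)⁻¹ c) := ht.down
    rw [g.rk_large hd]
    omega
  · intro u hu w hw
    show rk (sw e a b c) u < rk (sw e a b c) w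
    rw [g.rk_small (hla u hu)]
    have := g.rk_ge (g.u_rk (g.of_a hw))
    have := hla u hu
    omega
  · intro hm
    have h := hm b g.a_b
    simp only at h
    rw [g.rk_a, g.rk_b] at h
    omega

theorem slice_glue {al : Perm H} {x : H → L} {v : L → ℕ} {i : L} {k : ℕ}
    {t : (H ≃ Fin M) × List H × H} (ht : XS al x v i (k + 2) t) :
    slice al (glue t) = t := by
  obtain ⟨e, ll, c⟩ := t
  have hlen := ht.len
  obtain _ | ⟨b, _ | ⟨a, l⟩⟩ := ll
  · simp at hlen
  · simp at hlen
  have g := ht.glueFacts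
  have hgl : glue (e, b :: a :: l, c) = (sw e a b c, l, a) := rfl
  rw [hgl]
  unfold slice
  simp only
  rw [g.mn_a, g.cut_a, sw_sw g.h1 g.h2]

end HGQ
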