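import Pool.Agent.HGQ.BSlice
import Pool.Agent.HGQ.BGlue
import Pool.Agent.HGQ.BChain

/-! # HGQ part B: the one-step recursion

PAPER PROOF. `slice` and `glue` are inverse bijections between `AS v i k` and `XS (bump v i) i (k+2)`.
The latter is the disjoint union of `AS (bump v i) i (k+2)` and of the triples `(e, l, c)` with `c` a minimum
of its vertex; these correspond (by `(e, l, c) ↦ (e, c :: l)`) to a good tour `e` with profile
`w = bump v i` and a descending list of `k + 3` minima with label `i` (for a minimum `c`, the condition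
`above` says `rk e u < rk e c` for `u ∈ l`; `down` is automatic), and by `card_isMn` and `card_desc` there are
`(w i).choose (k+3)` such lists for every `e`. (All these sets are finite: lists of given length.)
-/

namespace HGQ

open Equiv

variable {H : Type*} [Fintype H] [DecidableEq H] {L : Type*} [DecidableEq L]

omit [DecidableEq L] in
theorem finite_XS (M : ℕ) (al : Perm H) (x : H → L) (v : L → ℕ) (i : L) (k : ℕ) :
    Finite {t : (H ≃ Fin M) × List H × H // XS al x v i k t} := by
  have hf : Finite {l : List H // l.length = k} := (List.finite_length_eq H k).to_subtype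
  refine Finite.of_injective
    (β := (H ≃ Fin M) × {l : List H // l.length = k} × H)
    (fun t => (t.1.1, ⟨t.1.2.1, t.2.len⟩, t.1.2.2)) ?_
  rintro ⟨⟨e, l, c⟩, h⟩ ⟨⟨e', l', c'⟩, h'⟩ heq
  simp only [Prod.mk.injEq, Subtype.mk.injEq] at heq
  obtain ⟨rfl, rfl, rfl⟩ := heq
  rfl

/-- slicing and gluing -/
theorem bcount_slice (M : ℕ) (al : Perm H) (x : H → L) (v : L → ℕ) (i : L) (k : ℕ) :
    acount M al x v i k =
      Nat.card {t : (H ≃ Fin M) × List H × H // XS al x (bump v i) i (k + 2) t} := by
  unfold acount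
  refine Nat.card_congr
    { toFun := fun t => ⟨slice al t.1, slice_mem t.2⟩
      invFun := fun t => ⟨glue t.1, glue_mem t.2⟩
      left_inv := fun t => Subtype.ext (glue_slice t.2)
      right_inv := fun t => Subtype.ext (slice_glue t.2) }

open Classical in
omit [DecidableEq L] in
/-- the triples whose third entry is a minimum -/
theorem bcount_min (M : ℕ) (al : Perm H) (x : H → L) (w : L → ℕ) (i : L) (k : ℕ) :
    Nat.card {t : (H ≃ Fin M) × List H × H // XS al x w i k t ∧ IsMn al t.1 t.2.2} =
      (w i).choose (k + 1) * tcount M al x w := by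
  let T := {e : H ≃ Fin M // (∀ h, x (sg al e h) = x h) ∧ ∀ j, prof x (sg al e) j = w j}
  let S : (H ≃ Fin M) → Finset H := fun e => Finset.univ.filter (fun m => IsMn al e m ∧ x m = i)
  let D : (H ≃ Fin M) → Type _ := fun e => {l : List H // l.length = k + 1 ∧ (∀ u ∈ l, u ∈ S e) ∧
      l.Pairwise (fun u w => rk e w < rk e u)}
  have hD : ∀ e : T, Nat.card (D e.1) = (w i).choose (k + 1) := by
    intro e
    rw [show Nat.card (D e.1) = (S e.1).card.choose (k + 1) from
      card_desc (rk e.1) (rk_injective e.1) (S e.1) (k + 1)]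
    congr 1
    rw [← e.2.2 i]
    convert card_isMn e.2.1 i using 2
  have hfin : ∀ e : T, Finite (D e.1) := by
    intro e
    have hf : Finite {l : List H // l.length = k + 1} := (List.finite_length_eq H (k + 1)).to_subtype
    exact Finite.of_injective (β := {l : List H // l.length = k + 1}) (fun l => ⟨l.1, l.2.1⟩)
      (fun a b h => Subtype.ext (by simpa using h))
  have hfT : Fintype T := Fintype.ofFinite T
  have h1 : Nat.card (Σ e : T, D e.1) = (w i).choose (k + 1) * tcount M al x w := by
    rw [Nat.card_sigma]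
    rw [Finset.sum_congr rfl (fun e _ => hD e), Finset.sum_const, smul_eq_mul, mul_comm,
      Finset.card_univ]
    unfold tcount
    rw [Nat.card_eq_fintype_card]
  rw [← h1]
  refine Nat.card_congr (Equiv.ofBijective (fun t => ⟨⟨t.1.1, t.2.1.good, t.2.1.prof_eq⟩,
    ⟨t.1.2.2 :: t.1.2.1, ?_, ?_, ?_⟩⟩) ⟨?_, ?_⟩)
  · simp [t.2.1.len]
  · intro u hu
    rcases List.mem_cons.1 hu with rfl | hu
    · exact Finset.mem_filter.2 ⟨Finset.mem_univ _, t.2.2, t.2.1.lab⟩
    · exact Finset.mem_filter.2 ⟨Finset.mem_univ _, t.2.1.mins u hu⟩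
  · refine List.pairwise_cons.2 ⟨?_, t.2.1.desc⟩
    intro u hu
    exact t.2.1.above u hu _ (Perm.SameCycle.refl _ _)
  · rintro ⟨⟨e, l, c⟩, h, hm⟩ ⟨⟨e', l', c'⟩, h', hm'⟩ heq
    have := congrArg (fun s : (Σ e : T, D e.1) => (s.1.1, s.2.1)) heq
    simp only [Prod.mk.injEq, List.cons.injEq] at this
    obtain ⟨rfl, rfl, rfl⟩ := this
    rfl
  · rintro ⟨⟨e, h1, h2⟩, ⟨l, hl, hmem, hdesc⟩⟩
    obtain _ | ⟨c, l⟩ := l
    · simp at hl
    rw [List.pairwise_cons] at hdesc
    have hc := (Finset.mem_filter.1 (hmem c (by simp))).2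
    have hm : ∀ u ∈ l, IsMn al e u ∧ x u = i := fun u hu =>
      (Finset.mem_filter.1 (hmem u (by simp [hu]))).2
    refine ⟨⟨(e, l, c), ⟨h1, h2, by simpa using hl, hm, hdesc.2, hc.2, ?_, ?_⟩, hc.1⟩, rfl⟩
    · exact hc.1 _ ((Perm.sameCycle_symm_apply_right.2 (Perm.SameCycle.refl _ _)))
    · intro u hu y hy
      exact lt_of_lt_of_le (hdesc.1 u hu) (hc.1 y hy)

theorem acount_rec (M : ℕ) (al : Perm H) (x : H → L) (v : L → ℕ) (i : L) (k : ℕ) :
    acount M al x v i k =
      acount M al x (bump v i) i (k + 2) +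
        (bump v i i).choose (k + 3) * tcount M al x (bump v i) := by
  classical
  rw [bcount_slice, ← bcount_min]
  have hf := finite_XS M al x (bump v i) i (k + 2)
  unfold acount AS
  have e1 := Nat.card_congr (Equiv.sumCompl
    (fun t : {t : (H ≃ Fin M) × List H × H // XS al x (bump v i) i (k + 2) t} =>
      IsMn al t.1.1 t.1.2.2))
  rw [← e1, Nat.card_sum, add_comm]
  congr 1
  · exact Nat.card_congr (Equiv.subtypeSubtypeEquivSubtypeInter
      (fun t : (H ≃ Fin M) × List H × H => XS al x (bump v i) i (k + 2) t)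
      (fun t => ¬ IsMn al t.1 t.2.2))
  · exact Nat.card_congr (Equiv.subtypeSubtypeEquivSubtypeInter
      (fun t : (H ≃ Fin M) × List H × H => XS al x (bump v i) i (k + 2) t)
      (fun t => IsMn al t.1 t.2.2))

end HGQ
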