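import Pool.Agent.HGQ.BDefs

/-! # HGQ part B: cycles of `swap a b * σ`

PAPER PROOF. `sameCycle_swap_mul` (merge): put `τ = swap a b * σ`, `a`, `b` in different cycles of `σ`.
(⇒) the relation `R h k` on the right-hand side is an equivalence relation and `R h (τ h)` for every `h`
(`τ h = σ h` unless `σ h = a` (then `τ h = b`) or `σ h = b` (then `τ h = a`)).
(⇐) first `τ.SameCycle a b`: as the `σ`-cycle of `a` does not contain `b`, `τ` agrees with `σ` along
`a, σ a, …, σ⁻¹ a` (none of `σ a, σ² a, …` before the first return is `a` or `b`), so `a` and `σ⁻¹ a` are in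
the same `τ`-cycle, and `τ (σ⁻¹ a) = b`. Then `τ.SameCycle h (σ h)` for every `h` (if `σ h = a` then `τ h = b`
and `τ.SameCycle a b`; same for `b`), so `σ.SameCycle ⊆ τ.SameCycle`.

`not_sameCycle_swap_mul` (split): `a ≠ b` in the same cycle of `σ`; if `a`, `b` were in the same cycle of
`τ = swap a b * σ`, hmm: apply instead a direct argument: let `m > 0` be least with `σ^m a = b`
(`m` less than the length `l` of the cycle of `a`). Then `τ` maps `a → σ a → … → σ^(m-1) a → a`
(`σ (σ^(m-1) a) = b ↦ a`), a set `{σ^j a : 0 ≤ j < m}` which is `τ`-invariant, contains `a` and not `b`.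
-/

namespace HGQ

open Equiv

variable {H : Type*} [Fintype H] [DecidableEq H]

theorem mem_cyc {σ : Perm H} {h k : H} : k ∈ cyc σ h ↔ σ.SameCycle h k := by
  simp [cyc]

theorem cyc_eq_iff {σ : Perm H} {h k : H} : cyc σ h = cyc σ k ↔ σ.SameCycle h k := by
  constructor
  · intro e
    have : k ∈ cyc σ h := by rw [e, mem_cyc]
    exact mem_cyc.mp this
  · intro e
    ext z
    rw [mem_cyc, mem_cyc]
    exact ⟨fun hz => e.symm.trans hz, fun hz => e.trans hz⟩

private theorem bcyc_induct {σ : Perm H} {P : H → Prop} {h : H} (h0 : P h)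
    (hs : ∀ k, P k → P (σ k)) {k : H} (hk : σ.SameCycle h k) : P k := by
  obtain ⟨i, rfl⟩ := hk.exists_nat_pow_eq
  induction i with
  | zero => simpa using h0
  | succ i ih =>
    rw [pow_succ', Perm.mul_apply]
    exact hs _ (ih (Perm.SameCycle.refl σ h |>.trans ⟨(i : ℤ), by simp⟩))

/-- labels are constant on cycles -/
theorem label_const {L : Type*} {x : H → L} {σ : Perm H} (hx : ∀ h, x (σ h) = x h) {h k : H}
    (hk : σ.SameCycle h k) : x k = x h :=
  bcyc_induct (P := fun k => x k = x h) rfl (fun k hk => (hx k).trans hk) hk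

theorem sameCycle_swap_mul {σ : Perm H} {a b : H} (hab : ¬ σ.SameCycle a b) (h k : H) :
    (swap a b * σ).SameCycle h k ↔ σ.SameCycle h k ∨
      ((σ.SameCycle a h ∨ σ.SameCycle b h) ∧ (σ.SameCycle a k ∨ σ.SameCycle b k)) := by
  constructor
  · intro hk
    refine bcyc_induct (σ := swap a b * σ) (P := fun k => σ.SameCycle h k ∨
      ((σ.SameCycle a h ∨ σ.SameCycle b h) ∧ (σ.SameCycle a k ∨ σ.SameCycle b k)))
      (Or.inl (Perm.SameCycle.refl σ h)) ?_ hk
    intro k hk
    rw [Perm.mul_apply]
    by_cases ha : σ k = a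
    · rw [ha, swap_apply_left]
      refine Or.inr ⟨?_, Or.inr (Perm.SameCycle.refl σ b)⟩
      rcases hk with hk | hk
      · left
        have := Perm.sameCycle_apply_right.mpr hk
        rw [ha] at this
        exact this.symm
      · exact hk.1
    · by_cases hb : σ k = b
      · rw [hb, swap_apply_right]
        refine Or.inr ⟨?_, Or.inl (Perm.SameCycle.refl σ a)⟩
        rcases hk with hk | hk
        · right
          have := Perm.sameCycle_apply_right.mpr hk
          rw [hb] at this
          exact this.symm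
        · exact hk.1
      · rw [swap_apply_of_ne_of_ne ha hb]
        simpa only [Perm.sameCycle_apply_right] using hk
  · -- `a` and `b` are in the same cycle of `τ`
    have key : (swap a b * σ).SameCycle a b := by
      have hex : ∃ l : ℕ, 0 < l ∧ (σ ^ l) a = a := by
        obtain ⟨i, hi, -, hia⟩ := (Perm.SameCycle.refl σ a).exists_pow_eq''
        exact ⟨i, hi, hia⟩
      classical
      obtain ⟨hl0, hla⟩ := Nat.find_spec hex
      have hmin : ∀ j : ℕ, 0 < j → j < Nat.find hex → (σ ^ j) a ≠ a := by
        intro j hj0 hj hja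
        exact Nat.find_min hex hj ⟨hj0, hja⟩
      have hagree : ∀ j : ℕ, j < Nat.find hex → ((swap a b * σ) ^ j) a = (σ ^ j) a := by
        intro j
        induction j with
        | zero => intro _; simp
        | succ j ih =>
          intro hj
          rw [pow_succ', Perm.mul_apply, ih (by omega), Perm.mul_apply, ← Perm.mul_apply σ,
            ← pow_succ']
          refine swap_apply_of_ne_of_ne (hmin _ (by omega) hj) ?_
          intro hb
          exact hab ⟨((j + 1 : ℕ) : ℤ), by rw [zpow_natCast]; exact hb⟩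
      obtain ⟨m, hm⟩ : ∃ m, Nat.find hex = m + 1 := ⟨Nat.find hex - 1, by omega⟩
      refine ⟨((m + 1 : ℕ) : ℤ), ?_⟩
      rw [zpow_natCast, pow_succ', Perm.mul_apply, hagree m (by omega), Perm.mul_apply,
        ← Perm.mul_apply σ, ← pow_succ', ← hm, hla, swap_apply_left]
    have hstep : ∀ h, (swap a b * σ).SameCycle h (σ h) := by
      intro h
      have h1 : (swap a b * σ).SameCycle h ((swap a b * σ) h) :=
        Perm.sameCycle_apply_right.mpr (Perm.SameCycle.refl _ h)
      rw [Perm.mul_apply] at h1
      by_cases ha : σ h = a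
      · rw [ha, swap_apply_left] at h1
        rw [ha]
        exact h1.trans key.symm
      · by_cases hb : σ h = b
        · rw [hb, swap_apply_right] at h1
          rw [hb]
          exact h1.trans key
        · rwa [swap_apply_of_ne_of_ne ha hb] at h1
    have hall : ∀ h k, σ.SameCycle h k → (swap a b * σ).SameCycle h k := by
      intro h k hk
      exact bcyc_induct (P := fun k => (swap a b * σ).SameCycle h k)
        (Perm.SameCycle.refl _ h) (fun k hk => hk.trans (hstep k)) hk
    have hto : ∀ z, σ.SameCycle a z ∨ σ.SameCycle b z → (swap a b * σ).SameCycle a z := by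
      rintro z (hz | hz)
      · exact hall _ _ hz
      · exact key.trans (hall _ _ hz)
    rintro (hk | ⟨hh, hk⟩)
    · exact hall _ _ hk
    · exact (hto h hh).symm.trans (hto k hk)

theorem not_sameCycle_swap_mul {σ : Perm H} {a b : H} (hab : σ.SameCycle a b) (hne : a ≠ b) :
    ¬ (swap a b * σ).SameCycle a b := by
  intro hτ
  have hex : ∃ m : ℕ, (σ ^ m) a = b := hab.exists_nat_pow_eq
  classical
  have hfb := Nat.find_spec hex
  have hmin : ∀ j : ℕ, j < Nat.find hex → (σ ^ j) a ≠ b := fun j hj => Nat.find_min hex hj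
  have hpos : 0 < Nat.find hex := by
    rcases Nat.eq_zero_or_pos (Nat.find hex) with h0 | h0
    · rw [h0] at hfb
      exact absurd (by simpa using hfb) hne
    · exact h0
  have hmina : ∀ j : ℕ, 0 < j → j < Nat.find hex → (σ ^ j) a ≠ a := by
    intro j hj0 hj hja
    refine hmin (Nat.find hex - j) (by omega) ?_
    have h1 : (σ ^ (Nat.find hex)) a = (σ ^ (Nat.find hex - j)) ((σ ^ j) a) := by
      rw [← Perm.mul_apply, ← pow_add]
      congr 2
      omega
    rw [hja] at h1
    rw [← h1]
    exact hfb
  obtain ⟨j, hj, hjb⟩ := bcyc_induct (σ := swap a b * σ)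
    (P := fun z => ∃ j, j < Nat.find hex ∧ (σ ^ j) a = z) ⟨0, hpos, by simp⟩ (by
      rintro z ⟨j, hj, rfl⟩
      rw [Perm.mul_apply, ← Perm.mul_apply σ, ← pow_succ']
      by_cases hj1 : j + 1 < Nat.find hex
      · rw [swap_apply_of_ne_of_ne (hmina _ (by omega) hj1) (hmin _ hj1)]
        exact ⟨j + 1, hj1, rfl⟩
      · have hj2 : j + 1 = Nat.find hex := by omega
        rw [hj2, hfb, swap_apply_right]
        exact ⟨0, hpos, by simp⟩) hτ
  exact hmin j hj hjb

end HGQ
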