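import Pool.Agent.HGQ.BCyc

/-! # HGQ part B: cycles of `swap a c * swap a b * σ` (three merged / one sliced)

PAPER PROOF. `sameCycle_three`: apply `sameCycle_swap_mul` to `σ` and `(a,b)`, then to `swap a b * σ` and
`(a,c)` (by the first step `a`, `c` are not in the same cycle of `swap a b * σ`).

`slice_cycles`: `σ1 := swap p q * σ`, `σ' := swap p s * σ1`. By `not_sameCycle_swap_mul`, `p, q` are in
different cycles of `σ1` and `p, s` in different cycles of `σ'`. As `σ1 = swap p s * σ'`, the merge lemma
gives `σ1.SameCycle h k ↔ σ'.SameCycle h k ∨ …`; so `σ'.SameCycle p q` would give `σ1.SameCycle p q`, and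
`σ'.SameCycle q s` would give `σ1.SameCycle q s`, hence `σ1.SameCycle p q`. The identity
`swap q s * swap q p * (swap p s * swap p q * σ) = σ` is a computation with three distinct points.
-/

namespace HGQ

open Equiv

variable {H : Type*} [Fintype H] [DecidableEq H]

theorem sameCycle_three {σ : Perm H} {a b c : H} (hab : ¬ σ.SameCycle a b)
    (hac : ¬ σ.SameCycle a c) (hbc : ¬ σ.SameCycle b c) (h k : H) :
    (swap a c * swap a b * σ).SameCycle h k ↔ σ.SameCycle h k ∨
      ((σ.SameCycle a h ∨ σ.SameCycle b h ∨ σ.SameCycle c h) ∧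
        (σ.SameCycle a k ∨ σ.SameCycle b k ∨ σ.SameCycle c k)) := by
  have hca : ¬ σ.SameCycle c a := fun e => hac e.symm
  have hba : ¬ σ.SameCycle b a := fun e => hab e.symm
  have haa : σ.SameCycle a a := Equiv.Perm.SameCycle.refl σ a
  have h1 := sameCycle_swap_mul hab
  have hac1 : ¬ (swap a b * σ).SameCycle a c := by
    rw [h1 a c]
    tauto
  have ha : ∀ x, (swap a b * σ).SameCycle a x ↔ σ.SameCycle a x ∨ σ.SameCycle b x := by
    intro x
    rw [h1 a x]
    tauto
  have hbc' : ¬ σ.SameCycle a c := hac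
  have hc : ∀ x, (swap a b * σ).SameCycle c x ↔ σ.SameCycle c x := by
    intro x
    rw [h1 c x]
    tauto
  rw [mul_assoc, sameCycle_swap_mul hac1 h k, ha h, ha k, hc h, hc k, h1 h k]
  tauto

theorem slice_perm {σ : Perm H} {p q s : H} (hpq : p ≠ q) (hps : p ≠ s) (hqs : q ≠ s) :
    swap q s * swap q p * (swap p s * swap p q * σ) = σ := by
  have h : swap q s * swap q p * (swap p s * swap p q) = (1 : Perm H) := by
    ext x
    simp only [Perm.mul_apply, Perm.one_apply]
    by_cases h1 : x = p
    · subst h1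
      rw [swap_apply_left, swap_apply_of_ne_of_ne (Ne.symm hpq) hqs, swap_apply_left,
        swap_apply_of_ne_of_ne hpq hps]
    · by_cases h2 : x = q
      · subst h2
        rw [swap_apply_right, swap_apply_left, swap_apply_of_ne_of_ne (Ne.symm hqs) (Ne.symm hps),
          swap_apply_right]
      · by_cases h3 : x = s
        · subst h3
          rw [swap_apply_of_ne_of_ne h1 h2, swap_apply_right, swap_apply_right, swap_apply_left]
        · rw [swap_apply_of_ne_of_ne h1 h2, swap_apply_of_ne_of_ne h1 h3,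
            swap_apply_of_ne_of_ne h2 h1, swap_apply_of_ne_of_ne h2 h3]
  rw [mul_assoc (swap p s), ← mul_assoc, ← mul_assoc, mul_assoc (swap q s * swap q p), h, one_mul]

theorem slice_cycles {σ : Perm H} {p q s : H} (hpq : σ.SameCycle p q) (hne : p ≠ q)
    (hs : (swap p q * σ).SameCycle p s) (hsp : s ≠ p) :
    ¬ (swap p s * swap p q * σ).SameCycle p q ∧ ¬ (swap p s * swap p q * σ).SameCycle p s ∧
    ¬ (swap p s * swap p q * σ).SameCycle q s ∧
    ∀ h, (swap p q * σ).SameCycle p h ↔
      ((swap p s * swap p q * σ).SameCycle p h ∨ (swap p s * swap p q * σ).SameCycle s h) := by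
  have h1 : ¬ (swap p q * σ).SameCycle p q := not_sameCycle_swap_mul hpq hne
  have h2 : ¬ (swap p s * (swap p q * σ)).SameCycle p s := not_sameCycle_swap_mul hs (Ne.symm hsp)
  have e : swap p s * (swap p s * (swap p q * σ)) = swap p q * σ := by
    rw [← mul_assoc, swap_mul_self, one_mul]
  have h3 := sameCycle_swap_mul h2
  rw [e] at h3
  rw [mul_assoc (swap p s)]
  refine ⟨fun h => h1 ((h3 p q).2 (Or.inl h)), h2, fun h => ?_, fun h => ?_⟩
  · exact h1 (hs.trans ((h3 q s).2 (Or.inl h)).symm)
  · rw [h3 p h]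
    have h4 := Equiv.Perm.SameCycle.refl (swap p s * (swap p q * σ)) p
    tauto

end HGQ
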