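import Mathlib

/-! # MP_a7ce40_pr (HGQ), part B: definitions for the trisection bijection with labels

`H` is the finite set of half-edges (corners), `al` a fixed-point-free involution of `H`
(edges), `M = card H = 2 n`.  A *tour* is a bijection `e : H ≃ Fin M` (rank of the half-edges in
the tour of the unique face, starting at the root); its face permutation `gam e` is
`h ↦ e.symm (e h + 1)` (cyclically) and its vertex permutation is `sg al e = gam e * al`.
Labels are `x : H → L`, constant on the cycles of `sg al e` (good tours).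

* `cyc σ h` = cycle of `σ` through `h`; `ncyc σ` = number of cycles; `prof x σ i` = number of
  cycles with label `i`.
* `IsMn al e m` = `m` has the smallest rank in its `sg al e`-cycle; `mn al e h` = smallest element of
  the cycle of `h`.
* `sw e a b c` (for `rk e a < rk e b < rk e c`) = the tour in which the blocks `[a,b)` and `[b,c)`
  of the tour `e` are exchanged.
* `slice`, `glue` = Chapuy's slicing and gluing (the trisection is recorded by `c = σ(τ)`).
-/

namespace HGQ

open Equiv

noncomputable section

variable {H : Type*} [Fintype H] [DecidableEq H]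

open Classical in
/-- The cycle of `σ` containing `h`, as a finset. -/
def cyc (σ : Perm H) (h : H) : Finset H := Finset.univ.filter (fun k => σ.SameCycle h k)

open Classical in
/-- number of cycles of `σ` (fixed points included) -/
def ncyc (σ : Perm H) : ℕ := (Finset.univ.image (cyc σ)).card

open Classical in
/-- number of cycles of `σ` with label `i` -/
def prof {L : Type*} (x : H → L) (σ : Perm H) (i : L) : ℕ :=
  ((Finset.univ.filter (fun h => x h = i)).image (cyc σ)).card

variable {M : ℕ}

/-- face permutation of a tour: next half-edge -/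
def gam (e : H ≃ Fin M) : Perm H := (e.trans (finRotate M)).trans e.symm

/-- vertex permutation of a tour -/
def sg (al : Perm H) (e : H ≃ Fin M) : Perm H := gam e * al

/-- rank of a half-edge -/
def rk (e : H ≃ Fin M) (h : H) : ℕ := (e h : ℕ)

/-- `m` is the minimum of its vertex -/
def IsMn (al : Perm H) (e : H ≃ Fin M) (m : H) : Prop :=
  ∀ k, (sg al e).SameCycle m k → rk e m ≤ rk e k

open Classical in
/-- element of smallest rank of `S` (`d` if `S` is empty) -/
def amin (e : H ≃ Fin M) (S : Finset H) (d : H) : H :=
  if h : S.Nonempty then (S.exists_min_image (rk e) h).choose else d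

/-- the minimum of the vertex of `h` -/
def mn (al : Perm H) (e : H ≃ Fin M) (h : H) : H := amin e (cyc (sg al e) h) h

/-- block exchange on ranks: `[p,q)` and `[q,s)` are exchanged -/
def bsf (p q s j : ℕ) : ℕ :=
  if j < p then j else if j < q then j + (s - q) else if j < s then j - (q - p) else j

theorem bsf_bsf {p q s : ℕ} (h1 : p < q) (h2 : q < s) (j : ℕ) :
    bsf p (p + s - q) s (bsf p q s j) = j := by
  unfold bsf; split_ifs <;> omega

theorem bsf_bsf' {p q s : ℕ} (h1 : p < q) (h2 : q < s) (j : ℕ) :
    bsf p q s (bsf p (p + s - q) s j) = j := by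
  unfold bsf; split_ifs <;> omega

theorem bsf_lt {p q s M j : ℕ} (h1 : p < q) (h2 : q < s) (h3 : s < M) (hj : j < M) :
    bsf p q s j < M := by
  unfold bsf; split_ifs <;> omega

/-- The tour with the blocks `[a,b)` and `[b,c)` exchanged (`e` itself if not `a < b < c`). -/
def sw (e : H ≃ Fin M) (a b c : H) : H ≃ Fin M :=
  if h : rk e a < rk e b ∧ rk e b < rk e c then
    e.trans
      { toFun := fun j => ⟨bsf (rk e a) (rk e b) (rk e c) j, bsf_lt h.1 h.2 (e c).2 j.2⟩
        invFun := fun j => ⟨bsf (rk e a) (rk e a + rk e c - rk e b) (rk e c) j,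
          bsf_lt (by have := h.2; omega) (by have := h.1; have := h.2; omega) (e c).2 j.2⟩
        left_inv := fun j => Fin.ext (bsf_bsf h.1 h.2 _)
        right_inv := fun j => Fin.ext (bsf_bsf' h.1 h.2 _) }
  else e

theorem rk_sw {e : H ≃ Fin M} {a b c : H} (h1 : rk e a < rk e b) (h2 : rk e b < rk e c) (h : H) :
    rk (sw e a b c) h = bsf (rk e a) (rk e b) (rk e c) (rk e h) := by
  unfold sw
  rw [dif_pos ⟨h1, h2⟩]
  rfl

theorem rk_injective (e : H ≃ Fin M) : Function.Injective (rk e) := fun a b h =>
  e.injective (Fin.ext h)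

theorem rk_lt (e : H ≃ Fin M) (h : H) : rk e h < M := (e h).2

theorem tour_ext {e e' : H ≃ Fin M} (h : ∀ k, rk e k = rk e' k) : e = e' :=
  Equiv.ext fun k => Fin.ext (h k)

/-- raise the multiplicity of `i` by `2` -/
def bump {L : Type*} [DecidableEq L] (v : L → ℕ) (i : L) : L → ℕ := Function.update v i (v i + 2)

variable {L : Type*} [DecidableEq L]

/-- The set of triples `(e, l, c)`: `e` a good tour with profile `v`; `l` a strictly descending list
of `k` vertex minima with label `i`; `c` a half-edge with label `i` with `c ≤ σ⁻¹ c` (so that `c` is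
either the minimum of its vertex or `σ τ` for a trisection `τ`) all of whose vertex is above `l`. -/
structure XS (al : Perm H) (x : H → L) (v : L → ℕ) (i : L) (k : ℕ)
    (t : (H ≃ Fin M) × List H × H) : Prop where
  good : ∀ h, x (sg al t.1 h) = x h
  prof_eq : ∀ j, prof x (sg al t.1) j = v j
  len : t.2.1.length = k
  mins : ∀ u ∈ t.2.1, IsMn al t.1 u ∧ x u = i
  desc : t.2.1.Pairwise (fun u w => rk t.1 w < rk t.1 u)
  lab : x t.2.2 = i
  down : rk t.1 t.2.2 ≤ rk t.1 ((sg al t.1)⁻¹ t.2.2)
  above : ∀ u ∈ t.2.1, ∀ w, (sg al t.1).SameCycle t.2.2 w → rk t.1 u < rk t.1 w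

/-- The triples of `XS` where `c` is not the minimum of its vertex (`c = σ τ`, `τ` a trisection). -/
def AS (al : Perm H) (x : H → L) (v : L → ℕ) (i : L) (k : ℕ) (t : (H ≃ Fin M) × List H × H) : Prop :=
  XS al x v i k t ∧ ¬ IsMn al t.1 t.2.2

open Classical in
/-- the half-edge `s` at which the vertex of `q` is sliced (`p` is the minimum of the vertex) -/
def cut (al : Perm H) (e : H ≃ Fin M) (q : H) : H :=
  amin e (Finset.univ.filter
    (fun z => (swap (mn al e q) q * sg al e).SameCycle (mn al e q) z ∧ rk e q < rk e z)) q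

/-- slicing -/
def slice (al : Perm H) (t : (H ≃ Fin M) × List H × H) : (H ≃ Fin M) × List H × H :=
  (sw t.1 (mn al t.1 t.2.2) t.2.2 (cut al t.1 t.2.2),
    mn al t.1 t.2.2 :: t.2.2 :: t.2.1, cut al t.1 t.2.2)

/-- gluing -/
def glue (t : (H ≃ Fin M) × List H × H) : (H ≃ Fin M) × List H × H :=
  match t.2.1 with
  | b :: a :: l => (sw t.1 a b t.2.2, l, a)
  | _ => t

/-- number of good tours with profile `v` -/
def tcount (M : ℕ) (al : Perm H) (x : H → L) (v : L → ℕ) : ℕ :=
  Nat.card {e : H ≃ Fin M // (∀ h, x (sg al e h) = x h) ∧ ∀ j, prof x (sg al e) j = v j}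

/-- number of elements of `AS` -/
def acount (M : ℕ) (al : Perm H) (x : H → L) (v : L → ℕ) (i : L) (k : ℕ) : ℕ :=
  Nat.card {t : (H ≃ Fin M) × List H × H // AS al x v i k t}

/-- `al` is a fixed-point-free involution -/
structure IsEdges (al : Perm H) : Prop where
  inv : ∀ h, al (al h) = h
  ne : ∀ h, al h ≠ h

end

end HGQ
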