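import Pool.Agent.HGQ.BTour

/-! # HGQ part B: there are `n + 1` half-edges `c` with `c ≤ σ⁻¹ c`

PAPER PROOF. Put `i = (gam e)⁻¹ c`; then `(sg al e)⁻¹ c = al i` and `c = gam e i`. If `i` is the last element
(`rk e i = M - 1`) then `rk e c = 0` and the inequality holds. Otherwise `rk e c = rk e i + 1`, and the
inequality says `rk e i < rk e (al i)`; this fails for the last element. As `al` is a fixed-point-free
involution of a set of `2 n` elements, exactly `n` elements `i` satisfy `rk e i < rk e (al i)`.
-/

namespace HGQ

open Equiv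

variable {H : Type*} [Fintype H] [DecidableEq H] {M : ℕ}

open Classical in
private theorem bdown_half {al : Perm H} (hal : IsEdges al) {n : ℕ} (hM : M = 2 * n)
    (e : H ≃ Fin M) : (Finset.univ.filter (fun i => rk e i < rk e (al i))).card = n := by
  have h1 : (Finset.univ.filter (fun i => rk e i < rk e (al i))).card =
      (Finset.univ.filter (fun i => ¬ rk e i < rk e (al i))).card := by
    refine Finset.card_bij (fun i _ => al i) ?_ ?_ ?_
    · intro i hi
      rw [Finset.mem_filter] at hi ⊢
      refine ⟨Finset.mem_univ _, ?_⟩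
      rw [hal.inv]
      exact not_lt.2 hi.2.le
    · intro i _ j _ h
      exact al.injective h
    · intro j hj
      rw [Finset.mem_filter] at hj
      refine ⟨al j, ?_, hal.inv j⟩
      rw [Finset.mem_filter]
      refine ⟨Finset.mem_univ _, ?_⟩
      rw [hal.inv]
      refine lt_of_le_of_ne (not_lt.1 hj.2) fun h => ?_
      exact hal.ne j (rk_injective e h)
  have h2 : (Finset.univ.filter (fun i => rk e i < rk e (al i))).card +
      (Finset.univ.filter (fun i => ¬ rk e i < rk e (al i))).card = M := by
    rw [Finset.card_filter_add_card_filter_not, Finset.card_univ, Fintype.card_congr e,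
      Fintype.card_fin]
  omega

open Classical in
theorem card_down {al : Perm H} (hal : IsEdges al) {n : ℕ} (hn : 0 < n) (hM : M = 2 * n)
    (e : H ≃ Fin M) :
    (Finset.univ.filter (fun c => rk e c ≤ rk e ((sg al e)⁻¹ c))).card = n + 1 := by
  have hM0 : 0 < M := by omega
  -- the last element
  set i0 : H := e.symm ⟨M - 1, by omega⟩ with hi0
  have hr0 : rk e i0 = M - 1 := by
    rw [hi0, rk, Equiv.apply_symm_apply]
  have hlast : ∀ i, rk e i + 1 = M ↔ i = i0 := by
    intro i
    constructor
    · intro h
      refine rk_injective e ?_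
      rw [hr0]
      omega
    · rintro rfl
      rw [hr0]
      omega
  have hinv : ∀ c, (sg al e)⁻¹ c = al ((gam e)⁻¹ c) := by
    intro c
    unfold sg
    rw [mul_inv_rev, Perm.mul_apply]
    rw [Perm.inv_eq_iff_eq, hal.inv]
  have h1 : (Finset.univ.filter (fun c => rk e c ≤ rk e ((sg al e)⁻¹ c))).card =
      (Finset.univ.filter (fun i => rk e (gam e i) ≤ rk e (al i))).card := by
    refine Finset.card_bij (fun c _ => (gam e)⁻¹ c) ?_ ?_ ?_
    · intro c hc
      rw [Finset.mem_filter] at hc ⊢
      refine ⟨Finset.mem_univ _, ?_⟩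
      rw [show gam e ((gam e)⁻¹ c) = c from (gam e).apply_symm_apply c, ← hinv]
      exact hc.2
    · intro c _ c' _ h
      exact (gam e)⁻¹.injective h
    · intro i hi
      rw [Finset.mem_filter] at hi
      refine ⟨gam e i, ?_, (gam e).symm_apply_apply i⟩
      rw [Finset.mem_filter]
      refine ⟨Finset.mem_univ _, ?_⟩
      rw [hinv, show (gam e)⁻¹ (gam e i) = i from (gam e).symm_apply_apply i]
      exact hi.2
  have h2 : Finset.univ.filter (fun i => rk e (gam e i) ≤ rk e (al i)) =
      insert i0 (Finset.univ.filter (fun i => rk e i < rk e (al i))) := by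
    ext i
    rw [Finset.mem_filter, Finset.mem_insert, Finset.mem_filter, rk_gam]
    by_cases h : i = i0
    · rw [if_pos ((hlast i).2 h)]
      simp [h]
    · rw [if_neg fun h' => h ((hlast i).1 h')]
      simp only [Finset.mem_univ, true_and, h, false_or]
      exact Nat.succ_le_iff
  have h3 : i0 ∉ Finset.univ.filter (fun i => rk e i < rk e (al i)) := by
    rw [Finset.mem_filter]
    rintro ⟨_, h⟩
    have := rk_lt e (al i0)
    omega
  rw [h1, h2, Finset.card_insert_of_notMem h3, bdown_half hal hM e]

end HGQ
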