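import Pool.Agent.HGQ.Forest

/-! # HGQ part B: odd-cycle permutation numbers

`Pc N = ∑_v oc N v X^v` (`oc N v` = number of permutations of `N` elements with `v` cycles, all odd).

PAPER PROOF. All by induction on `N` with the two-term recurrences (two-step induction). `coeff_A`:
`(Pc (m+2)).coeff (m+2-2k) = (Pc (m+1)).coeff (m+1-2k) + (m+1) m (Pc m).coeff (m-2(k-1))`. The main identity is in
`BOddId.lean`.
-/

namespace HGQ

open Polynomial

/-- generating polynomial of odd-cycle permutations by number of cycles -/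
noncomputable def Pc : ℕ → ℕ[X]
  | 0 => 1
  | 1 => X
  | m + 2 => X * Pc (m + 1) + C ((m + 1) * m) * Pc m

/-- number of permutations of `N` elements with `v` cycles, all of odd length -/
noncomputable def oc (N v : ℕ) : ℕ := (Pc N).coeff v

private theorem oc_rec_zero (m : ℕ) : oc (m + 2) 0 = (m + 1) * m * oc m 0 := by
  simp only [oc, Pc, coeff_add, mul_coeff_zero, coeff_X_zero, zero_mul, zero_add, coeff_C_zero]

private theorem oc_rec_succ (m v : ℕ) :
    oc (m + 2) (v + 1) = oc (m + 1) v + (m + 1) * m * oc m (v + 1) := by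
  simp only [oc, Pc, coeff_add, coeff_C_mul, coeff_X_mul]

theorem oc_of_lt {N v : ℕ} (h : N < v) : oc N v = 0 := by
  induction N using Nat.twoStepInduction generalizing v with
  | zero =>
    simp only [oc, Pc]
    rw [coeff_one, if_neg (by omega)]
  | one =>
    simp only [oc, Pc]
    rw [coeff_X, if_neg (by omega)]
  | more m h0 h1 =>
    obtain ⟨w, rfl⟩ : ∃ w, v = w + 1 := ⟨v - 1, by omega⟩
    rw [oc_rec_succ, h1 (by omega), h0 (by omega), mul_zero, add_zero]

theorem oc_self (N : ℕ) : oc N N = 1 := by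
  induction N using Nat.twoStepInduction with
  | zero => simp only [oc, Pc, coeff_one_zero]
  | one => simp only [oc, Pc, coeff_X_one]
  | more m _ h1 => rw [oc_rec_succ, h1, oc_of_lt (by omega), mul_zero, add_zero]

theorem oc_parity {N v : ℕ} (h : (N + v) % 2 = 1) : oc N v = 0 := by
  induction N using Nat.twoStepInduction generalizing v with
  | zero =>
    simp only [oc, Pc]
    rw [coeff_one, if_neg (by omega)]
  | one =>
    simp only [oc, Pc]
    rw [coeff_X, if_neg (by omega)]
  | more m h0 h1 =>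
    rcases v with _ | w
    · rw [oc_rec_zero, h0 (by omega), mul_zero]
    · rw [oc_rec_succ, h1 (by omega), h0 (by omega), mul_zero, add_zero]

private theorem A_rec_zero (m : ℕ) : (A (m + 2)).coeff 0 = (A (m + 1)).coeff 0 := by
  simp only [A, coeff_add, mul_assoc, mul_coeff_zero, coeff_X_zero, zero_mul,
    mul_zero, add_zero]

private theorem A_rec_succ (m k : ℕ) :
    (A (m + 2)).coeff (k + 1) = (A (m + 1)).coeff (k + 1) + (m + 1) * m * (A m).coeff k := by
  rw [A, coeff_add, mul_assoc, coeff_C_mul, coeff_X_mul]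

theorem coeff_A_of_lt {N k : ℕ} (h : N < 2 * k) : (A N).coeff k = 0 := by
  induction N using Nat.twoStepInduction generalizing k with
  | zero =>
    rw [A, coeff_one, if_neg (by omega)]
  | one =>
    rw [A, coeff_one, if_neg (by omega)]
  | more m h0 h1 =>
    obtain ⟨j, rfl⟩ : ∃ j, k = j + 1 := ⟨k - 1, by omega⟩
    rw [A_rec_succ, h1 (by omega), h0 (by omega), mul_zero, add_zero]

theorem coeff_A {N k : ℕ} (h : 2 * k ≤ N) : (A N).coeff k = oc N (N - 2 * k) := by
  induction N using Nat.twoStepInduction generalizing k with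
  | zero =>
    obtain rfl : k = 0 := by omega
    rw [A, coeff_one_zero, Nat.mul_zero, Nat.sub_zero, oc_self]
  | one =>
    obtain rfl : k = 0 := by omega
    rw [A, coeff_one_zero, Nat.mul_zero, Nat.sub_zero, oc_self]
  | more m h0 h1 =>
    rcases k with _ | j
    · rw [A_rec_zero, h1 (by omega), Nat.mul_zero, Nat.sub_zero, Nat.sub_zero, oc_self, oc_self]
    · rw [A_rec_succ, h0 (k := j) (by omega)]
      by_cases hj : 2 * (j + 1) ≤ m + 1
      · rw [h1 hj]
        have e1 : m + 2 - 2 * (j + 1) = (m + 1 - 2 * (j + 1)) + 1 := by omega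
        have e2 : m - 2 * j = (m + 1 - 2 * (j + 1)) + 1 := by omega
        rw [e1, e2, oc_rec_succ]
      · have e1 : m + 2 - 2 * (j + 1) = 0 := by omega
        have e2 : m - 2 * j = 0 := by omega
        rw [coeff_A_of_lt (by omega), e1, e2, oc_rec_zero, zero_add]

private theorem G_step {n M : ℕ} (h : n < 2 * (M + 1)) :
    ∑ k ∈ Finset.range (M + 2), 4 ^ (M + 1 - k) * (A n).coeff k =
      4 * ∑ k ∈ Finset.range (M + 1), 4 ^ (M - k) * (A n).coeff k := by
  rw [Finset.sum_range_succ, coeff_A_of_lt h, mul_zero, add_zero, Finset.mul_sum]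
  refine Finset.sum_congr rfl fun k hk => ?_
  have hk' := Finset.mem_range.1 hk
  rw [show M + 1 - k = (M - k) + 1 by omega, pow_succ]
  ring

private theorem G_rec (m M : ℕ) :
    ∑ k ∈ Finset.range (M + 2), 4 ^ (M + 1 - k) * (A (m + 2)).coeff k =
      (∑ k ∈ Finset.range (M + 2), 4 ^ (M + 1 - k) * (A (m + 1)).coeff k) +
        (m + 1) * m * ∑ k ∈ Finset.range (M + 1), 4 ^ (M - k) * (A m).coeff k := by
  rw [Finset.sum_range_succ', Finset.sum_range_succ' (fun k => 4 ^ (M + 1 - k) * (A (m + 1)).coeff k),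
    A_rec_zero, Finset.mul_sum]
  have : ∀ k ∈ Finset.range (M + 1), 4 ^ (M + 1 - (k + 1)) * (A (m + 2)).coeff (k + 1) =
      4 ^ (M + 1 - (k + 1)) * (A (m + 1)).coeff (k + 1) +
        (m + 1) * m * (4 ^ (M - k) * (A m).coeff k) := by
    intro k _
    rw [A_rec_succ, show M + 1 - (k + 1) = M - k by omega]
    ring
  rw [Finset.sum_congr rfl this, Finset.sum_add_distrib]
  ring

/-- `∑_k 4^(n-k) [s^k] A_{n+1}(s) = 2^n (n+1)!`, i.e. `A_{n+1}(1/4) = (n+1)!/2^n`: induction from the
recurrence, as `A_m(1/4) = m!/2^(m-1)` for `m ≥ 1`. -/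
theorem sum_coeff_A (n : ℕ) :
    ∑ k ∈ Finset.range (n + 1), 4 ^ (n - k) * (A (n + 1)).coeff k = 2 ^ n * (n + 1).factorial := by
  induction n using Nat.twoStepInduction with
  | zero =>
    rw [zero_add, Finset.sum_range_one, A, coeff_one_zero]
    rfl
  | one =>
    rw [show 1 + 1 = 0 + 2 from rfl, G_rec 0 0, G_step (by norm_num), zero_add,
      Finset.sum_range_one, mul_zero, zero_mul, add_zero, A, coeff_one_zero]
    rfl
  | more n h0 h1 =>
    have e := G_rec (n + 1) (n + 1)
    rw [G_step (n := n + 1 + 1) (M := n + 1) (by omega), G_step (n := n + 1) (M := n) (by omega),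
      h0, h1] at e
    rw [show n + 2 + 1 = n + 1 + 2 from rfl]
    rw [show n + 1 + 1 = n + 2 from rfl] at e
    refine e.trans ?_
    rw [show n + 1 + 2 = (n + 2) + 1 from rfl, Nat.factorial_succ (n + 2),
      Nat.factorial_succ (n + 1)]
    ring

end HGQ
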