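import Pool.Agent.HGQ.BOdd

/-! # HGQ part B: the identity for odd-cycle permutation numbers

PAPER PROOF of `oc_identity`. Work in `ℤ[X]` (or `ℚ[X]`), write `f⁺(X) = f(X+2)`, `f⁻(X) = f(X-2)`.
(I1) `P_N⁺ - P_N = N (P_{N-1}⁺ + P_{N-1})` for `N ≥ 1`, by two-step induction: with `Y = P_N⁺`, `X0 = P_N`,
`y = P_{N-1}⁺`, `w = P_{N-1}`, `y', w'` for `N-2`:
`P_{N+1}⁺ - P_{N+1} = (x+2) Y - x X0 + N(N-1)(y - w) = x(Y - X0) + 2Y + N(N-1)²(y'+w')`
`= N x (y+w) + 2Y + N(N-1)²(y'+w')` and `x(y+w) = Y + X0 - 2y - (N-1)(N-2)(y'+w')` (recurrences for `Y`, `X0`), so it is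
`N(Y+X0) + 2Y - 2Ny + N(N-1)(y'+w') = N(Y+X0) + 2Y - 2Ny + N(y - w) = N(Y+X0) + 2Y - (Y - X0) = (N+1)(Y+X0)`.
(I2) `4 N P_N = X (P_N⁺ - P_N⁻)`: induction with step 2. By (I1) at `x` and at `x-2`:
`P_N⁺ - P_N⁻ = N (P_{N-1}⁺ + 2 P_{N-1} + P_{N-1}⁻)`, so we need
`x (P_{N-1}⁺ + 2P_{N-1} + P_{N-1}⁻) = 4 P_N = 4 x P_{N-1} + 4(N-1)(N-2) P_{N-2}`, i.e.
`x (P_{N-1}⁺ - 2P_{N-1} + P_{N-1}⁻) = 4(N-1)(N-2)P_{N-2}`; by (I1) the left side is
`x (N-1)(P_{N-2}⁺ - P_{N-2}⁻)` and (I2) for `N-2` finishes.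
Coefficients of `X^v` in (I2): `(x+2)^w - (x-2)^w = 2 ∑_p C(w,2p+1) 2^(2p+1) x^(w-2p-1)`; so
`4 N oc N v = ∑_p 2 · 2^(2p+1) C(v+2p, 2p+1) oc N (v+2p)`.
(For a quick check: `N = 3`, `v = 1`: `3·2 = 1·1·2 + C(3,3)·4·1`.)
-/

namespace HGQ

open Polynomial

private theorem aux_I1 {R : Type*} [CommRing R] (t : R) (A B : ℕ → R)
    (hA0 : A 0 = 1) (hA1 : A 1 = t + 2) (hB0 : B 0 = 1) (hB1 : B 1 = t)
    (hA : ∀ m : ℕ, A (m + 2) = (t + 2) * A (m + 1) + (((m : R) + 1) * m) * A m)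
    (hB : ∀ m : ℕ, B (m + 2) = t * B (m + 1) + (((m : R) + 1) * m) * B m) (n : ℕ) :
    A (n + 1) - B (n + 1) = ((n : R) + 1) * (A n + B n) := by
  induction n using Nat.twoStepInduction with
  | zero =>
    rw [zero_add, hA1, hB1, hA0, hB0, Nat.cast_zero]
    ring
  | one =>
    rw [hA 0, hB 0, zero_add, hA1, hB1, hA0, hB0, Nat.cast_zero, Nat.cast_one]
    ring
  | more n h0 h1 =>
    have rA := hA (n + 1)
    have rB := hB (n + 1)
    have r1 := hA n
    have r0 := hB n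
    push_cast at rA rB h1 ⊢
    rw [show n + 2 + 1 = n + 1 + 2 from rfl, rA, rB]
    rw [show n + 1 + 1 = n + 2 from rfl] at h1 ⊢
    linear_combination (t + 1) * h1 - ((n : R) + 2) * r1 - ((n : R) + 2) * r0
      + (((n : R) + 2) * n) * h0

private theorem aux_I2 {R : Type*} [CommRing R] (x : R) (A B D : ℕ → R)
    (hA0 : A 0 = 1) (hA1 : A 1 = x + 2) (hB0 : B 0 = 1) (hB1 : B 1 = x)
    (hD0 : D 0 = 1) (hD1 : D 1 = x - 2)
    (hA : ∀ m : ℕ, A (m + 2) = (x + 2) * A (m + 1) + (((m : R) + 1) * m) * A m)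
    (hB : ∀ m : ℕ, B (m + 2) = x * B (m + 1) + (((m : R) + 1) * m) * B m)
    (hD : ∀ m : ℕ, D (m + 2) = (x - 2) * D (m + 1) + (((m : R) + 1) * m) * D m) (n : ℕ) :
    4 * (n : R) * B n = x * (A n - D n) := by
  have hp := aux_I1 x A B hA0 hA1 hB0 hB1 hA hB
  have hm := aux_I1 (x - 2) B D hB0 (by rw [hB1]; ring) hD0 hD1
    (fun m => by rw [hB m]; ring) hD
  induction n using Nat.twoStepInduction with
  | zero => rw [hA0, hD0]; simp
  | one => rw [hA1, hD1, hB1]; push_cast; ring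
  | more n h0 _ =>
    have p2 := hp (n + 1)
    have m2 := hm (n + 1)
    have p1 := hp n
    have m1 := hm n
    have r := hB n
    push_cast at p2 m2 ⊢
    rw [show n + 1 + 1 = n + 2 from rfl] at p2 m2
    linear_combination -x * (p2 + m2) + 4 * ((n : R) + 2) * r - ((n : R) + 2) * x * (p1 - m1)
      + ((n : R) + 2) * ((n : R) + 1) * h0

private theorem aux_comp (f : ℤ[X]) (N : ℕ) (hf : f.natDegree ≤ N) (r : ℤ) (k M : ℕ) (hM : N < M) :
    (f.comp (X + C r)).coeff k = ∑ w ∈ Finset.range M, f.coeff w * (r ^ (w - k) * (w.choose k : ℤ)) := by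
  rw [comp_eq_sum_left, sum_over_range' f (fun w => by simp) M (by omega), finsetSum_coeff]
  refine Finset.sum_congr rfl fun w _ => ?_
  rw [coeff_C_mul, coeff_X_add_C_pow]

private theorem aux_coeff (f : ℤ[X]) (N : ℕ) (hf : f.natDegree ≤ N) (v : ℕ) :
    (X * (f.comp (X + C 2) - f.comp (X + C (-2)))).coeff v =
      4 * ∑ p ∈ Finset.range (N + 1), ((v + 2 * p).choose (2 * p + 1) : ℤ) * 4 ^ p * f.coeff (v + 2 * p) := by
  cases v with
  | zero =>
    rw [mul_comm, coeff_mul_X_zero, Finset.sum_eq_zero, mul_zero]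
    intro p _
    rw [zero_add, Nat.choose_eq_zero_of_lt (by omega)]
    simp
  | succ k =>
    rw [coeff_X_mul, coeff_sub, aux_comp f N hf 2 k (N + 1 + (k + 1 + 2 * N)) (by omega),
      aux_comp f N hf (-2) k (N + 1 + (k + 1 + 2 * N)) (by omega), ← Finset.sum_sub_distrib]
    have himg : ∀ p, k + 1 + 2 * p = k + 1 + 2 * p := fun _ => rfl
    rw [← Finset.sum_subset (s₁ := (Finset.range (N + 1)).image (fun p => k + 1 + 2 * p)),
      Finset.sum_image, Finset.mul_sum]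
    · refine Finset.sum_congr rfl fun p _ => ?_
      have h1 : k + 1 + 2 * p - k = 2 * p + 1 := by omega
      have h2 : (k + 1 + 2 * p).choose k = (k + 1 + 2 * p).choose (2 * p + 1) := by
        rw [← Nat.choose_symm (show k ≤ k + 1 + 2 * p by omega), h1]
      rw [h1, h2, Odd.neg_pow ⟨p, rfl⟩, pow_succ, pow_mul]
      norm_num
      ring
    · intro a _ b _ hab
      simp only at hab
      omega
    · intro w hw
      rw [Finset.mem_image] at hw
      obtain ⟨p, hp, rfl⟩ := hw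
      rw [Finset.mem_range] at hp ⊢
      omega
    · intro w _ hw
      rcases lt_or_ge w k with h | h
      · rw [Nat.choose_eq_zero_of_lt h]
        simp
      · rcases Nat.even_or_odd (w - k) with h' | h'
        · rw [Even.neg_pow h']
          ring
        · obtain ⟨p, hp⟩ := h'
          have hwN : N < w := by
            by_contra hcon
            apply hw
            rw [Finset.mem_image]
            exact ⟨p, by rw [Finset.mem_range]; omega, by omega⟩
          rw [coeff_eq_zero_of_natDegree_lt (lt_of_le_of_lt hf hwN)]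
          simp

private noncomputable def Q (N : ℕ) : ℤ[X] := (Pc N).map (Nat.castRingHom ℤ)

private theorem Q_coeff (N v : ℕ) : (Q N).coeff v = (oc N v : ℤ) := by
  unfold Q oc
  rw [coeff_map]
  rfl

private theorem Q_natDegree (N : ℕ) : (Q N).natDegree ≤ N := by
  rw [natDegree_le_iff_coeff_eq_zero]
  intro v hv
  rw [Q_coeff, oc_of_lt hv, Nat.cast_zero]

private theorem Q_zero : Q 0 = 1 := by
  unfold Q
  rw [Pc, Polynomial.map_one]

private theorem Q_one : Q 1 = X := by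
  unfold Q
  rw [Pc, Polynomial.map_X]

private theorem Q_rec (m : ℕ) :
    Q (m + 2) = X * Q (m + 1) + (((m : ℤ[X]) + 1) * (m : ℤ[X])) * Q m := by
  unfold Q
  rw [Pc, Polynomial.map_add, Polynomial.map_mul, Polynomial.map_mul, Polynomial.map_X, Polynomial.map_C]
  congr 2
  simp

private theorem Q_identity (N : ℕ) :
    4 * (N : ℤ[X]) * Q N = X * ((Q N).comp (X + C 2) - (Q N).comp (X + C (-2))) := by
  apply aux_I2 X (fun N => (Q N).comp (X + C 2)) Q (fun N => (Q N).comp (X + C (-2)))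
  · rw [Q_zero, one_comp]
  · rw [Q_one, X_comp]
    rfl
  · exact Q_zero
  · exact Q_one
  · rw [Q_zero, one_comp]
  · rw [Q_one, X_comp, C_neg, ← sub_eq_add_neg]
    rfl
  · intro m
    rw [Q_rec, add_comp, mul_comp, mul_comp, mul_comp, add_comp, natCast_comp, one_comp, X_comp]
    rfl
  · exact Q_rec
  · intro m
    rw [Q_rec, add_comp, mul_comp, mul_comp, mul_comp, add_comp, natCast_comp, one_comp, X_comp, C_neg,
      ← sub_eq_add_neg]
    rfl

theorem oc_identity (N v : ℕ) :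
    N * oc N v = ∑ p ∈ Finset.range (N + 1), (v + 2 * p).choose (2 * p + 1) * 4 ^ p * oc N (v + 2 * p) := by
  have h1 : (4 * (N : ℤ[X]) * Q N).coeff v =
      (X * ((Q N).comp (X + C 2) - (Q N).comp (X + C (-2)))).coeff v := by
    rw [Q_identity N]
  rw [aux_coeff (Q N) N (Q_natDegree N) v] at h1
  have h2 : (4 * (N : ℤ[X]) * Q N).coeff v = 4 * ((N : ℤ) * (oc N v : ℤ)) := by
    have : (4 * (N : ℤ[X]) * Q N) = C (4 * (N : ℤ)) * Q N := by
      simp
    rw [this, coeff_C_mul, Q_coeff, mul_assoc]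
  rw [h2] at h1
  have h3 := mul_left_cancel₀ (by norm_num : (4 : ℤ) ≠ 0) h1
  simp only [Q_coeff] at h3
  exact_mod_cast h3

end HGQ
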