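import Pool.Agent.HGQ.BCyc3

/-! # HGQ part B: number of cycles with a given label

PAPER PROOF. `cyc (swap a b * σ) h = cyc σ a ∪ cyc σ b` if `h` is in this union, and `= cyc σ h` otherwise
(`sameCycle_swap_mul`). So the set of cycles with label `i = x a` of `swap a b * σ` is obtained from that of
`σ` by deleting the two different elements `cyc σ a`, `cyc σ b` and adding their union (not already there);
for other labels nothing changes. Each cycle has exactly one minimum of `rk e`.
-/

namespace HGQ

open Equiv

variable {H : Type*} [Fintype H] [DecidableEq H] {L : Type*} [DecidableEq L] {M : ℕ}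

private theorem bprof_notin {σ : Perm H} {a : H} {Q : H → Prop} [DecidablePred Q]
    (hQ : ∀ h, Q h → ¬ σ.SameCycle a h) {C : Finset H} (ha : a ∈ C) :
    C ∉ (Finset.univ.filter (fun h => Q h)).image (cyc σ) := by
  intro hmem
  rw [Finset.mem_image] at hmem
  obtain ⟨h, hh, hC⟩ := hmem
  rw [Finset.mem_filter] at hh
  rw [← hC, mem_cyc] at ha
  exact hQ h hh.2 ha.symm

theorem prof_swap_mul {x : H → L} {σ : Perm H} {a b : H} (hab : ¬ σ.SameCycle a b)
    (hx : ∀ h, x (σ h) = x h) (hxab : x a = x b) (i : L) :
    prof x (swap a b * σ) i + (if x a = i then 1 else 0) = prof x σ i := by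
  classical
  have key := sameCycle_swap_mul hab
  by_cases hi : x a = i
  · rw [if_pos hi]
    -- the other cycles
    set R : Finset (Finset H) := (Finset.univ.filter
      (fun h => x h = i ∧ ¬ σ.SameCycle a h ∧ ¬ σ.SameCycle b h)).image (cyc σ) with hR
    have hS : (Finset.univ.filter (fun h => x h = i)).image (cyc σ) =
        insert (cyc σ a) (insert (cyc σ b) R) := by
      ext C
      simp only [hR, Finset.mem_insert, Finset.mem_image, Finset.mem_filter, Finset.mem_univ,
        true_and]
      constructor
      · rintro ⟨h, hh, rfl⟩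
        by_cases h1 : σ.SameCycle a h
        · exact Or.inl (cyc_eq_iff.2 h1.symm)
        · by_cases h2 : σ.SameCycle b h
          · exact Or.inr (Or.inl (cyc_eq_iff.2 h2.symm))
          · exact Or.inr (Or.inr ⟨h, ⟨hh, h1, h2⟩, rfl⟩)
      · rintro (rfl | rfl | ⟨h, hh, rfl⟩)
        · exact ⟨a, hi, rfl⟩
        · exact ⟨b, hxab ▸ hi, rfl⟩
        · exact ⟨h, hh.1, rfl⟩
    have hT : (Finset.univ.filter (fun h => x h = i)).image (cyc (swap a b * σ)) =
        insert (cyc (swap a b * σ) a) R := by
      have hsame : ∀ h, ¬ σ.SameCycle a h → ¬ σ.SameCycle b h →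
          cyc (swap a b * σ) h = cyc σ h := by
        intro h h1 h2
        ext k
        rw [mem_cyc, mem_cyc, key h k]
        tauto
      ext C
      simp only [hR, Finset.mem_insert, Finset.mem_image, Finset.mem_filter, Finset.mem_univ,
        true_and]
      constructor
      · rintro ⟨h, hh, rfl⟩
        by_cases h1 : σ.SameCycle a h ∨ σ.SameCycle b h
        · refine Or.inl (cyc_eq_iff.2 ?_)
          rw [key h a]
          exact Or.inr ⟨h1, Or.inl (Equiv.Perm.SameCycle.refl σ a)⟩
        · push Not at h1
          exact Or.inr ⟨h, ⟨hh, h1.1, h1.2⟩, (hsame h h1.1 h1.2).symm⟩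
      · rintro (rfl | ⟨h, hh, rfl⟩)
        · exact ⟨a, hi, rfl⟩
        · exact ⟨h, hh.1, hsame h hh.2.1 hh.2.2⟩
    have e1 : prof x σ i = R.card + 2 := by
      have h0 : prof x σ i = ((Finset.univ.filter (fun h => x h = i)).image (cyc σ)).card := by
        unfold prof
        congr!
      rw [h0, hS]
      have hb : cyc σ b ∉ R := bprof_notin (a := b) (fun h hh => hh.2.2)
        (mem_cyc.2 (Equiv.Perm.SameCycle.refl σ b))
      have ha : cyc σ a ∉ insert (cyc σ b) R := by
        rw [Finset.mem_insert, not_or]
        exact ⟨fun h => hab (cyc_eq_iff.1 h), bprof_notin (a := a) (fun h hh => hh.2.1)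
          (mem_cyc.2 (Equiv.Perm.SameCycle.refl σ a))⟩
      rw [Finset.card_insert_of_notMem ha, Finset.card_insert_of_notMem hb]
    have e2 : prof x (swap a b * σ) i = R.card + 1 := by
      have h0 : prof x (swap a b * σ) i =
          ((Finset.univ.filter (fun h => x h = i)).image (cyc (swap a b * σ))).card := by
        unfold prof
        congr!
      rw [h0, hT]
      have ha : cyc (swap a b * σ) a ∉ R := bprof_notin (a := a) (fun h hh => hh.2.1)
        (mem_cyc.2 (Equiv.Perm.SameCycle.refl _ a))
      rw [Finset.card_insert_of_notMem ha]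
    rw [e1, e2]
  · rw [if_neg hi, add_zero]
    unfold prof
    congr 1
    apply Finset.image_congr
    intro h hh
    simp only [Finset.coe_filter, Finset.mem_univ, true_and, Set.mem_ofPred_eq] at hh
    have h1 : ¬ σ.SameCycle a h := fun e => hi (by rw [← label_const hx e, hh])
    have h2 : ¬ σ.SameCycle b h := fun e => hi (by rw [hxab, ← label_const hx e, hh])
    ext k
    rw [mem_cyc, mem_cyc, key h k]
    tauto

private theorem bprof_label {x : H → L} {σ : Perm H} {a b : H}
    (hx : ∀ h, x (σ h) = x h) (hxab : x a = x b) (h : H) : x ((swap a b * σ) h) = x h := by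
  rw [Perm.mul_apply, ← hx h]
  by_cases h1 : σ h = a
  · rw [h1, swap_apply_left, hxab]
  · by_cases h2 : σ h = b
    · rw [h2, swap_apply_right, hxab]
    · rw [swap_apply_of_ne_of_ne h1 h2]

theorem prof_three {x : H → L} {σ : Perm H} {a b c : H} (hab : ¬ σ.SameCycle a b)
    (hac : ¬ σ.SameCycle a c) (hbc : ¬ σ.SameCycle b c)
    (hx : ∀ h, x (σ h) = x h) (hxab : x a = x b) (hxac : x a = x c) (i : L) :
    prof x (swap a c * swap a b * σ) i + (if x a = i then 2 else 0) = prof x σ i := by
  have h1 : ¬ (swap a b * σ).SameCycle a c := by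
    rw [sameCycle_swap_mul hab]
    have hca : ¬ σ.SameCycle c a := fun e => hac e.symm
    have hcb : ¬ σ.SameCycle c b := fun e => hbc e.symm
    tauto
  have h2 := prof_swap_mul h1 (bprof_label hx hxab) hxac i
  have h3 := prof_swap_mul hab hx hxab i
  rw [← h3, ← h2, mul_assoc, add_assoc]
  congr 1
  split_ifs <;> rfl

theorem ncyc_eq_sum_prof [Fintype L] {x : H → L} {σ : Perm H} (hx : ∀ h, x (σ h) = x h) :
    ncyc σ = ∑ i, prof x σ i := by
  classical
  unfold ncyc prof
  have h1 : (Finset.univ : Finset H).image (cyc σ) = (Finset.univ : Finset L).biUnion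
      (fun i => (Finset.univ.filter (fun h => x h = i)).image (cyc σ)) := by
    ext C
    simp only [Finset.mem_image, Finset.mem_biUnion, Finset.mem_filter, Finset.mem_univ, true_and]
    constructor
    · rintro ⟨h, rfl⟩
      exact ⟨x h, h, rfl, rfl⟩
    · rintro ⟨i, h, _, rfl⟩
      exact ⟨h, rfl⟩
  have h2 : ((Finset.univ : Finset L).biUnion
      (fun i => (Finset.univ.filter (fun h => x h = i)).image (cyc σ))).card =
      ∑ i, ((Finset.univ.filter (fun h => x h = i)).image (cyc σ)).card := by
    apply Finset.card_biUnion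
    intro i _ j _ hij
    change Disjoint _ _
    rw [Finset.disjoint_left]
    intro C hC hC'
    simp only [Finset.mem_image, Finset.mem_filter, Finset.mem_univ, true_and] at hC hC'
    obtain ⟨h, hh, rfl⟩ := hC
    obtain ⟨k, hk, hk2⟩ := hC'
    apply hij
    rw [← hh, ← hk]
    exact label_const hx (cyc_eq_iff.1 hk2)
  refine ((congrArg Finset.card h1).trans h2).trans ?_
  refine Finset.sum_congr rfl fun i _ => ?_
  congr!

theorem prof_pos_iff {x : H → L} {σ : Perm H} {i : L} : 0 < prof x σ i ↔ ∃ h, x h = i := by
  unfold prof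
  rw [Finset.card_pos, Finset.image_nonempty]
  constructor
  · rintro ⟨h, hh⟩
    simp only [Finset.mem_filter, Finset.mem_univ, true_and] at hh
    exact ⟨h, hh⟩
  · rintro ⟨h, hh⟩
    exact ⟨h, by simp only [Finset.mem_filter, Finset.mem_univ, true_and]; exact hh⟩

theorem prof_le_card {x : H → L} {σ : Perm H} (i : L) : prof x σ i ≤ Fintype.card H := by
  unfold prof
  refine Finset.card_image_le.trans ?_
  exact Finset.card_le_univ _

end HGQ
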