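import Pool.Agent.HGQ.BSum
import Pool.Agent.HGQ.BTour

/-! # HGQ part B: from tours to one-face permutations

PAPER PROOF. `OneFace γ`: all half-edges are in one cycle of `γ`. For every `σ` with `OneFace (σ * al)` there are
exactly `2n` tours `e` with `sg al e = σ` (`gam e = σ * al`, `e` is determined by `r = e.symm 0`, and every `r`
works: `e.symm j = (σ * al)^j r`), and `OneFace (sg al e * al)` for every tour (`sg al e * al = gam e`).
So every sum over tours of a function of `sg al e` is `2n` times the sum over one-face `σ`.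
-/

namespace HGQ

open Equiv

variable {H : Type*} [Fintype H] [DecidableEq H] {L : Type*} [DecidableEq L]

/-- `γ` is one cycle on all of `H` -/
def OneFace (γ : Perm H) : Prop := ∀ h k, γ.SameCycle h k

private theorem bs_rk_pow {M : ℕ} (e : H ≃ Fin M) (h : H) (j : ℕ) :
    rk e ((gam e ^ j) h) = (rk e h + j) % M := by
  induction j with
  | zero => simp [Nat.mod_eq_of_lt (rk_lt e h)]
  | succ j ih =>
    have hM : 0 < M := lt_of_le_of_lt (Nat.zero_le _) (rk_lt e h)
    rw [pow_succ', Perm.mul_apply, rk_gam, ih]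
    have h1 : (rk e h + j) % M < M := Nat.mod_lt _ hM
    have h2 : (rk e h + (j + 1)) % M = ((rk e h + j) % M + 1) % M := by
      rw [← add_assoc, Nat.mod_add_mod]
    rw [h2]
    split_ifs with h3
    · rw [h3, Nat.mod_self]
    · exact (Nat.mod_eq_of_lt (by omega)).symm

theorem oneFace_gam {M : ℕ} (e : H ≃ Fin M) : OneFace (gam e) := by
  intro h k
  refine ⟨((rk e k + M - rk e h : ℕ) : ℤ), ?_⟩
  rw [zpow_natCast]
  apply rk_injective e
  rw [bs_rk_pow]
  have h1 := rk_lt e h
  have h2 := rk_lt e k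
  rw [show rk e h + (rk e k + M - rk e h) = rk e k + M by omega, Nat.add_mod_right,
    Nat.mod_eq_of_lt h2]

theorem sg_mul_al {al : Perm H} (hal : IsEdges al) {M : ℕ} (e : H ≃ Fin M) :
    sg al e * al = gam e := by
  ext h
  simp [sg, hal.inv]

/-- a tour of a one-face permutation starting at a given half-edge -/
theorem exists_unique_tour {n : ℕ} (hn : 0 < n) (hcard : Fintype.card H = 2 * n) {γ : Perm H}
    (hγ : OneFace γ) (r : H) : ∃! e : H ≃ Fin (2 * n), gam e = γ ∧ rk e r = 0 := by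
  -- `r` is moved
  have hr : r ∈ γ.support := by
    rw [Perm.mem_support]
    intro hfix
    have h1 : ∀ k, k = r := by
      intro k
      obtain ⟨i, hi⟩ := hγ r k
      rw [← hi]
      exact Perm.zpow_apply_eq_self_of_apply_eq_self hfix i
    have h2 : Fintype.card H ≤ 1 := Fintype.card_le_one_iff.2 fun a b => (h1 a).trans (h1 b).symm
    omega
  let φ : Fin (2 * n) → H := fun j => (γ ^ (j : ℕ)) r
  have hsurj : Function.Surjective φ := by
    intro k
    obtain ⟨i, hi, hk⟩ := (hγ r k).exists_pow_eq_of_mem_support hr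
    have h1 : (γ.cycleOf r).support.card ≤ Fintype.card H := Finset.card_le_univ _
    exact ⟨⟨i, by omega⟩, hk⟩
  have hbij : Function.Bijective φ :=
    (Fintype.bijective_iff_surjective_and_card φ).2 ⟨hsurj, by simp [hcard]⟩
  have hper : (γ ^ (2 * n)) r = r := by
    obtain ⟨i, hi⟩ := hsurj ((γ ^ (2 * n)) r)
    have hi' : (γ ^ (i : ℕ)) r = (γ ^ (2 * n)) r := hi
    rcases Nat.eq_zero_or_pos (i : ℕ) with h0 | h0
    · rw [← hi', h0]; rfl
    · exfalso
      have h1 : (γ ^ (2 * n)) r = (γ ^ (i : ℕ)) ((γ ^ (2 * n - i)) r) := by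
        rw [← Perm.mul_apply, ← pow_add, Nat.add_sub_cancel' i.2.le]
      rw [h1] at hi'
      have h2 := (γ ^ (i : ℕ)).injective hi'
      have h3 : φ ⟨0, by omega⟩ = φ ⟨2 * n - i, by omega⟩ := by
        simp only [φ, pow_zero, Perm.coe_one, id]
        exact h2
      have h4 := congrArg Fin.val (hbij.1 h3)
      simp only at h4
      have := i.2
      omega
  let e : H ≃ Fin (2 * n) := (Equiv.ofBijective φ hbij).symm
  have he : ∀ j : Fin (2 * n), e (φ j) = j := fun j =>
    (Equiv.ofBijective φ hbij).symm_apply_apply j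
  have hrk : ∀ j (hj : j < 2 * n), rk e ((γ ^ j) r) = j := fun j hj =>
    congrArg Fin.val (he ⟨j, hj⟩)
  refine ⟨e, ⟨?_, hrk 0 (by omega)⟩, ?_⟩
  · ext h
    obtain ⟨j, rfl⟩ := hsurj h
    apply rk_injective e
    change rk e (gam e ((γ ^ (j : ℕ)) r)) = rk e (γ ((γ ^ (j : ℕ)) r))
    rw [rk_gam, hrk j j.2]
    have h1 : γ ((γ ^ (j : ℕ)) r) = (γ ^ ((j : ℕ) + 1)) r := by
      rw [pow_succ', Perm.mul_apply]
    rw [h1]
    split_ifs with h2
    · rw [h2, hper]; exact (hrk 0 (by omega)).symm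
    · rw [hrk _ (by have := j.2; omega)]
  · rintro e' ⟨h1, h2⟩
    apply tour_ext
    intro k
    obtain ⟨j, rfl⟩ := hsurj k
    have h3 := bs_rk_pow e' r (j : ℕ)
    rw [h1, h2, zero_add, Nat.mod_eq_of_lt j.2] at h3
    rw [hrk j j.2]; exact h3

open Classical in
theorem sum_tours {al : Perm H} (hal : IsEdges al) {n : ℕ} (hn : 0 < n)
    (hcard : Fintype.card H = 2 * n) (F : Perm H → ℕ) :
    ∑ e : H ≃ Fin (2 * n), F (sg al e) =
      2 * n * ∑ σ ∈ Finset.univ.filter (fun σ : Perm H => OneFace (σ * al)), F σ := by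
  have hsg : ∀ (e : H ≃ Fin (2 * n)) (σ : Perm H), sg al e = σ ↔ gam e = σ * al := by
    intro e σ
    rw [← sg_mul_al hal e]
    constructor
    · intro h; rw [h]
    · intro h; exact mul_right_cancel h
  rw [← Finset.sum_fiberwise_of_maps_to (s := Finset.univ)
    (t := Finset.univ.filter (fun σ : Perm H => OneFace (σ * al))) (g := fun e => sg al e)
    (fun e _ => by
      rw [Finset.mem_filter]
      refine ⟨Finset.mem_univ _, ?_⟩
      rw [sg_mul_al hal]
      exact oneFace_gam e), Finset.mul_sum]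
  refine Finset.sum_congr rfl fun σ hσ => ?_
  rw [Finset.mem_filter] at hσ
  have h1 : ∀ e ∈ Finset.univ.filter (fun e : H ≃ Fin (2 * n) => sg al e = σ),
      F (sg al e) = F σ := by
    intro e he
    rw [Finset.mem_filter] at he
    rw [he.2]
  rw [Finset.sum_congr rfl h1, Finset.sum_const, smul_eq_mul]
  congr 1
  -- tours with a given face permutation correspond to the starting half-edges
  have hn' : 0 < 2 * n := by omega
  have hU : (2 * n) = (Finset.univ : Finset H).card := by rw [Finset.card_univ, hcard]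
  refine Eq.trans ?_ hU.symm
  refine Finset.card_bij (fun (e : H ≃ Fin (2 * n)) _ => e.symm ⟨0, hn'⟩)
    (fun _ _ => Finset.mem_univ _) ?_ ?_
  · intro e he e' he' hee
    rw [Finset.mem_filter] at he he'
    obtain ⟨e₀, _, huniq⟩ := exists_unique_tour hn hcard hσ.2 (e.symm ⟨0, hn'⟩)
    have h2 := huniq e ⟨(hsg e σ).1 he.2, by simp [rk]⟩
    have h3 := huniq e' ⟨(hsg e' σ).1 he'.2, by
      rw [hee]; simp [rk]⟩
    rw [h2, h3]
  · intro r _
    obtain ⟨e₀, ⟨h2, h3⟩, _⟩ := exists_unique_tour hn hcard hσ.2 r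
    refine ⟨e₀, ?_, ?_⟩
    · rw [Finset.mem_filter]
      exact ⟨Finset.mem_univ _, (hsg e₀ σ).2 h2⟩
    · rw [Equiv.symm_apply_eq]
      exact Fin.ext h3.symm

open Classical in
theorem sigma_form {al : Perm H} (hal : IsEdges al) {n : ℕ} (hn : 0 < n)
    (hcard : Fintype.card H = 2 * n) (x : H → L) (g : ℕ) :
    4 ^ g * Nat.card {σ : Perm H //
        OneFace (σ * al) ∧ (∀ h, x (σ h) = x h) ∧ ncyc σ + 2 * g = n + 1} =
      ∑ σ ∈ Finset.univ.filter (fun σ : Perm H =>
          OneFace (σ * al) ∧ (∀ h, x (σ h) = x h) ∧ ncyc σ = n + 1),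
        (∏ i ∈ Finset.univ.image x, A (prof x σ i)).coeff g := by
  have h1 := sum_form hal hn hcard x g
  have h2 := sum_tours hal hn hcard
    (fun σ => if (∀ h, x (σ h) = x h) ∧ ncyc σ + 2 * g = n + 1 then 1 else 0)
  have h3 := sum_tours hal hn hcard
    (fun σ => if (∀ h, x (σ h) = x h) ∧ ncyc σ = n + 1 then
      (∏ i ∈ Finset.univ.image x, A (prof x σ i)).coeff g else 0)
  rw [← Finset.sum_filter, ← Finset.sum_filter, Finset.filter_filter] at h2 h3
  rw [Nat.card_eq_fintype_card, Fintype.card_subtype, Finset.card_eq_sum_ones, h2] at h1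
  rw [h3] at h1
  rw [Nat.card_eq_fintype_card, Fintype.card_subtype, Finset.card_eq_sum_ones]
  have hpos : 0 < 2 * n := by omega
  refine Nat.eq_of_mul_eq_mul_left hpos ?_
  calc _ = 4 ^ g * (2 * n * ∑ _σ ∈ Finset.univ.filter (fun σ : Perm H =>
        OneFace (σ * al) ∧ (∀ h, x (σ h) = x h) ∧ ncyc σ + 2 * g = n + 1), 1) := by ring
    _ = _ := h1

end HGQ
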