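import Pool.Agent.HGQ.BProf
import Pool.Agent.HGQ.BMin
import Pool.Agent.HGQ.BTour

/-! # HGQ part B: slicing

PAPER PROOF (Chapuy's trisections, with labels). Let `t = (e, l, q) ∈ AS v i k`, `σ = sg al e`,
`p = mn al e q`, so `p ≠ q` (else `q` is a minimum), `rk e p < rk e q`, `σ.SameCycle p q`.
Let `τ = σ⁻¹ q`, `σ1 = swap p q * σ`, `S = {z : σ1.SameCycle p z ∧ rk e q < rk e z}`.
`τ ∈ S`: `σ1 τ = p`; `rk e q ≤ rk e τ` and `τ ≠ q` (if `σ q = q` the cycle of `q` is `{q}` and `p = q`).
So `s = cut al e q ∈ S`, and `s ≠ p` as `rk e s > rk e q > rk e p`.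
`e' = sw e p q s`, `σ' = sg al e' = swap p s * swap p q * σ` (`sg_sw`). By `slice_cycles` the half-edges
`p, q, s` are in three different `σ'`-cycles, `σ1.SameCycle p z ↔ σ'.SameCycle p z ∨ σ'.SameCycle s z`, and
(`slice_perm`, `sameCycle_three` with `(a,b,c) = (q,p,s)`)
`σ.SameCycle h k ↔ σ'.SameCycle h k ∨ (h, k both in the σ'-cycles of q, p, s)`.
Ranks (`rk_sw`): with `P = rk e p < Q = rk e q < R = rk e s`:
`rk e' h = rk e h` if `rk e h < P` or `rk e h ≥ R`; `+ (R-Q)` on `[P,Q)`; `- (Q-P)` on `[Q,R)`.
* `good`: `x (σ' h) = x (σ h)` as `x p = x q = x s = i`.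
* `prof_eq`: `prof_three` for `σ'` with `(q,p,s)`.
* minimality: every `z` in the `σ'`-cycles of `q,p,s` is in the `σ`-cycle of `p`, so `rk e z ≥ P`, so
  `rk e' z ≥ P = rk e' q`: `q` is a minimum. If `z` is in the `σ'`-cycle of `p` or `s` then
  `σ1.SameCycle p z`, so by minimality of `s` in `S` not `Q < rk e z < R`; also `z ≠ q`; so `rk e z < Q` or
  `≥ R`, hence `rk e' z ≥ P + (R - Q) = rk e' p`, with equality only for `z = p`. So `p` is a minimum, and
  all elements `z` of the `σ'`-cycle of `s` have `rk e' p < rk e' z`.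
* `u ∈ l`: `rk e u < rk e z` for all `z` in the `σ`-cycle of `q`, in particular `rk e u < P`,
  `rk e' u = rk e u`; the `σ`-cycle of `u` is not that of `q` (its minimum has smaller rank), so it is a
  `σ'`-cycle; for `z` in it `rk e z ≥ rk e u` gives `rk e' z ≥ rk e u` (elements of rank `≥ P` keep
  rank `≥ P`). So `u` is a minimum. The new list `p :: q :: l` is descending:
  `rk e' u < P = rk e' q < rk e' p`.
* `down`: `σ'⁻¹ s = τ` (`σ' τ = s`), `rk e' τ = rk e τ ≥ rk e s = rk e' s` by minimality of `s` in `S`.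
`glue_slice`: `glue (slice t) = (sw (sw e p q s) q p s, l, q) = t` by `sw_sw`.
-/

namespace HGQ

open Equiv

variable {H : Type*} [Fintype H] [DecidableEq H] {L : Type*} [DecidableEq L] {M : ℕ}

omit [Fintype H] [DecidableEq H] in
theorem bslice_apply_inv (σ : Perm H) (q : H) : σ (σ⁻¹ q) = q := σ.apply_symm_apply q

/-- facts on `p = mn al e q` and `s = cut al e q` when `q` is not a minimum and `q ≤ σ⁻¹ q` -/
theorem cut_spec {al : Perm H} {e : H ≃ Fin M} {q : H} (hq : ¬ IsMn al e q)
    (hd : rk e q ≤ rk e ((sg al e)⁻¹ q)) :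
    rk e (mn al e q) < rk e q ∧ rk e q < rk e (cut al e q) ∧
    (swap (mn al e q) q * sg al e).SameCycle (mn al e q) (cut al e q) ∧
    (∀ z, (swap (mn al e q) q * sg al e).SameCycle (mn al e q) z → rk e q < rk e z →
      rk e (cut al e q) ≤ rk e z) ∧
    (swap (mn al e q) q * sg al e).SameCycle (mn al e q) ((sg al e)⁻¹ q) ∧
    rk e q < rk e ((sg al e)⁻¹ q) := by
  classical
  have hne : mn al e q ≠ q := by
    intro h
    apply hq
    have := isMn_mn al e q
    rwa [h] at this
  have h1 : rk e (mn al e q) < rk e q := by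
    refine lt_of_le_of_ne (rk_mn_le al e (Perm.SameCycle.refl _ _)) ?_
    intro h
    exact hne (rk_injective e h)
  have hτne : (sg al e)⁻¹ q ≠ q := by
    intro h
    have hfix : (sg al e) q = q := by
      conv_lhs => rw [← h]
      exact bslice_apply_inv _ _
    have h2 : (sg al e).SameCycle q (mn al e q) := sameCycle_mn al e q
    exact hne (h2.eq_of_left hfix).symm
  have h6 : rk e q < rk e ((sg al e)⁻¹ q) := by
    refine lt_of_le_of_ne hd ?_
    intro h
    exact hτne (rk_injective e h).symm
  have h5 : (swap (mn al e q) q * sg al e).SameCycle (mn al e q) ((sg al e)⁻¹ q) := by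
    have : (swap (mn al e q) q * sg al e) ((sg al e)⁻¹ q) = mn al e q := by
      rw [Perm.mul_apply, bslice_apply_inv, swap_apply_right]
    have h7 : (swap (mn al e q) q * sg al e).SameCycle ((sg al e)⁻¹ q)
        ((swap (mn al e q) q * sg al e) ((sg al e)⁻¹ q)) :=
      Perm.sameCycle_apply_right.2 (Perm.SameCycle.refl _ _)
    rw [this] at h7
    exact h7.symm
  have hne' : (Finset.univ.filter
      (fun z => (swap (mn al e q) q * sg al e).SameCycle (mn al e q) z ∧ rk e q < rk e z)).Nonempty :=
    ⟨(sg al e)⁻¹ q, Finset.mem_filter.2 ⟨Finset.mem_univ _, h5, h6⟩⟩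
  have hmem : cut al e q ∈ Finset.univ.filter
      (fun z => (swap (mn al e q) q * sg al e).SameCycle (mn al e q) z ∧ rk e q < rk e z) := by
    unfold cut
    convert! amin_mem (e := e) q hne' using 1
  have hmin : ∀ z, (swap (mn al e q) q * sg al e).SameCycle (mn al e q) z → rk e q < rk e z →
      rk e (cut al e q) ≤ rk e z := by
    intro z hz hz'
    unfold cut
    apply rk_amin_le
    exact Finset.mem_filter.2 ⟨Finset.mem_univ _, hz, hz'⟩
  have hm := (Finset.mem_filter.1 hmem).2
  exact ⟨h1, hm.2, hm.1, hmin, h5, h6⟩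

theorem slice_mem {al : Perm H} {x : H → L} {v : L → ℕ} {i : L} {k : ℕ}
    {t : (H ≃ Fin M) × List H × H} (ht : AS al x v i k t) :
    XS al x (bump v i) i (k + 2) (slice al t) := by
  obtain ⟨e, l, q⟩ := t
  obtain ⟨⟨hgood, hprof, hlen, hmins, hdesc, hlab, hdown, habove⟩, hnm⟩ := ht
  simp only at hgood hprof hlen hmins hdesc hlab hdown habove hnm
  obtain ⟨hPQ, hQR, hs1, hsmin, hτ1, hτlt⟩ := cut_spec hnm hdown
  have hqp : (sg al e).SameCycle q (mn al e q) := sameCycle_mn al e q
  have hpmin : ∀ z, (sg al e).SameCycle q z → rk e (mn al e q) ≤ rk e z := fun z hz =>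
    rk_mn_le al e hz
  unfold slice
  simp only
  set p := mn al e q with hp
  set s := cut al e q with hs
  set σ := sg al e with hσ
  have hpq' : p ≠ q := by
    intro h
    rw [h] at hPQ
    exact lt_irrefl _ hPQ
  have hps' : p ≠ s := by
    intro h
    have : rk e p < rk e s := hPQ.trans hQR
    rw [h] at this
    exact lt_irrefl _ this
  have hqs' : q ≠ s := by
    intro h
    rw [← h] at hQR
    exact lt_irrefl _ hQR
  obtain ⟨n1, n2, n3, n4⟩ := slice_cycles hqp.symm hpq' hs1 hps'.symm
  have hσ' : sg al (sw e p q s) = swap p s * swap p q * σ := sg_sw al hPQ hQR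
  have hperm : swap q s * swap q p * (swap p s * swap p q * σ) = σ := slice_perm hpq' hps' hqs'
  have hthree : ∀ h k, σ.SameCycle h k ↔ (swap p s * swap p q * σ).SameCycle h k ∨
      (((swap p s * swap p q * σ).SameCycle q h ∨ (swap p s * swap p q * σ).SameCycle p h ∨
        (swap p s * swap p q * σ).SameCycle s h) ∧
      ((swap p s * swap p q * σ).SameCycle q k ∨ (swap p s * swap p q * σ).SameCycle p k ∨
        (swap p s * swap p q * σ).SameCycle s k)) := by
    intro h k
    have := sameCycle_three (σ := swap p s * swap p q * σ) (a := q) (b := p) (c := s)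
      (fun h => n1 h.symm) n3 n2 h k
    rw [hperm] at this
    exact this
  rw [← hσ'] at n1 n2 n3 n4 hthree hperm
  have hrk : ∀ h, rk (sw e p q s) h = bsf (rk e p) (rk e q) (rk e s) (rk e h) := fun h =>
    rk_sw hPQ hQR h
  -- cycles of `q`, `p`, `s` are contained in the old cycle of `q`
  have hold : ∀ z, ((sg al (sw e p q s)).SameCycle q z ∨ (sg al (sw e p q s)).SameCycle p z ∨
      (sg al (sw e p q s)).SameCycle s z) → σ.SameCycle q z := by
    intro z hz
    rw [hthree]
    exact Or.inr ⟨Or.inl (Perm.SameCycle.refl _ _), hz⟩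
  have hsub : ∀ h k, (sg al (sw e p q s)).SameCycle h k → σ.SameCycle h k := by
    intro h k hk
    rw [hthree]
    exact Or.inl hk
  have hxp : x p = i := by rw [label_const hgood hqp, hlab]
  have hxs : x s = i := by
    rw [label_const hgood (hold s (Or.inr (Or.inr (Perm.SameCycle.refl _ _)))), hlab]
  have hgood' : ∀ h, x (sg al (sw e p q s) h) = x h := by
    intro h
    rw [hσ', Perm.mul_apply, Perm.mul_apply, ← hgood h]
    generalize σ h = z
    by_cases h1 : z = q
    · rw [h1, swap_apply_right, swap_apply_left, hxs, hlab]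
    · by_cases h2 : z = p
      · rw [h2, swap_apply_left, swap_apply_of_ne_of_ne hpq'.symm hqs', hlab, hxp]
      · rw [swap_apply_of_ne_of_ne h2 h1]
        by_cases h3 : z = s
        · rw [h3, swap_apply_right, hxp, hxs]
        · rw [swap_apply_of_ne_of_ne h2 h3]
  have eP : rk (sw e p q s) p = rk e p + (rk e s - rk e q) := by
    rw [hrk]; unfold bsf; split_ifs <;> omega
  have eQ : rk (sw e p q s) q = rk e p := by
    rw [hrk]; unfold bsf; split_ifs <;> omega
  have eR : rk (sw e p q s) s = rk e s := by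
    rw [hrk]; unfold bsf; split_ifs <;> omega
  have elow : ∀ h, rk e h < rk e p → rk (sw e p q s) h = rk e h := by
    intro h hh
    rw [hrk]; unfold bsf; rw [if_pos hh]
  have ege : ∀ h, rk e p ≤ rk e h → rk e p ≤ rk (sw e p q s) h := by
    intro h hh
    rw [hrk]; unfold bsf; split_ifs <;> omega
  have hul : ∀ u ∈ l, rk e u < rk e p := fun u hu => habove u hu p hqp
  -- elements of the new cycles of `p` and `s`
  have hps : ∀ z, ((sg al (sw e p q s)).SameCycle p z ∨ (sg al (sw e p q s)).SameCycle s z) →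
      (rk e p ≤ rk e z ∧ rk e z < rk e q) ∨ rk e s ≤ rk e z := by
    intro z hz
    have hz1 : rk e p ≤ rk e z := hpmin z (hold z (Or.inr hz))
    have hz2 := (n4 z).2 hz
    have hzq : z ≠ q := by
      rintro rfl
      rcases hz with hz | hz
      · exact n1 hz
      · exact n3 hz.symm
    have hzr : rk e z ≠ rk e q := fun h => hzq (rk_injective e h)
    by_cases hlt : rk e q < rk e z
    · exact Or.inr (hsmin z hz2 hlt)
    · exact Or.inl ⟨hz1, by omega⟩
  refine ⟨hgood', ?_, ?_, ?_, ?_, hxs, ?_, ?_⟩
  · intro j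
    have h := prof_three (x := x) (σ := sg al (sw e p q s)) (a := q) (b := p) (c := s)
      (fun h => n1 h.symm) n3 n2 hgood' (by rw [hlab, hxp]) (by rw [hlab, hxs]) j
    rw [hperm, hprof] at h
    show prof x (sg al (sw e p q s)) j = bump v i j
    rw [← h, hlab]
    unfold bump
    by_cases hj : j = i
    · subst hj
      simp
    · rw [Function.update_of_ne hj, if_neg (Ne.symm hj), add_zero]
  · show (p :: q :: l).length = k + 2
    simp [hlen]
  · intro u hu
    simp only [List.mem_cons] at hu
    show IsMn al (sw e p q s) u ∧ x u = i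
    rcases hu with rfl | rfl | hu
    · refine ⟨?_, hxp⟩
      intro z hz
      rw [eP]
      rcases hps z (Or.inl hz) with ⟨h1, h2⟩ | h1
      · rw [hrk z]; unfold bsf; split_ifs <;> omega
      · rw [hrk z]; unfold bsf; split_ifs <;> omega
    · refine ⟨?_, hlab⟩
      intro z hz
      rw [eQ]
      exact ege z (hpmin z (hsub _ _ hz))
    · refine ⟨?_, (hmins u hu).2⟩
      intro z hz
      rw [elow u (hul u hu)]
      have h1 : rk e u ≤ rk e z := (hmins u hu).1 z (hsub _ _ hz)
      by_cases h2 : rk e z < rk e p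
      · rw [elow z h2]
        exact h1
      · have := ege z (not_lt.1 h2)
        have := hul u hu
        omega
  · show (p :: q :: l).Pairwise (fun u w => rk (sw e p q s) w < rk (sw e p q s) u)
    rw [List.pairwise_cons, List.pairwise_cons]
    refine ⟨?_, ?_, ?_⟩
    · intro w hw
      rw [List.mem_cons] at hw
      rw [eP]
      rcases hw with rfl | hw
      · rw [eQ]; omega
      · rw [elow w (hul w hw)]
        have := hul w hw
        omega
    · intro w hw
      rw [eQ, elow w (hul w hw)]
      exact hul w hw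
    · refine hdesc.imp_of_mem ?_
      intro a b ha hb hab
      rw [elow a (hul a ha), elow b (hul b hb)]
      exact hab
  · show rk (sw e p q s) s ≤ rk (sw e p q s) ((sg al (sw e p q s))⁻¹ s)
    have hinv : (sg al (sw e p q s))⁻¹ s = σ⁻¹ q := by
      rw [Perm.inv_eq_iff_eq, hσ', Perm.mul_apply, Perm.mul_apply, bslice_apply_inv,
        swap_apply_right, swap_apply_left]
    rw [hinv, eR]
    have h1 := hsmin _ hτ1 hτlt
    rw [hrk]; unfold bsf; split_ifs <;> omega
  · intro u hu w hw
    show rk (sw e p q s) u < rk (sw e p q s) w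
    have hwp : rk e w ≠ rk e p := by
      intro h
      have : w = p := rk_injective e h
      rw [this] at hw
      exact n2 hw.symm
    have hbig : rk (sw e p q s) p < rk (sw e p q s) w := by
      rw [eP]
      rcases hps w (Or.inr hw) with ⟨h1, h2⟩ | h1
      · rw [hrk w]; unfold bsf; split_ifs <;> omega
      · rw [hrk w]; unfold bsf; split_ifs <;> omega
    simp only [List.mem_cons] at hu
    rcases hu with rfl | rfl | hu
    · exact hbig
    · rw [eQ]
      rw [eP] at hbig
      omega
    · rw [elow u (hul u hu)]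
      have := hul u hu
      rw [eP] at hbig
      omega

theorem glue_slice {al : Perm H} {x : H → L} {v : L → ℕ} {i : L} {k : ℕ}
    {t : (H ≃ Fin M) × List H × H} (ht : AS al x v i k t) :
    glue (slice al t) = t := by
  obtain ⟨e, l, q⟩ := t
  obtain ⟨h1, h2, -, -, -, -⟩ := cut_spec ht.2 ht.1.down
  unfold slice glue
  simp only
  rw [sw_sw h1 h2]

end HGQ
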