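import Pool.Agent.HGQ.BTri
import Pool.Agent.HGQ.BOddId

/-! # HGQ part B: solution of the trisection recursion

PAPER PROOF. Put `b(v) = ∑_{e planar good} ∏_i oc (N_i) (v_i)`, `N_i = prof x (sg al e) i`. Strong induction on `g`.
`g = 0`: `∑ v = n + 1 = ∑ N_i`; if the product is not `0` then `v_i ≤ N_i` for all `i` (`oc_of_lt`), so `v = N` and
the product is `1` (`oc_self`): `b(v)` counts the good tours with profile `v` (such tours have
`ncyc = ∑ v = n+1`). `g > 0`: by `tri_rec` (`n + 1 - ∑ v = 2g`)
`2g 4^g a(v) = ∑_{i,p≥1} C(v_i+2p,2p+1) 4^p 4^(g-p) a(v + 2p e_i)`; for `p ≤ g` the induction hypothesis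
applies to `v + 2p e_i` (sum `n+1-2(g-p)`); for `p > g` both `a` and the product `∏ oc` vanish
(`∑ (v+2p e_i) > n+1`: apply `card_isMn_total ≤ card_down`, or: define things so that `a(w) = 0` when
`∑ w > n+1`; a good tour has `ncyc ≤ n+1` because minima are among the `n+1` half-edges of `card_down`). So it is
`∑_e ∑_i (∑_{p≥1} C(v_i+2p,2p+1) 4^p oc N_i (v_i+2p)) ∏_{j≠i} oc N_j v_j
 = ∑_e ∑_i (N_i - v_i) ∏_j oc N_j v_j = ∑_e (n+1-∑v) ∏_j oc N_j v_j = 2g b(v)` by `oc_identity`
(the term `p = 0` is `v_i oc N_i v_i`; the range of `p` in `tri_rec` and `oc_identity` can be enlarged freely).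
-/

namespace HGQ

open Equiv

variable {H : Type*} [Fintype H] [DecidableEq H] {L : Type*} [DecidableEq L]

theorem ncyc_le {al : Perm H} (hal : IsEdges al) {n : ℕ} (hn : 0 < n) (e : H ≃ Fin (2 * n)) :
    ncyc (sg al e) ≤ n + 1 := by
  classical
  rw [← card_isMn_total al e, ← card_down hal hn rfl e]
  apply Finset.card_le_card
  intro m hm
  rw [Finset.mem_filter] at hm ⊢
  exact ⟨hm.1, hm.2 _ ⟨-1, by simp⟩⟩

theorem tcount_eq_zero [Fintype L] {al : Perm H} (hal : IsEdges al) {n : ℕ} (hn : 0 < n)
    (x : H → L) (v : L → ℕ) (hv : n + 1 < ∑ i, v i) : tcount (2 * n) al x v = 0 := by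
  unfold tcount
  have : IsEmpty {e : H ≃ Fin (2 * n) //
      (∀ h, x (sg al e h) = x h) ∧ ∀ j, prof x (sg al e) j = v j} := by
    constructor
    rintro ⟨e, he1, he2⟩
    have h1 := ncyc_le hal hn e
    have h2 : ∑ j, prof x (sg al e) j = ∑ j, v j := Finset.sum_congr rfl (fun j _ => he2 j)
    rw [ncyc_eq_sum_prof he1, h2] at h1
    omega
  exact Nat.card_of_isEmpty

omit [DecidableEq L] in
/-- if `∑ N < ∑ w` the product of `oc N_i w_i` vanishes -/
theorem bsolve_prod_zero [Fintype L] (N w : L → ℕ) (h : ∑ i, N i < ∑ i, w i) :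
    ∏ i, oc (N i) (w i) = 0 := by
  have : ∃ i, N i < w i := by
    by_contra hcon
    push Not at hcon
    exact absurd (Finset.sum_le_sum (fun i (_ : i ∈ Finset.univ) => hcon i)) (by omega)
  obtain ⟨i, hi⟩ := this
  exact Finset.prod_eq_zero (Finset.mem_univ i) (oc_of_lt hi)

omit [DecidableEq L] in
/-- if `∑ N = ∑ w` the product of `oc N_i w_i` is the indicator of `N = w` -/
theorem bsolve_prod_eq [Fintype L] (N w : L → ℕ) (h : ∑ i, N i = ∑ i, w i) :
    ∏ i, oc (N i) (w i) = if ∀ j, N j = w j then 1 else 0 := by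
  split_ifs with hc
  · exact Finset.prod_eq_one (fun i _ => by rw [hc i]; exact oc_self _)
  · have : ∃ i, N i < w i := by
      by_contra hcon
      push Not at hcon
      apply hc
      intro j
      have := (Finset.sum_eq_sum_iff_of_le (fun i (_ : i ∈ Finset.univ) => hcon i)).1 h.symm
      exact (this j (Finset.mem_univ j)).symm
    obtain ⟨i, hi⟩ := this
    exact Finset.prod_eq_zero (Finset.mem_univ i) (oc_of_lt hi)

/-- `oc_identity` with the term `p = 0` split off and the range enlarged -/
theorem bsolve_identity (N v K : ℕ) (hK : N ≤ K) :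
    N * oc N v = v * oc N v + ∑ p ∈ Finset.range K,
      (v + 2 * (p + 1)).choose (2 * (p + 1) + 1) * 4 ^ (p + 1) * oc N (v + 2 * (p + 1)) := by
  rw [oc_identity, Finset.sum_range_succ']
  rw [add_comm]
  congr 1
  · simp
  · apply Finset.sum_subset_zero_on_sdiff
    · intro p hp
      rw [Finset.mem_range] at hp ⊢
      omega
    · intro p hp
      rw [Finset.mem_sdiff, Finset.mem_range, Finset.mem_range] at hp
      rw [oc_of_lt (by omega), mul_zero]
    · intro p _
      rfl

/-- sum of `update` -/
theorem bsolve_sum_update [Fintype L] (v : L → ℕ) (i : L) (a : ℕ) :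
    ∑ j, Function.update v i (v i + a) j = ∑ j, v j + a := by
  rw [Finset.sum_update_of_mem (Finset.mem_univ i),
    ← Finset.add_sum_erase Finset.univ v (Finset.mem_univ i), Finset.sdiff_singleton_eq_erase]
  omega

/-- the algebra of one tour -/
theorem bsolve_one [Fintype L] (N v : L → ℕ) (K : ℕ) (hN : ∑ i, N i = K) :
    K * ∏ i, oc (N i) (v i) = (∑ i, v i) * ∏ i, oc (N i) (v i) +
      ∑ i, ∑ p ∈ Finset.range K, (v i + 2 * (p + 1)).choose (2 * (p + 1) + 1) * 4 ^ (p + 1) *
        ∏ j, oc (N j) (Function.update v i (v i + 2 * (p + 1)) j) := by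
  have key : ∀ i, N i * ∏ j, oc (N j) (v j) = v i * ∏ j, oc (N j) (v j) +
      ∑ p ∈ Finset.range K, (v i + 2 * (p + 1)).choose (2 * (p + 1) + 1) * 4 ^ (p + 1) *
        ∏ j, oc (N j) (Function.update v i (v i + 2 * (p + 1)) j) := by
    intro i
    have hNi : N i ≤ K := by
      rw [← hN]
      exact Finset.single_le_sum (fun _ _ => Nat.zero_le _) (Finset.mem_univ i)
    have hupd : ∀ a, ∏ j, oc (N j) (Function.update v i a j) =
        oc (N i) a * ∏ j ∈ Finset.univ.erase i, oc (N j) (v j) := by
      intro a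
      rw [← Finset.mul_prod_erase Finset.univ _ (Finset.mem_univ i), Function.update_self]
      congr 1
      apply Finset.prod_congr rfl
      intro j hj
      rw [Function.update_of_ne (Finset.ne_of_mem_erase hj)]
    have h0 : ∏ j, oc (N j) (v j) =
        oc (N i) (v i) * ∏ j ∈ Finset.univ.erase i, oc (N j) (v j) := by
      rw [← Finset.mul_prod_erase Finset.univ _ (Finset.mem_univ i)]
    rw [h0, ← mul_assoc, bsolve_identity (N i) (v i) K hNi, add_mul, mul_assoc (v i), Finset.sum_mul]
    congr 1
    apply Finset.sum_congr rfl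
    intro p _
    rw [hupd, mul_assoc _ (oc _ _)]
  rw [← hN, Finset.sum_mul, Finset.sum_mul, ← Finset.sum_add_distrib, hN]
  exact Finset.sum_congr rfl (fun i _ => key i)

open Classical in
theorem solve [Fintype L] {al : Perm H} (hal : IsEdges al) {n : ℕ} (hn : 0 < n)
    (hcard : Fintype.card H = 2 * n) (x : H → L) (g : ℕ) (v : L → ℕ)
    (hv : ∑ i, v i + 2 * g = n + 1) :
    4 ^ g * tcount (2 * n) al x v =
      ∑ e ∈ Finset.univ.filter (fun e : H ≃ Fin (2 * n) =>
          (∀ h, x (sg al e h) = x h) ∧ ncyc (sg al e) = n + 1),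
        ∏ i, oc (prof x (sg al e) i) (v i) := by
  have hT : ∀ e ∈ Finset.univ.filter (fun e : H ≃ Fin (2 * n) =>
      (∀ h, x (sg al e h) = x h) ∧ ncyc (sg al e) = n + 1),
      ∑ i, prof x (sg al e) i = n + 1 := by
    intro e he
    rw [Finset.mem_filter] at he
    rw [← ncyc_eq_sum_prof he.2.1, he.2.2]
  induction g using Nat.strong_induction_on generalizing v with
  | _ g ih =>
    rcases Nat.eq_zero_or_pos g with hg | hg
    · subst hg
      rw [pow_zero, one_mul, Finset.sum_congr rfl (fun e he => bsolve_prod_eq _ v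
        (by rw [hT e he]; omega)), Finset.sum_ite, Finset.sum_const_zero, add_zero,
        Finset.sum_const, smul_eq_mul, mul_one, Finset.filter_filter]
      unfold tcount
      rw [Nat.card_eq_fintype_card, Fintype.card_subtype]
      congr 1
      apply Finset.filter_congr
      intro e _
      constructor
      · rintro ⟨h1, h2⟩
        refine ⟨⟨h1, ?_⟩, h2⟩
        rw [ncyc_eq_sum_prof h1, Finset.sum_congr rfl (fun j _ => h2 j)]
        omega
      · rintro ⟨⟨h1, _⟩, h2⟩
        exact ⟨h1, h2⟩
    · have hrec := tri_rec hal hn hcard x v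
      set T := Finset.univ.filter (fun e : H ≃ Fin (2 * n) =>
        (∀ h, x (sg al e h) = x h) ∧ ncyc (sg al e) = n + 1) with hTdef
      have hstep : ∀ i, ∀ p, 4 ^ g * tcount (2 * n) al x
          (Function.update v i (v i + 2 * (p + 1))) =
          4 ^ (p + 1) * ∑ e ∈ T, ∏ j, oc (prof x (sg al e) j)
            (Function.update v i (v i + 2 * (p + 1)) j) := by
        intro i p
        by_cases hp : p + 1 ≤ g
        · have h1 := ih (g - (p + 1)) (by omega) (Function.update v i (v i + 2 * (p + 1)))
            (by rw [bsolve_sum_update]; omega)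
          rw [← h1, ← mul_assoc, ← pow_add]
          congr 2
          omega
        · have hs : n + 1 < ∑ j, Function.update v i (v i + 2 * (p + 1)) j := by
            rw [bsolve_sum_update]; omega
          rw [tcount_eq_zero hal hn x _ hs, mul_zero,
            Finset.sum_eq_zero (fun e he => bsolve_prod_zero _ _ (by rw [hT e he]; exact hs)),
            mul_zero]
      have hB : (n + 1) * (∑ e ∈ T, ∏ i, oc (prof x (sg al e) i) (v i)) =
          (∑ i, v i) * (∑ e ∈ T, ∏ i, oc (prof x (sg al e) i) (v i)) +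
          ∑ i, ∑ p ∈ Finset.range (n + 1), (v i + 2 * (p + 1)).choose (2 * (p + 1) + 1) *
            (4 ^ (p + 1) * ∑ e ∈ T, ∏ j, oc (prof x (sg al e) j)
              (Function.update v i (v i + 2 * (p + 1)) j)) := by
        rw [Finset.mul_sum, Finset.sum_congr rfl (fun e he => bsolve_one _ v (n + 1) (hT e he)),
          Finset.sum_add_distrib, ← Finset.mul_sum, Finset.sum_comm]
        congr 1
        apply Finset.sum_congr rfl
        intro i _
        rw [Finset.sum_comm]
        apply Finset.sum_congr rfl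
        intro p _
        rw [← Finset.mul_sum, mul_assoc]
      have hA : (n + 1) * (4 ^ g * tcount (2 * n) al x v) =
          (∑ i, v i) * (4 ^ g * tcount (2 * n) al x v) +
          ∑ i, ∑ p ∈ Finset.range (n + 1), (v i + 2 * (p + 1)).choose (2 * (p + 1) + 1) *
            (4 ^ (p + 1) * ∑ e ∈ T, ∏ j, oc (prof x (sg al e) j)
              (Function.update v i (v i + 2 * (p + 1)) j)) := by
        calc (n + 1) * (4 ^ g * tcount (2 * n) al x v)
            = 4 ^ g * ((n + 1) * tcount (2 * n) al x v) := by ring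
          _ = (∑ i, v i) * (4 ^ g * tcount (2 * n) al x v) +
              4 ^ g * ∑ i, ∑ p ∈ Finset.range (n + 1),
                (v i + 2 * (p + 1)).choose (2 * (p + 1) + 1) *
                tcount (2 * n) al x (Function.update v i (v i + 2 * (p + 1))) := by
              rw [hrec]; ring
          _ = _ := by
              congr 1
              rw [Finset.mul_sum]
              apply Finset.sum_congr rfl
              intro i _
              rw [Finset.mul_sum]
              apply Finset.sum_congr rfl
              intro p _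
              rw [← hstep i p]
              ring
      have hlt : ∑ i, v i < n + 1 := by omega
      obtain ⟨d, hd⟩ := Nat.exists_eq_add_of_lt hlt
      have hA' : (d + 1) * (4 ^ g * tcount (2 * n) al x v) =
          ∑ i, ∑ p ∈ Finset.range (n + 1), (v i + 2 * (p + 1)).choose (2 * (p + 1) + 1) *
            (4 ^ (p + 1) * ∑ e ∈ T, ∏ j, oc (prof x (sg al e) j)
              (Function.update v i (v i + 2 * (p + 1)) j)) := by
        have h1 : (n + 1) * (4 ^ g * tcount (2 * n) al x v) =
            (∑ i, v i) * (4 ^ g * tcount (2 * n) al x v) +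
            (d + 1) * (4 ^ g * tcount (2 * n) al x v) := by
          rw [hd]; ring
        rw [h1] at hA
        exact Nat.add_left_cancel hA
      have hB' : (d + 1) * (∑ e ∈ T, ∏ i, oc (prof x (sg al e) i) (v i)) =
          ∑ i, ∑ p ∈ Finset.range (n + 1), (v i + 2 * (p + 1)).choose (2 * (p + 1) + 1) *
            (4 ^ (p + 1) * ∑ e ∈ T, ∏ j, oc (prof x (sg al e) j)
              (Function.update v i (v i + 2 * (p + 1)) j)) := by
        have h1 : (n + 1) * (∑ e ∈ T, ∏ i, oc (prof x (sg al e) i) (v i)) =
            (∑ i, v i) * (∑ e ∈ T, ∏ i, oc (prof x (sg al e) i) (v i)) +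
            (d + 1) * (∑ e ∈ T, ∏ i, oc (prof x (sg al e) i) (v i)) := by
          rw [hd]; ring
        rw [h1] at hB
        exact Nat.add_left_cancel hB
      exact Nat.eq_of_mul_eq_mul_left (Nat.succ_pos d) (hA'.trans hB'.symm)

end HGQ
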