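import Pool.Agent.HGQ.BOdd

/-! # HGQ part B: coefficient extraction

PAPER PROOF. By `coeff_A`, `coeff_A_of_lt`: `oc (N i) (v i)` is `(A (N i)).coeff k_i` with `v_i = N_i - 2 k_i` if
`v_i ≤ N_i` has the parity of `N_i`, and `0` otherwise (`oc_of_lt`, `oc_parity`). So only these `v` contribute, and
`v ↦ k` is a bijection onto the `k` with `∑ k = g`, `2 k_i ≤ N_i`; the coefficient of `s^g` of `∏_i A (N i)` is
`∑_{k : ∑ k = g} ∏_i (A (N i)).coeff (k i)` (`Finset.prod_univ_sum` after writing each `A (N i)` as
`∑_{k ≤ B} C (coeff k) * X^k`; or induct on `ι` by `Finset.induction` in a version over `Finset ι`).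
-/

namespace HGQ

/-- coefficients of a product of polynomials -/
theorem BSumProd_coeff_prod {ι : Type*} [Fintype ι] [DecidableEq ι] (f : ι → Polynomial ℕ) (g : ℕ) :
    (∏ i, f i).coeff g =
      ∑ l ∈ Finset.finsuppAntidiag (Finset.univ : Finset ι) g, ∏ i, (f i).coeff (l i) := by
  have h := PowerSeries.coeff_prod (R := ℕ) (fun i => ((f i : Polynomial ℕ) : PowerSeries ℕ)) g
    (Finset.univ : Finset ι)
  have h2 : (∏ j, ((f j : Polynomial ℕ) : PowerSeries ℕ)) =
      ((∏ j, f j : Polynomial ℕ) : PowerSeries ℕ) := by
    exact (map_prod (Polynomial.coeToPowerSeries.ringHom (R := ℕ)) f Finset.univ).symm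
  rw [h2] at h
  simpa [Polynomial.coeff_coe] using h

/-- the inner sum, for a finite index type: coefficient extraction -/
theorem sum_prod_oc {ι : Type*} [Fintype ι] [DecidableEq ι] (N : ι → ℕ) (B g : ℕ)
    (hB : ∀ i, N i ≤ B) :
    ∑ v ∈ (Fintype.piFinset (fun _ : ι => Finset.range (B + 1))).filter
        (fun v => ∑ i, v i + 2 * g = ∑ i, N i), ∏ i, oc (N i) (v i) =
      (∏ i, A (N i)).coeff g := by
  classical
  rw [BSumProd_coeff_prod]
  rw [← Finset.sum_filter_of_ne (s := Finset.finsuppAntidiag (Finset.univ : Finset ι) g)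
    (p := fun l => ∀ i, 2 * l i ≤ N i)]
  swap
  · intro l _ hne i
    by_contra hlt
    apply hne
    exact Finset.prod_eq_zero (Finset.mem_univ i) (coeff_A_of_lt (by omega))
  symm
  apply Finset.sum_of_injOn (fun (l : ι →₀ ℕ) => (fun i => N i - 2 * l i : ι → ℕ))
  · intro l hl l' hl' h
    simp only [Finset.coe_filter, Set.mem_setOf_eq] at hl hl'
    ext i
    have h1 := congrFun h i
    simp only at h1
    have h2 := hl.2 i
    have h3 := hl'.2 i
    omega
  · intro l hl
    simp only [Finset.coe_filter, Set.mem_setOf_eq, Finset.mem_finsuppAntidiag] at hl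
    simp only [Finset.coe_filter, Set.mem_setOf_eq, Fintype.mem_piFinset, Finset.mem_range]
    refine ⟨fun i => ?_, ?_⟩
    · have := hB i
      omega
    · have h1 : ∑ i, l i = g := hl.1.1
      rw [← h1, Finset.mul_sum, ← Finset.sum_add_distrib]
      apply Finset.sum_congr rfl
      intro i _
      have := hl.2 i
      omega
  · intro v hv hnv
    simp only [Finset.mem_filter, Fintype.mem_piFinset, Finset.mem_range] at hv
    by_contra hne
    have hne' : ∀ i, oc (N i) (v i) ≠ 0 := by
      intro i h0
      exact hne (Finset.prod_eq_zero (Finset.mem_univ i) h0)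
    have hle : ∀ i, v i ≤ N i := by
      intro i
      by_contra hlt
      exact hne' i (oc_of_lt (by omega))
    have hpar : ∀ i, (N i + v i) % 2 = 0 := by
      intro i
      by_contra h1
      exact hne' i (oc_parity (by omega))
    apply hnv
    refine ⟨Finsupp.equivFunOnFinite.symm (fun i => (N i - v i) / 2), ?_, ?_⟩
    · simp only [Finset.coe_filter, Set.mem_setOf_eq, Finset.mem_finsuppAntidiag]
      refine ⟨⟨?_, fun i _ => Finset.mem_univ i⟩, ?_⟩
      · have h1 : 2 * ∑ i, (N i - v i) / 2 = 2 * g := by
          have h2 : ∑ i, v i + 2 * ∑ i, (N i - v i) / 2 = ∑ i, N i := by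
            rw [Finset.mul_sum, ← Finset.sum_add_distrib]
            apply Finset.sum_congr rfl
            intro i _
            have := hle i
            have := hpar i
            omega
          have := hv.2
          omega
        simpa using Nat.eq_of_mul_eq_mul_left (by norm_num) h1
      · intro i
        simp only [Finsupp.equivFunOnFinite_symm_apply_apply]
        omega
    · funext i
      simp only [Finsupp.equivFunOnFinite_symm_apply_apply]
      have := hle i
      have := hpar i
      omega
  · intro l hl
    simp only [Finset.mem_filter] at hl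
    apply Finset.prod_congr rfl
    intro i _
    exact coeff_A (hl.2 i)

end HGQ
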