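import Pool.Agent.HGQ.BSolve
import Pool.Agent.HGQ.BSumProd

/-! # HGQ part B: summation over the profiles

PAPER PROOF. First for a `Fintype` of labels (apply to `L' = {i // i ∈ univ.image x}`, labels `x` corestricted;
`prof` does not change): good tours with `ncyc + 2g = n + 1` are partitioned by their profile
`v ∈ Fintype.piFinset (fun _ => range (2n+1))` with `∑ v + 2g = n+1`. By `solve`
`4^g * # = ∑_e ∑_{v : ∑ v + 2g = n+1} ∏_i oc (N_i) (v_i)` and for each planar `e` (`∑ N_i = n+1`) the inner sum is
the coefficient of `X^(n+1-2g)` in `∏_i P (N_i)` (`Finset.prod_univ_sum`), which is `[s^g] ∏ A (N_i)`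
(`coeff_A`, `coeff_A_of_lt`, `oc_parity`, `oc_of_lt`): substituting `v_i = N_i - 2 k_i`,
`∑_{k : ∑ k = g} ∏ (A N_i).coeff (k_i)`.
-/

namespace HGQ

open Equiv

variable {H : Type*} [Fintype H] [DecidableEq H] {L : Type*} [DecidableEq L]

open Classical in
/-- the summation formula for a finite type of labels -/
theorem bsum_fintype [Fintype L] {al : Perm H} (hal : IsEdges al) {n : ℕ} (hn : 0 < n)
    (hcard : Fintype.card H = 2 * n) (x : H → L) (g : ℕ) :
    4 ^ g * Nat.card {e : H ≃ Fin (2 * n) //
        (∀ h, x (sg al e h) = x h) ∧ ncyc (sg al e) + 2 * g = n + 1} =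
      ∑ e ∈ Finset.univ.filter (fun e : H ≃ Fin (2 * n) =>
          (∀ h, x (sg al e h) = x h) ∧ ncyc (sg al e) = n + 1),
        (∏ i, A (prof x (sg al e) i)).coeff g := by
  set V : Finset (L → ℕ) := (Fintype.piFinset (fun _ : L => Finset.range (2 * n + 1))).filter
    (fun v => ∑ i, v i + 2 * g = n + 1) with hV
  -- partition by profile
  have h1 : Nat.card {e : H ≃ Fin (2 * n) //
      (∀ h, x (sg al e h) = x h) ∧ ncyc (sg al e) + 2 * g = n + 1} =
      ∑ v ∈ V, tcount (2 * n) al x v := by
    rw [Nat.card_eq_fintype_card, Fintype.card_subtype]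
    rw [Finset.card_eq_sum_card_fiberwise (f := fun e => prof x (sg al e)) (t := V)]
    · apply Finset.sum_congr rfl
      intro v hv
      rw [hV, Finset.mem_filter] at hv
      unfold tcount
      rw [Nat.card_eq_fintype_card, Fintype.card_subtype, Finset.filter_filter]
      congr 1
      apply Finset.filter_congr
      intro e _
      constructor
      · rintro ⟨⟨h1, _⟩, h2⟩
        exact ⟨h1, fun j => congrFun h2 j⟩
      · rintro ⟨h1, h2⟩
        refine ⟨⟨h1, ?_⟩, funext h2⟩
        rw [ncyc_eq_sum_prof h1, Finset.sum_congr rfl (fun j _ => h2 j)]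
        exact hv.2
    · intro e he
      rw [Finset.mem_coe, Finset.mem_filter] at he
      rw [Finset.mem_coe, hV, Finset.mem_filter, Fintype.mem_piFinset]
      refine ⟨fun i => ?_, ?_⟩
      · rw [Finset.mem_range]
        have h3 : prof x (sg al e) i ≤ Fintype.card H := prof_le_card i
        rw [hcard] at h3
        exact Nat.lt_succ_of_le h3
      · rw [← ncyc_eq_sum_prof he.2.1]
        exact he.2.2
  rw [h1, Finset.mul_sum]
  rw [Finset.sum_congr rfl (fun v hv => solve hal hn hcard x g v (by
    rw [hV, Finset.mem_filter] at hv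
    exact hv.2))]
  rw [Finset.sum_comm]
  apply Finset.sum_congr rfl
  intro e he
  rw [Finset.mem_filter] at he
  have hT : ∑ i, prof x (sg al e) i = n + 1 := by
    rw [← ncyc_eq_sum_prof he.2.1, he.2.2]
  rw [← sum_prod_oc (fun i => prof x (sg al e) i) (2 * n) g
    (fun i => (prof_le_card (x := x) (σ := sg al e) i).trans hcard.le), hV, hT]

/-- the profile does not change under corestriction of the labels -/
theorem bsum_prof (x : H → L) (S : Finset L) (hS : ∀ h, x h ∈ S) (σ : Perm H)
    (i : {i // i ∈ S}) :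
    prof (fun h => (⟨x h, hS h⟩ : {i // i ∈ S})) σ i = prof x σ i.1 := by
  unfold prof
  congr 1
  congr 1
  ext h
  simp only [Finset.mem_filter, Finset.mem_univ, true_and]
  exact Subtype.ext_iff

open Classical in
theorem sum_form {al : Perm H} (hal : IsEdges al) {n : ℕ} (hn : 0 < n)
    (hcard : Fintype.card H = 2 * n) (x : H → L) (g : ℕ) :
    4 ^ g * Nat.card {e : H ≃ Fin (2 * n) //
        (∀ h, x (sg al e h) = x h) ∧ ncyc (sg al e) + 2 * g = n + 1} =
      ∑ e ∈ Finset.univ.filter (fun e : H ≃ Fin (2 * n) =>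
          (∀ h, x (sg al e h) = x h) ∧ ncyc (sg al e) = n + 1),
        (∏ i ∈ Finset.univ.image x, A (prof x (sg al e) i)).coeff g := by
  have hS : ∀ h, x h ∈ Finset.univ.image x := fun h =>
    Finset.mem_image_of_mem x (Finset.mem_univ h)
  have key := bsum_fintype hal hn hcard
    (fun h => (⟨x h, hS h⟩ : {i // i ∈ Finset.univ.image x})) g
  have hx : ∀ e : H ≃ Fin (2 * n), (∀ h, (⟨x (sg al e h), hS _⟩ : {i // i ∈ Finset.univ.image x}) =
      ⟨x h, hS h⟩) ↔ ∀ h, x (sg al e h) = x h := by
    intro e
    simp only [Subtype.mk.injEq]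
  simp only [hx] at key
  rw [key]
  apply Finset.sum_congr rfl
  intro e _
  congr 1
  rw [← Finset.prod_coe_sort (Finset.univ.image x) (fun i => A (prof x (sg al e) i))]
  apply Finset.prod_congr rfl
  intro i _
  rw [bsum_prof x _ hS]

end HGQ
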