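import Mathlib

/-! # HGQ: labelled unicellular maps (common definitions of the parts B, T, C, D) -/

namespace HGQ

open Equiv

/-- number of cycles, as cardinality of the quotient -/
noncomputable def nc {X : Type*} (s : Perm X) : ℕ := Nat.card (Quotient (Equiv.Perm.SameCycle.setoid s))

/-- labelled unicellular maps on `Fin (2n)`: `al` edge involution, `s` vertex rotation,
`s * al` the face permutation (one cycle), `l` labels of the half-edges -/
def IsUni (n : ℕ) (al s : Perm (Fin (2 * n))) (l : Fin (2 * n) → ℤ) : Prop :=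
  (∀ x, al (al x) = x) ∧ (∀ x, al x ≠ x) ∧ (∀ x y, (s * al).SameCycle x y) ∧
    (∀ x, l (s x) = l x) ∧ (∀ x, |l (al x) - l x| ≤ 1)

end HGQ
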