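import Pool.Agent.HGQ.TMain
import Pool.Agent.HGQ.UDefs

/-! # HGQ parts B + T: the exact formula

PAPER PROOF. `ncyc_eq_nc`: `cyc σ` induces a bijection from the quotient by `SameCycle` onto the set of cycles.
`exact_LU`: `4^g #{(al, σ, x)} = ∑_al ∑_x 4^g #{σ}`; for fixed `al`, `x` apply `sigma_form`
(`univ.image x = L`), then `planar_sum`. All sets are finite (`finite_LU`; `x` takes values in `L`).
-/

namespace HGQ

open Equiv

theorem ncyc_eq_nc {H : Type*} [Fintype H] [DecidableEq H] (σ : Perm H) : ncyc σ = nc σ := by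
  classical
  let φ : Quotient (Equiv.Perm.SameCycle.setoid σ) → {c // c ∈ Finset.univ.image (cyc σ)} :=
    Quotient.lift (fun h => ⟨cyc σ h, Finset.mem_image_of_mem _ (Finset.mem_univ h)⟩)
      (fun a b hab => Subtype.ext (cyc_eq_iff.2 hab))
  have hφ : Function.Bijective φ := by
    constructor
    · intro a b
      refine Quotient.inductionOn₂ a b fun a b hab => ?_
      exact Quotient.sound (cyc_eq_iff.1 (congrArg Subtype.val hab))
    · rintro ⟨c, hc⟩
      obtain ⟨h, _, rfl⟩ := Finset.mem_image.1 hc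
      exact ⟨Quotient.mk _ h, rfl⟩
  have h1 := Nat.card_eq_of_bijective φ hφ
  rw [nc, h1, Nat.card_eq_fintype_card, Fintype.card_coe]
  unfold ncyc
  congr

theorem exact_LU {H : Type*} [Fintype H] [DecidableEq H] {n : ℕ} (hn : 0 < n)
    (hcard : Fintype.card H = 2 * n) (r : H) (g : ℕ) (L : Finset ℤ) :
    4 ^ g * Nat.card {t : Perm H × Perm H × (H → ℤ) //
        IsLU r t ∧ ncyc t.2.1 + 2 * g = n + 1 ∧ Finset.univ.image t.2.2 = L} =
      (2 * n - 1).factorial *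
        ∑ f ∈ (Forest.forests n).filter (fun f => f.labels = L), W g f := by
  classical
  rw [← planar_sum hn hcard r L g]
  let Q : Perm H → (H → ℤ) → Prop := fun al x =>
    IsEdges al ∧ (∀ h, |x (al h) - x h| ≤ 1) ∧ x r = 0 ∧ Finset.univ.image x = L
  have key : ∀ (k : ℕ) (t : Perm H × Perm H × (H → ℤ)),
      (IsLU r t ∧ ncyc t.2.1 + k = n + 1 ∧ Finset.univ.image t.2.2 = L) ↔
        (Q t.1 t.2.2 ∧ (OneFace (t.2.1 * t.1) ∧ (∀ h, t.2.2 (t.2.1 h) = t.2.2 h) ∧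
          ncyc t.2.1 + k = n + 1)) := by
    intro k t
    constructor
    · rintro ⟨h1, h2, h3⟩
      exact ⟨⟨h1.edges, h1.adj, h1.root, h3⟩, h1.face, h1.good, h2⟩
    · rintro ⟨⟨h1, h2, h3, h4⟩, h5, h6, h7⟩
      exact ⟨⟨h1, h5, h6, h2, h3⟩, h7, h4⟩
  let U : Finset (Perm H × Perm H × (H → ℤ)) :=
    Finset.univ ×ˢ (Finset.univ ×ˢ Fintype.piFinset (fun _ : H => L))
  have hU : ∀ t : Perm H × Perm H × (H → ℤ), Q t.1 t.2.2 → t ∈ U := by
    intro t ht
    simp only [U, Finset.mem_product, Finset.mem_univ, true_and, Fintype.mem_piFinset]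
    intro a
    rw [← ht.2.2.2]
    exact Finset.mem_image_of_mem _ (Finset.mem_univ a)
  have hL : Nat.card {t : Perm H × Perm H × (H → ℤ) //
      IsLU r t ∧ ncyc t.2.1 + 2 * g = n + 1 ∧ Finset.univ.image t.2.2 = L} =
      (U.filter fun t => Q t.1 t.2.2 ∧ (OneFace (t.2.1 * t.1) ∧
        (∀ h, t.2.2 (t.2.1 h) = t.2.2 h) ∧ ncyc t.2.1 + 2 * g = n + 1)).card := by
    refine Nat.subtype_card _ fun t => ?_
    rw [Finset.mem_filter, key]
    exact ⟨fun h => h.2, fun h => ⟨hU t h.1, h⟩⟩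
  have hR : {t : Perm H × Perm H × (H → ℤ) | IsLU r t ∧ ncyc t.2.1 = n + 1 ∧
        Finset.univ.image t.2.2 = L} =
      ↑(U.filter fun t => Q t.1 t.2.2 ∧ (OneFace (t.2.1 * t.1) ∧
        (∀ h, t.2.2 (t.2.1 h) = t.2.2 h) ∧ ncyc t.2.1 = n + 1)) := by
    ext t
    have h1 := key 0 t
    simp only [add_zero] at h1
    rw [Set.mem_setOf_eq, h1, Finset.mem_coe, Finset.mem_filter]
    exact ⟨fun h => ⟨hU t h.1, h⟩, fun h => h.2⟩
  rw [hL, hR, finsum_mem_coe_finset, Finset.card_eq_sum_ones, Finset.sum_filter, Finset.sum_filter,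
    Finset.mul_sum]
  have e1 : ∀ F : Perm H × Perm H × (H → ℤ) → ℕ, ∑ t ∈ U, F t =
      ∑ al : Perm H, ∑ x ∈ Fintype.piFinset (fun _ : H => L), ∑ σ : Perm H, F (al, σ, x) := by
    intro F
    simp only [U]
    rw [Finset.sum_product]
    refine Finset.sum_congr rfl fun al _ => ?_
    rw [Finset.sum_product, Finset.sum_comm]
  rw [e1, e1]
  refine Finset.sum_congr rfl fun al _ => Finset.sum_congr rfl fun x _ => ?_
  by_cases hQ : Q al x
  · have h1 := sigma_form hQ.1 hn hcard x g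
    have h2 : Nat.card {σ : Perm H //
        OneFace (σ * al) ∧ (∀ h, x (σ h) = x h) ∧ ncyc σ + 2 * g = n + 1} =
        (Finset.univ.filter fun σ : Perm H =>
          OneFace (σ * al) ∧ (∀ h, x (σ h) = x h) ∧ ncyc σ + 2 * g = n + 1).card :=
      Nat.subtype_card _ fun σ => by simp
    rw [h2, Finset.card_eq_sum_ones, Finset.sum_filter, Finset.mul_sum, Finset.sum_filter,
      hQ.2.2.2] at h1
    simp only [hQ, true_and]
    exact h1
  · simp [hQ]

theorem exact_uni (n g : ℕ) (hn : 1 ≤ n) (hg : 2 * g ≤ n) (L : Finset ℤ) :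
    4 ^ g * Nat.card {t : Perm (Fin (2 * n)) × Perm (Fin (2 * n)) × (Fin (2 * n) → ℤ) //
        IsUni n t.1 t.2.1 t.2.2 ∧ t.2.2 ⟨0, by omega⟩ = 0 ∧ nc t.2.1 = n + 1 - 2 * g ∧
        Finset.univ.image t.2.2 = L} =
      (2 * n - 1).factorial *
        ∑ f ∈ (Forest.forests n).filter (fun f => f.labels = L), W g f := by
  have h1 := exact_LU (H := Fin (2 * n)) (n := n) hn (Fintype.card_fin _) ⟨0, by omega⟩ g L
  rw [← h1]
  congr 1
  refine Nat.card_congr (Equiv.subtypeEquivRight fun t => ?_)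
  rw [ncyc_eq_nc]
  constructor
  · rintro ⟨⟨a1, a2, a3, a4, a5⟩, h2, h3, h4⟩
    exact ⟨⟨⟨a1, a2⟩, a3, a4, a5, h2⟩, by omega, h4⟩
  · rintro ⟨⟨⟨a1, a2⟩, a3, a4, a5, h2⟩, h3, h4⟩
    exact ⟨⟨a1, a2, a3, a4, a5⟩, h2, by omega, h4⟩

end HGQ
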