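import Pool.Agent.HGQ.Forest

/-! # MP_a7ce40_pr (HGQ): definitions for the estimates

* `Cle p q` (written `p ⪯ q` in comments): coefficientwise order on `ℕ[X]`.
* `vl f x` : multiset of the labels of the non-root vertices (root label `x`);
  `tl f = 0 ::ₘ vl f 0` : all labels.
* `P s = ∏_c A (count c s)` for a multiset `s` of labels, so that `W g f = (P (tl f)).coeff g`.
* `up f c` : number of vertices with label `≥ c`; `cross f c` : number of edges between the labels
  `c - 1` and `c`; `rcomp f c` : number of those whose child end has label `c` (for `c ≥ 1` this is
  the number of connected components of the set of vertices with label `≥ c`).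
* `dl f x` : labels of the darts; `lowc s R` : number of elements of `s` within `R` of the minimum.
-/

namespace HGQ

open Polynomial Forest

/-- coefficientwise order -/
def Cle (p q : ℕ[X]) : Prop := ∀ k, p.coeff k ≤ q.coeff k

namespace Forest

/-- labels of the non-root vertices if the root has label `x` -/
def vl : Forest → ℤ → Multiset ℤ
  | nil, _ => 0
  | cons d c r, x => (x + inc d) ::ₘ (vl c (x + inc d) + vl r x)

/-- labels of all vertices, root label `0` -/
def tl (f : Forest) : Multiset ℤ := 0 ::ₘ vl f 0

/-- concatenation of forests -/
def app : Forest → Forest → Forest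
  | nil, h => h
  | cons d c r, h => cons d c (app r h)

/-- re-rooting of the plane tree at the next corner: the new root is the first child, and the old
root becomes the last child of the new root. -/
def rot : Forest → Forest
  | nil => nil
  | cons d c r => app c (cons d.rev r nil)

/-- change the sign of all the labels -/
def flp : Forest → Forest
  | nil => nil
  | cons d c r => cons d.rev (flp c) (flp r)

/-- number of edges between a label `< c` and a label `≥ c` -/
def crossF : Forest → ℤ → ℤ → ℕ
  | nil, _, _ => 0
  | cons d ch r, x, c =>
      (if (x < c ∧ c ≤ x + inc d) ∨ (x + inc d < c ∧ c ≤ x) then 1 else 0)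
        + crossF ch (x + inc d) c + crossF r x c

/-- number of edges from a parent with label `< c` to a child with label `≥ c` -/
def rcompF : Forest → ℤ → ℤ → ℕ
  | nil, _, _ => 0
  | cons d ch r, x, c =>
      (if x < c ∧ c ≤ x + inc d then 1 else 0) + rcompF ch (x + inc d) c + rcompF r x c

/-- number of edges with at least one end of label `≥ c` -/
def incF : Forest → ℤ → ℤ → ℕ
  | nil, _, _ => 0
  | cons d ch r, x, c =>
      (if c ≤ x ∨ c ≤ x + inc d then 1 else 0) + incF ch (x + inc d) c + incF r x c

/-- number of vertices with label `≥ c` (root label `0`) -/
def up (f : Forest) (c : ℤ) : ℕ := (tl f).countP (fun i => c ≤ i)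

/-- number of edges between the labels `c - 1` and `c` (root label `0`) -/
def cross (f : Forest) (c : ℤ) : ℕ := crossF f 0 c

/-- number of components of the vertices with label `≥ c`, when `1 ≤ c` (root label `0`) -/
def rcomp (f : Forest) (c : ℤ) : ℕ := rcompF f 0 c

/-- number of edges with an end of label `≥ c` (root label `0`) -/
def inced (f : Forest) (c : ℤ) : ℕ := incF f 0 c

/-- labels of the darts (two for each edge) if the root has label `x` -/
def dl : Forest → ℤ → Multiset ℤ
  | nil, _ => 0
  | cons d c r, x => x ::ₘ (x + inc d) ::ₘ (dl c (x + inc d) + dl r x)

end Forest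

/-- the number of elements at distance at most `R` above the minimum -/
def lowc (s : Multiset ℤ) (R : ℕ) : ℕ := s.countP (fun i => ∀ j ∈ s, i ≤ j + R)

/-- weight polynomial of a multiset of labels -/
noncomputable def P (s : Multiset ℤ) : ℕ[X] := ∏ c ∈ s.toFinset, A (s.count c)

end HGQ
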