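import Pool.Agent.HGQ.BTGen
import Pool.Agent.HGQ.EDefs

/-! # HGQ parts B + T: the exact formula with the multiset of the labels of the half-edges

`exact_uni'`: same as `exact_uni`, with the multiset of the labels of all half-edges instead of the set.
-/

namespace HGQ

open Equiv

namespace Forest

private theorem bt2_range (a b : ℕ) : Multiset.range (a + b)
    = Multiset.range a + (Multiset.range b).map (fun j => a + j) := by
  induction b with
  | zero => simp
  | succ b ih =>
    rw [← add_assoc, Multiset.range_succ, ih, Multiset.range_succ, Multiset.map_cons,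
      Multiset.add_cons]

/-- the labels along the contour are the labels of the darts -/
theorem map_lb_range : ∀ (f : Forest) (x : ℤ),
    (Multiset.range (2 * f.edges)).map (fun j => x + f.lb j) = f.dl x
  | nil, x => by simp [edges, dl]
  | cons d c r, x => by
      have ihc := map_lb_range c (x + inc d)
      have ihr := map_lb_range r x
      have h1 : 2 * (cons d c r).edges = 1 + 2 * c.edges + 1 + 2 * r.edges := by
        rw [edges]; ring
      have h0 : (cons d c r).lb 0 = 0 := lb_zero _
      have h2 : (Multiset.range (2 * c.edges)).map (fun j => x + (cons d c r).lb (1 + j))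
          = c.dl (x + inc d) := by
        rw [← ihc]
        refine Multiset.map_congr rfl fun j hj => ?_
        rw [Multiset.mem_range] at hj
        rw [TWord_lb_in d c r (by omega) (by omega)]
        rw [show 1 + j - 1 = j by omega]; ring
      have h3 : x + (cons d c r).lb (1 + 2 * c.edges) = x + inc d := by
        rw [TWord_lb_in d c r (by omega) (by omega)]
        rw [show 1 + 2 * c.edges - 1 = 2 * c.edges by omega, lb_end]; ring
      have h4 : (Multiset.range (2 * r.edges)).map
          (fun j => x + (cons d c r).lb (1 + 2 * c.edges + 1 + j)) = r.dl x := by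
        rw [← ihr]
        refine Multiset.map_congr rfl fun j hj => ?_
        rw [TWord_lb_out d c r (by omega)]
        congr 2; omega
      have e1 : Multiset.range 1 = {0} := rfl
      rw [h1, bt2_range (1 + 2 * c.edges + 1) (2 * r.edges), bt2_range (1 + 2 * c.edges) 1,
        bt2_range 1 (2 * c.edges), Multiset.map_add, Multiset.map_add, Multiset.map_add,
        Multiset.map_map, Multiset.map_map, Multiset.map_map, e1]
      have h2' : (Multiset.range (2 * c.edges)).map
          ((fun j => x + (cons d c r).lb j) ∘ fun j => 1 + j) = c.dl (x + inc d) := h2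
      have h4' : (Multiset.range (2 * r.edges)).map
          ((fun j => x + (cons d c r).lb j) ∘ fun j => 1 + 2 * c.edges + 1 + j) = r.dl x := h4
      rw [h2', h4', Multiset.map_singleton, Multiset.map_singleton, h0]
      have h3' : ((fun j => x + (cons d c r).lb j) ∘ fun j => 1 + 2 * c.edges + j) 0
          = x + inc d := h3
      rw [h3', add_zero, dl, ← Multiset.singleton_add x, ← Multiset.singleton_add (x + inc d)]
      abel

end Forest

theorem map_lbF {H : Type*} [Fintype H] [DecidableEq H] {n : ℕ} {f : Forest} (hf : f.edges = n)
    (e : H ≃ Fin (2 * n)) :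
    (Finset.univ : Finset H).val.map (lbF f e) = Forest.dl f 0 := by
  have h1 := Forest.map_lb_range f 0
  rw [← h1, hf]
  have h2 : (Multiset.range (2 * n)) = (Finset.univ : Finset (Fin (2 * n))).val.map Fin.val := by
    rw [Fin.univ_val_map, List.ofFn_eq_map, List.map_coe_finRange_eq_range]
    rfl
  have h3 : (Finset.univ : Finset (Fin (2 * n))).val
      = (Finset.univ : Finset H).val.map e := by
    have := Finset.map_univ_equiv e
    rw [← this, Finset.map_val]; rfl
  rw [h2, h3, Multiset.map_map, Multiset.map_map]
  refine Multiset.map_congr rfl fun h _ => ?_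
  simp [lbF, rk]

theorem exact_uni' (n g : ℕ) (hn : 1 ≤ n) (hg : 2 * g ≤ n) (T : Multiset ℤ) :
    4 ^ g * Nat.card {t : Perm (Fin (2 * n)) × Perm (Fin (2 * n)) × (Fin (2 * n) → ℤ) //
        IsUni n t.1 t.2.1 t.2.2 ∧ t.2.2 ⟨0, by omega⟩ = 0 ∧ nc t.2.1 = n + 1 - 2 * g ∧
        Finset.univ.val.map t.2.2 = T} =
      (2 * n - 1).factorial *
        ∑ f ∈ (Forest.forests n).filter (fun f => Forest.dl f 0 = T), W g f :=
  exact_uni_gen n g hn hg (fun x => Finset.univ.val.map x = T) (fun f => Forest.dl f 0 = T)
    (fun f e hf => by rw [map_lbF hf e])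

end HGQ
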