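import Pool.Agent.HGQ.BTFinal

/-! # HGQ parts B + T: the exact formula for a general statistic of the labels -/

namespace HGQ

open Equiv

variable {H : Type*} [Fintype H] [DecidableEq H]

theorem psiG_mem {n : ℕ} (hn : 0 < n) (r : H) {f : Forest} {e : H ≃ Fin (2 * n)}
    (hp : f.edges = n) (hr : rk e r = 0) :
    IsLU r (alF n f e, sg (alF n f e) e, lbF f e) ∧ ncyc (sg (alF n f e) e) = n + 1 := by
  refine ⟨⟨isEdges_alF hp e, ?_, lbF_sg hp e, lbF_alF hp e, ?_⟩, ncyc_forest hn hp e⟩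
  · change OneFace (sg (alF n f e) e * alF n f e)
    rw [sg_mul_al (isEdges_alF hp e)]
    exact oneFace_gam e
  · change f.lb (rk e r) = 0
    rw [hr, Forest.lb_zero]

open Classical in
theorem planar_sum_gen {n : ℕ} (hn : 0 < n) (hcard : Fintype.card H = 2 * n) (r : H)
    (Pr : (H → ℤ) → Prop) (PrF : Forest → Prop)
    (hPr : ∀ (f : Forest) (e : H ≃ Fin (2 * n)), f.edges = n → (Pr (lbF f e) ↔ PrF f)) (g : ℕ) :
    ∑ᶠ t ∈ {t : Perm H × Perm H × (H → ℤ) | IsLU r t ∧ ncyc t.2.1 = n + 1 ∧ Pr t.2.2},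
      (∏ i ∈ Finset.univ.image t.2.2, A (prof t.2.2 t.2.1 i)).coeff g =
      (2 * n - 1).factorial * ∑ f ∈ (Forest.forests n).filter (fun f => PrF f), W g f := by
  set psi : Forest × (H ≃ Fin (2 * n)) → Perm H × Perm H × (H → ℤ) := fun p =>
    (alF n p.1 p.2, sg (alF n p.1 p.2) p.2, lbF p.1 p.2) with hpsi
  set Q : Finset (Forest × (H ≃ Fin (2 * n))) :=
    ((Forest.forests n).filter (fun f => PrF f)) ×ˢ
      (Finset.univ.filter fun e : H ≃ Fin (2 * n) => rk e r = 0) with hQ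
  have hmem : ∀ p ∈ (Q : Set (Forest × (H ≃ Fin (2 * n)))),
      p.1.edges = n ∧ PrF p.1 ∧ rk p.2 r = 0 := by
    intro p hp
    rw [Finset.mem_coe, hQ, Finset.mem_product, Finset.mem_filter, Finset.mem_filter] at hp
    exact ⟨Forest.mem_forests.1 hp.1.1, hp.1.2, hp.2.2⟩
  have hbij : Set.BijOn psi (Q : Set (Forest × (H ≃ Fin (2 * n))))
      {t : Perm H × Perm H × (H → ℤ) | IsLU r t ∧ ncyc t.2.1 = n + 1 ∧ Pr t.2.2} := by
    refine ⟨fun p hp => ?_, fun p hp p' hp' h => ?_, fun t ht => ?_⟩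
    · obtain ⟨h1, h2, h3⟩ := hmem p hp
      obtain ⟨h4, h5⟩ := psiG_mem hn r h1 h3
      exact ⟨h4, h5, (hPr p.1 p.2 h1).2 h2⟩
    · obtain ⟨h1, -, h3⟩ := hmem p hp
      obtain ⟨h1', -, h3'⟩ := hmem p' hp'
      have h5 := forest_tour_inj hn h1 h1' h3 h3' (congrArg (fun t => t.1) h)
        (congrArg (fun t => t.2.1) h) (congrArg (fun t => t.2.2) h)
      exact Prod.ext h5.1 h5.2
    · obtain ⟨f, e, hf, he, rfl⟩ := planar_surj hn hcard r t ht.1 ht.2.1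
      refine ⟨(f, e), ?_, rfl⟩
      rw [Finset.mem_coe, hQ, Finset.mem_product, Finset.mem_filter, Finset.mem_filter]
      exact ⟨⟨Forest.mem_forests.2 hf, (hPr f e hf).1 ht.2.2⟩, Finset.mem_univ _, he⟩
  have h1 := finsum_mem_eq_of_bijOn (f := fun p : Forest × (H ≃ Fin (2 * n)) => W g p.1)
    (g := fun t : Perm H × Perm H × (H → ℤ) =>
      (∏ i ∈ Finset.univ.image t.2.2, A (prof t.2.2 t.2.1 i)).coeff g)
    psi hbij (fun p hp => by
      obtain ⟨h1, h2, h3⟩ := hmem p hp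
      have h4 : Finset.univ.image (lbF p.1 p.2) = p.1.labels := image_lbF hn h1 p.2
      simp only [W, hpsi]
      rw [h4]
      congr 1
      refine Finset.prod_congr rfl fun i _ => ?_
      exact congrArg A (prof_forest hn h1 p.2 i).symm)
  rw [← h1, finsum_mem_coe_finset, hQ, Finset.sum_product, Finset.mul_sum]
  refine Finset.sum_congr rfl fun f _ => ?_
  simp only [Finset.sum_const, smul_eq_mul]
  congr 1
  rw [← card_tours_root hn hcard r, Nat.card_eq_fintype_card, Fintype.card_subtype]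

open Classical in
theorem exact_LU_gen {n : ℕ} (hn : 0 < n) (hcard : Fintype.card H = 2 * n) (r : H) (g : ℕ)
    (Pr : (H → ℤ) → Prop) (PrF : Forest → Prop)
    (hPr : ∀ (f : Forest) (e : H ≃ Fin (2 * n)), f.edges = n → (Pr (lbF f e) ↔ PrF f)) :
    4 ^ g * Nat.card {t : Perm H × Perm H × (H → ℤ) //
        IsLU r t ∧ ncyc t.2.1 + 2 * g = n + 1 ∧ Pr t.2.2} =
      (2 * n - 1).factorial * ∑ f ∈ (Forest.forests n).filter (fun f => PrF f), W g f := by
  rw [← planar_sum_gen hn hcard r Pr PrF hPr g]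
  let Q : Perm H → (H → ℤ) → Prop := fun al x =>
    IsEdges al ∧ (∀ h, |x (al h) - x h| ≤ 1) ∧ x r = 0 ∧ Pr x
  have key : ∀ (k : ℕ) (t : Perm H × Perm H × (H → ℤ)),
      (IsLU r t ∧ ncyc t.2.1 + k = n + 1 ∧ Pr t.2.2) ↔
        (Q t.1 t.2.2 ∧ (OneFace (t.2.1 * t.1) ∧ (∀ h, t.2.2 (t.2.1 h) = t.2.2 h) ∧
          ncyc t.2.1 + k = n + 1)) := by
    intro k t
    constructor
    · rintro ⟨h1, h2, h3⟩
      exact ⟨⟨h1.edges, h1.adj, h1.root, h3⟩, h1.face, h1.good, h2⟩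
    · rintro ⟨⟨h1, h2, h3, h4⟩, h5, h6, h7⟩
      exact ⟨⟨h1, h5, h6, h2, h3⟩, h7, h4⟩
  have hfin : {t : Perm H × Perm H × (H → ℤ) | IsLU r t}.Finite := finite_LU r
  let Xs : Finset (H → ℤ) := hfin.toFinset.image (fun t => t.2.2)
  let U : Finset (Perm H × Perm H × (H → ℤ)) := Finset.univ ×ˢ (Finset.univ ×ˢ Xs)
  have hU : ∀ t : Perm H × Perm H × (H → ℤ), IsLU r t → t ∈ U := by
    intro t ht
    simp only [U, Finset.mem_product, Finset.mem_univ, true_and, Xs, Finset.mem_image,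
      Set.Finite.mem_toFinset, Set.mem_setOf_eq]
    exact ⟨t, ht, rfl⟩
  have hL : Nat.card {t : Perm H × Perm H × (H → ℤ) //
      IsLU r t ∧ ncyc t.2.1 + 2 * g = n + 1 ∧ Pr t.2.2} =
      (U.filter fun t => Q t.1 t.2.2 ∧ (OneFace (t.2.1 * t.1) ∧
        (∀ h, t.2.2 (t.2.1 h) = t.2.2 h) ∧ ncyc t.2.1 + 2 * g = n + 1)).card := by
    refine Nat.subtype_card _ fun t => ?_
    rw [Finset.mem_filter, key]
    exact ⟨fun h => h.2, fun h => ⟨hU t ((key _ t).2 h).1, h⟩⟩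
  have hR : {t : Perm H × Perm H × (H → ℤ) | IsLU r t ∧ ncyc t.2.1 = n + 1 ∧ Pr t.2.2} =
      ↑(U.filter fun t => Q t.1 t.2.2 ∧ (OneFace (t.2.1 * t.1) ∧
        (∀ h, t.2.2 (t.2.1 h) = t.2.2 h) ∧ ncyc t.2.1 = n + 1)) := by
    ext t
    have h1 := key 0 t
    simp only [add_zero] at h1
    rw [Set.mem_setOf_eq, Finset.mem_coe, Finset.mem_filter]
    exact ⟨fun h => ⟨hU t h.1, h1.1 h⟩, fun h => h1.2 h.2⟩
  rw [hL, hR, finsum_mem_coe_finset, Finset.card_eq_sum_ones, Finset.sum_filter, Finset.sum_filter,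
    Finset.mul_sum]
  have e1 : ∀ F : Perm H × Perm H × (H → ℤ) → ℕ, ∑ t ∈ U, F t =
      ∑ al : Perm H, ∑ x ∈ Xs, ∑ σ : Perm H, F (al, σ, x) := by
    intro F
    simp only [U]
    rw [Finset.sum_product]
    refine Finset.sum_congr rfl fun al _ => ?_
    rw [Finset.sum_product, Finset.sum_comm]
  rw [e1, e1]
  refine Finset.sum_congr rfl fun al _ => Finset.sum_congr rfl fun x _ => ?_
  by_cases hQ : Q al x
  · have h1 := sigma_form hQ.1 hn hcard x g
    have h2 : Nat.card {σ : Perm H //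
        OneFace (σ * al) ∧ (∀ h, x (σ h) = x h) ∧ ncyc σ + 2 * g = n + 1} =
        (Finset.univ.filter fun σ : Perm H =>
          OneFace (σ * al) ∧ (∀ h, x (σ h) = x h) ∧ ncyc σ + 2 * g = n + 1).card :=
      Nat.subtype_card _ fun σ => by simp
    rw [h2, Finset.card_eq_sum_ones, Finset.sum_filter, Finset.mul_sum, Finset.sum_filter] at h1
    simp only [hQ, true_and]
    exact h1
  · simp [hQ]

theorem exact_uni_gen (n g : ℕ) (hn : 1 ≤ n) (hg : 2 * g ≤ n)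
    (Pr : (Fin (2 * n) → ℤ) → Prop) (PrF : Forest → Prop) [DecidablePred PrF]
    (hPr : ∀ (f : Forest) (e : Fin (2 * n) ≃ Fin (2 * n)), f.edges = n →
      (Pr (lbF f e) ↔ PrF f)) :
    4 ^ g * Nat.card {t : Perm (Fin (2 * n)) × Perm (Fin (2 * n)) × (Fin (2 * n) → ℤ) //
        IsUni n t.1 t.2.1 t.2.2 ∧ t.2.2 ⟨0, by omega⟩ = 0 ∧ nc t.2.1 = n + 1 - 2 * g ∧
        Pr t.2.2} =
      (2 * n - 1).factorial * ∑ f ∈ (Forest.forests n).filter (fun f => PrF f), W g f := by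
  have h1 := exact_LU_gen (H := Fin (2 * n)) (n := n) hn (Fintype.card_fin _) ⟨0, by omega⟩ g
    Pr PrF hPr
  have h0 : (Forest.forests n).filter (fun f => PrF f) =
      @Finset.filter _ (fun f => PrF f) (fun a => Classical.propDecidable _)
        (Forest.forests n) := by
    ext f; simp
  rw [h0, ← h1]
  congr 1
  refine Nat.card_congr (Equiv.subtypeEquivRight fun t => ?_)
  rw [ncyc_eq_nc]
  constructor
  · rintro ⟨⟨a1, a2, a3, a4, a5⟩, h2, h3, h4⟩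
    exact ⟨⟨⟨a1, a2⟩, a3, a4, a5, h2⟩, by omega, h4⟩
  · rintro ⟨⟨⟨a1, a2⟩, a3, a4, a5, h2⟩, h3, h4⟩
    exact ⟨⟨a1, a2, a3, a4, a5⟩, h2, by omega, h4⟩

end HGQ
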