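import Pool.Agent.HGQ.BTGen
import Pool.Agent.HGQ.EDefs

/-! # HGQ parts B + T: the exact formula with the multiset of the labels of the darts -/

namespace HGQ

open Equiv

namespace Forest

theorem sum_lb_dl : ∀ (f : Forest) (x : ℤ),
    ∑ j ∈ Finset.range (2 * f.edges), ({x + f.lb j} : Multiset ℤ) = dl f x
  | nil, x => by simp [edges, dl]
  | cons d c r, x => by
      have h1 : 2 * (cons d c r).edges = ((2 * c.edges + 1) + 1) + 2 * r.edges := by
        rw [edges]; ring
      rw [h1, Finset.sum_range_add, Finset.sum_range_succ, Finset.sum_range_succ', dl,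
        ← sum_lb_dl c, ← sum_lb_dl r]
      have h2 : (∑ k ∈ Finset.range (2 * c.edges),
          ({x + (cons d c r).lb (k + 1)} : Multiset ℤ)) =
          ∑ j ∈ Finset.range (2 * c.edges), ({x + inc d + c.lb j} : Multiset ℤ) := by
        refine Finset.sum_congr rfl fun k hk => ?_
        have hk' := Finset.mem_range.1 hk
        rw [TWord_lb_in d c r (Nat.succ_pos k) (by omega), ← add_assoc]
        rfl
      have h3 : (∑ k ∈ Finset.range (2 * r.edges),
          ({x + (cons d c r).lb (2 * c.edges + 1 + 1 + k)} : Multiset ℤ)) =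
          ∑ j ∈ Finset.range (2 * r.edges), ({x + r.lb j} : Multiset ℤ) := by
        refine Finset.sum_congr rfl fun k _ => ?_
        rw [TWord_lb_out d c r (by omega)]
        congr 3
        omega
      have h6 : (cons d c r).lb (2 * c.edges + 1) = inc d := by
        rw [TWord_lb_in d c r (by omega) (by omega), Nat.add_sub_cancel, lb_end, add_zero]
      rw [h2, h3, h6, lb_zero, add_zero]
      rw [← Multiset.singleton_add, ← Multiset.singleton_add]
      abel

end Forest

theorem map_lbF {H : Type*} [Fintype H] [DecidableEq H] {n : ℕ} {f : Forest} (hf : f.edges = n)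
    (e : H ≃ Fin (2 * n)) : Finset.univ.val.map (lbF f e) = Forest.dl f 0 := by
  have h1 : ∀ s : Multiset ℤ, s = (s.map (fun a => ({a} : Multiset ℤ))).sum := fun s =>
    (Multiset.sum_map_singleton s).symm
  rw [h1 (Finset.univ.val.map (lbF f e)), Multiset.map_map, ← Forest.sum_lb_dl f 0, hf,
    ← Fin.sum_univ_eq_sum_range (fun j => ({0 + f.lb j} : Multiset ℤ)) (2 * n),
    ← Equiv.sum_comp e (fun j : Fin (2 * n) => ({0 + f.lb (j : ℕ)} : Multiset ℤ))]
  simp only [zero_add]
  rfl

open Classical in
/-- the exact formula with the multiset of the labels -/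
theorem exact_uni' (n g : ℕ) (hn : 1 ≤ n) (hg : 2 * g ≤ n) (t : Multiset ℤ) :
    4 ^ g * Nat.card {u : Perm (Fin (2 * n)) × Perm (Fin (2 * n)) × (Fin (2 * n) → ℤ) //
        IsUni n u.1 u.2.1 u.2.2 ∧ u.2.2 ⟨0, by omega⟩ = 0 ∧ nc u.2.1 = n + 1 - 2 * g ∧
        Finset.univ.val.map u.2.2 = t} =
      (2 * n - 1).factorial *
        ∑ f ∈ (Forest.forests n).filter (fun f => Forest.dl f 0 = t), W g f :=
  exact_uni_gen n g hn hg (fun x => Finset.univ.val.map x = t) (fun f => Forest.dl f 0 = t)
    (fun f e hf => by rw [map_lbF hf e])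

end HGQ
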