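import Pool.Agent.HGQ.BSigma

/-! # HGQ part B: number of genus-0 one-face permutations

PAPER PROOF. The number of `σ` with `OneFace (σ * al)` is the number of tours with `rk e r = 0` for a fixed
`r`, i.e. `(2n-1)!` (`card_oneFace`; or `(2n)! / (2n)` by `sum_tours` with `F = 1`). Every such `σ` has
`ncyc σ + 2g = n + 1` for some `g`: `ncyc ≤ n+1` (`ncyc_le`) and the parity follows from signs:
`sign σ = sign (σ al) * sign al = (-1)^(2n-1) (-1)^n` and `sign σ = (-1)^(2n - ncyc σ)`
(or from `tri_rec` with `L = Unit` by descending induction). With `x : H → Unit`, `prof x σ () = ncyc σ`, so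
`sigma_form` reads `4^g #_g = #_0 [s^g] A (n+1)`. Multiply by `4^(n-g)` and sum over `g ≤ n`:
`4^n (2n-1)! = #_0 ∑_g 4^(n-g) [s^g] A (n+1) = #_0 2^n (n+1)!` (`sum_coeff_A`).
-/

namespace HGQ

open Equiv

variable {H : Type*} [Fintype H] [DecidableEq H]

theorem card_oneFace {al : Perm H} (hal : IsEdges al) {n : ℕ} (hn : 0 < n)
    (hcard : Fintype.card H = 2 * n) :
    Nat.card {σ : Perm H // OneFace (σ * al)} = (2 * n - 1).factorial := by
  classical
  have h := sum_tours hal hn hcard (fun _ => 1)
  simp only [Finset.sum_const, Finset.card_univ, smul_eq_mul, mul_one] at h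
  rw [Fintype.card_equiv (Fintype.equivFinOfCardEq hcard), hcard] at h
  rw [Nat.card_eq_fintype_card, Fintype.card_subtype]
  obtain ⟨m, rfl⟩ : ∃ m, n = m + 1 := ⟨n - 1, by omega⟩
  have h2 : 2 * (m + 1) = (2 * m + 1) + 1 := by ring
  rw [h2, Nat.factorial_succ] at h
  rw [show 2 * (m + 1) - 1 = 2 * m + 1 by omega]
  exact (Nat.eq_of_mul_eq_mul_left (by omega) h).symm

private theorem btotal_prof_unit (σ : Perm H) : prof (fun _ : H => ()) σ () = ncyc σ := by
  unfold prof ncyc
  simp

private theorem btotal_merge {σ : Perm H} {a b : H} (hab : ¬ σ.SameCycle a b) :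
    ncyc (swap a b * σ) + 1 = ncyc σ := by
  have h := prof_swap_mul (x := fun _ : H => ()) hab (fun _ => rfl) rfl ()
  rw [btotal_prof_unit, btotal_prof_unit] at h
  simpa using h

private theorem btotal_sign (σ : Perm H) :
    Perm.sign σ = (-1) ^ (ncyc σ + Fintype.card H) := by
  classical
  refine Perm.swap_induction_on (motive := fun σ : Perm H =>
    Perm.sign σ = (-1) ^ (ncyc σ + Fintype.card H)) σ ?_ ?_
  · have h1 : ncyc (1 : Perm H) = Fintype.card H := by
      unfold ncyc
      rw [Finset.card_image_of_injective, Finset.card_univ]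
      intro a b hab
      exact Perm.sameCycle_one.mp (cyc_eq_iff.mp hab)
    rw [h1, map_one, ← two_mul, pow_mul]
    simp
  · intro f x y hxy hf
    rw [map_mul, Perm.sign_swap hxy, hf]
    by_cases hs : f.SameCycle x y
    · have h1 := not_sameCycle_swap_mul hs hxy
      have h2 := btotal_merge h1
      rw [← mul_assoc, swap_mul_self, one_mul] at h2
      rw [← h2]
      rw [show ncyc f + 1 + Fintype.card H
        = (ncyc f + Fintype.card H) + 1 by ring, pow_succ]
      simp
    · have h2 := btotal_merge hs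
      rw [← h2]
      rw [show ncyc (swap x y * f) + 1 + Fintype.card H
        = (ncyc (swap x y * f) + Fintype.card H) + 1 by ring, pow_succ]
      simp

private theorem btotal_sign_gam {M : ℕ} (e : H ≃ Fin M) : Perm.sign (gam e) = (-1) ^ (M - 1) := by
  unfold gam
  rw [Perm.sign_trans_trans_symm, sign_finRotate]

private theorem btotal_sign_al {al : Perm H} (hal : IsEdges al) {n : ℕ}
    (hcard : Fintype.card H = 2 * n) : Perm.sign al = (-1) ^ n := by
  classical
  have h2 : al ^ 2 = 1 := by
    ext h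
    rw [pow_two, Perm.mul_apply, hal.inv, Perm.one_apply]
  rw [Perm.sign_of_pow_two_eq_one h2, hcard]
  have h3 : Fintype.card (Function.fixedPoints al) = 0 := by
    rw [Fintype.card_eq_zero_iff]
    exact ⟨fun z => hal.ne z.1 z.2⟩
  rw [h3, Nat.sub_zero, Nat.mul_div_cancel_left n (by norm_num)]

private theorem btotal_tour {al : Perm H} (hal : IsEdges al) {n : ℕ} (hn : 0 < n)
    (hcard : Fintype.card H = 2 * n) {σ : Perm H} (hσ : OneFace (σ * al)) :
    ∃ e : H ≃ Fin (2 * n), sg al e = σ := by
  have hpos : 0 < Fintype.card H := by omega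
  obtain ⟨r⟩ := Fintype.card_pos_iff.mp hpos
  obtain ⟨e, ⟨he, -⟩, -⟩ := exists_unique_tour hn hcard hσ r
  refine ⟨e, ?_⟩
  unfold sg
  rw [he, mul_assoc]
  have : al * al = 1 := by
    ext h
    rw [Perm.mul_apply, hal.inv, Perm.one_apply]
  rw [this, mul_one]

theorem exists_genus {al : Perm H} (hal : IsEdges al) {n : ℕ} (hn : 0 < n)
    (hcard : Fintype.card H = 2 * n) {σ : Perm H} (hσ : OneFace (σ * al)) :
    ∃ g, g ≤ n ∧ ncyc σ + 2 * g = n + 1 := by
  obtain ⟨e, rfl⟩ := btotal_tour hal hn hcard hσ
  have hle := ncyc_le hal hn e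
  have hs := btotal_sign (sg al e)
  have hs2 : Perm.sign (sg al e) = (-1) ^ (2 * n - 1 + n) := by
    unfold sg
    rw [map_mul, btotal_sign_gam, btotal_sign_al hal hcard, pow_add]
  rw [hs2, hcard] at hs
  have hpos : 0 < ncyc (sg al e) := by
    have hpos : 0 < Fintype.card H := by omega
    obtain ⟨r⟩ := Fintype.card_pos_iff.mp hpos
    unfold ncyc
    exact Finset.card_pos.mpr ⟨cyc (sg al e) r, Finset.mem_image_of_mem _ (Finset.mem_univ r)⟩
  have hpar : (2 * n - 1 + n) % 2 = (ncyc (sg al e) + 2 * n) % 2 := by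
    rcases Nat.even_or_odd (2 * n - 1 + n) with h1 | h1 <;>
      rcases Nat.even_or_odd (ncyc (sg al e) + 2 * n) with h2 | h2
    · rw [Nat.even_iff.mp h1, Nat.even_iff.mp h2]
    · rw [h1.neg_one_pow, h2.neg_one_pow] at hs
      exact absurd hs (by decide)
    · rw [h1.neg_one_pow, h2.neg_one_pow] at hs
      exact absurd hs (by decide)
    · rw [Nat.odd_iff.mp h1, Nat.odd_iff.mp h2]
  refine ⟨(n + 1 - ncyc (sg al e)) / 2, ?_, ?_⟩
  · omega
  · omega

theorem card_planar {al : Perm H} (hal : IsEdges al) {n : ℕ} (hn : 0 < n)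
    (hcard : Fintype.card H = 2 * n) :
    (n + 1).factorial * Nat.card {σ : Perm H // OneFace (σ * al) ∧ ncyc σ = n + 1} =
      2 ^ n * (2 * n - 1).factorial := by
  classical
  have hpos : 0 < Fintype.card H := by omega
  obtain ⟨r⟩ := Fintype.card_pos_iff.mp hpos
  set N0 := Nat.card {σ : Perm H // OneFace (σ * al) ∧ ncyc σ = n + 1} with hN0
  have hN0' : N0 = (Finset.univ.filter
      (fun σ : Perm H => OneFace (σ * al) ∧ ncyc σ = n + 1)).card := by
    rw [hN0, Nat.card_eq_fintype_card, Fintype.card_subtype]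
  -- the number of one-face permutations of genus `g`
  have hg : ∀ g : ℕ, 4 ^ g * (Finset.univ.filter
      (fun σ : Perm H => OneFace (σ * al) ∧ ncyc σ + 2 * g = n + 1)).card =
      N0 * (A (n + 1)).coeff g := by
    intro g
    have h := sigma_form hal hn hcard (fun _ : H => ()) g
    have e1 : Nat.card {σ : Perm H //
        OneFace (σ * al) ∧ (∀ h, (fun _ : H => ()) (σ h) = (fun _ : H => ()) h) ∧
          ncyc σ + 2 * g = n + 1} =
        (Finset.univ.filter
          (fun σ : Perm H => OneFace (σ * al) ∧ ncyc σ + 2 * g = n + 1)).card := by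
      rw [Nat.card_eq_fintype_card, Fintype.card_subtype]
      congr 1
      ext σ
      simp
    have e2 : Finset.univ.filter (fun σ : Perm H =>
          OneFace (σ * al) ∧ (∀ h, (fun _ : H => ()) (σ h) = (fun _ : H => ()) h) ∧
            ncyc σ = n + 1) =
        Finset.univ.filter (fun σ : Perm H => OneFace (σ * al) ∧ ncyc σ = n + 1) := by
      ext σ
      simp
    have e3 : Finset.univ.image (fun _ : H => ()) = {()} := by
      ext u
      simp only [Finset.mem_image, Finset.mem_univ, true_and, Finset.mem_singleton]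
      exact ⟨fun _ => trivial, fun _ => ⟨r, trivial⟩⟩
    rw [e1, e2, e3] at h
    rw [h, hN0', Finset.sum_congr rfl (g := fun _ => (A (n + 1)).coeff g)]
    · rw [Finset.sum_const, smul_eq_mul]
    · intro σ hσ
      rw [Finset.mem_filter] at hσ
      rw [Finset.prod_singleton, btotal_prof_unit, hσ.2.2]
  -- total number
  have htot : (2 * n - 1).factorial = ∑ g ∈ Finset.range (n + 1), (Finset.univ.filter
      (fun σ : Perm H => OneFace (σ * al) ∧ ncyc σ + 2 * g = n + 1)).card := by
    rw [← card_oneFace hal hn hcard, Nat.card_eq_fintype_card, Fintype.card_subtype]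
    rw [← Finset.card_biUnion]
    · congr 1
      ext σ
      simp only [Finset.mem_filter, Finset.mem_univ, true_and, Finset.mem_biUnion,
        Finset.mem_range]
      constructor
      · intro hσ
        obtain ⟨g, hgn, hg⟩ := exists_genus hal hn hcard hσ
        exact ⟨g, by omega, hσ, hg⟩
      · rintro ⟨g, -, hσ, -⟩
        exact hσ
    · intro g _ g' _ hne
      rw [Function.onFun, Finset.disjoint_left]
      intro σ h1 h2
      rw [Finset.mem_filter] at h1 h2
      apply hne
      have := h1.2.2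
      have := h2.2.2
      omega
  have hsum : 4 ^ n * (2 * n - 1).factorial = N0 * (2 ^ n * (n + 1).factorial) := by
    rw [← sum_coeff_A n, htot, Finset.mul_sum, Finset.mul_sum]
    apply Finset.sum_congr rfl
    intro g hgm
    rw [Finset.mem_range] at hgm
    have e : 4 ^ n = 4 ^ (n - g) * 4 ^ g := by
      rw [← pow_add]
      congr 1
      omega
    rw [e, mul_assoc, hg g]
    ring
  have h4 : (4 : ℕ) ^ n = 2 ^ n * 2 ^ n := by
    rw [← mul_pow]
    norm_num
  rw [h4] at hsum
  have h2 : 0 < 2 ^ n := by positivity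
  apply Nat.eq_of_mul_eq_mul_left h2
  rw [← mul_assoc (2 ^ n) (2 ^ n), hsum]
  ring

end HGQ
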