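import Pool.Agent.HGQ.BCount
import Pool.Agent.HGQ.BDown

/-! # HGQ part B: the trisection identity `2 g a(v) = ∑_{i, p ≥ 1} C(v_i + 2p, 2p+1) a(v + 2p e_i)`

PAPER PROOF. `acount_expand`: induction on `K` from `acount_rec` (`bump (update v i (v i + 2K)) i =
update v i (v i + 2(K+1))`). `acount_zero`: `prof ≤ card H`. `sum_acount`: for a good tour `e` with profile `v`
the `n + 1` half-edges `c` with `c ≤ σ⁻¹ c` (`card_down`) are the minima (`ncyc = ∑ v i` of them,
`card_isMn_total`, `ncyc_eq_sum_prof`; minima satisfy the inequality) and the others, which split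
according to their label; `AS v i 0` is the set of `(e, [], c)`. `tri_rec`: combine with `K = n + 1`.
-/

namespace HGQ

open Equiv

variable {H : Type*} [Fintype H] [DecidableEq H] {L : Type*} [DecidableEq L]

theorem acount_expand (M : ℕ) (al : Perm H) (x : H → L) (v : L → ℕ) (i : L) (k K : ℕ) :
    acount M al x v i k =
      (∑ p ∈ Finset.range K, (v i + 2 * (p + 1)).choose (k + 2 * (p + 1) + 1) *
        tcount M al x (Function.update v i (v i + 2 * (p + 1)))) +
      acount M al x (Function.update v i (v i + 2 * K)) i (k + 2 * K) := by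
  induction K with
  | zero => simp
  | succ K ih =>
    have hb : bump (Function.update v i (v i + 2 * K)) i
        = Function.update v i (v i + 2 * (K + 1)) := by
      unfold bump
      rw [Function.update_self, Function.update_idem]
      congr 1
    have h1 := acount_rec M al x (Function.update v i (v i + 2 * K)) i (k + 2 * K)
    rw [hb, Function.update_self] at h1
    rw [ih, h1, Finset.sum_range_succ]
    have e1 : k + 2 * (K + 1) = k + 2 * K + 2 := by ring
    have e2 : k + 2 * (K + 1) + 1 = k + 2 * K + 3 := by ring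
    rw [e2, e1]
    ring

theorem acount_zero (M : ℕ) (al : Perm H) (x : H → L) (v : L → ℕ) (i : L) (k : ℕ)
    (hv : Fintype.card H < v i) : acount M al x v i k = 0 := by
  unfold acount
  rw [Nat.card_eq_zero]
  left
  constructor
  rintro ⟨t, ht⟩
  have h1 := ht.1.prof_eq i
  have h2 := prof_le_card (x := x) (σ := sg al t.1) i
  omega

/-- `AS` with the empty list: pairs of a good tour and a half-edge -/
private noncomputable def asEquiv (M : ℕ) (al : Perm H) (x : H → L) (v : L → ℕ) (i : L) :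
    {t : (H ≃ Fin M) × List H × H // AS al x v i 0 t} ≃
      Σ e : {e : H ≃ Fin M // (∀ h, x (sg al e h) = x h) ∧ ∀ j, prof x (sg al e) j = v j},
        {c : H // (rk e.1 c ≤ rk e.1 ((sg al e.1)⁻¹ c) ∧ ¬ IsMn al e.1 c) ∧ x c = i} where
  toFun t := ⟨⟨t.1.1, t.2.1.good, t.2.1.prof_eq⟩, ⟨t.1.2.2, ⟨t.2.1.down, t.2.2⟩, t.2.1.lab⟩⟩
  invFun s := ⟨(s.1.1, [], s.2.1),
    { good := s.1.2.1
      prof_eq := s.1.2.2
      len := rfl
      mins := by intro u hu; cases hu
      desc := List.Pairwise.nil
      lab := s.2.2.2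
      down := s.2.2.1.1
      above := by intro u hu; cases hu }, s.2.2.1.2⟩
  left_inv := by
    rintro ⟨⟨e, l, c⟩, ht⟩
    have hl : l = [] := List.length_eq_zero_iff.1 ht.1.len
    subst hl
    rfl
  right_inv := by
    rintro ⟨⟨e, he⟩, ⟨c, hc⟩⟩
    rfl

theorem sum_acount [Fintype L] {al : Perm H} (hal : IsEdges al) {n : ℕ} (hn : 0 < n)
    (x : H → L) (v : L → ℕ) :
    (n + 1) * tcount (2 * n) al x v =
      (∑ i, v i) * tcount (2 * n) al x v + ∑ i, acount (2 * n) al x v i 0 := by
  classical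
  have hA : ∀ i, acount (2 * n) al x v i 0 =
      ∑ e : {e : H ≃ Fin (2 * n) // (∀ h, x (sg al e h) = x h) ∧ ∀ j, prof x (sg al e) j = v j},
        (Finset.univ.filter (fun c => (rk e.1 c ≤ rk e.1 ((sg al e.1)⁻¹ c) ∧ ¬ IsMn al e.1 c)
          ∧ x c = i)).card := by
    intro i
    unfold acount
    rw [Nat.card_congr (asEquiv (2 * n) al x v i), Nat.card_sigma]
    apply Finset.sum_congr rfl
    intro e _
    rw [Nat.card_eq_fintype_card, Fintype.card_subtype]
  have hT : tcount (2 * n) al x v = Fintype.card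
      {e : H ≃ Fin (2 * n) // (∀ h, x (sg al e h) = x h) ∧ ∀ j, prof x (sg al e) j = v j} := by
    unfold tcount
    rw [Nat.card_eq_fintype_card]
  have hE : ∀ e : {e : H ≃ Fin (2 * n) // (∀ h, x (sg al e h) = x h) ∧
        ∀ j, prof x (sg al e) j = v j},
      n + 1 = (∑ i, v i) + ∑ i, (Finset.univ.filter (fun c =>
        (rk e.1 c ≤ rk e.1 ((sg al e.1)⁻¹ c) ∧ ¬ IsMn al e.1 c) ∧ x c = i)).card := by
    intro e
    have h1 := card_down hal hn rfl e.1
    have h2 : ∑ i, (Finset.univ.filter (fun c =>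
        (rk e.1 c ≤ rk e.1 ((sg al e.1)⁻¹ c) ∧ ¬ IsMn al e.1 c) ∧ x c = i)).card
        = (Finset.univ.filter (fun c =>
        (rk e.1 c ≤ rk e.1 ((sg al e.1)⁻¹ c) ∧ ¬ IsMn al e.1 c))).card := by
      rw [Finset.card_eq_sum_card_fiberwise (f := x) (t := Finset.univ)
        (fun _ _ => Finset.mem_coe.2 (Finset.mem_univ _))]
      apply Finset.sum_congr rfl
      intro i _
      rw [Finset.filter_filter]
    have h3 : ∑ i, v i = (Finset.univ.filter (fun m => IsMn al e.1 m)).card := by
      rw [card_isMn_total, ncyc_eq_sum_prof e.2.1]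
      exact Finset.sum_congr rfl (fun i _ => (e.2.2 i).symm)
    have h4 : Finset.univ.filter (fun c => rk e.1 c ≤ rk e.1 ((sg al e.1)⁻¹ c))
        = Finset.univ.filter (fun m => IsMn al e.1 m) ∪ Finset.univ.filter (fun c =>
        (rk e.1 c ≤ rk e.1 ((sg al e.1)⁻¹ c) ∧ ¬ IsMn al e.1 c)) := by
      ext c
      simp only [Finset.mem_filter, Finset.mem_univ, true_and, Finset.mem_union]
      constructor
      · intro h
        by_cases hc : IsMn al e.1 c
        · exact Or.inl hc
        · exact Or.inr ⟨h, hc⟩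
      · rintro (h | h)
        · exact h _ ((Equiv.Perm.sameCycle_symm_apply_right.2 (Equiv.Perm.SameCycle.refl _ _)))
        · exact h.1
    rw [h2, h3, ← h1, h4, Finset.card_union_of_disjoint]
    rw [Finset.disjoint_left]
    intro c hc hc'
    exact (Finset.mem_filter.1 hc').2.2 (Finset.mem_filter.1 hc).2
  have hS : ∑ i, acount (2 * n) al x v i 0 =
      ∑ e : {e : H ≃ Fin (2 * n) // (∀ h, x (sg al e h) = x h) ∧ ∀ j, prof x (sg al e) j = v j},
        ∑ i, (Finset.univ.filter (fun c => (rk e.1 c ≤ rk e.1 ((sg al e.1)⁻¹ c) ∧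
          ¬ IsMn al e.1 c) ∧ x c = i)).card := by
    rw [Finset.sum_comm]
    exact Finset.sum_congr rfl (fun i _ => hA i)
  rw [hS, hT]
  have h5 : (n + 1) * Fintype.card
      {e : H ≃ Fin (2 * n) // (∀ h, x (sg al e h) = x h) ∧ ∀ j, prof x (sg al e) j = v j}
      = ∑ _e : {e : H ≃ Fin (2 * n) // (∀ h, x (sg al e h) = x h) ∧
        ∀ j, prof x (sg al e) j = v j}, (n + 1) := by
    rw [Finset.sum_const, Finset.card_univ, smul_eq_mul, mul_comm]
  have h6 : (∑ i, v i) * Fintype.card
      {e : H ≃ Fin (2 * n) // (∀ h, x (sg al e h) = x h) ∧ ∀ j, prof x (sg al e) j = v j}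
      = ∑ _e : {e : H ≃ Fin (2 * n) // (∀ h, x (sg al e h) = x h) ∧
        ∀ j, prof x (sg al e) j = v j}, (∑ i, v i) := by
    rw [Finset.sum_const, Finset.card_univ, smul_eq_mul, mul_comm]
  rw [h5, h6, ← Finset.sum_add_distrib]
  exact Finset.sum_congr rfl (fun e _ => hE e)

theorem tri_rec [Fintype L] {al : Perm H} (hal : IsEdges al) {n : ℕ} (hn : 0 < n)
    (hcard : Fintype.card H = 2 * n) (x : H → L) (v : L → ℕ) :
    (n + 1) * tcount (2 * n) al x v =
      (∑ i, v i) * tcount (2 * n) al x v +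
      ∑ i, ∑ p ∈ Finset.range (n + 1), (v i + 2 * (p + 1)).choose (2 * (p + 1) + 1) *
        tcount (2 * n) al x (Function.update v i (v i + 2 * (p + 1))) := by
  rw [sum_acount hal hn]
  congr 1
  apply Finset.sum_congr rfl
  intro i _
  rw [acount_expand (2 * n) al x v i 0 (n + 1), acount_zero, add_zero]
  · simp only [zero_add]
  · rw [Function.update_self, hcard]
    omega

end HGQ
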