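import Mathlib

/-! # MP_a7ce40_pr (HGQ), part C: first hitting element along a permutation -/

namespace HGQ

open Equiv

variable {E : Type*}

/-- `Hit φ P x y`: `y` is the first element among `φ x, φ² x, …` which satisfies `P`. -/
def Hit (φ : Perm E) (P : E → Prop) (x y : E) : Prop :=
  ∃ k : ℕ, 1 ≤ k ∧ (φ ^ k) x = y ∧ P y ∧ ∀ i, 1 ≤ i → i < k → ¬ P ((φ ^ i) x)

theorem ap_inv (φ : Perm E) (x : E) : φ (φ⁻¹ x) = x := by simp

theorem inv_ap (φ : Perm E) (x : E) : φ⁻¹ (φ x) = x := by simp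

namespace Hit

variable {φ : Perm E} {P Q : E → Prop} {x y z : E}

theorem prop (h : Hit φ P x y) : P y := by
  obtain ⟨k, _, _, h3, _⟩ := h; exact h3

theorem sameCycle (h : Hit φ P x y) : φ.SameCycle x y := by
  obtain ⟨k, _, h2, _, _⟩ := h
  exact ⟨k, by rw [zpow_natCast]; exact h2⟩

theorem unique (h : Hit φ P x y) (h' : Hit φ P x z) : y = z := by
  obtain ⟨k, h1, h2, h3, h4⟩ := h
  obtain ⟨k', h1', h2', h3', h4'⟩ := h'
  rcases lt_trichotomy k k' with hlt | heq | hgt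
  · exact absurd (h2 ▸ h3) (h4' k h1 hlt)
  · rw [← h2, ← h2', heq]
  · exact absurd (h2' ▸ h3') (h4 k' h1' hgt)

theorem exists_of_pow {k : ℕ} (hk : 1 ≤ k) (h : P ((φ ^ k) x)) : ∃ y, Hit φ P x y := by
  classical
  have hex : ∃ k : ℕ, 1 ≤ k ∧ P ((φ ^ k) x) := ⟨k, hk, h⟩
  refine ⟨(φ ^ (Nat.find hex)) x, Nat.find hex, (Nat.find_spec hex).1, rfl,
    (Nat.find_spec hex).2, ?_⟩
  intro i hi1 hi2 hP
  exact Nat.find_min hex hi2 ⟨hi1, hP⟩

theorem exists_of_sameCycle [Finite E] (h : φ.SameCycle x z) (hz : P z) :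
    ∃ y, Hit φ P x y := by
  obtain ⟨i, hi0, _, hi2⟩ := h.exists_pow_eq''
  exact exists_of_pow hi0 (hi2 ▸ hz)

theorem exists_self [Finite E] (hx : P x) : ∃ y, Hit φ P x y :=
  exists_of_sameCycle (Perm.SameCycle.refl φ x) hx

theorem step (h : P (φ x)) : Hit φ P x (φ x) :=
  ⟨1, le_refl 1, by simp, h, fun i h1 h2 => by omega⟩

theorem cons (h : ¬ P (φ x)) (h' : Hit φ P (φ x) y) : Hit φ P x y := by
  obtain ⟨k, h1, h2, h3, h4⟩ := h'
  refine ⟨k + 1, by omega, by rw [pow_succ, Perm.mul_apply]; exact h2, h3, ?_⟩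
  intro i hi1 hi2
  obtain ⟨j, rfl⟩ : ∃ j, i = j + 1 := ⟨i - 1, by omega⟩
  rw [pow_succ, Perm.mul_apply]
  rcases Nat.eq_zero_or_pos j with hj | hj
  · subst hj; simpa using h
  · exact h4 j hj (by omega)

theorem of_cons (h : ¬ P (φ x)) (h' : Hit φ P x y) : Hit φ P (φ x) y := by
  obtain ⟨k, h1, h2, h3, h4⟩ := h'
  have hk : k ≠ 1 := by
    rintro rfl
    rw [pow_one] at h2
    exact h (h2 ▸ h3)
  obtain ⟨m, rfl⟩ : ∃ m, k = m + 1 := ⟨k - 1, by omega⟩
  refine ⟨m, by omega, by rw [pow_succ, Perm.mul_apply] at h2; exact h2, h3, ?_⟩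
  intro i hi1 hi2
  have := h4 (i + 1) (by omega) (by omega)
  rwa [pow_succ, Perm.mul_apply] at this

theorem eq_step (h : P (φ x)) (h' : Hit φ P x y) : y = φ x := h'.unique (step h)

/-- reversing the direction -/
theorem symm (h : Hit φ P x y) (hx : P x) : Hit φ⁻¹ P y x := by
  obtain ⟨k, h1, h2, h3, h4⟩ := h
  refine ⟨k, h1, by rw [← h2, inv_pow]; simp, hx, ?_⟩
  intro i hi1 hi2
  have := h4 (k - i) (by omega) (by omega)
  have e : (φ⁻¹ ^ i) y = (φ ^ (k - i)) x := by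
    rw [← h2, inv_pow, Perm.inv_eq_iff_eq, ← Perm.mul_apply, ← pow_add]
    congr 2
    omega
  rwa [e]

/-- everything strictly between avoids `P` -/
theorem trans_sub (h : Hit φ P x y) (hQ : ∀ z, Q z → P z) (hy : ¬ Q y) (h' : Hit φ Q y z) :
    Hit φ Q x z := by
  obtain ⟨k, h1, h2, h3, h4⟩ := h
  obtain ⟨k', h1', h2', h3', h4'⟩ := h'
  refine ⟨k' + k, by omega, by rw [pow_add, Perm.mul_apply, h2, h2'], h3', ?_⟩
  intro i hi1 hi2
  rcases lt_trichotomy i k with hlt | heq | hgt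
  · exact fun hq => h4 i hi1 hlt (hQ _ hq)
  · subst heq; rw [h2]; exact hy
  · have := h4' (i - k) (by omega) (by omega)
    have e : (φ ^ i) x = (φ ^ (i - k)) y := by
      rw [← h2, ← Perm.mul_apply, ← pow_add]
      congr 2
      omega
    rwa [e]

/-- `of_trans_sub`: a `Q`-hit from `x` continues through the `P`-hit `y` if `¬ Q y`. -/
theorem of_trans_sub (h : Hit φ P x y) (hQ : ∀ z, Q z → P z) (hy : ¬ Q y) (h' : Hit φ Q x z) :
    Hit φ Q y z := by
  obtain ⟨k, h1, h2, h3, h4⟩ := h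
  obtain ⟨k', h1', h2', h3', h4'⟩ := h'
  have hkk : k < k' := by
    rcases lt_trichotomy k k' with hlt | heq | hgt
    · exact hlt
    · subst heq; exact absurd (by rw [← h2'] at h3'; rwa [h2] at h3') hy
    · exact absurd (hQ _ (h2' ▸ h3')) (h4 k' h1' hgt)
  refine ⟨k' - k, by omega, ?_, h3', ?_⟩
  · rw [← h2, ← Perm.mul_apply, ← pow_add, ← h2']
    congr 2
    omega
  · intro i hi1 hi2
    have := h4' (i + k) (by omega) (by omega)
    rwa [pow_add, Perm.mul_apply, h2] at this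

end Hit

end HGQ
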