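import Mathlib
import Pool.Agent.HGQ.CHit

/-! # MP_a7ce40_pr (HGQ), part C: closure of a labelled unicellular map

`E` is a finite set, `al` a fixed point free involution (edges), `s` the vertex rotation,
`φ = s * al` has one cycle, `l` is a vertex labelling with steps in `{-1,0,1}`.
The closure lives on `E × Bool`, `(e, true)` being the half-edge further from the base point.
-/

namespace HGQ

open Equiv

set_option linter.unusedSectionVars false

variable {E : Type*}

/-- labelled unicellular map on `E`: `al` = edges, `s` = vertices, `s * al` = the single face -/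
structure Uni (al s : Perm E) (l : E → ℤ) : Prop where
  inv : ∀ x, al (al x) = x
  fpf : ∀ x, al x ≠ x
  one : ∀ x y, (s * al).SameCycle x y
  lab : ∀ x, l (s x) = l x
  step : ∀ x, |l (al x) - l x| ≤ 1

/-- label (distance to the base point) of a half-edge -/
def hlab (l : E → ℤ) (h : E × Bool) : ℤ := if h.2 then l h.1 else l h.1 - 1

/-- the other half of the same edge -/
def hfl (h : E × Bool) : E × Bool := (h.1, !h.2)

@[simp] theorem hfl_hfl (h : E × Bool) : hfl (hfl h) = h := by
  simp [hfl]

@[simp] theorem hfl_mk (x : E) (b : Bool) : hfl (x, b) = (x, !b) := rfl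

@[simp] theorem hlab_true (l : E → ℤ) (x : E) : hlab l (x, true) = l x := by simp [hlab]

@[simp] theorem hlab_false (l : E → ℤ) (x : E) : hlab l (x, false) = l x - 1 := by simp [hlab]

/-- face permutation of a vertex rotation `ρ` of the half-edges -/
def fg (ρ : Perm (E × Bool)) (h : E × Bool) : E × Bool := hfl (ρ h)

/-- plus half-edges -/
def Pl (h : E × Bool) : Prop := h.2 = true

/-- closed structure: pointed quadrangulation with its distance labels -/
structure Closed (ρ : Perm (E × Bool)) (l : E → ℤ) : Prop where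
  lab : ∀ h, hlab l (ρ h) = hlab l h
  four : ∀ h, fg ρ (fg ρ (fg ρ (fg ρ h))) = h
  two : ∀ h, fg ρ (fg ρ h) ≠ h
  pos : ∀ x, 1 ≤ l x
  plus : ∀ h, hlab l h ≠ 0 → ∃ h', ρ.SameCycle h h' ∧ h'.2 = true
  base : ∀ x y, l x = 1 → l y = 1 → ρ.SameCycle (x, false) (y, false)
  ex : ∃ x, l x = 1

/-- `(al, s)` is the opening of `ρ` -/
structure Opening (ρ : Perm (E × Bool)) (al s : Perm E) : Prop where
  fpf : ∀ x, al x ≠ x
  face : ∀ x, fg ρ (x, true) = (al x, true) ∨ fg ρ (fg ρ (x, true)) = (al x, true) ∨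
    fg ρ (fg ρ (fg ρ (x, true))) = (al x, true)
  vert : ∀ x, Hit ρ Pl (x, true) (s x, true)

section nxt

variable [Finite E] (φ : Perm E) (l : E → ℤ)

/-- first later element with label at most the label of `y` -/
noncomputable def nxt (y : E) : E :=
  Classical.choose (Hit.exists_self (φ := φ) (P := fun z => l z ≤ l y) (x := y) (le_refl _))

theorem nxt_spec (y : E) : Hit φ (fun z => l z ≤ l y) y (nxt φ l y) :=
  Classical.choose_spec (Hit.exists_self (φ := φ) (P := fun z => l z ≤ l y) (x := y) (le_refl _))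

theorem nxt_le (y : E) : l (nxt φ l y) ≤ l y := (nxt_spec φ l y).prop

variable {φ l}

theorem nxt_inv_nxt {y : E} (h : l (nxt φ l y) = l y) : nxt φ⁻¹ l (nxt φ l y) = y := by
  have h1 := (nxt_spec φ l y).symm (le_refl _)
  have h2 := nxt_spec φ⁻¹ l (nxt φ l y)
  rw [h] at h2
  exact h2.unique h1

theorem nxt_nxt_inv {y : E} (h : l (nxt φ⁻¹ l y) = l y) : nxt φ l (nxt φ⁻¹ l y) = y := by
  have := nxt_inv_nxt (φ := φ⁻¹) (l := l) h
  rwa [inv_inv] at this

end nxt

section hit

variable {φ : Perm E} {l : E → ℤ} {c : ℤ} {x y : E}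

/-- with down-steps at most one, the first element with label at most `c` has label `c` -/
theorem hit_label (hst : ∀ z, l z - 1 ≤ l (φ z)) (h : Hit φ (fun z => l z ≤ c) x y)
    (hx : c ≤ l (φ x)) : l y = c := by
  obtain ⟨k, h1, h2, h3, h4⟩ := h
  rcases Nat.lt_or_ge 1 k with hk | hk
  · have h5 := h4 (k - 1) (by omega) (by omega)
    have h6 := hst ((φ ^ (k - 1)) x)
    have h7 : φ ((φ ^ (k - 1)) x) = y := by
      rw [← Perm.mul_apply, ← pow_succ', ← h2]
      congr 2
      omega
    rw [h7] at h6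
    simp only [not_le] at h5
    have h3' : l y ≤ c := h3
    omega
  · obtain rfl : k = 1 := by omega
    rw [pow_one] at h2
    rw [h2] at hx
    exact le_antisymm h3 hx

theorem hit_pred_gt (h : Hit φ (fun z => l z ≤ c) x y) (hx : c < l (φ x)) : c < l (φ⁻¹ y) := by
  obtain ⟨k, h1, h2, h3, h4⟩ := h
  rcases Nat.lt_or_ge 1 k with hk | hk
  · have h5 := h4 (k - 1) (by omega) (by omega)
    have h7 : φ ((φ ^ (k - 1)) x) = y := by
      rw [← Perm.mul_apply, ← pow_succ', ← h2]
      congr 2
      omega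
    rw [← h7]
    simpa using h5
  · obtain rfl : k = 1 := by omega
    rw [pow_one] at h2
    rw [h2] at hx
    exact absurd h3 (not_le.mpr hx)

end hit

section closure

variable [Finite E] (al s : Perm E) (l : E → ℤ)

/-- face successor in the closure -/
noncomputable def cg : E × Bool → E × Bool
  | (x, true) => if l (al x) = l x + 1 then (al x, true) else (s x, false)
  | (m, false) => if l ((s * al)⁻¹ m) = l m - 1 then (nxt (s * al) l ((s * al)⁻¹ m), false)
      else (nxt (s * al)⁻¹ l m, true)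

variable {al s l}

theorem cg_up {x : E} (h : l (al x) = l x + 1) : cg al s l (x, true) = (al x, true) := by
  simp [cg, h]

theorem cg_nup {x : E} (h : l (al x) ≠ l x + 1) : cg al s l (x, true) = (s x, false) := by
  simp [cg, h]

theorem cg_fu {m : E} (h : l ((s * al)⁻¹ m) = l m - 1) :
    cg al s l (m, false) = (nxt (s * al) l ((s * al)⁻¹ m), false) := by
  simp only [cg]; rw [if_pos h]

theorem cg_fn {m : E} (h : l ((s * al)⁻¹ m) ≠ l m - 1) :
    cg al s l (m, false) = (nxt (s * al)⁻¹ l m, true) := by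
  simp only [cg]; rw [if_neg h]

namespace Uni

variable (u : Uni al s l)
include u

theorem phi_al (x : E) : (s * al) (al x) = s x := by simp [u.inv]

theorem inv_s (x : E) : (s * al)⁻¹ (s x) = al x := by
  rw [Perm.inv_eq_iff_eq, u.phi_al]

theorem lphi (x : E) : l ((s * al) x) = l (al x) := by simp [u.lab]

theorem linv (x : E) : l (al ((s * al)⁻¹ x)) = l x := by
  rw [← u.lphi, ap_inv]

theorem step1 (x : E) : l (al x) = l x - 1 ∨ l (al x) = l x ∨ l (al x) = l x + 1 := by
  have := abs_le.mp (u.step x)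
  omega

theorem dn (x : E) : l x - 1 ≤ l ((s * al) x) := by
  rw [u.lphi]; rcases u.step1 x with h | h | h <;> omega

theorem up' (x : E) : l ((s * al) x) ≤ l x + 1 := by
  rw [u.lphi]; rcases u.step1 x with h | h | h <;> omega

theorem dn_inv (x : E) : l x - 1 ≤ l ((s * al)⁻¹ x) := by
  have := u.up' ((s * al)⁻¹ x)
  rw [ap_inv] at this
  omega

theorem s_al_inv (m : E) : s (al ((s * al)⁻¹ m)) = m := by
  rw [← Perm.mul_apply, ap_inv]

/-- flat edges -/
theorem cg2_flat {x : E} (h : l (al x) = l x) : cg al s l (cg al s l (x, true)) = (al x, true) := by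
  rw [cg_nup (by omega), cg_fn (by rw [u.inv_s, u.lab]; omega)]
  congr 1
  have h1 := nxt_spec (s * al)⁻¹ l (s x)
  have h2 : Hit (s * al)⁻¹ (fun z => l z ≤ l (s x)) (s x) ((s * al)⁻¹ (s x)) :=
    Hit.step (by simp only [u.inv_s, u.lab, h, le_refl])
  rw [h1.unique h2, u.inv_s]

/-- the four-cycle of a down edge -/
theorem cg_down {x : E} (h : l (al x) = l x - 1) :
    ∃ z : E, cg al s l (x, true) = (s x, false) ∧ cg al s l (s x, false) = (z, false) ∧
      cg al s l (z, false) = (al x, true) ∧ cg al s l (al x, true) = (x, true) ∧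
      z = nxt (s * al) l (al x) := by
  have hy : l ((s * al) (al x)) = l (al x) + 1 := by rw [u.phi_al, u.lab]; omega
  have hz : l (nxt (s * al) l (al x)) = l (al x) :=
    hit_label u.dn (nxt_spec _ _ _) (by omega)
  refine ⟨nxt (s * al) l (al x), cg_nup (by omega), ?_, ?_, ?_, rfl⟩
  · rw [cg_fu (by rw [u.inv_s, u.lab]; exact h), u.inv_s]
  · rw [cg_fn, nxt_inv_nxt hz]
    have := hit_pred_gt (nxt_spec (s * al) l (al x)) (by omega)
    omega
  · rw [cg_up (by rw [u.inv]; omega), u.inv]

theorem cg4_true (x : E) :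
    cg al s l (cg al s l (cg al s l (cg al s l (x, true)))) = (x, true) := by
  rcases u.step1 x with h | h | h
  · obtain ⟨z, h1, h2, h3, h4, _⟩ := u.cg_down h
    rw [h1, h2, h3, h4]
  · rw [u.cg2_flat h, u.cg2_flat (by rw [u.inv]; exact h.symm), u.inv]
  · have h' : l (al (al x)) = l (al x) - 1 := by rw [u.inv]; omega
    obtain ⟨z, h1, h2, h3, h4, _⟩ := u.cg_down h'
    rw [u.inv] at h3 h4
    rw [h4, h1, h2, h3]

/-- minus elements are images of plus elements -/
theorem minus_cases (m : E) :
    (l ((s * al)⁻¹ m) ≤ l m ∧ (m, false) = cg al s l (al ((s * al)⁻¹ m), true)) ∨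
    (l m < l ((s * al)⁻¹ m) ∧ l (nxt (s * al)⁻¹ l m) = l m ∧
      l (al (nxt (s * al)⁻¹ l m)) = l (nxt (s * al)⁻¹ l m) + 1 ∧
      (m, false) = cg al s l (cg al s l (al (nxt (s * al)⁻¹ l m), true))) := by
  rcases lt_or_ge (l m) (l ((s * al)⁻¹ m)) with hlt | hge
  · right
    have hp : l (nxt (s * al)⁻¹ l m) = l m :=
      hit_label u.dn_inv (nxt_spec _ _ _) hlt.le
    have hp2 : l (al (nxt (s * al)⁻¹ l m)) = l (nxt (s * al)⁻¹ l m) + 1 := by
      have h1 := hit_pred_gt (nxt_spec (s * al)⁻¹ l m) hlt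
      rw [inv_inv, u.lphi] at h1
      rcases u.step1 (nxt (s * al)⁻¹ l m) with h | h | h <;> omega
    refine ⟨hlt, hp, hp2, ?_⟩
    obtain ⟨z, h1, h2, h3, h4, h5⟩ := u.cg_down (x := al (nxt (s * al)⁻¹ l m))
      (by rw [u.inv]; omega)
    rw [h1, h2, h5, u.inv, nxt_nxt_inv hp]
  · left
    refine ⟨hge, ?_⟩
    rw [cg_nup, u.s_al_inv]
    rw [u.inv, u.linv]
    omega

theorem cg4 (h : E × Bool) : cg al s l (cg al s l (cg al s l (cg al s l h))) = h := by
  obtain ⟨m, b⟩ := h
  cases b
  · rcases u.minus_cases m with ⟨_, h1⟩ | ⟨_, _, _, h1⟩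
    · rw [h1, u.cg4_true]
    · rw [h1, u.cg4_true]
  · exact u.cg4_true m

theorem cg2_ne (h : E × Bool) : cg al s l (cg al s l h) ≠ h := by
  have key : ∀ x, cg al s l (cg al s l (x, true)) ≠ (x, true) := by
    intro x hx
    rcases u.step1 x with h | h | h
    · obtain ⟨z, h1, h2, h3, h4, _⟩ := u.cg_down h
      rw [h1, h2] at hx
      simp at hx
    · rw [u.cg2_flat h] at hx
      exact u.fpf x (by simpa using hx)
    · have h' : l (al (al x)) = l (al x) - 1 := by rw [u.inv]; omega
      obtain ⟨z, h1, h2, h3, h4, _⟩ := u.cg_down h'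
      rw [u.inv] at h3 h4
      rw [h4, h1] at hx
      simp at hx
  obtain ⟨m, b⟩ := h
  cases b
  · intro hm
    have inj : ∀ a b, cg al s l a = cg al s l b → a = b := by
      intro a b hab
      have := congrArg (fun t => cg al s l (cg al s l (cg al s l t))) hab
      simp only [u.cg4] at this
      exact this
    rcases u.minus_cases m with ⟨_, h1⟩ | ⟨_, _, _, h1⟩
    · rw [h1] at hm
      exact key _ (inj _ _ hm)
    · rw [h1] at hm
      exact key _ (inj _ _ (inj _ _ hm))
  · exact key m

end Uni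

/-- the closure as a permutation -/
noncomputable def clo (u : Uni al s l) : Perm (E × Bool) where
  toFun h := hfl (cg al s l h)
  invFun h := cg al s l (cg al s l (cg al s l (hfl h)))
  left_inv h := by simp [u.cg4]
  right_inv h := by
    show hfl (cg al s l (cg al s l (cg al s l (cg al s l (hfl h))))) = h
    rw [u.cg4, hfl_hfl]

theorem clo_apply (u : Uni al s l) (h : E × Bool) : clo u h = hfl (cg al s l h) := rfl

theorem fg_clo (u : Uni al s l) (h : E × Bool) : fg (clo u) h = cg al s l h := by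
  simp [fg, clo_apply]

end closure

end HGQ
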