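import Mathlib
import Pool.Agent.HGQ.CClose

/-! # MP_a7ce40_pr (HGQ), part C: the closure is a pointed quadrangulation -/

namespace HGQ

open Equiv

set_option linter.unusedSectionVars false

variable {E : Type*} [Finite E] {al s : Perm E} {l : E → ℤ}

/-- if `Hit φ P x y` and `P (φ^k x)`, `1 ≤ k`, then `y = φ^i x` with `i ≤ k`. -/
theorem Hit.exists_le {φ : Perm E} {P : E → Prop} {x y : E} (h : Hit φ P x y) {k : ℕ}
    (hk : 1 ≤ k) (hP : P ((φ ^ k) x)) : ∃ i, 1 ≤ i ∧ i ≤ k ∧ (φ ^ i) x = y := by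
  obtain ⟨i, h1, h2, h3, h4⟩ := h
  refine ⟨i, h1, ?_, h2⟩
  by_contra hcon
  exact h4 k hk (by omega) hP

namespace Uni

variable (u : Uni al s l)
include u

theorem clo_true_up {x : E} (h : l (al x) = l x + 1) : clo u (x, true) = (al x, false) := by
  rw [clo_apply, cg_up h]; rfl

theorem clo_true_nup {x : E} (h : l (al x) ≠ l x + 1) : clo u (x, true) = (s x, true) := by
  rw [clo_apply, cg_nup h]; rfl

theorem clo_false_up {m : E} (h : l ((s * al)⁻¹ m) = l m - 1) :
    clo u (m, false) = (nxt (s * al) l ((s * al)⁻¹ m), true) := by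
  rw [clo_apply, cg_fu h]; rfl

theorem clo_false_nup {m : E} (h : l ((s * al)⁻¹ m) ≠ l m - 1) :
    clo u (m, false) = (nxt (s * al)⁻¹ l m, false) := by
  rw [clo_apply, cg_fn h]; rfl

theorem l_nxt_up {m : E} (h : l ((s * al)⁻¹ m) = l m - 1) :
    l (nxt (s * al) l ((s * al)⁻¹ m)) = l m - 1 := by
  rw [← h]
  refine hit_label u.dn (nxt_spec _ _ _) ?_
  rw [ap_inv, h]; omega

theorem l_nxt_nup {m : E} (h : l ((s * al)⁻¹ m) ≠ l m - 1) :
    l (nxt (s * al)⁻¹ l m) = l m := by
  refine hit_label u.dn_inv (nxt_spec _ _ _) ?_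
  have := u.dn_inv m
  omega

theorem clo_lab (h : E × Bool) : hlab l (clo u h) = hlab l h := by
  obtain ⟨x, b⟩ := h
  cases b
  · by_cases h : l ((s * al)⁻¹ x) = l x - 1
    · rw [u.clo_false_up h, hlab_true, hlab_false, u.l_nxt_up h]
    · rw [u.clo_false_nup h, hlab_false, hlab_false, u.l_nxt_nup h]
  · by_cases h : l (al x) = l x + 1
    · rw [u.clo_true_up h, hlab_false, hlab_true, h]; ring
    · rw [u.clo_true_nup h, hlab_true, hlab_true, u.lab]

/-- the first plus half-edge after `(j, false)` is the first later element of label `l j - 1` -/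
theorem clo_plus (k : ℕ) : ∀ j z : E, l (((s * al)⁻¹ ^ k) j) < l j →
    Hit (s * al) (fun t => l t ≤ l j - 1) j z → Hit (clo u) Pl (j, false) (z, true) := by
  induction k using Nat.strong_induction_on with
  | _ k ih =>
    intro j z hk hz
    by_cases h : l ((s * al)⁻¹ j) = l j - 1
    · have h1 := nxt_spec (s * al) l ((s * al)⁻¹ j)
      have h2 : Hit (s * al) (fun t => l t ≤ l ((s * al)⁻¹ j)) ((s * al) ((s * al)⁻¹ j))
          (nxt (s * al) l ((s * al)⁻¹ j)) := h1.of_cons (by rw [ap_inv]; omega)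
      rw [ap_inv] at h2
      rw [h] at h2
      have h3 := h2.unique hz
      have h4 : clo u (j, false) = (z, true) := by rw [u.clo_false_up h, h3]
      rw [← h4]
      exact Hit.step (by rw [h4]; rfl)
    · have hp := u.l_nxt_nup h
      have hk0 : 1 ≤ k := by
        rcases Nat.eq_zero_or_pos k with h0 | h0
        · subst h0; simp at hk
        · exact h0
      obtain ⟨i, hi1, hi2, hi3⟩ := (nxt_spec (s * al)⁻¹ l j).exists_le hk0 hk.le
      have hik : i ≠ k := by
        rintro rfl
        rw [hi3, hp] at hk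
        exact lt_irrefl _ hk
      have hc : clo u (j, false) = (nxt (s * al)⁻¹ l j, false) := u.clo_false_nup h
      refine Hit.cons (by rw [hc]; simp [Pl]) ?_
      rw [hc]
      refine ih (k - i) (by omega) _ z ?_ ?_
      · rw [hp, ← hi3, ← Perm.mul_apply, ← pow_add, Nat.sub_add_cancel hi2]
        exact hk
      · rw [hp]
        have h5 := nxt_spec (s * al) l (nxt (s * al)⁻¹ l j)
        rw [nxt_nxt_inv hp, hp] at h5
        exact h5.trans_sub (fun t ht => by omega) (by omega) hz

end Uni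

/-- along a single cycle every element is reached by forward powers -/
theorem exists_pow_of_sameCycle {φ : Perm E} {x y : E} (h : φ.SameCycle x y) :
    ∃ k : ℕ, 1 ≤ k ∧ (φ ^ k) x = y := by
  obtain ⟨i, hi0, _, hi2⟩ := h.exists_pow_eq''
  exact ⟨i, hi0, hi2⟩

namespace Uni

variable (u : Uni al s l)
include u

theorem one' (x y : E) : ((s * al)⁻¹).SameCycle x y := Perm.sameCycle_inv.mpr (u.one x y)

theorem clo_plus' (hex : ∃ x, l x = 1) {j z : E} (hj : 2 ≤ l j)
    (hz : Hit (s * al) (fun t => l t ≤ l j - 1) j z) : Hit (clo u) Pl (j, false) (z, true) := by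
  obtain ⟨x, hx⟩ := hex
  obtain ⟨k, _, hk⟩ := exists_pow_of_sameCycle (u.one' j x)
  exact u.clo_plus k j z (by rw [hk, hx]; omega) hz

theorem exists_lower (hex : ∃ x, l x = 1) {j : E} (hj : 2 ≤ l j) :
    ∃ z, Hit (s * al) (fun t => l t ≤ l j - 1) j z := by
  obtain ⟨x, hx⟩ := hex
  exact Hit.exists_of_sameCycle (u.one j x) (by rw [hx]; omega)

theorem clo_base (hpos : ∀ x, 1 ≤ l x) (k : ℕ) : ∀ x : E, l x = 1 →
    l (((s * al)⁻¹ ^ k) x) = 1 →
    (clo u).SameCycle (x, false) (((s * al)⁻¹ ^ k) x, false) := by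
  induction k using Nat.strong_induction_on with
  | _ k ih =>
    intro x hx hk
    rcases Nat.eq_zero_or_pos k with h0 | hk0
    · subst h0; exact Perm.SameCycle.refl _ _
    have h : l ((s * al)⁻¹ x) ≠ l x - 1 := by
      have := hpos ((s * al)⁻¹ x)
      omega
    obtain ⟨i, hi1, hi2, hi3⟩ := (nxt_spec (s * al)⁻¹ l x).exists_le hk0
      (by show l _ ≤ l x; rw [hk, hx])
    have hc : clo u (x, false) = (nxt (s * al)⁻¹ l x, false) := u.clo_false_nup h
    have hp := u.l_nxt_nup h
    have h1 : (clo u).SameCycle (x, false) (nxt (s * al)⁻¹ l x, false) := by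
      rw [← hc]; exact (Perm.SameCycle.refl _ _).apply_right
    refine h1.trans ?_
    have h2 := ih (k - i) (by omega) (nxt (s * al)⁻¹ l x) (by rw [hp, hx])
    have e : ((s * al)⁻¹ ^ (k - i)) (nxt (s * al)⁻¹ l x) = ((s * al)⁻¹ ^ k) x := by
      rw [← hi3, ← Perm.mul_apply, ← pow_add, Nat.sub_add_cancel hi2]
    rw [e] at h2
    exact h2 hk

theorem closed (hpos : ∀ x, 1 ≤ l x) (hex : ∃ x, l x = 1) : Closed (clo u) l where
  lab := u.clo_lab
  four h := by simp only [fg_clo]; exact u.cg4 h
  two h := by simp only [fg_clo]; exact u.cg2_ne h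
  pos := hpos
  plus h hh := by
    obtain ⟨x, b⟩ := h
    cases b
    · rw [hlab_false] at hh
      have hx : 2 ≤ l x := by have := hpos x; omega
      obtain ⟨z, hz⟩ := u.exists_lower hex hx
      exact ⟨_, (u.clo_plus' hex hx hz).sameCycle, rfl⟩
    · exact ⟨(x, true), Perm.SameCycle.refl _ _, rfl⟩
  base x y hx hy := by
    obtain ⟨k, _, hk⟩ := exists_pow_of_sameCycle (u.one' x y)
    have := u.clo_base hpos k x hx (by rw [hk, hy])
    rwa [hk] at this
  ex := hex

theorem opening (hpos : ∀ x, 1 ≤ l x) (hex : ∃ x, l x = 1) : Opening (clo u) al s where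
  fpf := u.fpf
  face x := by
    simp only [fg_clo]
    rcases u.step1 x with h | h | h
    · obtain ⟨z, h1, h2, h3, h4, _⟩ := u.cg_down h
      right; right
      rw [h1, h2, h3]
    · right; left
      exact u.cg2_flat h
    · left
      exact cg_up h
  vert x := by
    by_cases h : l (al x) = l x + 1
    · have h1 := u.clo_true_up h
      refine Hit.cons (by rw [h1]; simp [Pl]) ?_
      rw [h1]
      refine u.clo_plus' hex (by have := hpos x; omega) ?_
      have h2 : (s * al) (al x) = s x := u.phi_al x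
      rw [← h2]
      refine Hit.step ?_
      show l _ ≤ l (al x) - 1
      rw [h2, u.lab]; omega
    · have h1 := u.clo_true_nup h
      rw [← h1]
      exact Hit.step (by rw [h1]; rfl)

end Uni

end HGQ
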