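import Mathlib
import Pool.Agent.HGQ.CClose2

/-! # MP_a7ce40_pr (HGQ), part C: opening a pointed quadrangulation -/

namespace HGQ

open Equiv

set_option linter.unusedSectionVars false

variable {E : Type*} [Finite E] {al s : Perm E} {l : E → ℤ} {ρ : Perm (E × Bool)}

/-- the other plus half-edge of the face of `(x, true)` -/
def partner (ρ : Perm (E × Bool)) (x : E) : E :=
  if (fg ρ (x, true)).2 = true then (fg ρ (x, true)).1
  else if (fg ρ (fg ρ (x, true))).2 = true then (fg ρ (fg ρ (x, true))).1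
  else (fg ρ (fg ρ (fg ρ (x, true)))).1

namespace Closed

variable (c : Closed ρ l)
include c

theorem fg_inj {a b : E × Bool} (h : fg ρ a = fg ρ b) : a = b := by
  rw [← c.four a, ← c.four b, h]

/-- labels change by one along a face -/
theorem hlab_fg (h : E × Bool) : hlab l (fg ρ h) = if (fg ρ h).2 then hlab l h + 1 else hlab l h - 1 := by
  have h1 := c.lab h
  rcases hh : ρ h with ⟨x, b⟩
  rw [hh] at h1
  have h2 : fg ρ h = (x, !b) := by simp [fg, hh, hfl]
  rw [h2]
  cases b
  · simp only [hlab_false] at h1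
    simp only [Bool.not_false, hlab_true, if_true]; omega
  · simp only [hlab_true] at h1
    simp only [Bool.not_true, hlab_false]; simp; omega

/-- the three possible shapes of the face of a plus half-edge -/
theorem shape (x : E) :
    (∃ y m z, fg ρ (x, true) = (y, true) ∧ fg ρ (y, true) = (m, false) ∧
      fg ρ (m, false) = (z, false) ∧ fg ρ (z, false) = (x, true) ∧ l y = l x + 1 ∧
      partner ρ x = y ∧ y ≠ x) ∨
    (∃ y m z, fg ρ (x, true) = (m, false) ∧ fg ρ (m, false) = (y, true) ∧
      fg ρ (y, true) = (z, false) ∧ fg ρ (z, false) = (x, true) ∧ l y = l x ∧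
      partner ρ x = y ∧ y ≠ x) ∨
    (∃ y m z, fg ρ (x, true) = (m, false) ∧ fg ρ (m, false) = (z, false) ∧
      fg ρ (z, false) = (y, true) ∧ fg ρ (y, true) = (x, true) ∧ l y = l x - 1 ∧
      partner ρ x = y ∧ y ≠ x) := by
  have f4 := c.four (x, true)
  have f2 := c.two (x, true)
  have d1 := c.hlab_fg (x, true)
  have d2 := c.hlab_fg (fg ρ (x, true))
  have d3 := c.hlab_fg (fg ρ (fg ρ (x, true)))
  have d4 := c.hlab_fg (fg ρ (fg ρ (fg ρ (x, true))))
  rw [f4] at d4
  simp only [partner]
  rcases e1 : fg ρ (x, true) with ⟨a1, b1⟩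
  rw [e1] at d1 d2 d3 d4 f2 f4
  rcases e2 : fg ρ (a1, b1) with ⟨a2, b2⟩
  rw [e2] at d2 d3 d4 f2 f4
  rcases e3 : fg ρ (a2, b2) with ⟨a3, b3⟩
  rw [e3] at d3 d4 f4
  have hne1 : (a1, b1) ≠ (x, true) := by
    intro h
    rw [h, e1, h] at e2
    exact f2 e2.symm
  have hne3 : (a3, b3) ≠ (x, true) := by
    intro h
    rw [h, e1] at f4
    exact hne1 f4
  cases b1 <;> cases b2 <;> cases b3 <;> simp at d1 d2 d3 d4
  · omega
  · right; right
    refine ⟨a3, a1, a2, rfl, e2, e3, f4, by omega, by simp, fun h => hne3 (by rw [h])⟩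
  · right; left
    refine ⟨a2, a1, a3, rfl, e2, e3, f4, by omega, by simp, fun h => f2 (by rw [h])⟩
  · omega
  · left
    refine ⟨a1, a2, a3, rfl, e2, e3, f4, by omega, by simp, fun h => hne1 (by rw [h])⟩
  · omega
  · omega
  · omega

theorem partner_partner (x : E) : partner ρ (partner ρ x) = x := by
  rcases c.shape x with ⟨y, m, z, h1, h2, h3, h4, _, h5, _⟩ | ⟨y, m, z, h1, h2, h3, h4, _, h5, _⟩ |
    ⟨y, m, z, h1, h2, h3, h4, _, h5, _⟩
  · rw [h5]; simp [partner, h2, h3, h4]
  · rw [h5]; simp [partner, h3, h4]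
  · rw [h5]; simp [partner, h4]

/-- edge involution of the opening -/
def oal : Perm E where
  toFun := partner ρ
  invFun := partner ρ
  left_inv := c.partner_partner
  right_inv := c.partner_partner

end Closed

end HGQ
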