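import Mathlib
import Pool.Agent.HGQ.COpen

/-! # MP_a7ce40_pr (HGQ), part C: the opening of a pointed quadrangulation is unicellular -/

namespace HGQ

open Equiv

set_option linter.unusedSectionVars false

variable {E : Type*} [Finite E] {al s : Perm E} {l : E → ℤ} {ρ : Perm (E × Bool)}

/-- first return to the plus half-edges -/
noncomputable def fret (ρ : Perm (E × Bool)) (x : E) : E :=
  (Classical.choose (Hit.exists_self (φ := ρ) (P := Pl) (x := (x, true)) rfl)).1

theorem fret_spec (ρ : Perm (E × Bool)) (x : E) : Hit ρ Pl (x, true) (fret ρ x, true) := by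
  have h := Classical.choose_spec (Hit.exists_self (φ := ρ) (P := Pl) (x := (x, true)) rfl)
  have h2 := h.prop
  unfold fret
  have : (Classical.choose (Hit.exists_self (φ := ρ) (P := Pl) (x := (x, true)) rfl)) =
      ((Classical.choose (Hit.exists_self (φ := ρ) (P := Pl) (x := (x, true)) rfl)).1, true) :=
    Prod.ext rfl h2
  rw [← this]
  exact h

theorem fret_inj (ρ : Perm (E × Bool)) : Function.Injective (fret ρ) := by
  intro x y h
  have h1 := (fret_spec ρ x).symm rfl
  have h2 := (fret_spec ρ y).symm rfl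
  rw [h] at h1
  have := h1.unique h2
  simpa using this

/-- vertex rotation of the opening -/
noncomputable def os (ρ : Perm (E × Bool)) : Perm E :=
  Equiv.ofBijective (fret ρ) (Finite.injective_iff_bijective.mp (fret_inj ρ))

theorem os_spec (ρ : Perm (E × Bool)) (x : E) : Hit ρ Pl (x, true) (os ρ x, true) :=
  fret_spec ρ x

namespace Closed

variable (c : Closed ρ l)
include c

theorem oal_apply (x : E) : c.oal x = partner ρ x := rfl

theorem opening : Opening ρ c.oal (os ρ) where
  fpf x := by
    rw [c.oal_apply]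
    rcases c.shape x with ⟨y, m, z, h1, h2, h3, h4, _, h5, h6⟩ |
      ⟨y, m, z, h1, h2, h3, h4, _, h5, h6⟩ | ⟨y, m, z, h1, h2, h3, h4, _, h5, h6⟩
    all_goals rw [h5]; exact h6
  face x := by
    rw [c.oal_apply]
    rcases c.shape x with ⟨y, m, z, h1, h2, h3, h4, _, h5, h6⟩ |
      ⟨y, m, z, h1, h2, h3, h4, _, h5, h6⟩ | ⟨y, m, z, h1, h2, h3, h4, _, h5, h6⟩
    · left; rw [h1, h5]
    · right; left; rw [h1, h2, h5]
    · right; right; rw [h1, h2, h3, h5]
  vert := os_spec ρ

theorem opening_unique (o : Opening ρ al s) : al = c.oal ∧ s = os ρ := by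
  constructor
  · ext x
    rw [c.oal_apply]
    have h0 := o.fpf x
    rcases c.shape x with ⟨y, m, z, h1, h2, h3, h4, _, h5, h6⟩ |
      ⟨y, m, z, h1, h2, h3, h4, _, h5, h6⟩ | ⟨y, m, z, h1, h2, h3, h4, _, h5, h6⟩
    · rw [h5]
      have := o.face x
      rw [h1, h2, h3] at this
      simp at this
      exact this.symm
    · rw [h5]
      have := o.face x
      rw [h1, h2, h3] at this
      simp at this
      exact this.symm
    · rw [h5]
      have := o.face x
      rw [h1, h2, h3] at this
      simp at this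
      exact this.symm
  · ext x
    have := (o.vert x).unique (os_spec ρ x)
    simpa using this

theorem lab_pow (k : ℕ) (h : E × Bool) : hlab l ((ρ ^ k) h) = hlab l h := by
  induction k with
  | zero => rfl
  | succ k ih => rw [pow_succ', Perm.mul_apply, c.lab, ih]

theorem hlab_same {h h' : E × Bool} (hh : ρ.SameCycle h h') : hlab l h = hlab l h' := by
  obtain ⟨k, _, rfl⟩ := exists_pow_of_sameCycle hh
  exact (c.lab_pow k h).symm

theorem l_os (x : E) : l (os ρ x) = l x := by
  have := c.hlab_same (os_spec ρ x).sameCycle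
  simpa using this.symm

theorem rho_of_fg {h : E × Bool} {x : E} {b : Bool} (hh : fg ρ h = (x, b)) : ρ h = (x, !b) := by
  have : hfl (fg ρ h) = hfl (x, b) := by rw [hh]
  simpa [fg] using this

theorem rel_up {x : E} (h : l (c.oal x) = l x + 1) :
    ∃ z, ρ (os ρ (c.oal x), false) = (z, true) ∧ ρ (z, false) = (x, false) ∧
      ρ (x, true) = (c.oal x, false) := by
  rw [c.oal_apply] at h
  rcases c.shape x with ⟨y, m, z, h1, h2, h3, h4, h7, h5, h6⟩ |
      ⟨y, m, z, h1, h2, h3, h4, h7, h5, h6⟩ | ⟨y, m, z, h1, h2, h3, h4, h7, h5, h6⟩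
  · have hm : os ρ y = m := by
      have h8 := c.rho_of_fg h2
      have h9 : Hit ρ Pl (y, true) (ρ (y, true)) := Hit.step (by rw [h8]; rfl)
      rw [h8] at h9
      have := (os_spec ρ y).unique h9
      simpa using this
    refine ⟨z, ?_, c.rho_of_fg h4, ?_⟩
    · rw [c.oal_apply, h5, hm]; exact c.rho_of_fg h3
    · rw [c.oal_apply, h5]; exact c.rho_of_fg h1
  · rw [h5] at h; omega
  · rw [h5] at h; omega

theorem rho_nup {x : E} (h : l (c.oal x) ≠ l x + 1) : ρ (x, true) = (os ρ x, true) := by
  rw [c.oal_apply] at h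
  rcases c.shape x with ⟨y, m, z, h1, h2, h3, h4, h7, h5, h6⟩ |
      ⟨y, m, z, h1, h2, h3, h4, h7, h5, h6⟩ | ⟨y, m, z, h1, h2, h3, h4, h7, h5, h6⟩
  · rw [h5] at h; omega
  · have h8 := c.rho_of_fg h1
    have h9 : Hit ρ Pl (x, true) (ρ (x, true)) := Hit.step (by rw [h8]; rfl)
    rw [h8] at h9
    have := (os_spec ρ x).unique h9
    rw [this, h8]
  · have h8 := c.rho_of_fg h1
    have h9 : Hit ρ Pl (x, true) (ρ (x, true)) := Hit.step (by rw [h8]; rfl)
    rw [h8] at h9
    have := (os_spec ρ x).unique h9
    rw [this, h8]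

theorem rel_flat {x : E} (h : l (c.oal x) = l x) :
    ρ (os ρ (c.oal x), false) = (x, false) := by
  rw [c.oal_apply] at h
  rcases c.shape x with ⟨y, m, z, h1, h2, h3, h4, h7, h5, h6⟩ |
      ⟨y, m, z, h1, h2, h3, h4, h7, h5, h6⟩ | ⟨y, m, z, h1, h2, h3, h4, h7, h5, h6⟩
  · rw [h5] at h; omega
  · have hz : os ρ y = z := by
      have h8 := c.rho_of_fg h3
      have h9 : Hit ρ Pl (y, true) (ρ (y, true)) := Hit.step (by rw [h8]; rfl)
      rw [h8] at h9
      have := (os_spec ρ y).unique h9
      simpa using this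
    rw [c.oal_apply, h5, hz]
    exact c.rho_of_fg h4
  · rw [h5] at h; omega

theorem rel_down {x : E} (h : l (c.oal x) = l x - 1) :
    Hit ρ Pl (x, false) (os ρ (c.oal x), true) := by
  rw [c.oal_apply] at h
  rcases c.shape x with ⟨y, m, z, h1, h2, h3, h4, h7, h5, h6⟩ |
      ⟨y, m, z, h1, h2, h3, h4, h7, h5, h6⟩ | ⟨y, m, z, h1, h2, h3, h4, h7, h5, h6⟩
  · rw [h5] at h; omega
  · rw [h5] at h; omega
  · have h8 := c.rho_of_fg h4
    rw [c.oal_apply, h5]
    have h9 := (os_spec ρ y).of_cons (by rw [h8]; simp [Pl])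
    rw [h8] at h9
    exact h9

theorem step1 (x : E) : l (c.oal x) = l x - 1 ∨ l (c.oal x) = l x ∨ l (c.oal x) = l x + 1 := by
  rw [c.oal_apply]
  rcases c.shape x with ⟨y, m, z, h1, h2, h3, h4, h7, h5, h6⟩ |
      ⟨y, m, z, h1, h2, h3, h4, h7, h5, h6⟩ | ⟨y, m, z, h1, h2, h3, h4, h7, h5, h6⟩
  · rw [h5]; omega
  · rw [h5]; omega
  · rw [h5]; omega

theorem lphi (x : E) : l ((os ρ * c.oal) x) = l (c.oal x) := by
  rw [Perm.mul_apply, c.l_os]

theorem dn (x : E) : l x - 1 ≤ l ((os ρ * c.oal) x) := by
  rw [c.lphi]; rcases c.step1 x with h | h | h <;> omega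

theorem up' (x : E) : l ((os ρ * c.oal) x) ≤ l x + 1 := by
  rw [c.lphi]; rcases c.step1 x with h | h | h <;> omega

/-- Claim B: the first plus half-edge after `(x, false)` is the first later element
with smaller label. -/
theorem hit_plus (k : ℕ) : ∀ x : E, 1 ≤ k → l (((os ρ * c.oal) ^ k) x) = l x - 1 →
    (∀ i, 1 ≤ i → i < k → l x ≤ l (((os ρ * c.oal) ^ i) x)) →
    Hit ρ Pl (x, false) (((os ρ * c.oal) ^ k) x, true) := by
  induction k using Nat.strong_induction_on with
  | _ k ih =>
    intro x hk1 hk hi
    set φ := os ρ * c.oal with hφ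
    have hx : os ρ (c.oal x) = φ x := rfl
    rcases c.step1 x with h | h | h
    · have h1 := c.rel_down h
      have hk' : k = 1 := by
        by_contra hne
        have := hi 1 le_rfl (by omega)
        rw [pow_one, c.lphi, h] at this
        omega
      subst hk'
      rw [pow_one]
      exact h1
    · have h1 := c.rel_flat h
      have hk' : k ≠ 1 := by
        rintro rfl
        rw [pow_one, c.lphi, h] at hk
        omega
      have h2 := ih (k - 1) (by omega) (φ x) (by omega)
        (by rw [← Perm.mul_apply, ← pow_succ, Nat.sub_add_cancel hk1, hk, c.lphi, h])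
        (by
          intro i hi1 hi2
          rw [← Perm.mul_apply, ← pow_succ, c.lphi, h]
          exact hi (i + 1) (by omega) (by omega))
      rw [← Perm.mul_apply, ← pow_succ, Nat.sub_add_cancel hk1] at h2
      have h3 := h2.of_cons (by rw [← hx, h1]; simp [Pl])
      rw [← hx, h1] at h3
      exact h3
    · obtain ⟨z, h1, h2, _⟩ := c.rel_up h
      rw [hx] at h1
      -- first return to label ≤ l x
      have hlr : l (φ x) = l x + 1 := by rw [c.lphi, h]
      have hk' : k ≠ 1 := by
        rintro rfl
        rw [pow_one, hlr] at hk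
        omega
      have hk1' : l ((φ ^ (k - 1)) (φ x)) ≤ l x := by
        rw [← Perm.mul_apply, ← pow_succ, Nat.sub_add_cancel hk1, hk]; omega
      obtain ⟨w, hw⟩ : ∃ w, Hit φ (fun t => l t ≤ l x) (φ x) w :=
        Hit.exists_of_pow (k := k - 1) (by omega) hk1'
      have hwl : l w = l x := by
        refine hit_label c.dn hw ?_
        have h11 : l (φ x) - 1 ≤ l (φ (φ x)) := c.dn (φ x)
        show l x ≤ l (φ (φ x))
        omega
      obtain ⟨j, hj1, hj3, hjP, hjmin⟩ := hw
      have hj2 : j ≤ k - 1 := by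
        by_contra hcon
        exact hjmin (k - 1) (by omega) (by omega) hk1'
      have hjk : j + 1 < k := by
        rcases Nat.lt_or_ge (j + 1) k with hlt | hge
        · exact hlt
        · exfalso
          have hjk : j + 1 = k := by omega
          have hwk : (φ ^ k) x = w := by
            rw [← hjk, pow_succ, Perm.mul_apply, hj3]
          rw [hwk] at hk
          omega
      -- S(φ x) = w
      have hS : Hit ρ Pl (φ x, false) (w, true) := by
        have := ih j (by omega) (φ x) hj1 (by rw [hj3, hwl, hlr]; ring) ?_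
        · rw [hj3] at this; exact this
        · intro i hi1 hi2
          rw [hlr]
          have := hjmin i hi1 hi2
          simp only [not_le] at this
          omega
      have hzw : z = w := by
        have h3 : Hit ρ Pl (φ x, false) (ρ (φ x, false)) := Hit.step (by rw [h1]; rfl)
        rw [h1] at h3
        have := h3.unique hS
        simpa using this
      subst hzw
      have h4 := ih (k - (j + 1)) (by omega) z (by omega)
        (by
          have e : (φ ^ (k - (j + 1))) z = (φ ^ k) x := by
            rw [← hj3, ← Perm.mul_apply, ← Perm.mul_apply, ← pow_add, ← pow_succ]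
            congr 2
            omega
          rw [e, hk, hwl])
        (by
          intro i hi1 hi2
          have e : (φ ^ i) z = (φ ^ (i + (j + 1))) x := by
            rw [← hj3, ← Perm.mul_apply, ← Perm.mul_apply, ← pow_add, ← pow_succ]
            congr 2
          rw [e, hwl]
          exact hi _ (by omega) (by omega))
      have e : (φ ^ (k - (j + 1))) z = (φ ^ k) x := by
        rw [← hj3, ← Perm.mul_apply, ← Perm.mul_apply, ← pow_add, ← pow_succ]
        congr 2
        omega
      rw [e] at h4
      have h5 := h4.of_cons (by rw [h2]; simp [Pl])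
      rw [h2] at h5
      exact h5

/-- Claim B, `Hit` form -/
theorem hit_plus' {x z : E} (h : Hit (os ρ * c.oal) (fun t => l t ≤ l x - 1) x z) :
    Hit ρ Pl (x, false) (z, true) := by
  have hz : l z = l x - 1 := by
    refine hit_label c.dn h ?_
    exact c.dn x
  obtain ⟨k, h1, h2, h3, h4⟩ := h
  rw [← h2]
  refine c.hit_plus k x h1 (by rw [h2, hz]) ?_
  intro i hi1 hi2
  have := h4 i hi1 hi2
  simp only [not_le] at this
  omega

end Closed

end HGQ
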