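import Mathlib
import Pool.Agent.HGQ.COpen2

/-! # MP_a7ce40_pr (HGQ), part C: opening and closure are inverse to each other -/

namespace HGQ

open Equiv

set_option linter.unusedSectionVars false

variable {E : Type*} [Finite E] {al s : Perm E} {l : E → ℤ} {ρ : Perm (E × Bool)}

namespace Closed

variable (c : Closed ρ l)
include c

/-- next element of minimal label on a face orbit -/
theorem next_min {x0 y : E}
    (hmin : ∀ y, (os ρ * c.oal).SameCycle x0 y → l x0 ≤ l y)
    (hy : (os ρ * c.oal).SameCycle x0 y) (hl : l y = l x0) :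
    ρ (nxt (os ρ * c.oal) l y, false) = (y, false) ∧
      (os ρ * c.oal).SameCycle x0 (nxt (os ρ * c.oal) l y) ∧
      l (nxt (os ρ * c.oal) l y) = l x0 := by
  set φ := os ρ * c.oal with hφ
  have hsp := nxt_spec φ l y
  have hsc : φ.SameCycle x0 (nxt φ l y) := hy.trans hsp.sameCycle
  have hll : l (nxt φ l y) = l x0 :=
    le_antisymm ((nxt_le φ l y).trans_eq hl) (hmin _ hsc)
  refine ⟨?_, hsc, hll⟩
  have hφy : φ.SameCycle x0 (φ y) := hy.apply_right
  have hφl : l (φ y) = l (c.oal y) := c.lphi y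
  rcases c.step1 y with h | h | h
  · have := hmin _ hφy
    omega
  · have h1 := c.rel_flat h
    have h2 : nxt φ l y = φ y := Hit.eq_step (P := fun z => l z ≤ l y) (by omega) hsp
    rw [h2]; exact h1
  · obtain ⟨z, h1, h2, _⟩ := c.rel_up h
    have h3 : Hit φ (fun t => l t ≤ l y) (φ y) (nxt φ l y) :=
      hsp.of_cons (by simp only [not_le]; omega)
    have h4 : Hit φ (fun t => l t ≤ l (φ y) - 1) (φ y) (nxt φ l y) := by
      have e : l (φ y) - 1 = l y := by omega
      rw [e]; exact h3
    have h5 := c.hit_plus' h4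
    have h6 : Hit ρ Pl (φ y, false) (z, true) := by
      have := Hit.step (φ := ρ) (P := Pl) (x := (φ y, false)) (by
        show Pl (ρ (os ρ (c.oal y), false)); rw [h1]; rfl)
      have e : ρ (φ y, false) = (z, true) := h1
      rwa [e] at this
    have h7 : z = nxt φ l y := by simpa using h6.unique h5
    rw [← h7]; exact h2

theorem minus_orbit_aux {x0 : E}
    (hmin : ∀ y, (os ρ * c.oal).SameCycle x0 y → l x0 ≤ l y) (k : ℕ) :
    ∃ y, (ρ⁻¹ ^ k) (x0, false) = (y, false) ∧ (os ρ * c.oal).SameCycle x0 y ∧ l y = l x0 := by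
  induction k with
  | zero => exact ⟨x0, rfl, Perm.SameCycle.refl _ _, rfl⟩
  | succ k ih =>
    obtain ⟨y, h1, h2, h3⟩ := ih
    obtain ⟨h4, h5, h6⟩ := c.next_min hmin h2 h3
    refine ⟨_, ?_, h5, h6⟩
    rw [pow_succ', Perm.mul_apply, h1, Perm.inv_eq_iff_eq, h4]

theorem minus_orbit {x0 : E}
    (hmin : ∀ y, (os ρ * c.oal).SameCycle x0 y → l x0 ≤ l y) {h' : E × Bool}
    (hh : ρ.SameCycle (x0, false) h') :
    ∃ y, h' = (y, false) ∧ (os ρ * c.oal).SameCycle x0 y ∧ l y = l x0 := by
  obtain ⟨k, _, hk⟩ := exists_pow_of_sameCycle (Perm.sameCycle_inv.mpr hh)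
  obtain ⟨y, h1, h2, h3⟩ := c.minus_orbit_aux hmin k
  exact ⟨y, by rw [← hk, h1], h2, h3⟩

theorem min_eq_one {x0 : E}
    (hmin : ∀ y, (os ρ * c.oal).SameCycle x0 y → l x0 ≤ l y) : l x0 = 1 := by
  by_contra hne
  obtain ⟨h', h1, h2⟩ := c.plus (x0, false) (by rw [hlab_false]; omega)
  obtain ⟨y, h3, _, _⟩ := c.minus_orbit hmin h1
  rw [h3] at h2
  simp at h2

theorem exists_min (x : E) : ∃ x0, (os ρ * c.oal).SameCycle x x0 ∧ l x0 = 1 := by
  obtain ⟨x0, h1, h2⟩ := Set.exists_min_image {y | (os ρ * c.oal).SameCycle x y} l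
    (Set.toFinite _) ⟨x, Perm.SameCycle.refl _ _⟩
  exact ⟨x0, h1, c.min_eq_one (fun y hy => h2 y (Perm.SameCycle.trans h1 hy))⟩

theorem one_cycle (x y : E) : (os ρ * c.oal).SameCycle x y := by
  obtain ⟨x0, h1, h2⟩ := c.exists_min x
  obtain ⟨y0, h3, h4⟩ := c.exists_min y
  have hb := c.base x0 y0 h2 h4
  obtain ⟨z, h5, h6, _⟩ := c.minus_orbit (x0 := x0) (fun y _ => by rw [h2]; exact c.pos y) hb
  have : y0 = z := by simpa using h5
  subst this
  exact (h1.trans h6).trans h3.symm

/-- the opening is a labelled unicellular map -/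
theorem uni : Uni c.oal (os ρ) l where
  inv := c.partner_partner
  fpf := c.opening.fpf
  one := c.one_cycle
  lab := c.l_os
  step x := by
    rw [abs_le]
    rcases c.step1 x with h | h | h <;> omega

/-- `ρ` is the closure of its opening -/
theorem eq_clo : clo c.uni = ρ := by
  have u := c.uni
  ext1 h
  obtain ⟨x, b⟩ := h
  cases b
  · by_cases h : l ((os ρ * c.oal)⁻¹ x) = l x - 1
    · -- up step into x
      have h1 : l (c.oal ((os ρ * c.oal)⁻¹ x)) = l ((os ρ * c.oal)⁻¹ x) + 1 := by
        rw [u.linv, h]; ring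
      obtain ⟨z, h2, h3, _⟩ := c.rel_up h1
      have h4 : os ρ (c.oal ((os ρ * c.oal)⁻¹ x)) = x := by
        rw [← Perm.mul_apply, ap_inv]
      rw [h4] at h2
      rw [u.clo_false_up h, h2]
      have h5 : Hit ρ Pl (x, false) (z, true) := by
        have := Hit.step (φ := ρ) (P := Pl) (x := (x, false)) (by rw [h2]; rfl)
        rwa [h2] at this
      have h6 := nxt_spec (os ρ * c.oal) l ((os ρ * c.oal)⁻¹ x)
      have h7 := h6.of_cons (by rw [ap_inv]; omega)
      rw [ap_inv, h] at h7
      have h8 := (c.hit_plus' h7).unique h5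
      exact h8
    · have hp := u.l_nxt_nup h
      rw [u.clo_false_nup h]
      -- p = nxt φ⁻¹ l x is followed by x as its next min
      set φ := os ρ * c.oal with hφ
      set p := nxt φ⁻¹ l x with hpdef
      have hnx : nxt φ l p = x := nxt_nxt_inv hp
      have hsp := nxt_spec φ l p
      rw [hnx] at hsp
      have hφl : l (φ p) = l (c.oal p) := c.lphi p
      rcases c.step1 p with h1 | h1 | h1
      · exfalso
        have : x = φ p := Hit.eq_step (P := fun z => l z ≤ l p) (by omega) hsp
        rw [this] at hp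
        omega
      · have : x = φ p := Hit.eq_step (P := fun z => l z ≤ l p) (by omega) hsp
        have h2 := c.rel_flat h1
        have e : ρ (x, false) = (p, false) := by rw [this]; exact h2
        rw [e]
      · obtain ⟨z, h2, h3, _⟩ := c.rel_up h1
        have h4 : Hit φ (fun t => l t ≤ l (φ p) - 1) (φ p) x := by
          have e : l (φ p) - 1 = l p := by omega
          rw [e]
          exact hsp.of_cons (by simp only [not_le]; omega)
        have h5 := c.hit_plus' h4
        have e : ρ (φ p, false) = (z, true) := h2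
        have h6 : Hit ρ Pl (φ p, false) (z, true) := by
          have := Hit.step (φ := ρ) (P := Pl) (x := (φ p, false)) (by rw [e]; rfl)
          rwa [e] at this
        have h7 : z = x := by simpa using h6.unique h5
        rw [← h7, h3]
  · by_cases h : l (c.oal x) = l x + 1
    · obtain ⟨z, _, _, h1⟩ := c.rel_up h
      rw [u.clo_true_up h, h1]
    · rw [u.clo_true_nup h, c.rho_nup h]

end Closed

/-- the bijection between pointed quadrangulations and labelled unicellular maps, labels fixed -/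
noncomputable def openEquiv (l : E → ℤ) (hpos : ∀ x, 1 ≤ l x) (hex : ∃ x, l x = 1) :
    {ρ : Perm (E × Bool) // Closed ρ l} ≃ {t : Perm E × Perm E // Uni t.1 t.2 l} where
  toFun ρ := ⟨(ρ.2.oal, os ρ.1), ρ.2.uni⟩
  invFun t := ⟨clo t.2, t.2.closed hpos hex⟩
  left_inv ρ := Subtype.ext ρ.2.eq_clo
  right_inv t := by
    have h := (t.2.closed hpos hex).opening_unique (t.2.opening hpos hex)
    exact Subtype.ext (Prod.ext h.1.symm h.2.symm)

end HGQ
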