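import Mathlib
import Pool.Agent.HGQ.UDefs

/-! # MP_a7ce40_pr (HGQ): bipartite quadrangulations as pairs of permutations

A bipartite map whose edges are labelled by the elements of a finite set `E` is encoded by the
pair `(w, b)` of permutations of `E`: `w e` is the next edge around the white end of `e`, and `b e`
is the next edge around the black end of `e` (in the positive direction).  The white (black) vertices
are the cycles of `w` (of `b`); a face with `2k` sides is a cycle of length `k` of `w ∘ b`, so the map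
is a quadrangulation iff `w ∘ b` is an involution without fixed points; the surface is connected iff
`w, b` generate a transitive group.
-/

namespace HGQ

open Equiv

/-- the vertices of the bipartite map `(w, b)`: white vertices (cycles of `w`) and black vertices
(cycles of `b`) -/
abbrev Vtx {E : Type*} (w b : Perm E) : Type _ :=
  Quotient (Perm.SameCycle.setoid w) ⊕ Quotient (Perm.SameCycle.setoid b)

/-- the white end of the edge `e` -/
def wv {E : Type*} (w b : Perm E) (e : E) : Vtx w b := Sum.inl (Quotient.mk _ e)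

/-- the black end of the edge `e` -/
def bv {E : Type*} (w b : Perm E) (e : E) : Vtx w b := Sum.inr (Quotient.mk _ e)

/-- the graph of the map `(w, b)`: the two ends of every edge are adjacent -/
def qgraph {E : Type*} (w b : Perm E) : SimpleGraph (Vtx w b) :=
  SimpleGraph.fromRel (fun x y => ∃ e, x = wv w b e ∧ y = bv w b e)

/-- `(w, b)` is a (connected) bipartite quadrangulation with edges labelled by `E` -/
structure IsBQ {E : Type*} (w b : Perm E) : Prop where
  conn : ∀ e e' : E, ∃ τ ∈ Subgroup.closure {w, b}, τ e = e'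
  inv : ∀ e, w (b (w (b e))) = e
  fpf : ∀ e, w (b e) ≠ e

/-- bipartite quadrangulations of genus `g` with `n` faces and `2n` labelled edges
(Euler's formula: `V - 2n + n = 2 - 2g`) -/
abbrev LQ (n g : ℕ) : Type :=
  {p : Perm (Fin (2 * n)) × Perm (Fin (2 * n)) // IsBQ p.1 p.2 ∧ nc p.1 + nc p.2 + 2 * g = n + 2}

/-- relabelling of the edges, the root edge `0` being kept -/
def Relabel (n g : ℕ) : Setoid (LQ n g) where
  r p q := ∃ τ : Perm (Fin (2 * n)), (∀ i, i.val = 0 → τ i = i) ∧
    q.1.1 = τ * p.1.1 * τ⁻¹ ∧ q.1.2 = τ * p.1.2 * τ⁻¹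
  iseqv :=
    { refl := fun p => ⟨1, fun i _ => rfl, by simp, by simp⟩
      symm := fun {p q} ⟨τ, h0, h1, h2⟩ => ⟨τ⁻¹,
        fun i hi => by rw [Perm.inv_eq_iff_eq]; exact (h0 i hi).symm,
        by rw [h1]; group, by rw [h2]; group⟩
      trans := fun {p q r} ⟨τ, h0, h1, h2⟩ ⟨τ', h0', h1', h2'⟩ => ⟨τ' * τ,
        fun i hi => by rw [Perm.mul_apply, h0 i hi, h0' i hi],
        by rw [h1', h1]; group, by rw [h2', h2]; group⟩ }

/-- rooted bipartite quadrangulations of genus `g` with `n` faces (the root edge is the edge `0`,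
its white end is the root vertex), up to isomorphism -/
def RQ (n g : ℕ) : Type := Quotient (Relabel n g)

theorem edist_le_of_iso {V V' : Type*} {G : SimpleGraph V} {G' : SimpleGraph V'} (φ : G ≃g G')
    (u v : V) : G'.edist (φ u) (φ v) ≤ G.edist u v := by
  rcases eq_or_ne (G.edist u v) ⊤ with h | h
  · rw [h]; exact le_top
  · obtain ⟨p, hp⟩ := SimpleGraph.exists_walk_of_edist_ne_top h
    rw [← hp]
    have := SimpleGraph.edist_le (p.map φ.toHom)
    rwa [SimpleGraph.Walk.length_map] at this

theorem ediam_le_of_iso {V V' : Type*} {G : SimpleGraph V} {G' : SimpleGraph V'} (φ : G ≃g G') :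
    G'.ediam ≤ G.ediam := by
  refine SimpleGraph.ediam_le_of_edist_le (fun u v => ?_)
  have := edist_le_of_iso φ (φ.symm u) (φ.symm v)
  rw [RelIso.apply_symm_apply, RelIso.apply_symm_apply] at this
  exact this.trans SimpleGraph.edist_le_ediam

theorem diam_eq_of_iso {V V' : Type*} {G : SimpleGraph V} {G' : SimpleGraph V'} (φ : G ≃g G') :
    G'.diam = G.diam := by
  have : G'.ediam = G.ediam := le_antisymm (ediam_le_of_iso φ) (ediam_le_of_iso φ.symm)
  rw [SimpleGraph.diam, SimpleGraph.diam, this]

/-- the bijection between the cycles of `w` and of `τ w τ⁻¹` -/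
def cycConj {E : Type*} (w τ : Perm E) : Quotient (Perm.SameCycle.setoid w) ≃
    Quotient (Perm.SameCycle.setoid (τ * w * τ⁻¹)) :=
  Quotient.congr τ (fun x y => by
    show w.SameCycle x y ↔ (τ * w * τ⁻¹).SameCycle (τ x) (τ y)
    rw [Perm.sameCycle_conj]
    simp)

/-- relabelling of the vertices induced by a relabelling of the edges -/
theorem diam_conj {E : Type*} (w b τ : Perm E) :
    (qgraph (τ * w * τ⁻¹) (τ * b * τ⁻¹)).diam = (qgraph w b).diam := by
  have hw : ∀ e, (Equiv.sumCongr (cycConj w τ) (cycConj b τ)) (wv w b e) =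
      wv (τ * w * τ⁻¹) (τ * b * τ⁻¹) (τ e) := fun e => rfl
  have hb : ∀ e, (Equiv.sumCongr (cycConj w τ) (cycConj b τ)) (bv w b e) =
      bv (τ * w * τ⁻¹) (τ * b * τ⁻¹) (τ e) := fun e => rfl
  refine diam_eq_of_iso (G := qgraph w b) ⟨Equiv.sumCongr (cycConj w τ) (cycConj b τ), ?_⟩
  intro x y
  have key : ∀ x y, (∃ e, (Equiv.sumCongr (cycConj w τ) (cycConj b τ)) x =
        wv (τ * w * τ⁻¹) (τ * b * τ⁻¹) e ∧ (Equiv.sumCongr (cycConj w τ) (cycConj b τ)) y =
        bv (τ * w * τ⁻¹) (τ * b * τ⁻¹) e) ↔ ∃ e, x = wv w b e ∧ y = bv w b e := by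
    intro x y
    constructor
    · rintro ⟨e, h1, h2⟩
      refine ⟨τ⁻¹ e, ?_, ?_⟩
      · apply (Equiv.sumCongr (cycConj w τ) (cycConj b τ)).injective
        rw [h1, hw]; simp
      · apply (Equiv.sumCongr (cycConj w τ) (cycConj b τ)).injective
        rw [h2, hb]; simp
    · rintro ⟨e, h1, h2⟩
      exact ⟨τ e, by rw [h1, hw], by rw [h2, hb]⟩
  simp only [qgraph, SimpleGraph.fromRel_adj, key, ne_eq, EmbeddingLike.apply_eq_iff_eq]

/-- the diameter (largest graph distance between two vertices) of a rooted quadrangulation -/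
noncomputable def RQ.diam {n g : ℕ} : RQ n g → ℕ :=
  Quotient.lift (fun p : LQ n g => (qgraph p.1.1 p.1.2).diam) (by
    rintro ⟨⟨p1, p2⟩, hp⟩ ⟨⟨q1, q2⟩, hq⟩ ⟨τ, _, h1, h2⟩
    simp only at h1 h2
    subst h1; subst h2
    exact (diam_conj p1 p2 τ).symm)

end HGQ
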