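import Mathlib
import Pool.Agent.HGQ.COpen3
import Pool.Agent.HGQ.QDefs

/-! # MP_a7ce40_pr (HGQ), part C: number of vertices, and the count of all labelled structures -/

namespace HGQ

open Equiv

set_option linter.unusedSectionVars false

variable {E : Type*} [Finite E] {al s : Perm E} {l : E → ℤ} {ρ : Perm (E × Bool)}

theorem same_of_os {x y : E} (h : (os ρ).SameCycle x y) : ρ.SameCycle (x, true) (y, true) := by
  obtain ⟨k, _, rfl⟩ := exists_pow_of_sameCycle h
  clear h
  induction k with
  | zero => exact Perm.SameCycle.refl _ _
  | succ k ih =>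
    rw [pow_succ', Perm.mul_apply]
    rcases Nat.eq_zero_or_pos k with h0 | h0
    · subst h0
      exact (os_spec ρ _).sameCycle
    · exact (ih h0).trans (os_spec ρ _).sameCycle

theorem os_of_same_aux (k : ℕ) : ∀ x y : E, (ρ ^ k) (x, true) = (y, true) →
    (os ρ).SameCycle x y := by
  induction k using Nat.strong_induction_on with
  | _ k ih =>
    intro x y h
    rcases Nat.eq_zero_or_pos k with h0 | h0
    · subst h0
      have : x = y := by simpa using h
      rw [this]
    · obtain ⟨i, hi1, hi2, hi3⟩ := (os_spec ρ x).exists_le h0 (by rw [h]; rfl)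
      have h1 : (ρ ^ (k - i)) (os ρ x, true) = (y, true) := by
        rw [← hi3, ← Perm.mul_apply, ← pow_add, Nat.sub_add_cancel hi2, h]
      have h2 := ih (k - i) (by omega) _ _ h1
      exact Perm.SameCycle.trans (Perm.SameCycle.refl _ _).apply_right h2

theorem os_of_same {x y : E} (h : ρ.SameCycle (x, true) (y, true)) : (os ρ).SameCycle x y := by
  obtain ⟨k, _, hk⟩ := exists_pow_of_sameCycle h
  exact os_of_same_aux k x y hk

theorem Closed.nc_eq (c : Closed ρ l) : nc ρ = nc (os ρ) + 1 := by
  obtain ⟨x0, hx0⟩ := c.ex
  let f : Quotient (Perm.SameCycle.setoid (os ρ)) → Quotient (Perm.SameCycle.setoid ρ) :=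
    Quotient.map (fun x => (x, true)) (fun x y h => same_of_os h)
  let F : Option (Quotient (Perm.SameCycle.setoid (os ρ))) →
      Quotient (Perm.SameCycle.setoid ρ) := fun o => o.elim (Quotient.mk _ (x0, false)) f
  have hF : Function.Bijective F := by
    constructor
    · rintro (_ | a) (_ | b) h
      · rfl
      · exfalso
        induction b using Quotient.inductionOn with
        | _ b =>
          have h1 : ρ.SameCycle (x0, false) (b, true) := Quotient.exact h
          have h2 := c.hlab_same h1
          have h3 := c.pos b
          simp [hx0] at h2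
          omega
      · exfalso
        induction a using Quotient.inductionOn with
        | _ a =>
          have h1 : ρ.SameCycle (a, true) (x0, false) := Quotient.exact h
          have h2 := c.hlab_same h1
          have h3 := c.pos a
          simp [hx0] at h2
          omega
      · congr 1
        induction a using Quotient.inductionOn with
        | _ a =>
          induction b using Quotient.inductionOn with
          | _ b =>
            have h1 : ρ.SameCycle (a, true) (b, true) := Quotient.exact h
            exact Quotient.sound (os_of_same h1)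
    · intro q
      induction q using Quotient.inductionOn with
      | _ h =>
        by_cases h0 : hlab l h = 0
        · refine ⟨none, ?_⟩
          obtain ⟨y, b⟩ := h
          cases b
          · rw [hlab_false] at h0
            exact Quotient.sound (c.base x0 y hx0 (by omega))
          · rw [hlab_true] at h0
            have := c.pos y
            omega
        · obtain ⟨⟨y, b⟩, h1, h2⟩ := c.plus h h0
          simp only at h2
          subst h2
          exact ⟨some (Quotient.mk _ y), Quotient.sound h1.symm⟩
  rw [nc, nc, ← Nat.card_congr (Equiv.ofBijective F hF), Finite.card_option]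

/-- all closed structures against all labelled unicellular maps with smallest label `1` -/
noncomputable def openEquivAll (v : ℕ) (Q : (E → ℤ) → Prop) :
    {p : Perm (E × Bool) × (E → ℤ) // Closed p.1 p.2 ∧ nc p.1 = v + 1 ∧ Q p.2} ≃
    {t : Perm E × Perm E × (E → ℤ) // Uni t.1 t.2.1 t.2.2 ∧ (∀ x, 1 ≤ t.2.2 x) ∧
      (∃ x, t.2.2 x = 1) ∧ nc t.2.1 = v ∧ Q t.2.2} where
  toFun p := ⟨(p.2.1.oal, os p.1.1, p.1.2), p.2.1.uni, p.2.1.pos, p.2.1.ex,
    by have := p.2.1.nc_eq; have := p.2.2.1; show nc (os p.1.1) = v; omega, p.2.2.2⟩
  invFun t := ⟨(clo t.2.1, t.1.2.2), t.2.1.closed t.2.2.1 t.2.2.2.1, by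
    have h := (t.2.1.closed t.2.2.1 t.2.2.2.1).opening_unique (t.2.1.opening t.2.2.1 t.2.2.2.1)
    have h1 := (t.2.1.closed t.2.2.1 t.2.2.2.1).nc_eq
    have h2 := t.2.2.2.2.1
    rw [h.2] at h2
    show nc (clo t.2.1) = v + 1
    omega, t.2.2.2.2.2⟩
  left_inv p := Subtype.ext (Prod.ext p.2.1.eq_clo rfl)
  right_inv t := by
    have h := (t.2.1.closed t.2.2.1 t.2.2.2.1).opening_unique (t.2.1.opening t.2.2.1 t.2.2.2.1)
    exact Subtype.ext (Prod.ext h.1.symm (Prod.ext h.2.symm rfl))

end HGQ
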