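import Mathlib
import Pool.Agent.HGQ.CCyc

/-! # MP_a7ce40_pr (HGQ), part C: the graph of a bipartite map and its distances -/

namespace HGQ

open Equiv

set_option linter.unusedSectionVars false

variable {E : Type*} {w b : Perm E}

/-- rotation of the coloured half-edges (`true` = white) -/
def rc (w b : Perm E) : Perm (E × Bool) where
  toFun h := if h.2 then (w h.1, true) else (b h.1, false)
  invFun h := if h.2 then (w⁻¹ h.1, true) else (b⁻¹ h.1, false)
  left_inv h := by obtain ⟨e, c⟩ := h; cases c <;> simp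
  right_inv h := by obtain ⟨e, c⟩ := h; cases c <;> simp

@[simp] theorem rc_true (w b : Perm E) (e : E) : rc w b (e, true) = (w e, true) := rfl
@[simp] theorem rc_false (w b : Perm E) (e : E) : rc w b (e, false) = (b e, false) := rfl

theorem rc_snd (w b : Perm E) (h : E × Bool) : (rc w b h).2 = h.2 := by
  obtain ⟨e, c⟩ := h; cases c <;> rfl

theorem rc_inj {w b w' b' : Perm E} (h : rc w b = rc w' b') : w = w' ∧ b = b' := by
  constructor
  · ext e
    have := congrArg (fun t : Perm (E × Bool) => (t (e, true)).1) h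
    simpa using this
  · ext e
    have := congrArg (fun t : Perm (E × Bool) => (t (e, false)).1) h
    simpa using this

theorem rc_pow_true (w b : Perm E) (k : ℕ) (e : E) :
    ((rc w b) ^ k) (e, true) = ((w ^ k) e, true) := by
  induction k with
  | zero => rfl
  | succ k ih => rw [pow_succ', Perm.mul_apply, ih, rc_true, pow_succ', Perm.mul_apply]

theorem rc_pow_false (w b : Perm E) (k : ℕ) (e : E) :
    ((rc w b) ^ k) (e, false) = ((b ^ k) e, false) := by
  induction k with
  | zero => rfl
  | succ k ih => rw [pow_succ', Perm.mul_apply, ih, rc_false, pow_succ', Perm.mul_apply]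

/-- vertex of a coloured half-edge -/
def vert (w b : Perm E) (h : E × Bool) : Vtx w b := if h.2 then wv w b h.1 else bv w b h.1

@[simp] theorem vert_true (w b : Perm E) (e : E) : vert w b (e, true) = wv w b e := rfl
@[simp] theorem vert_false (w b : Perm E) (e : E) : vert w b (e, false) = bv w b e := rfl

theorem vert_surj (x : Vtx w b) : ∃ h, vert w b h = x := by
  rcases x with q | q
  · induction q using Quotient.inductionOn with
    | _ e => exact ⟨(e, true), rfl⟩
  · induction q using Quotient.inductionOn with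
    | _ e => exact ⟨(e, false), rfl⟩

theorem isLeft_vert (h : E × Bool) : (vert w b h).isLeft = h.2 := by
  obtain ⟨e, c⟩ := h; cases c <;> rfl

theorem vert_eq_iff [Finite E] (h h' : E × Bool) :
    vert w b h = vert w b h' ↔ (rc w b).SameCycle h h' := by
  obtain ⟨e, c⟩ := h
  obtain ⟨e', c'⟩ := h'
  constructor
  · intro hh
    have hc : c = c' := by
      have := congrArg Sum.isLeft hh
      rwa [isLeft_vert, isLeft_vert] at this
    subst hc
    cases c
    · have h1 : b.SameCycle e e' := Quotient.exact (Sum.inr_injective hh)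
      obtain ⟨k, _, hk⟩ := exists_pow_of_sameCycle h1
      exact ⟨k, by rw [zpow_natCast, rc_pow_false, hk]⟩
    · have h1 : w.SameCycle e e' := Quotient.exact (Sum.inl_injective hh)
      obtain ⟨k, _, hk⟩ := exists_pow_of_sameCycle h1
      exact ⟨k, by rw [zpow_natCast, rc_pow_true, hk]⟩
  · intro hh
    obtain ⟨k, _, hk⟩ := exists_pow_of_sameCycle hh
    cases c
    · rw [rc_pow_false] at hk
      obtain ⟨h1, h2⟩ := Prod.mk.inj hk
      subst h2
      show bv w b e = bv w b e'
      exact congrArg Sum.inr (Quotient.sound (⟨k, by rw [zpow_natCast]; exact h1⟩ : b.SameCycle e e'))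
    · rw [rc_pow_true] at hk
      obtain ⟨h1, h2⟩ := Prod.mk.inj hk
      subst h2
      show wv w b e = wv w b e'
      exact congrArg Sum.inl (Quotient.sound (⟨k, by rw [zpow_natCast]; exact h1⟩ : w.SameCycle e e'))

theorem adj_iff (x y : Vtx w b) :
    (qgraph w b).Adj x y ↔ ∃ h, vert w b h = x ∧ vert w b (hfl h) = y := by
  simp only [qgraph, SimpleGraph.fromRel_adj]
  constructor
  · rintro ⟨_, ⟨e, h1, h2⟩ | ⟨e, h1, h2⟩⟩
    · exact ⟨(e, true), h1.symm, h2.symm⟩
    · exact ⟨(e, false), h2.symm, h1.symm⟩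
  · rintro ⟨⟨e, c⟩, h1, h2⟩
    cases c
    · refine ⟨?_, Or.inr ⟨e, h2.symm, h1.symm⟩⟩
      rw [← h1, ← h2]; intro h; cases h
    · refine ⟨?_, Or.inl ⟨e, h1.symm, h2.symm⟩⟩
      rw [← h1, ← h2]; intro h; cases h

theorem adj_vert (h : E × Bool) : (qgraph w b).Adj (vert w b h) (vert w b (hfl h)) :=
  (adj_iff _ _).mpr ⟨h, rfl, rfl⟩

theorem adj_isLeft {x y : Vtx w b} (h : (qgraph w b).Adj x y) : x.isLeft = !y.isLeft := by
  obtain ⟨⟨e, c⟩, h1, h2⟩ := (adj_iff x y).mp h
  rw [← h1, ← h2, isLeft_vert, isLeft_vert]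
  simp [hfl]

theorem walk_parity {x y : Vtx w b} (p : (qgraph w b).Walk x y) :
    Even p.length ↔ x.isLeft = y.isLeft := by
  induction p with
  | nil => simp
  | cons h p ih =>
    rw [SimpleGraph.Walk.length_cons, Nat.even_add_one, ih, adj_isLeft h]
    rename_i a b' c'
    cases b'.isLeft <;> cases c'.isLeft <;> simp

theorem wv_w (e : E) : wv w b (w e) = wv w b e :=
  congrArg Sum.inl (Quotient.sound (Perm.SameCycle.refl w e).apply_left)

theorem bv_b (e : E) : bv w b (b e) = bv w b e :=
  congrArg Sum.inr (Quotient.sound (Perm.SameCycle.refl b e).apply_left)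

theorem reach_of_mem {τ : Perm E} (hτ : τ ∈ Subgroup.closure {w, b}) (e : E) :
    (qgraph w b).Reachable (wv w b e) (wv w b (τ e)) := by
  have hadj : ∀ e, (qgraph w b).Adj (wv w b e) (bv w b e) := fun e => adj_vert (e, true)
  induction hτ using Subgroup.closure_induction generalizing e with
  | mem τ h =>
    rcases h with rfl | h
    · rw [wv_w]
    · obtain rfl : τ = b := h
      have h1 := (hadj e).reachable
      have h2 := (hadj (τ e)).reachable
      rw [bv_b] at h2
      exact h1.trans h2.symm
  | one => exact SimpleGraph.Reachable.refl _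
  | mul τ τ' _ _ ih ih' => exact (ih' e).trans (ih (τ' e))
  | inv τ _ ih =>
    have := ih (τ⁻¹ e)
    rw [ap_inv] at this
    exact this.symm

theorem qconn (h : IsBQ w b) (x y : Vtx w b) : (qgraph w b).Reachable x y := by
  have key : ∀ x : Vtx w b, ∃ e, (qgraph w b).Reachable x (wv w b e) := by
    intro x
    obtain ⟨⟨e, c⟩, rfl⟩ := vert_surj x
    refine ⟨e, ?_⟩
    cases c
    · exact (adj_vert (w := w) (b := b) (e, false)).reachable
    · exact SimpleGraph.Reachable.refl _
  obtain ⟨e, he⟩ := key x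
  obtain ⟨e', he'⟩ := key y
  obtain ⟨τ, hτ, rfl⟩ := h.conn e e'
  exact (he.trans (reach_of_mem hτ e)).trans he'.symm

/-- distance of a half-edge to the vertex `v` -/
noncomputable def Dd (w b : Perm E) (v : Vtx w b) (h : E × Bool) : ℕ :=
  (qgraph w b).dist v (vert w b h)

/-- label of an edge: the larger of the distances of its two ends to `v` -/
noncomputable def Lb (w b : Perm E) (v : Vtx w b) (e : E) : ℤ :=
  ((max ((qgraph w b).dist v (wv w b e)) ((qgraph w b).dist v (bv w b e)) : ℕ) : ℤ)

theorem Dd_parity (hq : IsBQ w b) (v : Vtx w b) (h : E × Bool) :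
    Even (Dd w b v h) ↔ h.2 = v.isLeft := by
  obtain ⟨p, hp⟩ := (qconn hq v (vert w b h)).exists_walk_length_eq_dist
  rw [Dd, ← hp, walk_parity p, isLeft_vert]
  exact eq_comm

theorem Dd_zero (hq : IsBQ w b) (v : Vtx w b) (h : E × Bool) :
    Dd w b v h = 0 ↔ vert w b h = v := by
  rw [Dd, (qconn hq v (vert w b h)).dist_eq_zero_iff]
  exact eq_comm

theorem Dd_hfl (hq : IsBQ w b) (v : Vtx w b) (h : E × Bool) :
    Dd w b v (hfl h) = Dd w b v h + 1 ∨ Dd w b v h = Dd w b v (hfl h) + 1 := by
  have hadj := adj_vert (w := w) (b := b) h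
  have h1 : Dd w b v (hfl h) ≤ Dd w b v h + 1 := by
    have := (qconn hq v (vert w b h)).dist_triangle_left (vert w b (hfl h))
    rw [(SimpleGraph.dist_eq_one_iff_adj).mpr hadj] at this
    exact this
  have h2 : Dd w b v h ≤ Dd w b v (hfl h) + 1 := by
    have := (qconn hq v (vert w b (hfl h))).dist_triangle_left (vert w b h)
    rw [(SimpleGraph.dist_eq_one_iff_adj).mpr hadj.symm] at this
    exact this
  have h3 := Dd_parity hq v h
  have h4 := Dd_parity hq v (hfl h)
  have h5 : (hfl h).2 = !h.2 := rfl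
  rw [h5] at h4
  have h6 : Dd w b v (hfl h) ≠ Dd w b v h := by
    intro hh
    rw [hh, h3] at h4
    generalize h.2 = a at h4
    generalize v.isLeft = c at h4
    cases a <;> cases c <;> simp at h4
  omega

/-- a vertex different from `v` has a half-edge pointing towards `v` -/
theorem Dd_desc (hq : IsBQ w b) (v : Vtx w b) (h : E × Bool) (h0 : Dd w b v h ≠ 0) :
    ∃ h', vert w b h' = vert w b h ∧ Dd w b v h = Dd w b v (hfl h') + 1 := by
  obtain ⟨p, hp⟩ := (qconn hq (vert w b h) v).exists_walk_length_eq_dist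
  cases p with
  | nil =>
    exfalso
    apply h0
    rw [Dd_zero hq]
  | cons hadj p =>
    obtain ⟨h', h1, h2⟩ := (adj_iff _ _).mp hadj
    refine ⟨h', h1, ?_⟩
    have h3 : Dd w b v (hfl h') ≤ p.length := by
      rw [Dd, h2, SimpleGraph.dist_comm]
      exact SimpleGraph.dist_le p
    have h4 : Dd w b v h = p.length + 1 := by
      rw [Dd, SimpleGraph.dist_comm, ← hp, SimpleGraph.Walk.length_cons]
    have h5 := Dd_hfl hq v h'
    have h6 : Dd w b v h' = Dd w b v h := by rw [Dd, h1, Dd]
    omega

end HGQ
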