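import Mathlib
import Pool.Agent.HGQ.CGraph

/-! # MP_a7ce40_pr (HGQ), part C: pointed quadrangulations and closed structures -/

namespace HGQ

open Equiv

set_option linter.unusedSectionVars false

variable {E : Type*} {w b : Perm E}

/-- recolouring: `(e, true)` (the half further from the base point) is sent to the coloured
half-edge; a half-edge at even distance from the base point has the colour `c0` -/
def Kf (l : E → ℤ) (c0 : Bool) (h : E × Bool) : E × Bool :=
  (h.1, if Even (hlab l h) then c0 else !c0)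

theorem Kf_hfl (l : E → ℤ) (c0 : Bool) (h : E × Bool) : Kf l c0 (hfl h) = hfl (Kf l c0 h) := by
  obtain ⟨e, c⟩ := h
  have hp : Even (l e - 1) ↔ ¬ Even (l e) := by
    rw [Int.even_sub_one]
  cases c
  · by_cases h : Even (l e)
    · simp [Kf, hfl, hp, h]
    · simp [Kf, hfl, hp, h]
  · by_cases h : Even (l e)
    · simp [Kf, hfl, hp, h]
    · simp [Kf, hfl, hp, h]

theorem Kf_inj (l : E → ℤ) (c0 : Bool) : Function.Injective (Kf l c0) := by
  intro h h' hh
  obtain ⟨e, c⟩ := h
  obtain ⟨e', c'⟩ := h'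
  have he : e = e' := congrArg Prod.fst hh
  subst he
  have hp : Even (l e - 1) ↔ ¬ Even (l e) := by
    rw [Int.even_sub_one]
  cases c <;> cases c' <;> simp [Kf, hp] at hh ⊢
  all_goals
    by_cases h : Even (l e) <;> simp [h] at hh

/-- recolouring as a permutation -/
noncomputable def K [Finite E] (l : E → ℤ) (c0 : Bool) : Perm (E × Bool) :=
  Equiv.ofBijective (Kf l c0) (Finite.injective_iff_bijective.mp (Kf_inj l c0))

variable [Finite E]

theorem K_apply (l : E → ℤ) (c0 : Bool) (h : E × Bool) :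
    K l c0 h = (h.1, if Even (hlab l h) then c0 else !c0) := rfl

theorem K_fst (l : E → ℤ) (c0 : Bool) (h : E × Bool) : (K l c0 h).1 = h.1 := rfl

theorem K_hfl (l : E → ℤ) (c0 : Bool) (h : E × Bool) : K l c0 (hfl h) = hfl (K l c0 h) :=
  Kf_hfl l c0 h

theorem K_inv_fst (l : E → ℤ) (c0 : Bool) (h : E × Bool) : ((K l c0)⁻¹ h).1 = h.1 := by
  rw [← K_fst l c0 ((K l c0)⁻¹ h), ap_inv]

theorem K_inv_hfl (l : E → ℤ) (c0 : Bool) (h : E × Bool) :
    (K l c0)⁻¹ (hfl h) = hfl ((K l c0)⁻¹ h) := by
  rw [Perm.inv_eq_iff_eq, K_hfl, ap_inv]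

/-- distances in terms of the labels -/
theorem Dd_K (hq : IsBQ w b) (v : Vtx w b) (h : E × Bool) :
    (Dd w b v (K (Lb w b v) v.isLeft h) : ℤ) = hlab (Lb w b v) h := by
  obtain ⟨e, c⟩ := h
  have h1 := Dd_hfl hq v (e, true)
  have hpt := Dd_parity hq v (e, true)
  have hpf := Dd_parity hq v (e, false)
  have hL : Lb w b v e = ((max (Dd w b v (e, true)) (Dd w b v (e, false)) : ℕ) : ℤ) := rfl
  rw [hfl_mk] at h1
  simp only [Bool.not_true] at h1
  simp only at hpt hpf
  rcases h1 with h1 | h1
  · have hm : Lb w b v e = (Dd w b v (e, false) : ℤ) := by rw [hL]; congr 1; omega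
    have hev : Even (Lb w b v e) ↔ false = v.isLeft := by
      rw [hm, Int.even_coe_nat, hpf]
    have hev' : Even (Lb w b v e - 1) ↔ ¬ (false = v.isLeft) := by
      rw [Int.even_sub_one, hev]
    cases c
    · rw [K_apply, hlab_false]
      simp only [hev']
      cases hv : v.isLeft
      · simp; rw [hm]; omega
      · simp; rw [hm]; omega
    · rw [K_apply, hlab_true]
      simp only [hev]
      cases hv : v.isLeft
      · simp; rw [hm]
      · simp; rw [hm]
  · have hm : Lb w b v e = (Dd w b v (e, true) : ℤ) := by rw [hL]; congr 1; omega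
    have hev : Even (Lb w b v e) ↔ true = v.isLeft := by
      rw [hm, Int.even_coe_nat, hpt]
    have hev' : Even (Lb w b v e - 1) ↔ ¬ (true = v.isLeft) := by
      rw [Int.even_sub_one, hev]
    cases c
    · rw [K_apply, hlab_false]
      simp only [hev']
      cases hv : v.isLeft
      · simp; rw [hm]; omega
      · simp; rw [hm]; omega
    · rw [K_apply, hlab_true]
      simp only [hev]
      cases hv : v.isLeft
      · simp; rw [hm]
      · simp; rw [hm]

theorem fg_rc (h : E × Bool) : fg (rc w b) h = hfl (rc w b h) := rfl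

theorem fg_rc_two (h : E × Bool) :
    fg (rc w b) (fg (rc w b) h) = if h.2 then (b (w h.1), true) else (w (b h.1), false) := by
  obtain ⟨e, c⟩ := h
  cases c <;> simp [fg, hfl]

theorem bw_inv (hq : IsBQ w b) (e : E) : b (w (b (w e))) = e := by
  have := hq.inv (b⁻¹ e)
  rw [ap_inv] at this
  rw [this, ap_inv]

theorem bw_fpf (hq : IsBQ w b) (e : E) : b (w e) ≠ e := by
  intro h
  have := hq.fpf (w e)
  rw [h] at this
  exact this rfl

theorem fg_conj (K : Perm (E × Bool)) (hK : ∀ h, K (hfl h) = hfl (K h)) (ρ : Perm (E × Bool))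
    (h : E × Bool) : fg (K⁻¹ * ρ * K) h = K⁻¹ (fg ρ (K h)) := by
  rw [Perm.eq_inv_iff_eq]
  simp only [fg, hK, Perm.mul_apply, ap_inv]

/-- a pointed quadrangulation gives a closed structure -/
theorem closed_of_quad (hq : IsBQ w b) (v : Vtx w b) :
    Closed ((K (Lb w b v) v.isLeft)⁻¹ * rc w b * K (Lb w b v) v.isLeft) (Lb w b v) := by
  set κ := K (Lb w b v) v.isLeft with hκ
  have hKh : ∀ h, κ (hfl h) = hfl (κ h) := K_hfl _ _
  have hD : ∀ h, (Dd w b v (κ h) : ℤ) = hlab (Lb w b v) h := Dd_K hq v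
  have hfg := fg_conj κ hKh (rc w b)
  have hvr : ∀ h, vert w b (rc w b h) = vert w b h := fun h =>
    (vert_eq_iff _ _).mpr (Perm.SameCycle.refl _ _).apply_left
  refine ⟨?_, ?_, ?_, ?_, ?_, ?_, ?_⟩
  · intro h
    rw [← hD, ← hD]
    simp only [Perm.mul_apply, ap_inv, Dd, hvr]
  · intro h
    simp only [hfg, ap_inv]
    rw [Perm.inv_eq_iff_eq]
    rw [fg_rc_two, fg_rc_two]
    obtain ⟨e, c⟩ := κ h
    cases c
    · simp [hq.inv]
    · simp [bw_inv hq]
  · intro h hh
    simp only [hfg, ap_inv] at hh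
    rw [Perm.inv_eq_iff_eq, fg_rc_two] at hh
    rcases hk : κ h with ⟨e, c⟩
    rw [hk] at hh
    cases c
    · simp at hh
      exact hq.fpf e hh
    · simp at hh
      exact bw_fpf hq e hh
  · intro e
    have h1 := Dd_hfl hq v (e, true)
    have hL : Lb w b v e = ((max (Dd w b v (e, true)) (Dd w b v (e, false)) : ℕ) : ℤ) := rfl
    rw [hfl_mk] at h1
    simp only [Bool.not_true] at h1
    rw [hL]
    have : 1 ≤ max (Dd w b v (e, true)) (Dd w b v (e, false)) := by omega
    exact_mod_cast this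
  · intro h h0
    have h1 : Dd w b v (κ h) ≠ 0 := by
      intro hh; rw [← hD, hh] at h0; exact h0 rfl
    obtain ⟨h', h2, h3⟩ := Dd_desc hq v (κ h) h1
    refine ⟨κ⁻¹ h', ?_, ?_⟩
    · have h4 : (rc w b).SameCycle (κ h) h' := (vert_eq_iff _ _).mp h2.symm
      have h5 : (κ⁻¹ * rc w b * κ⁻¹⁻¹).SameCycle h (κ⁻¹ h') := by
        rw [Perm.sameCycle_conj]
        simpa using h4
      rwa [inv_inv] at h5
    · -- label of κ⁻¹ h' is one more than that of its flip
      have h4 := hD (κ⁻¹ h')
      have h5 := hD (hfl (κ⁻¹ h'))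
      rw [hKh, ap_inv] at h5
      rw [ap_inv] at h4
      have h6 : Dd w b v h' = Dd w b v (κ h) := by rw [Dd, h2, Dd]
      rcases hh : κ⁻¹ h' with ⟨e, c⟩
      rw [hh] at h4 h5
      cases c
      · exfalso
        simp only [hfl_mk, Bool.not_false, hlab_true, hlab_false] at h4 h5
        omega
      · rfl
  · intro x y hx hy
    have h1 : vert w b (κ (x, false)) = v := by
      rw [← Dd_zero hq]
      have := hD (x, false)
      rw [hlab_false, hx] at this
      omega
    have h2 : vert w b (κ (y, false)) = v := by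
      rw [← Dd_zero hq]
      have := hD (y, false)
      rw [hlab_false, hy] at this
      omega
    have h4 : (rc w b).SameCycle (κ (x, false)) (κ (y, false)) :=
      (vert_eq_iff _ _).mp (h1.trans h2.symm)
    have h5 : (κ⁻¹ * rc w b * κ⁻¹⁻¹).SameCycle (x, false) (y, false) := by
      rw [Perm.sameCycle_conj]
      simpa using h4
    rwa [inv_inv] at h5
  · obtain ⟨h, hv⟩ := vert_surj v
    have h0 : Dd w b v h = 0 := (Dd_zero hq v h).mpr hv
    have h1 := Dd_hfl hq v h
    refine ⟨h.1, ?_⟩
    have hL : Lb w b v h.1 = ((max (Dd w b v (h.1, true)) (Dd w b v (h.1, false)) : ℕ) : ℤ) := rfl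
    rw [hL]
    obtain ⟨e, c⟩ := h
    cases c
    · simp only [hfl_mk, Bool.not_false] at h1
      simp only
      have : max (Dd w b v (e, true)) (Dd w b v (e, false)) = 1 := by omega
      rw [this]; rfl
    · simp only [hfl_mk, Bool.not_true] at h1
      simp only
      have : max (Dd w b v (e, true)) (Dd w b v (e, false)) = 1 := by omega
      rw [this]; rfl

/-- number of cycles of a conjugate -/
theorem nc_conj {X : Type*} (σ τ : Perm X) : nc (τ * σ * τ⁻¹) = nc σ := by
  refine Nat.card_congr (Quotient.congr τ⁻¹ (fun x y => ?_))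
  show (τ * σ * τ⁻¹).SameCycle x y ↔ σ.SameCycle (τ⁻¹ x) (τ⁻¹ y)
  rw [Perm.sameCycle_conj]

theorem nc_rc (w b : Perm E) : nc (rc w b) = nc w + nc b := by
  have e : Quotient (Perm.SameCycle.setoid (rc w b)) ≃ Vtx w b := by
    refine Equiv.ofBijective (Quotient.lift (vert w b) (fun x y h => (vert_eq_iff x y).mpr h)) ?_
    constructor
    · intro a c h
      induction a using Quotient.inductionOn with
      | _ a =>
        induction c using Quotient.inductionOn with
        | _ c => exact Quotient.sound ((vert_eq_iff a c).mp h)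
    · intro x
      obtain ⟨h, hx⟩ := vert_surj x
      exact ⟨Quotient.mk _ h, hx⟩
  rw [nc, Nat.card_congr e, Nat.card_sum]
  rfl

end HGQ
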