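import Mathlib
import Pool.Agent.HGQ.CPoint

/-! # MP_a7ce40_pr (HGQ), part C: counting pointed quadrangulations -/

namespace HGQ

open Equiv

set_option linter.unusedSectionVars false

variable {E : Type*} {w b : Perm E}

variable [Finite E]

/-- a rotation preserving the colours comes from a pair of permutations -/
theorem exists_rc (σ : Perm (E × Bool)) (hσ : ∀ h, (σ h).2 = h.2) :
    ∃ w b : Perm E, rc w b = σ := by
  have hinj : ∀ c : Bool, Function.Injective (fun e => (σ (e, c)).1) := by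
    intro c e e' h
    have h1 : σ (e, c) = σ (e', c) := Prod.ext h (by rw [hσ, hσ])
    simpa using σ.injective h1
  refine ⟨Equiv.ofBijective _ (Finite.injective_iff_bijective.mp (hinj true)),
    Equiv.ofBijective _ (Finite.injective_iff_bijective.mp (hinj false)), ?_⟩
  ext1 h
  obtain ⟨e, c⟩ := h
  cases c
  · exact Prod.ext rfl (hσ (e, false)).symm
  · exact Prod.ext rfl (hσ (e, true)).symm

theorem conj_back {X : Type*} (κ ρ : Perm X) : κ⁻¹ * (κ * ρ * κ⁻¹) * κ = ρ := by group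

theorem conj_fwd {X : Type*} (κ ρ : Perm X) : κ * (κ⁻¹ * ρ * κ) * κ⁻¹ = ρ := by group

/-- relation: same orbit of the group generated by `w`, `b` -/
def Rl (w b : Perm E) (e e' : E) : Prop := ∃ τ ∈ Subgroup.closure {w, b}, τ e = e'

theorem Rl.refl (e : E) : Rl w b e e := ⟨1, Subgroup.one_mem _, rfl⟩

theorem Rl.symm {e e' : E} (h : Rl w b e e') : Rl w b e' e := by
  obtain ⟨τ, hτ, rfl⟩ := h
  exact ⟨τ⁻¹, Subgroup.inv_mem _ hτ, inv_ap τ e⟩

theorem Rl.trans {e e' e'' : E} (h : Rl w b e e') (h' : Rl w b e' e'') : Rl w b e e'' := by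
  obtain ⟨τ, hτ, rfl⟩ := h
  obtain ⟨τ', hτ', rfl⟩ := h'
  exact ⟨τ' * τ, Subgroup.mul_mem _ hτ' hτ, rfl⟩

theorem Rl.of_same {h h' : E × Bool} (hh : (rc w b).SameCycle h h') : Rl w b h.1 h'.1 := by
  obtain ⟨k, _, rfl⟩ := exists_pow_of_sameCycle hh
  obtain ⟨e, c⟩ := h
  cases c
  · rw [rc_pow_false]
    exact ⟨b ^ k, Subgroup.pow_mem _ (Subgroup.subset_closure (by simp)) k, rfl⟩
  · rw [rc_pow_true]
    exact ⟨w ^ k, Subgroup.pow_mem _ (Subgroup.subset_closure (by simp)) k, rfl⟩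

section back

variable {ρ : Perm (E × Bool)} {l : E → ℤ} {c0 : Bool}

theorem same_conj {X : Type*} {κ ρ : Perm X} {x y : X} :
    (κ * ρ * κ⁻¹).SameCycle (κ x) (κ y) ↔ ρ.SameCycle x y := by
  rw [Perm.sameCycle_conj]; simp

theorem isBQ_of_closed (c : Closed ρ l) (hrc : rc w b = K l c0 * ρ * (K l c0)⁻¹) : IsBQ w b := by
  set κ := K l c0 with hκ
  have hKh : ∀ h, κ (hfl h) = hfl (κ h) := K_hfl _ _
  have hρ : ρ = κ⁻¹ * rc w b * κ := by rw [hrc, conj_back]
  have hfg := fg_conj κ hKh (rc w b)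
  rw [← hρ] at hfg
  have h4 : ∀ h, fg (rc w b) (fg (rc w b) (fg (rc w b) (fg (rc w b) h))) = h := by
    intro h
    have := c.four (κ⁻¹ h)
    simp only [hfg, ap_inv] at this
    exact κ⁻¹.injective this
  have h2 : ∀ h, fg (rc w b) (fg (rc w b) h) ≠ h := by
    intro h hh
    apply c.two (κ⁻¹ h)
    simp only [hfg, ap_inv]
    rw [hh]
  obtain ⟨x0, hx0⟩ := c.ex
  have key : ∀ (k : ℕ) (e : E), l e = k + 1 → Rl w b e x0 := by
    intro k
    induction k with
    | zero =>
      intro e he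
      have h1 := c.base e x0 (by rw [he]; simp) hx0
      have h3 : (rc w b).SameCycle (κ (e, false)) (κ (x0, false)) := by
        rw [hrc]; exact same_conj.mpr h1
      exact Rl.of_same h3
    | succ k ih =>
      intro e he
      obtain ⟨⟨y, cc⟩, h1, h3⟩ := c.plus (e, false) (by rw [hlab_false, he]; push_cast; omega)
      simp only at h3
      subst h3
      have h5 := c.hlab_same h1
      rw [hlab_false, hlab_true] at h5
      have h6 : (rc w b).SameCycle (κ (e, false)) (κ (y, true)) := by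
        rw [hrc]; exact same_conj.mpr h1
      exact (Rl.of_same h6).trans (ih y (by rw [← h5, he]; push_cast; ring))
  have key' : ∀ e, Rl w b e x0 := by
    intro e
    have := c.pos e
    exact key (l e - 1).toNat e (by omega)
  refine ⟨fun e e' => (key' e).trans (key' e').symm, ?_, ?_⟩
  · intro e
    have := h4 (e, false)
    rw [fg_rc_two, fg_rc_two] at this
    simpa using this
  · intro e he
    apply h2 (e, false)
    rw [fg_rc_two]
    simp [he]

theorem Dd_of_closed (c : Closed ρ l) (hrc : rc w b = K l c0 * ρ * (K l c0)⁻¹) {x0 : E}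
    (hx0 : l x0 = 1) (h : E × Bool) :
    (Dd w b (vert w b (K l c0 (x0, false))) (K l c0 h) : ℤ) = hlab l h := by
  have hq := isBQ_of_closed c hrc
  set κ := K l c0 with hκ
  have hKh : ∀ h, κ (hfl h) = hfl (κ h) := K_hfl _ _
  have hsv : ∀ h h', vert w b (κ h) = vert w b (κ h') ↔ ρ.SameCycle h h' := by
    intro h h'
    rw [vert_eq_iff, hrc, same_conj]
  have hnn : ∀ h, 0 ≤ hlab l h := by
    rintro ⟨e, cc⟩
    have := c.pos e
    cases cc
    · rw [hlab_false]; omega
    · rw [hlab_true]; omega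
  apply le_antisymm
  · have key : ∀ (k : ℕ) (h : E × Bool), hlab l h = k →
        Dd w b (vert w b (κ (x0, false))) (κ h) ≤ k := by
      intro k
      induction k with
      | zero =>
        intro h hh
        obtain ⟨y, cc⟩ := h
        have := c.pos y
        cases cc
        · rw [hlab_false] at hh
          have h1 := c.base y x0 (by push_cast at hh; omega) hx0
          have h2 := (hsv _ _).mpr h1
          exact ((Dd_zero hq _ _).mpr h2).le
        · rw [hlab_true] at hh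
          push_cast at hh
          omega
      | succ k ih =>
        intro h hh
        obtain ⟨⟨y, cc⟩, h1, h3⟩ := c.plus h (by rw [hh]; push_cast; omega)
        simp only at h3
        subst h3
        have h5 := c.hlab_same h1
        have h6 : Dd w b (vert w b (κ (x0, false))) (κ h) =
            Dd w b (vert w b (κ (x0, false))) (κ (y, true)) := by
          rw [Dd, (hsv _ _).mpr h1, Dd]
        have h7 := ih (y, false) (by rw [hlab_false]; rw [hlab_true] at h5; push_cast at hh; omega)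
        have h8 := Dd_hfl hq (vert w b (κ (x0, false))) (κ (y, true))
        rw [← hKh, hfl_mk] at h8
        simp only [Bool.not_true] at h8
        omega
    have h1 := key (hlab l h).toNat h (by have := hnn h; omega)
    have := hnn h
    omega
  · have key : ∀ {x y : Vtx w b} (p : (qgraph w b).Walk x y) (h h' : E × Bool),
        vert w b (κ h) = x → vert w b (κ h') = y → hlab l h' ≤ hlab l h + p.length := by
      intro x y p
      induction p with
      | nil =>
        intro h h' h1 h2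
        have := c.hlab_same ((hsv h h').mp (h1.trans h2.symm))
        simp [this]
      | cons hadj p ih =>
        intro h h' h1 h2
        obtain ⟨k, h3, h4⟩ := (adj_iff _ _).mp hadj
        have h5 : hlab l (κ⁻¹ k) = hlab l h := by
          apply c.hlab_same
          apply (hsv _ _).mp
          rw [ap_inv, h3, h1]
        have h6 := ih (hfl (κ⁻¹ k)) h' (by rw [hKh, ap_inv]; exact h4) h2
        have h7 : hlab l (hfl (κ⁻¹ k)) ≤ hlab l (κ⁻¹ k) + 1 := by
          rcases κ⁻¹ k with ⟨e, cc⟩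
          cases cc
          · simp [hfl_mk]
          · simp [hfl_mk]; omega
        rw [SimpleGraph.Walk.length_cons]
        push_cast
        omega
    obtain ⟨p, hp⟩ := (qconn hq (vert w b (κ (x0, false))) (vert w b (κ h))).exists_walk_length_eq_dist
    have h1 := key p (x0, false) h rfl rfl
    rw [hlab_false, hx0, hp] at h1
    rw [Dd]
    omega

theorem Lb_of_closed (c : Closed ρ l) (hrc : rc w b = K l c0 * ρ * (K l c0)⁻¹) {x0 : E}
    (hx0 : l x0 = 1) : Lb w b (vert w b (K l c0 (x0, false))) = l := by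
  funext e
  have h1 := Dd_of_closed c hrc hx0 (e, true)
  have h2 := Dd_of_closed c hrc hx0 (e, false)
  rw [hlab_true] at h1
  rw [hlab_false] at h2
  have hL : Lb w b (vert w b (K l c0 (x0, false))) e =
    ((max (Dd w b (vert w b (K l c0 (x0, false))) (e, true))
      (Dd w b (vert w b (K l c0 (x0, false))) (e, false)) : ℕ) : ℤ) := rfl
  rw [hL]
  have h3 : K l c0 (e, false) = hfl (K l c0 (e, true)) := by
    rw [← K_hfl]; rfl
  rw [h3] at h2
  rcases hk : K l c0 (e, true) with ⟨e', cc⟩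
  have he : e' = e := by
    have := K_fst l c0 (e, true)
    rw [hk] at this
    exact this
  subst he
  rw [hk] at h1 h2
  cases cc
  · simp only [hfl_mk, Bool.not_false] at h2
    omega
  · simp only [hfl_mk, Bool.not_true] at h2
    omega

end back

/-- The map from pointed quadrangulations to closed structures -/
noncomputable def toClosed (k : ℕ) (Q : (E → ℤ) → Prop)
    (q : {q : (p : Perm E × Perm E) × Vtx p.1 p.2 // IsBQ q.1.1 q.1.2 ∧ nc q.1.1 + nc q.1.2 = k ∧
      Q (Lb q.1.1 q.1.2 q.2)}) :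
    Bool × {p : Perm (E × Bool) × (E → ℤ) // Closed p.1 p.2 ∧ nc p.1 = k ∧ Q p.2} :=
  (q.1.2.isLeft,
    ⟨((K (Lb q.1.1.1 q.1.1.2 q.1.2) q.1.2.isLeft)⁻¹ * rc q.1.1.1 q.1.1.2 *
      K (Lb q.1.1.1 q.1.1.2 q.1.2) q.1.2.isLeft, Lb q.1.1.1 q.1.1.2 q.1.2),
      closed_of_quad q.2.1 q.1.2, by
        have h := nc_conj (rc q.1.1.1 q.1.1.2) (K (Lb q.1.1.1 q.1.1.2 q.1.2) q.1.2.isLeft)⁻¹
        rw [inv_inv] at h
        show nc ((K (Lb q.1.1.1 q.1.1.2 q.1.2) q.1.2.isLeft)⁻¹ * rc q.1.1.1 q.1.1.2 *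
          K (Lb q.1.1.1 q.1.1.2 q.1.2) q.1.2.isLeft) = k
        rw [h, nc_rc, q.2.2.1], q.2.2.2⟩)

theorem toClosed_injective (k : ℕ) (Q : (E → ℤ) → Prop) :
    Function.Injective (toClosed (E := E) k Q) := by
  rintro ⟨⟨⟨w, b⟩, v⟩, hq, hn, hQ⟩ ⟨⟨⟨w', b'⟩, v'⟩, hq', hn', hQ'⟩ h
  simp only [toClosed, Prod.mk.injEq, Subtype.mk.injEq] at h
  obtain ⟨h1, h2, h3⟩ := h
  simp only at hq hq' hn hn' hQ hQ'
  rw [← h1, ← h3] at h2
  have h4 : rc w b = rc w' b' := by
    have := congrArg (fun t => K (Lb w b v) v.isLeft * t * (K (Lb w b v) v.isLeft)⁻¹) h2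
    simp only [conj_fwd] at this
    exact this
  obtain ⟨rfl, rfl⟩ := rc_inj h4
  have h5 : v = v' := by
    obtain ⟨h, hh⟩ := vert_surj v
    have h6 := Dd_K hq v ((K (Lb w b v) v.isLeft)⁻¹ h)
    have h7 := Dd_K hq v' ((K (Lb w b v) v.isLeft)⁻¹ h)
    rw [← h3, ← h1] at h7
    rw [ap_inv] at h6 h7
    rw [← h6] at h7
    have h8 : Dd w b v' h = Dd w b v h := by exact_mod_cast h7
    rw [(Dd_zero hq v h).mpr hh] at h8
    rw [← hh]
    exact (Dd_zero hq v' h).mp h8
  subst h5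
  rfl

theorem toClosed_surjective (k : ℕ) (Q : (E → ℤ) → Prop) :
    Function.Surjective (toClosed (E := E) k Q) := by
  rintro ⟨c0, ⟨ρ, l⟩, c, hn, hQ⟩
  simp only at c hn hQ
  obtain ⟨w, b, hrc⟩ := exists_rc (K l c0 * ρ * (K l c0)⁻¹) (by
    intro h
    have h1 : hlab l (ρ ((K l c0)⁻¹ h)) = hlab l ((K l c0)⁻¹ h) := c.lab _
    have h2 : h.2 = (K l c0 ((K l c0)⁻¹ h)).2 := by rw [ap_inv]
    rw [h2]
    simp only [Perm.mul_apply, K_apply, h1])
  obtain ⟨x0, hx0⟩ := c.ex
  have hq := isBQ_of_closed c hrc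
  have hL := Lb_of_closed c hrc hx0
  have hleft : (vert w b (K l c0 (x0, false))).isLeft = c0 := by
    rw [isLeft_vert, K_apply, hlab_false, hx0]; simp
  have hnc : nc w + nc b = k := by rw [← nc_rc, hrc, nc_conj, hn]
  refine ⟨⟨⟨(w, b), vert w b (K l c0 (x0, false))⟩, hq, hnc, by rw [hL]; exact hQ⟩, ?_⟩
  simp only [toClosed, Prod.mk.injEq, Subtype.mk.injEq]
  refine ⟨hleft, ?_, hL⟩
  rw [hL, hleft, hrc, conj_back]

theorem card_pointed (k : ℕ) (Q : (E → ℤ) → Prop) :
    Nat.card {q : (p : Perm E × Perm E) × Vtx p.1 p.2 // IsBQ q.1.1 q.1.2 ∧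
      nc q.1.1 + nc q.1.2 = k ∧ Q (Lb q.1.1 q.1.2 q.2)} =
    2 * Nat.card {p : Perm (E × Bool) × (E → ℤ) // Closed p.1 p.2 ∧ nc p.1 = k ∧ Q p.2} := by
  rw [Nat.card_congr (Equiv.ofBijective (toClosed k Q)
    ⟨toClosed_injective k Q, toClosed_surjective k Q⟩), Nat.card_prod, Nat.card_eq_fintype_card,
    Fintype.card_bool]

theorem uni_iff (n : ℕ) (al s : Perm (Fin (2 * n))) (l : Fin (2 * n) → ℤ) :
    Uni al s l ↔ IsUni n al s l :=
  ⟨fun u => ⟨u.inv, u.fpf, u.one, u.lab, u.step⟩,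
    fun u => ⟨u.1, u.2.1, u.2.2.1, u.2.2.2.1, u.2.2.2.2⟩⟩

/-- **Part C**: pointed quadrangulations are twice the labelled unicellular maps -/
theorem count_pointed (n g : ℕ) (hg : 2 * g ≤ n) (t : Multiset ℤ) :
    Nat.card {q : (p : LQ n g) × Vtx p.1.1 p.1.2 //
      Finset.univ.val.map (Lb q.1.1.1 q.1.1.2 q.2) = t} =
    2 * Nat.card {u : Perm (Fin (2 * n)) × Perm (Fin (2 * n)) × (Fin (2 * n) → ℤ) //
      IsUni n u.1 u.2.1 u.2.2 ∧ (∀ x, 1 ≤ u.2.2 x) ∧ (∃ x, u.2.2 x = 1) ∧
      nc u.2.1 = n + 1 - 2 * g ∧ Finset.univ.val.map u.2.2 = t} := by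
  have e1 : {q : (p : LQ n g) × Vtx p.1.1 p.1.2 //
      Finset.univ.val.map (Lb q.1.1.1 q.1.1.2 q.2) = t} ≃
    {q : (p : Perm (Fin (2 * n)) × Perm (Fin (2 * n))) × Vtx p.1 p.2 // IsBQ q.1.1 q.1.2 ∧
      nc q.1.1 + nc q.1.2 = (n + 1 - 2 * g) + 1 ∧
      Finset.univ.val.map (Lb q.1.1 q.1.2 q.2) = t} :=
    { toFun := fun q => ⟨⟨q.1.1.1, q.1.2⟩, q.1.1.2.1, by
        have := q.1.1.2.2
        show nc q.1.1.1.1 + nc q.1.1.1.2 = _
        omega, q.2⟩
      invFun := fun q => ⟨⟨⟨q.1.1, q.2.1, by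
        have := q.2.2.1
        omega⟩, q.1.2⟩, q.2.2.2⟩
      left_inv := fun q => rfl
      right_inv := fun q => rfl }
  rw [Nat.card_congr e1, card_pointed ((n + 1 - 2 * g) + 1) (fun l => Finset.univ.val.map l = t),
    Nat.card_congr (openEquivAll (n + 1 - 2 * g) (fun l => Finset.univ.val.map l = t))]
  congr 1
  refine Nat.card_congr (Equiv.subtypeEquivRight (fun u => ?_))
  rw [uni_iff]

end HGQ
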