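import Pool.Agent.HGQ.QDefs

/-! # HGQ.D1 : rooted classes against labelled quadrangulations

The permutations `τ` of `Fin (2n)` fixing `0` act on `LQ n g` by conjugation, `Relabel n g` is the orbit
relation, and the action is free: if `τ` commutes with `w` and `b` and fixes `0`, then it
commutes with the group they generate, which is transitive (`IsBQ.conn`), so `τ = 1`. There are
`(2n-1)!` such `τ` (`Equiv.Perm` of a set with one point removed:
`Equiv.Perm.subtypeEquivSubtypePerm`, or `Equiv.Perm.decomposeFin`, or orbit-stabiliser). So every class has exactly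
`(2n-1)!` elements: choose a representative `Quotient.out x` of every class; then
`(x, τ) ↦ τ • out x` is a bijection onto `LQ n g`, compatible with `p`.
-/

namespace HGQ

open Equiv

theorem card_fix_zero (n : ℕ) (hn : 1 ≤ n) :
    Nat.card {τ : Perm (Fin (2 * n)) // ∀ i : Fin (2 * n), i.val = 0 → τ i = i}
      = (2 * n - 1).factorial := by
  have h1 : Fintype.card {i : Fin (2 * n) // i.val = 0} = 1 := by
    rw [Fintype.card_eq_one_iff]
    refine ⟨⟨⟨0, by omega⟩, rfl⟩, fun y => ?_⟩
    apply Subtype.ext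
    apply Fin.ext
    exact y.2
  have h2 : Fintype.card {i : Fin (2 * n) // ¬ i.val = 0} = 2 * n - 1 := by
    rw [Fintype.card_subtype_compl, h1, Fintype.card_fin]
  have e : {τ : Perm (Fin (2 * n)) // ∀ i : Fin (2 * n), i.val = 0 → τ i = i} ≃
      Perm {i : Fin (2 * n) // ¬ i.val = 0} :=
    (Equiv.subtypeEquivRight (fun τ => by
      refine forall_congr' fun i => ?_
      rw [not_not])).trans
      (Equiv.Perm.subtypeEquivSubtypePerm (fun i : Fin (2 * n) => ¬ i.val = 0)).symm
  rw [Nat.card_congr e, Nat.card_eq_fintype_card, Fintype.card_perm, h2]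

/-- a conjugate of a connected bipartite quadrangulation is one -/
theorem d1_isBQ_conj {E : Type*} {w b : Perm E} (h : IsBQ w b) (τ : Perm E) :
    IsBQ (τ * w * τ⁻¹) (τ * b * τ⁻¹) where
  conn e e' := by
    obtain ⟨σ, hσ, hσe⟩ := h.conn (τ⁻¹ e) (τ⁻¹ e')
    refine ⟨τ * σ * τ⁻¹, ?_, ?_⟩
    · have h1 : τ * σ * τ⁻¹ ∈ (Subgroup.closure {w, b}).map (MulAut.conj τ).toMonoidHom :=
        ⟨σ, hσ, rfl⟩
      rw [MonoidHom.map_closure] at h1
      refine Subgroup.closure_mono ?_ h1
      rintro _ ⟨x, hx, rfl⟩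
      rcases hx with rfl | hx
      · exact Or.inl rfl
      · rw [Set.mem_singleton_iff] at hx
        subst hx
        exact Or.inr rfl
    · simp only [Perm.mul_apply]
      rw [hσe]
      simp
  inv e := by
    have h2 : ∀ x, τ⁻¹ (τ x) = x := fun x => by simp
    simp only [Perm.mul_apply, h2]
    rw [h.inv]
    simp
  fpf e := by
    have h2 : ∀ x, τ⁻¹ (τ x) = x := fun x => by simp
    simp only [Perm.mul_apply, h2]
    intro h1
    apply h.fpf (τ⁻¹ e)
    have h3 := congrArg (fun x => τ⁻¹ x) h1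
    simp only [h2] at h3
    exact h3

theorem d1_nc_conj {m : ℕ} (w τ : Perm (Fin m)) : nc (τ * w * τ⁻¹) = nc w :=
  (Nat.card_congr (cycConj w τ)).symm

/-- the action of a permutation on the labelled quadrangulations -/
def d1_act {n g : ℕ} (τ : Perm (Fin (2 * n))) (q : LQ n g) : LQ n g :=
  ⟨(τ * q.1.1 * τ⁻¹, τ * q.1.2 * τ⁻¹), d1_isBQ_conj q.2.1 τ, by
    rw [d1_nc_conj, d1_nc_conj]
    exact q.2.2⟩

/-- a representative -/
noncomputable def d1_out {n g : ℕ} (x : RQ n g) : LQ n g := Quotient.out (s := Relabel n g) x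

theorem d1_out_eq {n g : ℕ} (x : RQ n g) : (Quotient.mk (Relabel n g) (d1_out x) : RQ n g) = x :=
  Quotient.out_eq (s := Relabel n g) x

/-- the action is free -/
theorem d1_free {m : ℕ} (hm : 0 < m) {w b ρ : Perm (Fin m)} (h : IsBQ w b)
    (h0 : ∀ i : Fin m, i.val = 0 → ρ i = i) (hw : ρ * w = w * ρ) (hb : ρ * b = b * ρ) : ρ = 1 := by
  have hc : ∀ σ ∈ Subgroup.closure {w, b}, ρ * σ = σ * ρ := by
    intro σ hσ
    have h1 : Subgroup.closure {w, b} ≤ Subgroup.centralizer {ρ} := by
      rw [Subgroup.closure_le]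
      rintro x hx
      rw [SetLike.mem_coe, Subgroup.mem_centralizer_singleton_iff]
      rcases hx with rfl | hx
      · exact hw.symm
      · rw [Set.mem_singleton_iff] at hx
        subst hx
        exact hb.symm
    exact (Subgroup.mem_centralizer_singleton_iff.mp (h1 hσ)).symm
  ext e
  obtain ⟨σ, hσ, hσe⟩ := h.conn ⟨0, hm⟩ e
  have h2 := congrArg (fun f : Perm (Fin m) => f ⟨0, hm⟩) (hc σ hσ)
  simp only [Perm.mul_apply] at h2
  rw [h0 ⟨0, hm⟩ rfl, hσe] at h2
  rw [h2]
  rfl

theorem card_RQ (n g : ℕ) (hn : 1 ≤ n) (p : RQ n g → Prop) :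
    (2 * n - 1).factorial * Nat.card {x : RQ n g // p x}
      = Nat.card {q : LQ n g // p (Quotient.mk _ q)} := by
  have hrel : ∀ (τ : Perm (Fin (2 * n))) (q : LQ n g), (∀ i, i.val = 0 → τ i = i) →
      (Quotient.mk (Relabel n g) (d1_act τ q)) = Quotient.mk (Relabel n g) q := by
    intro τ q h0
    refine (Quotient.sound ?_).symm
    exact ⟨τ, h0, rfl, rfl⟩
  let f : {x : RQ n g // p x} × {τ : Perm (Fin (2 * n)) // ∀ i, i.val = 0 → τ i = i} →
      {q : LQ n g // p (Quotient.mk _ q)} := fun y =>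
    ⟨d1_act y.2.1 (d1_out y.1.1), by
      rw [hrel _ _ y.2.2, d1_out_eq]
      exact y.1.2⟩
  have hf : Function.Bijective f := by
    constructor
    · rintro ⟨⟨x, hx⟩, ⟨τ, hτ⟩⟩ ⟨⟨x', hx'⟩, ⟨τ', hτ'⟩⟩ hxy
      have h1 : d1_act τ (d1_out x) = d1_act τ' (d1_out x') :=
        congrArg Subtype.val hxy
      have h2 : x = x' := by
        have h3 : (Quotient.mk (Relabel n g) _ : RQ n g) = Quotient.mk (Relabel n g) _ :=
          congrArg (Quotient.mk (Relabel n g)) h1
        rw [hrel _ _ hτ, hrel _ _ hτ', d1_out_eq, d1_out_eq] at h3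
        exact h3
      subst h2
      have h4 : τ = τ' := by
        have h5 := congrArg (fun q : LQ n g => q.1.1) h1
        have h6 := congrArg (fun q : LQ n g => q.1.2) h1
        simp only [d1_act] at h5 h6
        have h7 : ∀ w : Perm (Fin (2 * n)), τ * w * τ⁻¹ = τ' * w * τ'⁻¹ →
            τ'⁻¹ * τ * w = w * (τ'⁻¹ * τ) := by
          intro w hw
          have h8 : τ * w = τ' * w * τ'⁻¹ * τ := by
            rw [← hw]
            group
          rw [mul_assoc, h8]
          group
        have h9 := d1_free (ρ := τ'⁻¹ * τ) (by omega) (d1_out x).2.1 (by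
          intro i hi
          rw [Perm.mul_apply, hτ i hi, Perm.inv_eq_iff_eq, hτ' i hi]) (h7 _ h5) (h7 _ h6)
        rw [inv_mul_eq_one] at h9
        exact h9.symm
      subst h4
      rfl
    · rintro ⟨q, hq⟩
      obtain ⟨τ, h0, h1, h2⟩ := Quotient.exact (d1_out_eq (Quotient.mk (Relabel n g) q))
      refine ⟨⟨⟨Quotient.mk _ q, hq⟩, ⟨τ, h0⟩⟩, ?_⟩
      apply Subtype.ext
      apply Subtype.ext
      exact Prod.ext h1.symm h2.symm
  have h1 := Nat.card_congr (Equiv.ofBijective f hf)
  rw [Nat.card_prod, card_fix_zero n hn] at h1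
  rw [← h1, mul_comm]

end HGQ
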