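import Pool.Agent.HGQ.QDefs

/-! # HGQ.D2 : large balls imply a small diameter

`near w b R v` = number of edges with both ends at distance `≤ R` from the vertex `v`.
If `near w b R v ≥ δ n` for every vertex `v` of a connected bipartite map with `2n` edges, then the
diameter is at most `(2R+1) (2/δ)`.

Proof. The graph is connected (`IsBQ.conn`: the endpoints of `e` and `w e` resp. `b e` are connected) and finite, so
there are `u, v` with `dist u v = D = diam` (`SimpleGraph.exists_dist_eq_diam`, the vertex set is nonempty as `n ≥ 1`).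
Take a walk of length `D` from `u` to `v` (a geodesic) and its vertices `x_j` at the positions `j (2R+1)`,
`0 ≤ j ≤ D/(2R+1)`; `dist x_i x_j = |i-j| (2R+1) > 2R` for `i ≠ j` (on a geodesic; it is enough that
`D ≤ dist u x_i + dist x_i x_j + dist x_j v`). An edge near both `x_i` and `x_j` would give `dist x_i x_j ≤ 2R`, so the sets of edges near
`x_j` are disjoint and `(D/(2R+1) + 1) δ n ≤ 2n` (natural division), hence `D < (2R+1)(D/(2R+1) + 1) ≤ (2R+1) (2/δ)`.
-/

namespace HGQ

open Equiv

/-- number of edges with both ends within distance `R` of `v` -/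
noncomputable def near {E : Type*} (w b : Perm E) (R : ℕ) (v : Vtx w b) : ℕ :=
  Nat.card {e : E // (qgraph w b).dist v (wv w b e) ≤ R ∧ (qgraph w b).dist v (bv w b e) ≤ R}

private theorem d2_adj {E : Type*} (w b : Perm E) (e : E) :
    (qgraph w b).Adj (wv w b e) (bv w b e) := by
  rw [qgraph, SimpleGraph.fromRel_adj]
  exact ⟨by simp [wv, bv], Or.inl ⟨e, rfl, rfl⟩⟩

private theorem d2_wv {E : Type*} (w b : Perm E) (e : E) : wv w b (w e) = wv w b e := by
  unfold wv
  congr 1
  exact Quotient.sound (show w.SameCycle (w e) e from ⟨-1, by simp⟩)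

private theorem d2_bv {E : Type*} (w b : Perm E) (e : E) : bv w b (b e) = bv w b e := by
  unfold bv
  congr 1
  exact Quotient.sound (show b.SameCycle (b e) e from ⟨-1, by simp⟩)

private theorem d2_reach {E : Type*} (w b : Perm E) (τ : Perm E)
    (hτ : τ ∈ Subgroup.closure {w, b}) :
    ∀ e, (qgraph w b).Reachable (wv w b e) (wv w b (τ e)) := by
  induction hτ using Subgroup.closure_induction with
  | mem x hx =>
    intro e
    rcases hx with hx | hx
    · rw [hx, d2_wv]
    · have hx' : x = b := hx
      rw [hx']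
      have h1 := (d2_adj w b e).reachable
      have h2 := (d2_adj w b (b e)).reachable
      rw [d2_bv] at h2
      exact h1.trans h2.symm
  | one => intro e; exact SimpleGraph.Reachable.refl _
  | mul x y _ _ hx hy =>
    intro e
    rw [Perm.mul_apply]
    exact (hy e).trans (hx (y e))
  | inv x _ hx =>
    intro e
    have := hx (x⁻¹ e)
    rw [← Perm.mul_apply, mul_inv_cancel, Perm.one_apply] at this
    exact this.symm

theorem qgraph_connected {n : ℕ} (hn : 1 ≤ n) {w b : Perm (Fin (2 * n))} (h : IsBQ w b) :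
    (qgraph w b).Connected := by
  have e0 : Fin (2 * n) := ⟨0, by omega⟩
  have key : ∀ x : Vtx w b, (qgraph w b).Reachable (wv w b e0) x := by
    intro x
    rcases x with q | q
    · obtain ⟨e, rfl⟩ := Quotient.exists_rep q
      obtain ⟨τ, hτ, hτe⟩ := h.conn e0 e
      have := d2_reach w b τ hτ e0
      rwa [hτe] at this
    · obtain ⟨e, rfl⟩ := Quotient.exists_rep q
      obtain ⟨τ, hτ, hτe⟩ := h.conn e0 e
      have := d2_reach w b τ hτ e0
      rw [hτe] at this
      exact this.trans (d2_adj w b e).reachable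
  have : Nonempty (Vtx w b) := ⟨wv w b e0⟩
  exact SimpleGraph.Connected.mk (fun x y => (key x).symm.trans (key y))

theorem diam_le_of_near {n : ℕ} (hn : 1 ≤ n) {w b : Perm (Fin (2 * n))} (h : IsBQ w b) (R : ℕ)
    (δ : ℝ) (hδ : 0 < δ) (hnear : ∀ v : Vtx w b, δ * n ≤ (near w b R v : ℝ)) :
    ((qgraph w b).diam : ℝ) ≤ (2 * R + 1) * (2 / δ) := by
  classical
  have hconn := qgraph_connected hn h
  have e0 : Fin (2 * n) := ⟨0, by omega⟩
  have : Nonempty (Vtx w b) := ⟨wv w b e0⟩
  obtain ⟨u, v, huv⟩ := SimpleGraph.exists_dist_eq_diam (G := qgraph w b)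
  obtain ⟨p, hp⟩ := hconn.exists_walk_length_eq_dist u v
  set D := (qgraph w b).diam with hD
  have hpD : p.length = D := by rw [hp, huv]
  set x : ℕ → Vtx w b := fun j => p.getVert (j * (2 * R + 1)) with hx
  -- distances along the geodesic
  have hdist : ∀ i j : ℕ, i < j → j * (2 * R + 1) ≤ D → 2 * R < (qgraph w b).dist (x i) (x j) := by
    intro i j hij hj
    have h1 : (qgraph w b).dist u (x i) ≤ i * (2 * R + 1) := by
      refine (SimpleGraph.dist_le (p.take (i * (2 * R + 1)))).trans ?_
      rw [SimpleGraph.Walk.take_length]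
      exact min_le_left _ _
    have h2 : (qgraph w b).dist (x j) v ≤ D - j * (2 * R + 1) := by
      refine (SimpleGraph.dist_le (p.drop (j * (2 * R + 1)))).trans ?_
      rw [SimpleGraph.Walk.drop_length, hpD]
    have h3 : (qgraph w b).dist u v ≤ (qgraph w b).dist u (x i) + (qgraph w b).dist (x i) v :=
      hconn.dist_triangle
    have h4 : (qgraph w b).dist (x i) v ≤
        (qgraph w b).dist (x i) (x j) + (qgraph w b).dist (x j) v := hconn.dist_triangle
    rw [huv] at h3
    have h5 : i * (2 * R + 1) + (2 * R + 1) ≤ j * (2 * R + 1) := by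
      have : (i + 1) * (2 * R + 1) ≤ j * (2 * R + 1) := Nat.mul_le_mul_right _ hij
      linarith [this]
    omega
  set K := D / (2 * R + 1) with hK
  have hKD : ∀ j ∈ Finset.range (K + 1), j * (2 * R + 1) ≤ D := by
    intro j hj
    have : j ≤ K := by
      have := Finset.mem_range.mp hj
      omega
    exact (Nat.mul_le_mul_right _ this).trans (Nat.div_mul_le_self D (2 * R + 1))
  -- the sets of edges near `x j`
  set S : ℕ → Finset (Fin (2 * n)) := fun j => Finset.univ.filter (fun e =>
    (qgraph w b).dist (x j) (wv w b e) ≤ R ∧ (qgraph w b).dist (x j) (bv w b e) ≤ R) with hS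
  have hScard : ∀ j, ((S j).card : ℝ) = near w b R (x j) := by
    intro j
    rw [near, Nat.card_eq_fintype_card, Fintype.card_subtype]
  have hdisj : (↑(Finset.range (K + 1)) : Set ℕ).PairwiseDisjoint S := by
    have main : ∀ i j : ℕ, i < j → j * (2 * R + 1) ≤ D → Disjoint (S i) (S j) := by
      intro i j hij hj
      rw [Finset.disjoint_left]
      intro e hei hej
      have a1 := (Finset.mem_filter.mp hei).2.1
      have a2 := (Finset.mem_filter.mp hej).2.1
      have h3 : (qgraph w b).dist (x i) (x j) ≤
        (qgraph w b).dist (x i) (wv w b e) + (qgraph w b).dist (wv w b e) (x j) :=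
        hconn.dist_triangle
      rw [SimpleGraph.dist_comm (u := wv w b e)] at h3
      have := hdist i j hij hj
      omega
    intro i hi j hj hij
    rcases lt_or_gt_of_ne hij with hlt | hlt
    · exact main i j hlt (hKD j (Finset.mem_coe.mp hj))
    · exact (main j i hlt (hKD i (Finset.mem_coe.mp hi))).symm
  have hsum : ∑ j ∈ Finset.range (K + 1), ((S j).card : ℝ) ≤ 2 * n := by
    have h1 : ((Finset.range (K + 1)).biUnion S).card ≤ 2 * n := by
      have := Finset.card_le_univ ((Finset.range (K + 1)).biUnion S)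
      rwa [Fintype.card_fin] at this
    rw [Finset.card_biUnion (fun i hi j hj hij => hdisj (Finset.mem_coe.mpr hi)
      (Finset.mem_coe.mpr hj) hij)] at h1
    exact_mod_cast h1
  have hlow : ((K : ℝ) + 1) * (δ * n) ≤ ∑ j ∈ Finset.range (K + 1), ((S j).card : ℝ) := by
    have h1 : ∑ _j ∈ Finset.range (K + 1), (δ * n) ≤
        ∑ j ∈ Finset.range (K + 1), ((S j).card : ℝ) := by
      refine Finset.sum_le_sum (fun j _ => ?_)
      rw [hScard]
      exact hnear (x j)
    rw [Finset.sum_const, Finset.card_range, nsmul_eq_mul] at h1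
    push_cast at h1
    exact h1
  have hn' : (0 : ℝ) < n := by exact_mod_cast hn
  have hKδ : ((K : ℝ) + 1) ≤ 2 / δ := by
    rw [le_div_iff₀ hδ]
    have h1 : ((K : ℝ) + 1) * (δ * n) ≤ 2 * n := hlow.trans hsum
    have h2 : (((K : ℝ) + 1) * δ) * n ≤ 2 * n := by linarith
    exact le_of_mul_le_mul_right h2 hn'
  have hDK : (D : ℝ) ≤ (2 * R + 1) * ((K : ℝ) + 1) := by
    have h1 : D < (2 * R + 1) * (K + 1) := by
      have := Nat.lt_mul_div_succ D (show 0 < 2 * R + 1 by omega)
      rw [← hK] at this
      exact this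
    exact_mod_cast h1.le
  refine hDK.trans ?_
  exact mul_le_mul_of_nonneg_left hKδ (by positivity)

end HGQ
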