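import Pool.Agent.HGQ.UDefs

/-! # HGQ.D3 : normalisation of the labels

Two normalisations of the labels of a unicellular map: the minimum is `1`, or the label of the
half-edge `0` is `0`. The map `(al, s, l) ↦ (al, s, l - l 0)` is a bijection from the first to the second with inverse
`l ↦ l - min l + 1`, and it preserves translation invariant properties of the multiset of labels.
-/

namespace HGQ

open Equiv

private theorem d3_isUni_shift {n : ℕ} {al s : Perm (Fin (2 * n))} {l : Fin (2 * n) → ℤ} (a : ℤ)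
    (h : IsUni n al s l) : IsUni n al s (fun x => l x + a) := by
  obtain ⟨h1, h2, h3, h4, h5⟩ := h
  refine ⟨h1, h2, h3, fun x => ?_, fun x => ?_⟩
  · show l (s x) + a = l x + a
    rw [h4]
  · show |l (al x) + a - (l x + a)| ≤ 1
    rw [add_sub_add_right_eq_sub]
    exact h5 x

private theorem d3_p_shift {n : ℕ} {l : Fin (2 * n) → ℤ} (a : ℤ) {p : Multiset ℤ → Prop}
    (hp : ∀ (s : Multiset ℤ) (a : ℤ), p (s.map (fun i => i + a)) ↔ p s) :
    p (Finset.univ.val.map (fun x => l x + a)) ↔ p (Finset.univ.val.map l) := by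
  rw [← hp (Finset.univ.val.map l) a, Multiset.map_map]
  rfl

theorem card_shift (n N : ℕ) (hn : 1 ≤ n) (p : Multiset ℤ → Prop)
    (hp : ∀ (s : Multiset ℤ) (a : ℤ), p (s.map (fun i => i + a)) ↔ p s) :
    Nat.card {u : Perm (Fin (2 * n)) × Perm (Fin (2 * n)) × (Fin (2 * n) → ℤ) //
        IsUni n u.1 u.2.1 u.2.2 ∧ (∀ x, 1 ≤ u.2.2 x) ∧ (∃ x, u.2.2 x = 1) ∧ nc u.2.1 = N ∧
          p (Finset.univ.val.map u.2.2)}
      = Nat.card {u : Perm (Fin (2 * n)) × Perm (Fin (2 * n)) × (Fin (2 * n) → ℤ) //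
        IsUni n u.1 u.2.1 u.2.2 ∧ u.2.2 ⟨0, by omega⟩ = 0 ∧ nc u.2.1 = N ∧
          p (Finset.univ.val.map u.2.2)} := by
  refine Nat.card_eq_of_bijective (fun u => ⟨(u.1.1, u.1.2.1,
    fun x => u.1.2.2 x + -(u.1.2.2 ⟨0, by omega⟩)), d3_isUni_shift _ u.2.1, by
      show u.1.2.2 ⟨0, by omega⟩ + -(u.1.2.2 ⟨0, by omega⟩) = 0
      ring, u.2.2.2.2.1, (d3_p_shift _ hp).2 u.2.2.2.2.2⟩) ⟨?_, ?_⟩
  · rintro ⟨⟨al, s, l⟩, h1, h2, ⟨x, hx⟩, h4, h5⟩ ⟨⟨al', s', l'⟩, h1', h2', ⟨x', hx'⟩, h4', h5'⟩ heq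
    simp only [Subtype.mk.injEq, Prod.mk.injEq] at heq hx hx' h2 h2'
    obtain ⟨rfl, rfl, hl⟩ := heq
    have key : ∀ y, l y + -(l ⟨0, by omega⟩) = l' y + -(l' ⟨0, by omega⟩) := fun y => congrFun hl y
    have e1 := key x
    have e2 := key x'
    have i1 := h2' x
    have i2 := h2 x'
    have : l = l' := by
      funext y
      have := key y
      omega
    subst this
    rfl
  · rintro ⟨⟨al, s, l⟩, h1, h2, h3, h4⟩
    simp only at h2 h3
    have : Nonempty (Fin (2 * n)) := ⟨⟨0, by omega⟩⟩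
    obtain ⟨x₀, hx₀⟩ := Finite.exists_min l
    refine ⟨⟨(al, s, fun x => l x + (1 - l x₀)), d3_isUni_shift _ h1, fun x => ?_,
      ⟨x₀, ?_⟩, h3, (d3_p_shift _ hp).2 h4⟩, ?_⟩
    · show 1 ≤ l x + (1 - l x₀)
      have := hx₀ x
      omega
    · show l x₀ + (1 - l x₀) = 1
      ring
    · apply Subtype.ext
      simp only [Prod.mk.injEq, true_and]
      funext x
      rw [h2]
      ring

private theorem d3_bound {n : ℕ} {al s : Perm (Fin (2 * n))} {l : Fin (2 * n) → ℤ}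
    (h : IsUni n al s l) (k : ℕ) (x : Fin (2 * n)) : |l (((s * al) ^ k) x) - l x| ≤ k := by
  obtain ⟨h1, h2, h3, h4, h5⟩ := h
  induction k with
  | zero => simp
  | succ k ih =>
    rw [pow_succ', Perm.mul_apply, Perm.mul_apply, h4]
    have h6 := h5 (((s * al) ^ k) x)
    rw [abs_le] at h6 ih ⊢
    rw [Nat.cast_succ]
    constructor <;> omega

/-- the set of the second normalisation is finite (labels of adjacent half-edges differ by at most
`1` and the map is connected, so all labels are between `-2n` and `2n`) -/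
theorem finite_uni (n : ℕ) (hn : 1 ≤ n) :
    Finite {u : Perm (Fin (2 * n)) × Perm (Fin (2 * n)) × (Fin (2 * n) → ℤ) //
        IsUni n u.1 u.2.1 u.2.2 ∧ u.2.2 ⟨0, by omega⟩ = 0} := by
  set B : ℤ := (Fintype.card (Perm (Fin (2 * n))) : ℤ) with hB
  have hfin : (Set.Icc (fun _ : Fin (2 * n) => -B) (fun _ => B)).Finite := Set.finite_Icc _ _
  have : Finite (Set.Icc (fun _ : Fin (2 * n) => -B) (fun _ => B)) := hfin
  have hmem : ∀ u : {u : Perm (Fin (2 * n)) × Perm (Fin (2 * n)) × (Fin (2 * n) → ℤ) //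
        IsUni n u.1 u.2.1 u.2.2 ∧ u.2.2 ⟨0, by omega⟩ = 0},
      u.1.2.2 ∈ Set.Icc (fun _ : Fin (2 * n) => -B) (fun _ => B) := by
    rintro ⟨⟨al, s, l⟩, h1, h2⟩
    simp only at h1 h2 ⊢
    have hb : ∀ x, |l x| ≤ B := by
      intro x
      obtain ⟨i, hi, hix⟩ := (h1.2.2.1 ⟨0, by omega⟩ x).exists_pow_eq'
      have h3 := d3_bound h1 i ⟨0, by omega⟩
      rw [hix, h2, sub_zero] at h3
      have h4 : (i : ℤ) ≤ B := by
        rw [hB]
        have := hi.le.trans (orderOf_le_card_univ (x := s * al))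
        exact_mod_cast this
      exact h3.trans h4
    exact ⟨fun x => (abs_le.1 (hb x)).1, fun x => (abs_le.1 (hb x)).2⟩
  refine Finite.of_injective (β := Perm (Fin (2 * n)) × Perm (Fin (2 * n)) ×
    (Set.Icc (fun _ : Fin (2 * n) => -B) (fun _ => B)))
    (fun u => (u.1.1, u.1.2.1, ⟨u.1.2.2, hmem u⟩)) ?_
  intro u v h
  simp only [Prod.mk.injEq, Subtype.mk.injEq] at h
  exact Subtype.ext (Prod.ext h.1 (Prod.ext h.2.1 h.2.2))

end HGQ
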