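import Pool.Agent.HGQ.EApi

/-! # HGQ.EA1 : elementary inequalities for the polynomials `A m` and `P s`

Write `a_m(k) = (A m).coeff k`; the recursion is `a_{m+2}(k+1) = a_{m+1}(k+1) + (m+1) m a_m(k)`
(`coeff_A_add_two_succ`), `a_m(0) = 1`, and `a_m(k)` is nondecreasing in `m` (`A_mono`).

* `A_coeff_up`: two-step induction on `m`. For `k ≥ 1`:
  `2(k+1) a_{m+2}(k+1) = 2(k+1) a_{m+1}(k+1) + (m+1)m (2 a_m(k) + 2k a_m(k))
   ≤ (m+1)^3 a_{m+1}(k) + 2(m+1)m a_m(k) + (m+1)m m^3 a_m(k-1)`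
  and `(m+2)^3 a_{m+2}(k) = (m+2)^3 a_{m+1}(k) + (m+2)^3 (m+1)m a_m(k-1)`,
  `(m+2)^3 - (m+1)^3 ≥ 2(m+1)m`, `a_m(k) ≤ a_{m+1}(k)`.  (For `k = 0` drop the `k-1` terms.)
* `A_step_two`: immediate.
* `A_coeff_top`: iterate `A_step_two`: `a_{n+1}(g) ≥ n(n-1) a_{n-1}(g-1)`, induction on `g`.
* `P_coeff_up`: if `2(k+1) p_{k+1} ≤ B₁ p_k` and `2(k+1) q_{k+1} ≤ B₂ q_k` for all `k` then the
  product satisfies this with `B₁ + B₂` (`2(i+j) p_i q_j = 2i p_i q_j + 2j p_i q_j`).
* `P_coeff_le`: iterate; `∑ count^3 ≤ K^2 ∑ count = K^2 card`.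
* `P_add_two`: only the factor of the level `c` changes, from `A m` to `A (m+2)` (`m = count c s`); `A_step_two`.
-/

namespace HGQ

open Polynomial Forest
open scoped Nat

theorem A_coeff_up (m k : ℕ) : 2 * (k + 1) * (A m).coeff (k + 1) ≤ m ^ 3 * (A m).coeff k := by
  induction m using Nat.twoStepInduction generalizing k with
  | zero =>
    rw [A_zero, coeff_one, if_neg (by omega)]
    simp
  | one =>
    rw [A_one, coeff_one, if_neg (by omega)]
    simp
  | more m ih1 ih2 =>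
    have hmono : (A m).coeff k ≤ (A (m + 1)).coeff k := A_le_succ m k
    have h2 := ih2 k
    rw [coeff_A_add_two_succ]
    have e1 : 2 * (k + 1) * ((A (m + 1)).coeff (k + 1) + (m + 1) * m * (A m).coeff k) =
        2 * (k + 1) * (A (m + 1)).coeff (k + 1) + 2 * ((m + 1) * m) * (A m).coeff k +
          (m + 1) * m * (2 * k * (A m).coeff k) := by ring
    have h3 : 2 * ((m + 1) * m) * (A m).coeff k ≤ 2 * ((m + 1) * m) * (A (m + 1)).coeff k :=
      Nat.mul_le_mul_left _ hmono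
    have h4 : (m + 1) ^ 3 * (A (m + 1)).coeff k + 2 * ((m + 1) * m) * (A (m + 1)).coeff k ≤
        (m + 2) ^ 3 * (A (m + 1)).coeff k := by
      rw [← Nat.add_mul]
      refine Nat.mul_le_mul_right _ ?_
      ring_nf
      nlinarith [sq_nonneg m]
    rw [e1]
    rcases k with _ | j
    · rw [coeff_A_add_two_zero]
      simp only [Nat.mul_zero, Nat.zero_mul, Nat.add_zero]
      simp only [zero_add, mul_one] at h2 h3 h4 ⊢
      omega
    · rw [coeff_A_add_two_succ]
      have h5 : (m + 1) * m * (2 * (j + 1) * (A m).coeff (j + 1)) ≤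
          (m + 1) * m * ((m + 2) ^ 3 * (A m).coeff j) := by
        refine Nat.mul_le_mul_left _ ((ih1 j).trans (Nat.mul_le_mul_right _ ?_))
        exact Nat.pow_le_pow_left (by omega) 3
      have e2 : (m + 2) ^ 3 * ((A (m + 1)).coeff (j + 1) + (m + 1) * m * (A m).coeff j) =
          (m + 2) ^ 3 * (A (m + 1)).coeff (j + 1) +
            (m + 1) * m * ((m + 2) ^ 3 * (A m).coeff j) := by ring
      rw [e2]
      omega

theorem A_step_two (m k : ℕ) : (m + 1) * m * (A m).coeff k ≤ (A (m + 2)).coeff (k + 1) := by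
  rw [coeff_A_add_two_succ]
  exact Nat.le_add_left _ _

theorem A_coeff_top (n g : ℕ) (h : 2 * g ≤ n) :
    n ! ≤ (n - 2 * g)! * (A (n + 1)).coeff g := by
  induction g generalizing n with
  | zero => rw [A_coeff_zero, mul_zero, Nat.sub_zero, mul_one]
  | succ g ih =>
    obtain ⟨n, rfl⟩ : ∃ j, n = j + 2 := ⟨n - 2, by omega⟩
    have h1 := ih n (by omega)
    have h2 : (n + 2) * (n + 1) * (A (n + 1)).coeff g ≤ (A (n + 2 + 1)).coeff (g + 1) :=
      A_step_two (n + 1) g
    have e1 : n + 2 - 2 * (g + 1) = n - 2 * g := by omega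
    rw [e1, Nat.factorial_succ, Nat.factorial_succ]
    calc (n + 1 + 1) * ((n + 1) * n !) = (n + 2) * (n + 1) * n ! := by ring
      _ ≤ (n + 2) * (n + 1) * ((n - 2 * g)! * (A (n + 1)).coeff g) := Nat.mul_le_mul_left _ h1
      _ = (n - 2 * g)! * ((n + 2) * (n + 1) * (A (n + 1)).coeff g) := by ring
      _ ≤ _ := Nat.mul_le_mul_left _ h2

/-- the property `2 p' ≤ B p`, coefficientwise -/
private def ea1Up (p : ℕ[X]) (B : ℕ) : Prop := Cle (C 2 * derivative p) (C B * p)

private theorem ea1Up_iff (p : ℕ[X]) (B : ℕ) :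
    ea1Up p B ↔ ∀ k, 2 * (k + 1) * p.coeff (k + 1) ≤ B * p.coeff k := by
  unfold ea1Up Cle
  refine forall_congr' fun k => ?_
  rw [coeff_C_mul, coeff_C_mul, coeff_derivative]
  have e : 2 * (p.coeff (k + 1) * ((k : ℕ) + 1)) = 2 * (k + 1) * p.coeff (k + 1) := by ring
  rw [Nat.cast_id, e]

private theorem ea1Up_mul {p q : ℕ[X]} {B B' : ℕ} (hp : ea1Up p B) (hq : ea1Up q B') :
    ea1Up (p * q) (B + B') := by
  unfold ea1Up at *
  have e1 : C 2 * derivative (p * q) = (C 2 * derivative p) * q + p * (C 2 * derivative q) := by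
    rw [derivative_mul]
    ring
  have e2 : C (B + B') * (p * q) = (C B * p) * q + p * (C B' * q) := by
    rw [C_add]
    ring
  rw [e1, e2]
  exact (hp.mul (Cle.refl q)).add ((Cle.refl p).mul hq)

private theorem ea1Up_prod (T : Finset ℤ) (m : ℤ → ℕ) :
    ea1Up (∏ c ∈ T, A (m c)) (∑ c ∈ T, m c ^ 3) := by
  classical
  induction T using Finset.induction_on with
  | empty =>
    rw [ea1Up_iff]
    intro k
    simp [coeff_one]
  | insert a T ha ih =>
    rw [Finset.prod_insert ha, Finset.sum_insert ha]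
    exact ea1Up_mul ((ea1Up_iff _ _).2 fun k => A_coeff_up _ _) ih

theorem P_coeff_up (s : Multiset ℤ) (B k : ℕ) (hB : ∑ c ∈ s.toFinset, (s.count c) ^ 3 ≤ B) :
    2 * (k + 1) * (P s).coeff (k + 1) ≤ B * (P s).coeff k :=
  ((ea1Up_iff _ _).1 (ea1Up_prod s.toFinset fun c => s.count c) k).trans (Nat.mul_le_mul_right _ hB)

theorem P_coeff_le (s : Multiset ℤ) (g K : ℕ) (hK : ∀ c, s.count c ≤ K) :
    2 ^ g * g ! * (P s).coeff g ≤ (K ^ 2 * s.card) ^ g := by
  have hB : ∑ c ∈ s.toFinset, (s.count c) ^ 3 ≤ K ^ 2 * s.card := by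
    rw [← Multiset.toFinset_sum_count_eq s, Finset.mul_sum]
    refine Finset.sum_le_sum fun c _ => ?_
    rw [pow_succ]
    exact Nat.mul_le_mul_right _ (Nat.pow_le_pow_left (hK c) 2)
  induction g with
  | zero => simp [P_coeff_zero]
  | succ g ih =>
    calc 2 ^ (g + 1) * (g + 1)! * (P s).coeff (g + 1)
        = 2 ^ g * g ! * (2 * (g + 1) * (P s).coeff (g + 1)) := by
          rw [Nat.factorial_succ]
          ring
      _ ≤ 2 ^ g * g ! * (K ^ 2 * s.card * (P s).coeff g) :=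
          Nat.mul_le_mul_left _ (P_coeff_up s _ g hB)
      _ = K ^ 2 * s.card * (2 ^ g * g ! * (P s).coeff g) := by ring
      _ ≤ K ^ 2 * s.card * (K ^ 2 * s.card) ^ g := Nat.mul_le_mul_left _ ih
      _ = (K ^ 2 * s.card) ^ (g + 1) := (pow_succ' _ _).symm

/-- adding two vertices on the same level -/
theorem P_add_two (s : Multiset ℤ) (c : ℤ) (g : ℕ) :
    (s.count c + 1) * s.count c * (P s).coeff g ≤ (P (c ::ₘ c ::ₘ s)).coeff (g + 1) := by
  classical
  set m := s.count c with hm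
  set T := insert c s.toFinset with hT
  have h1 : P s = A m * ∏ x ∈ T.erase c, A (s.count x) := by
    rw [P_eq_prod s T (Finset.subset_insert _ _),
      ← Finset.mul_prod_erase T _ (Finset.mem_insert_self _ _)]
  have h2 : P (c ::ₘ c ::ₘ s) = A (m + 2) * ∏ x ∈ T.erase c, A (s.count x) := by
    rw [P_eq_prod (c ::ₘ c ::ₘ s) T (by
      rw [Multiset.toFinset_cons, Multiset.toFinset_cons, Finset.insert_idem]),
      ← Finset.mul_prod_erase T _ (Finset.mem_insert_self _ _), Multiset.count_cons_self,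
      Multiset.count_cons_self]
    congr 1
    refine Finset.prod_congr rfl fun x hx => ?_
    have hne : x ≠ c := (Finset.mem_erase.1 hx).1
    rw [Multiset.count_cons_of_ne hne, Multiset.count_cons_of_ne hne]
  have h3 : Cle (C ((m + 1) * m) * X * A m) (A (m + 2)) := fun k => by
    rw [A_add_two, coeff_add]
    exact Nat.le_add_left _ _
  have h4 := (h3.mul (Cle.refl (∏ x ∈ T.erase c, A (s.count x)))) (g + 1)
  rw [← h2] at h4
  refine le_trans (le_of_eq ?_) h4
  have e : C ((m + 1) * m) * X * A m * ∏ x ∈ T.erase c, A (s.count x) =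
      C ((m + 1) * m) * (X * P s) := by
    rw [h1]
    ring
  rw [e, coeff_C_mul, coeff_X_mul]

end HGQ
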