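import Pool.Agent.HGQ.EApi
import Pool.Agent.HGQ.EA1

/-! # HGQ.EC2 : crude upper bound and concentration on a big level

* `card_forests_le`: `#(forests n) = 3^n catalan n ≤ 12^n` (`sum_forests_succ`, `catalan_succ'`,
  `catalan n ≤ centralBinom n ≤ 4^n`).
* `S_small`: `2^g g! S n g ≤ 12^n ((n+1)^3)^g` by `P_coeff_le` with `K = n+1`, `card (tl f) = n+1`.
* `S_lower`: `n! ≤ (n-2g)! S n g` for `2g ≤ n`: the forest of `n` flat leaves
  (`cons 1 nil (cons 1 nil ...)`) has `tl = replicate (n+1) 0`, `P = A (n+1)`; `A_coeff_top`.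
* `conc`: let `ε` be small. If `2g > n` both sides vanish (`W_eq_zero`). Otherwise for `f` with
  all `mul f c < ε n`: `2^g g! W g f ≤ ((εn)^2 (n+1))^g` (`P_coeff_le` with `K = ⌊εn⌋`), and
  `S n g ≥ n!/(n-2g)! ≥ (2g)!`. With `k! ≥ (k/e)^k` (from `x^k/k! ≤ exp x`, `Real.pow_div_factorial_le_exp`)
  and `g ≥ θ n`: `(2g)! g! ≥ (2g/e)^{2g} (g/e)^g ≥ (4 θ^3 n^3/e^3)^g`. So it is enough that
  `24^n (ε^2 n^2 (n+1)/2)^g ≤ (4θ^3n^3/e^3)^g`, which follows from
  `24^{1/θ} ≤ 4θ^3/(e^3 ε^2)` and `n ≥ 1` (`(n+1)/2 ≤ n`), `g ≥ θ n`: choose `ε` with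
  `ε^2 ≤ 4 θ^3/(e^3 24^{1/θ})`.
-/

namespace HGQ

open Polynomial Forest
open scoped Nat

theorem ec2_card_forests (n : ℕ) : (forests n).card = 3 ^ n * catalan n := by
  induction n using Nat.strong_induction_on with
  | _ n ih =>
    cases n with
    | zero =>
      have h := sum_forests_zero (fun _ => (1 : ℕ))
      rw [Finset.sum_const, smul_eq_mul, mul_one] at h
      rw [h]; simp
    | succ n =>
      have h := sum_forests_succ (fun _ => (1 : ℕ)) n
      rw [Finset.sum_const, smul_eq_mul, mul_one] at h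
      rw [h, catalan_succ', Finset.mul_sum]
      apply Finset.sum_congr rfl
      intro p hp
      rw [Finset.HasAntidiagonal.mem_antidiagonal] at hp
      simp only [Finset.sum_const, smul_eq_mul, mul_one, Finset.card_univ, Fintype.card_fin]
      rw [ih p.1 (by omega), ih p.2 (by omega), ← hp]
      ring

theorem card_forests_le (n : ℕ) : (forests n).card ≤ 12 ^ n := by
  rw [ec2_card_forests]
  have h1 : catalan n ≤ 4 ^ n := by
    rw [catalan_eq_centralBinom_div]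
    refine (Nat.div_le_self _ _).trans ?_
    have h2 : Nat.centralBinom n ≤ 2 ^ (2 * n) := by
      rw [Nat.centralBinom_eq_two_mul_choose]
      exact Nat.choose_le_two_pow _ _
    rw [pow_mul] at h2
    exact h2
  calc 3 ^ n * catalan n ≤ 3 ^ n * 4 ^ n := Nat.mul_le_mul_left _ h1
    _ = 12 ^ n := by rw [← mul_pow]; norm_num

theorem S_small (n g : ℕ) : 2 ^ g * g ! * S n g ≤ 12 ^ n * ((n + 1) ^ 3) ^ g := by
  unfold S
  rw [Finset.mul_sum]
  have h : ∀ f ∈ forests n, 2 ^ g * g ! * W g f ≤ ((n + 1) ^ 3) ^ g := by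
    intro f hf
    rw [mem_forests] at hf
    have h1 := P_coeff_le (tl f) g (n + 1) (fun c => by
      have := Multiset.count_le_card c (tl f)
      rw [card_tl, hf] at this
      exact this)
    rw [card_tl, hf, ← pow_succ] at h1
    rw [W_eq]
    exact h1
  calc ∑ f ∈ forests n, 2 ^ g * g ! * W g f ≤ ∑ _f ∈ forests n, ((n + 1) ^ 3) ^ g :=
        Finset.sum_le_sum h
    _ = (forests n).card * ((n + 1) ^ 3) ^ g := by rw [Finset.sum_const, smul_eq_mul]
    _ ≤ _ := Nat.mul_le_mul_right _ (card_forests_le n)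

/-- the forest of `n` flat leaves -/
def ec2_flat : ℕ → Forest
  | 0 => nil
  | n + 1 => cons 1 nil (ec2_flat n)

theorem ec2_flat_edges (n : ℕ) : (ec2_flat n).edges = n := by
  induction n with
  | zero => rfl
  | succ n ih => simp [ec2_flat, edges, ih]

theorem ec2_flat_vl (n : ℕ) : vl (ec2_flat n) 0 = Multiset.replicate n 0 := by
  induction n with
  | zero => rfl
  | succ n ih => simp [ec2_flat, vl, ih, inc_one, Multiset.replicate_succ]

theorem S_lower (n g : ℕ) (h : 2 * g ≤ n) : n ! ≤ (n - 2 * g)! * S n g := by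
  refine (A_coeff_top n g h).trans (Nat.mul_le_mul_left _ ?_)
  have h1 : W g (ec2_flat n) = (A (n + 1)).coeff g := by
    rw [W_eq]
    unfold tl
    rw [ec2_flat_vl, ← Multiset.replicate_succ, P_replicate]
  rw [← h1]
  unfold S
  exact Finset.single_le_sum (f := fun f => W g f) (fun _ _ => Nat.zero_le _)
    (mem_forests.2 (ec2_flat_edges n))

theorem ec2_fact_le_S (n g : ℕ) (h : 2 * g ≤ n) : (2 * g)! ≤ S n g := by
  have h1 := S_lower n g h
  have h2 : (n - 2 * g)! * (2 * g)! ≤ n ! := by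
    have := Nat.factorial_mul_factorial_dvd_factorial_add (n - 2 * g) (2 * g)
    rw [Nat.sub_add_cancel h] at this
    exact Nat.le_of_dvd (Nat.factorial_pos _) this
  exact Nat.le_of_mul_le_mul_left (h2.trans h1) (Nat.factorial_pos _)

theorem ec2_pow_le (k : ℕ) : (k : ℝ) ^ k ≤ 3 ^ k * k ! := by
  have h1 := Real.pow_div_factorial_le_exp (k : ℝ) (Nat.cast_nonneg k) k
  have hk : (0 : ℝ) < k ! := by exact_mod_cast Nat.factorial_pos k
  rw [div_le_iff₀ hk] at h1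
  have h2 : Real.exp k ≤ 3 ^ k := by
    have h3 : Real.exp 1 ≤ 3 := by
      have := Real.exp_one_lt_d9
      linarith
    calc Real.exp k = (Real.exp 1) ^ k := by rw [← Real.exp_nat_mul]; simp
      _ ≤ 3 ^ k := pow_le_pow_left₀ (Real.exp_pos 1).le h3 k
  calc (k : ℝ) ^ k ≤ Real.exp k * k ! := h1
    _ ≤ 3 ^ k * k ! := by gcongr

open scoped Classical in
theorem conc (θ : ℝ) (hθ : 0 < θ) : ∃ ε : ℝ, 0 < ε ∧ ε < 1 ∧ ∃ N : ℕ, ∀ n ≥ N, ∀ g : ℕ, θ * n ≤ g →
    ∑ f ∈ (forests n).filter (fun f => ∀ c, (f.mul c : ℝ) < ε * n), (W g f : ℝ)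
      ≤ (1 / 2) ^ n * (S n g : ℝ) := by
  obtain ⟨L, hL⟩ := exists_nat_ge (1 / θ)
  set q : ℝ := 4 * θ ^ 3 / (27 * 24 ^ L) with hq
  have hqpos : 0 < q := by positivity
  set ε : ℝ := min (1 / 2) q with hε
  have hεpos : 0 < ε := lt_min (by norm_num) hqpos
  have hε1 : ε ≤ 1 / 2 := min_le_left _ _
  have hεq : ε ^ 2 ≤ q := by
    have h1 : ε ≤ q := min_le_right _ _
    nlinarith
  refine ⟨ε, hεpos, by linarith, 1, ?_⟩
  intro n hn g hg
  have hn1 : (1 : ℝ) ≤ n := by exact_mod_cast hn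
  by_cases h2 : n < 2 * g
  · rw [Finset.sum_eq_zero]
    · positivity
    · intro f hf
      rw [Finset.mem_filter] at hf
      rw [W_eq_zero hf.1 h2, Nat.cast_zero]
  · push Not at h2
    set T := (forests n).filter (fun f => ∀ c, (f.mul c : ℝ) < ε * n) with hT
    have hcard : (T.card : ℝ) ≤ 12 ^ n := by
      have : T.card ≤ 12 ^ n := (Finset.card_filter_le _ _).trans (card_forests_le n)
      exact_mod_cast this
    have hW : ∀ f ∈ T, (2 : ℝ) ^ g * g ! * W g f ≤ (2 * (ε ^ 2 * n ^ 3)) ^ g := by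
      intro f hf
      rw [hT, Finset.mem_filter, mem_forests] at hf
      have h1 := P_coeff_le (tl f) g ⌊ε * n⌋₊ (fun c => by
        rw [count_tl]
        exact Nat.le_floor (hf.2 c).le)
      rw [card_tl, hf.1, ← W_eq] at h1
      have h3 : (2 : ℝ) ^ g * g ! * W g f ≤ ((⌊ε * n⌋₊ : ℝ) ^ 2 * (n + 1)) ^ g := by
        exact_mod_cast h1
      refine h3.trans ?_
      have h4 : (⌊ε * n⌋₊ : ℝ) ≤ ε * n := Nat.floor_le (by positivity)
      apply pow_le_pow_left₀ (by positivity)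
      calc (⌊ε * n⌋₊ : ℝ) ^ 2 * (n + 1) ≤ (ε * n) ^ 2 * (n + n) := by gcongr
        _ = 2 * (ε ^ 2 * n ^ 3) := by ring
    have hsum : (2 : ℝ) ^ g * g ! * ∑ f ∈ T, (W g f : ℝ) ≤ 12 ^ n * (2 * (ε ^ 2 * n ^ 3)) ^ g := by
      rw [Finset.mul_sum]
      calc ∑ f ∈ T, (2 : ℝ) ^ g * g ! * (W g f : ℝ) ≤ ∑ _f ∈ T, (2 * (ε ^ 2 * n ^ 3)) ^ g :=
            Finset.sum_le_sum hW
        _ = T.card * (2 * (ε ^ 2 * n ^ 3)) ^ g := by rw [Finset.sum_const, nsmul_eq_mul]
        _ ≤ _ := by gcongr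
    have hgf : (0 : ℝ) < g ! := by exact_mod_cast Nat.factorial_pos g
    have hsum' : (g ! : ℝ) * ∑ f ∈ T, (W g f : ℝ) ≤ 12 ^ n * (ε ^ 2 * n ^ 3) ^ g := by
      rw [mul_pow] at hsum
      have h5 : (2 : ℝ) ^ g * (g ! * ∑ f ∈ T, (W g f : ℝ)) ≤ 2 ^ g * (12 ^ n * (ε ^ 2 * n ^ 3) ^ g) := by
        calc _ = (2 : ℝ) ^ g * g ! * ∑ f ∈ T, (W g f : ℝ) := by ring
          _ ≤ _ := hsum
          _ = _ := by ring
      exact le_of_mul_le_mul_left h5 (by positivity)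
    have hS : ((2 * g)! : ℝ) ≤ S n g := by exact_mod_cast ec2_fact_le_S n g h2
    have hng : (n : ℝ) ≤ L * g := by
      have h6 : (n : ℝ) ≤ 1 / θ * g := by
        rw [div_mul_eq_mul_div, one_mul, le_div_iff₀ hθ]
        linarith
      calc (n : ℝ) ≤ 1 / θ * g := h6
        _ ≤ L * g := by gcongr
    have hng' : n ≤ L * g := by exact_mod_cast hng
    have h24 : (24 : ℝ) ^ n ≤ (24 ^ L) ^ g := by
      rw [← pow_mul]
      exact pow_le_pow_right₀ (by norm_num) hng'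
    have hfac : (4 * (g : ℝ) ^ 3) ^ g ≤ 27 ^ g * (g ! * (2 * g)!) := by
      have h7 := ec2_pow_le g
      have h8 := ec2_pow_le (2 * g)
      calc (4 * (g : ℝ) ^ 3) ^ g = (g : ℝ) ^ g * ((2 * g : ℕ) : ℝ) ^ (2 * g) := by
            rw [pow_mul ((2 * g : ℕ) : ℝ) 2 g, ← mul_pow]
            congr 1
            push_cast
            ring
        _ ≤ (3 ^ g * g !) * (3 ^ (2 * g) * (2 * g)!) := by gcongr
        _ = 27 ^ g * (g ! * (2 * g)!) := by
            rw [pow_mul (3 : ℝ) 2 g, show (27 : ℝ) = 3 * 3 ^ 2 by norm_num, mul_pow]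
            ring
    have hmain : (24 : ℝ) ^ n * (ε ^ 2 * n ^ 3) ^ g ≤ g ! * (2 * g)! := by
      have h9 : (27 : ℝ) ^ g * (24 ^ n * (ε ^ 2 * n ^ 3) ^ g) ≤ 27 ^ g * (g ! * (2 * g)!) := by
        refine le_trans ?_ hfac
        calc (27 : ℝ) ^ g * (24 ^ n * (ε ^ 2 * n ^ 3) ^ g)
            ≤ 27 ^ g * ((24 ^ L) ^ g * (ε ^ 2 * n ^ 3) ^ g) := by gcongr
          _ = (27 * 24 ^ L * (ε ^ 2 * n ^ 3)) ^ g := by
              rw [mul_pow, mul_pow]; ring
          _ ≤ (4 * (g : ℝ) ^ 3) ^ g := by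
              apply pow_le_pow_left₀ (by positivity)
              calc 27 * 24 ^ L * (ε ^ 2 * (n : ℝ) ^ 3) ≤ 27 * 24 ^ L * (q * (n : ℝ) ^ 3) := by gcongr
                _ = 4 * (θ * n) ^ 3 := by
                    rw [hq]; field_simp
                _ ≤ 4 * (g : ℝ) ^ 3 := by gcongr
      exact le_of_mul_le_mul_left h9 (by positivity)
    have hfin : (g ! : ℝ) * ∑ f ∈ T, (W g f : ℝ) ≤ g ! * ((1 / 2) ^ n * (S n g : ℝ)) := by
      refine hsum'.trans ?_
      calc (12 : ℝ) ^ n * (ε ^ 2 * n ^ 3) ^ g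
          = (1 / 2 : ℝ) ^ n * ((24 : ℝ) ^ n * (ε ^ 2 * n ^ 3) ^ g) := by
            rw [← mul_assoc, ← mul_pow]; norm_num
        _ ≤ (1 / 2 : ℝ) ^ n * ((g ! : ℝ) * ((2 * g)! : ℝ)) := by gcongr
        _ ≤ (1 / 2 : ℝ) ^ n * ((g ! : ℝ) * (S n g : ℝ)) := by gcongr
        _ = _ := by ring
    exact le_of_mul_le_mul_left hfin hgf

end HGQ
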