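import Pool.Agent.HGQ.EApi

/-! # HGQ.EG1 : without bottlenecks there are few top levels (deterministic)

Let `n = edges f ≥ 1`, `M_c = up f c`, `J_c = cross f c`, `N_c = inced f c` (edges with an end `≥ c`), `c ≥ 1`.
* `inced_succ`: `N_{c+1} + J_c ≤ N_c` (an edge between `c-1` and `c` has no end `≥ c+1`, as steps are in
  `{-1,0,1}`), `N_c ≤ n`, `M_c ≤ N_c` (the parent edge of a vertex of label `≥ c`; the root has label `0 < c`),
  `N_c ≤ M_c + J_c` (an edge with an end `≥ c` either has its child end `≥ c`, at most `M_c` edges, or is a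
  crossing edge from a parent of label `c` down to `c-1`). All by induction on `f` with a general root label.
* `M_{c+1} ≤ M_c`, and if `c ∈ labels f` then `M_{c+1} + 1 ≤ M_c`; if `c + 1 ∈ labels f`, `c ≥ 0`, then
  `c ∈ labels f` (steps in `{-1,0,1}`, root label `0`), so all of `1, ..., mx` are labels if `mx ≥ 1` is.
* `few_top_levels`: levels `c ∈ [c₁, mx]` with `M_c ≥ L`: `J_c > ε M_c ≥ ε (N_c - J_c)`, so
  `(1+ε) J_c > ε N_c` and `N_{c+1} ≤ N_c - J_c ≤ N_c/(1+ε)`; these levels are an initial segment of `[c₁, mx]` and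
  `N_c ≥ M_c ≥ 1`, `N_{c₁} ≤ n`, so there are at most `log n/log(1+ε) + 1` of them. Levels with `M_c < L`: `M` is strictly
  decreasing and positive up to `mx`, so at most `L + 1` levels.
-/

namespace HGQ

open Polynomial Forest

private theorem eg1_incF_succ (c : ℤ) : ∀ (f : Forest) (x : ℤ),
    incF f x (c + 1) + crossF f x c ≤ incF f x c
  | nil, x => by simp [incF, crossF]
  | cons d ch r, x => by
      have h1 := eg1_incF_succ c ch (x + inc d)
      have h2 := eg1_incF_succ c r x
      simp only [incF, crossF]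
      rcases inc_cases d with h | h | h <;> rw [h] at h1 ⊢ <;> split_ifs <;> omega

private theorem eg1_incF_le (c : ℤ) : ∀ (f : Forest) (x : ℤ), incF f x c ≤ f.edges
  | nil, x => by simp [incF, edges]
  | cons d ch r, x => by
      have h1 := eg1_incF_le c ch (x + inc d)
      have h2 := eg1_incF_le c r x
      simp only [incF, edges]
      split_ifs <;> omega

private theorem eg1_countP_cons (c a : ℤ) (s : Multiset ℤ) :
    (a ::ₘ s).countP (fun i => c ≤ i) = s.countP (fun i => c ≤ i) + if c ≤ a then 1 else 0 := by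
  rw [Multiset.countP_cons]

private theorem eg1_vl_le_incF (c : ℤ) : ∀ (f : Forest) (x : ℤ),
    (vl f x).countP (fun i => c ≤ i) ≤ incF f x c
  | nil, x => by simp [incF, vl]
  | cons d ch r, x => by
      have h1 := eg1_vl_le_incF c ch (x + inc d)
      have h2 := eg1_vl_le_incF c r x
      simp only [incF, vl, eg1_countP_cons, Multiset.countP_add]
      split_ifs <;> omega

private theorem eg1_incF_le_add (c : ℤ) : ∀ (f : Forest) (x : ℤ),
    incF f x c ≤ (vl f x).countP (fun i => c ≤ i) + crossF f x c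
  | nil, x => by simp [incF]
  | cons d ch r, x => by
      have h1 := eg1_incF_le_add c ch (x + inc d)
      have h2 := eg1_incF_le_add c r x
      simp only [incF, vl, crossF, eg1_countP_cons, Multiset.countP_add]
      split_ifs <;> omega

private theorem eg1_up_eq (f : Forest) (c : ℤ) (hc : 0 < c) :
    up f c = (vl f 0).countP (fun i => c ≤ i) := by
  unfold up tl
  rw [eg1_countP_cons, if_neg (by omega), add_zero]

private theorem eg1_countP_succ (c : ℤ) (s : Multiset ℤ) :
    s.countP (fun i => c ≤ i) = s.countP (fun i => c + 1 ≤ i) + s.count c := by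
  induction s using Multiset.induction_on with
  | empty => simp
  | cons a s ih =>
    rw [eg1_countP_cons, eg1_countP_cons, ih, Multiset.count_cons]
    split_ifs <;> omega

private theorem eg1_up_succ (f : Forest) (c : ℤ) (hc : c ∈ f.labels) :
    up f (c + 1) + 1 ≤ up f c := by
  unfold up
  rw [eg1_countP_succ c (tl f), count_tl]
  have := mem_labels.1 hc
  omega

private theorem eg1_up_succ_le (f : Forest) (c : ℤ) : up f (c + 1) ≤ up f c := by
  unfold up
  rw [eg1_countP_succ c (tl f)]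
  omega

private theorem eg1_connected (i c : ℤ) (hci : c ≤ i) : ∀ (f : Forest) (x : ℤ), i ∈ vl f x →
    x ≤ c → c = x ∨ c ∈ vl f x
  | nil, x => by simp [vl]
  | cons d ch r, x => by
      intro hi hx
      have h1 := eg1_connected i c hci ch (x + inc d)
      have h2 := eg1_connected i c hci r x
      simp only [vl, Multiset.mem_cons, Multiset.mem_add] at hi ⊢
      rcases hi with hi | hi | hi
      · rcases inc_cases d with h | h | h <;> rw [h] at hi ⊢ <;> omega
      · by_cases hy : x + inc d ≤ c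
        · rcases h1 hi hy with h | h
          · exact Or.inr (Or.inl h)
          · exact Or.inr (Or.inr (Or.inl h))
        · left
          rcases inc_cases d with h | h | h <;> omega
      · rcases h2 hi hx with h | h
        · exact Or.inl h
        · exact Or.inr (Or.inr (Or.inr h))

private theorem eg1_labels (f : Forest) (i : ℤ) : i ∈ f.labels ↔ i = 0 ∨ i ∈ vl f 0 := by
  rw [← toFinset_tl, Multiset.mem_toFinset, tl, Multiset.mem_cons]

private theorem eg1_label_of_le (f : Forest) (c mx : ℤ) (hc : 0 < c) (hmx : mx ∈ f.labels)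
    (h : c ≤ mx) : c ∈ f.labels := by
  rw [eg1_labels] at hmx ⊢
  rcases hmx with h0 | h0
  · omega
  · exact eg1_connected mx c h f 0 h0 hc.le

/-- below the maximal label the numbers `up` decrease strictly -/
private theorem eg1_up_ge (f : Forest) (mx : ℤ) (hmx : mx ∈ f.labels) (k : ℕ)
    (hk : 0 < mx - k) : k + 1 ≤ up f (mx - k) := by
  induction k with
  | zero =>
    have := eg1_up_succ f mx hmx
    simp only [Nat.cast_zero, sub_zero, zero_add]
    omega
  | succ k ih =>
    have h1 := ih (by push_cast at hk; omega)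
    have h2 := eg1_up_succ f (mx - ((k + 1 : ℕ) : ℤ))
      (eg1_label_of_le f _ mx hk hmx (by push_cast; omega))
    rw [show mx - ((k + 1 : ℕ) : ℤ) + 1 = mx - k by push_cast; ring] at h2
    omega

private theorem eg1_up_mono (f : Forest) (c : ℤ) (k : ℕ) : up f (c + k) ≤ up f c := by
  induction k with
  | zero => simp
  | succ k ih =>
    have := eg1_up_succ_le f (c + k)
    rw [show c + (k : ℤ) + 1 = c + ((k + 1 : ℕ) : ℤ) by push_cast; ring] at this
    omega

private theorem eg1_pow (f : Forest) (ε L : ℝ) (hε : 0 < ε) (c₁ : ℤ) (hc₁ : 0 < c₁)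
    (h : ∀ c : ℤ, c₁ ≤ c → L ≤ (up f c : ℝ) → ε * (up f c : ℝ) < (cross f c : ℝ)) (k : ℕ)
    (hk : L ≤ (up f (c₁ + k) : ℝ)) :
    (1 + ε) ^ k * (inced f (c₁ + k) : ℝ) ≤ (inced f c₁ : ℝ) := by
  induction k with
  | zero => simp
  | succ k ih =>
    have e : c₁ + ((k + 1 : ℕ) : ℤ) = c₁ + k + 1 := by push_cast; ring
    rw [e] at hk ⊢
    have hk' : L ≤ (up f (c₁ + k) : ℝ) := by
      refine hk.trans ?_
      exact_mod_cast eg1_up_succ_le f (c₁ + k)
    have ih' := ih hk'
    have h1 := h (c₁ + k) (by omega) hk'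
    have h2 : inced f (c₁ + k + 1) + cross f (c₁ + k) ≤ inced f (c₁ + k) :=
      eg1_incF_succ (c₁ + k) f 0
    have h3 : inced f (c₁ + k) ≤ up f (c₁ + k) + cross f (c₁ + k) := by
      rw [eg1_up_eq f _ (by omega)]
      exact eg1_incF_le_add (c₁ + k) f 0
    have h2' : (inced f (c₁ + k + 1) : ℝ) + (cross f (c₁ + k) : ℝ) ≤ (inced f (c₁ + k) : ℝ) := by
      exact_mod_cast h2
    have h3' : (inced f (c₁ + k) : ℝ) ≤ (up f (c₁ + k) : ℝ) + (cross f (c₁ + k) : ℝ) := by
      exact_mod_cast h3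
    have h4 : (1 + ε) * (inced f (c₁ + k + 1) : ℝ) ≤ (inced f (c₁ + k) : ℝ) := by
      nlinarith
    calc (1 + ε) ^ (k + 1) * (inced f (c₁ + k + 1) : ℝ)
        = (1 + ε) ^ k * ((1 + ε) * (inced f (c₁ + k + 1) : ℝ)) := by ring
      _ ≤ (1 + ε) ^ k * (inced f (c₁ + k) : ℝ) :=
          mul_le_mul_of_nonneg_left h4 (by positivity)
      _ ≤ _ := ih'

theorem few_top_levels (f : Forest) (n : ℕ) (hf : f ∈ forests n) (hn : 1 ≤ n) (ε L : ℝ)
    (hε : 0 < ε) (hL : 1 ≤ L) (c₁ mx : ℤ) (hc₁ : 0 < c₁) (hmx : mx ∈ f.labels)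
    (h : ∀ c : ℤ, c₁ ≤ c → L ≤ (up f c : ℝ) → ε * (up f c : ℝ) < (cross f c : ℝ)) :
    ((mx - c₁ : ℤ) : ℝ) ≤ Real.log n / Real.log (1 + ε) + L + 3 := by
  rw [mem_forests] at hf
  have hn' : (1 : ℝ) ≤ n := by exact_mod_cast hn
  have hlog : 0 < Real.log (1 + ε) := Real.log_pos (by linarith)
  have hq : 0 ≤ Real.log n / Real.log (1 + ε) := div_nonneg (Real.log_nonneg hn') hlog.le
  by_cases hle : mx < c₁
  · have : ((mx - c₁ : ℤ) : ℝ) ≤ 0 := by exact_mod_cast (by omega : mx - c₁ ≤ 0)
    linarith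
  push Not at hle
  obtain ⟨K, hK⟩ : ∃ K : ℕ, mx = c₁ + K := ⟨(mx - c₁).toNat, by omega⟩
  have hcast : ((mx - c₁ : ℤ) : ℝ) = (K : ℝ) := by rw [hK]; push_cast; ring
  rw [hcast]
  set q := Real.log n / Real.log (1 + ε) with hqdef
  -- the levels with `L ≤ up` have index at most `q`
  have key : ∀ k : ℕ, L ≤ (up f (c₁ + k) : ℝ) → (k : ℝ) ≤ q := by
    intro k hk
    have h1 := eg1_pow f ε L hε c₁ hc₁ h k hk
    have h2 : (inced f c₁ : ℝ) ≤ n := by
      have := eg1_incF_le c₁ f 0
      rw [hf] at this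
      exact_mod_cast this
    have h3 : (1 : ℝ) ≤ (inced f (c₁ + k) : ℝ) := by
      have h4 := eg1_vl_le_incF (c₁ + k) f 0
      rw [← eg1_up_eq f _ (by omega)] at h4
      have h5 : (up f (c₁ + k) : ℝ) ≤ (inced f (c₁ + k) : ℝ) := by exact_mod_cast h4
      linarith
    have h6 : (1 + ε) ^ k ≤ (n : ℝ) := by
      have : (1 + ε) ^ k * 1 ≤ (1 + ε) ^ k * (inced f (c₁ + k) : ℝ) :=
        mul_le_mul_of_nonneg_left h3 (by positivity)
      linarith
    rw [hqdef, le_div_iff₀ hlog]
    have h7 := Real.log_le_log (by positivity) h6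
    rwa [Real.log_pow] at h7
  by_cases hm : K ≤ ⌊q⌋₊ + 1
  · have h1 : (K : ℝ) ≤ (⌊q⌋₊ : ℝ) + 1 := by exact_mod_cast hm
    have h2 := Nat.floor_le hq
    linarith
  push Not at hm
  have h1 : (up f (c₁ + ((⌊q⌋₊ + 1 : ℕ) : ℤ)) : ℝ) < L := by
    by_contra hc
    push Not at hc
    have h2 := key _ hc
    have h3 := Nat.lt_floor_add_one q
    push_cast at h2
    linarith
  have h2 := eg1_up_ge f mx hmx (K - (⌊q⌋₊ + 1)) (by omega)
  rw [show mx - ((K - (⌊q⌋₊ + 1) : ℕ) : ℤ) = c₁ + ((⌊q⌋₊ + 1 : ℕ) : ℤ) by omega] at h2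
  have h3 : ((K - (⌊q⌋₊ + 1) + 1 : ℕ) : ℝ) < L := lt_of_le_of_lt (by exact_mod_cast h2) h1
  have h4 : (K : ℝ) = ((K - (⌊q⌋₊ + 1) + 1 : ℕ) : ℝ) + (⌊q⌋₊ : ℝ) := by
    have : K = (K - (⌊q⌋₊ + 1) + 1) + ⌊q⌋₊ := by omega
    exact_mod_cast this
  have h5 := Nat.floor_le hq
  linarith

private theorem eg1_vl_le_edges : ∀ (f : Forest) (x i : ℤ), i ∈ vl f x → i ≤ x + f.edges
  | nil, x, i => by simp [vl]
  | cons d ch r, x, i => by
      intro hi
      have h1 := eg1_vl_le_edges ch (x + inc d) i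
      have h2 := eg1_vl_le_edges r x i
      simp only [vl, Multiset.mem_cons, Multiset.mem_add] at hi
      simp only [edges]
      push_cast
      rcases hi with hi | hi | hi
      · rcases inc_cases d with h | h | h <;> omega
      · have := h1 hi
        rcases inc_cases d with h | h | h <;> omega
      · have := h2 hi
        omega

/-- a level with a vertex `≥ c` satisfies `c ≤ n` -/
theorem up_pos_le (f : Forest) (n : ℕ) (hf : f ∈ forests n) (c : ℤ) (hc : 0 < c)
    (h : 0 < up f c) : c ≤ n := by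
  rw [mem_forests] at hf
  rw [eg1_up_eq f c hc, Multiset.countP_pos] at h
  obtain ⟨i, hi, hci⟩ := h
  have := eg1_vl_le_edges f 0 i hi
  rw [hf] at this
  omega

private theorem eg1_vl_le_dl : ∀ (f : Forest) (x : ℤ), vl f x ≤ dl f x
  | nil, x => by simp [vl, dl]
  | cons d c r, x => by
      simp only [vl, dl]
      refine le_trans ?_ (Multiset.le_cons_self _ _)
      exact Multiset.cons_le_cons _ (add_le_add (eg1_vl_le_dl c _) (eg1_vl_le_dl r _))

private theorem eg1_mem_dl : ∀ (f : Forest) (x j : ℤ), j ∈ dl f x → j = x ∨ j ∈ vl f x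
  | nil, x, j => by simp [vl, dl]
  | cons d c r, x, j => by
      intro hj
      simp only [vl, dl, Multiset.mem_cons, Multiset.mem_add] at hj ⊢
      rcases hj with hj | hj | hj | hj
      · exact Or.inl hj
      · exact Or.inr (Or.inl hj)
      · rcases eg1_mem_dl c _ j hj with h | h
        · exact Or.inr (Or.inl h)
        · exact Or.inr (Or.inr (Or.inl h))
      · rcases eg1_mem_dl r _ j hj with h | h
        · exact Or.inl h
        · exact Or.inr (Or.inr (Or.inr h))

private theorem eg1_tl_le_dl (f : Forest) (hf : 1 ≤ f.edges) : tl f ≤ dl f 0 := by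
  cases f with
  | nil => simp [edges] at hf
  | cons d c r =>
    simp only [tl, vl, dl]
    exact Multiset.cons_le_cons _ (Multiset.cons_le_cons _
      (add_le_add (eg1_vl_le_dl c _) (eg1_vl_le_dl r _)))

/-- every vertex of a tree with at least one edge is the end of a dart, and the vertex labels and
the dart labels have the same minimum -/
theorem lowc_tl_le_dl (f : Forest) (hf : 1 ≤ f.edges) (R : ℕ) :
    lowc (tl f) R ≤ lowc (dl f 0) R := by
  have h1 := eg1_tl_le_dl f hf
  have h2 : ∀ j, j ∈ dl f 0 ↔ j ∈ tl f := fun j =>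
    ⟨fun h => by
      rw [tl, Multiset.mem_cons]
      exact eg1_mem_dl f 0 j h, fun h => Multiset.mem_of_le h1 h⟩
  have h3 : (fun i : ℤ => ∀ j ∈ dl f 0, i ≤ j + R) = fun i : ℤ => ∀ j ∈ tl f, i ≤ j + R := by
    funext i
    exact propext ⟨fun h j hj => h j ((h2 j).2 hj), fun h j hj => h j ((h2 j).1 hj)⟩
  unfold lowc
  simp only [h3]
  exact Multiset.countP_le_of_le _ h1

end HGQ
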