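import Pool.Agent.HGQ.CPoint2
import Pool.Agent.HGQ.BTFinal2
import Pool.Agent.HGQ.D3
import Pool.Agent.HGQ.EC2
import Pool.Agent.HGQ.EG1

/-! # HGQ.D4 : exact formula for pointed quadrangulations

Summation of `count_pointed` and `exact_uni'` over all multisets of labels with a translation
invariant property `p`.
-/

namespace HGQ

open Equiv Forest

theorem d4_card_fiber {X T : Type*} [Finite X] (m : X → T) (p : T → Prop) [DecidablePred p]
    (F : Finset T) (hF : ∀ x, m x ∈ F) :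
    Nat.card {x // p (m x)} = ∑ t ∈ F.filter p, Nat.card {x // m x = t} := by
  classical
  haveI := Fintype.ofFinite X
  simp only [Nat.card_eq_fintype_card, Fintype.card_subtype]
  rw [Finset.card_eq_sum_card_fiberwise (f := m) (t := F.filter p)]
  · refine Finset.sum_congr rfl fun t ht => ?_
    congr 1
    ext x
    simp only [Finset.mem_filter, Finset.mem_univ, true_and] at ht ⊢
    constructor
    · exact fun h => h.2
    · intro h; exact ⟨by rw [h]; exact ht.2, h⟩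
  · intro x hx
    simp only [Finset.coe_filter, Finset.mem_univ, true_and, Set.mem_setOf_eq] at hx ⊢
    exact ⟨hF x, hx⟩

theorem d4_finite_min (n : ℕ) (hn : 1 ≤ n) :
    Finite {u : Perm (Fin (2 * n)) × Perm (Fin (2 * n)) × (Fin (2 * n) → ℤ) //
        IsUni n u.1 u.2.1 u.2.2 ∧ (∀ x, 1 ≤ u.2.2 x) ∧ (∃ x, u.2.2 x = 1)} := by
  haveI := finite_uni n hn
  let z : Fin (2 * n) := ⟨0, by omega⟩
  let φ : {u : Perm (Fin (2 * n)) × Perm (Fin (2 * n)) × (Fin (2 * n) → ℤ) //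
        IsUni n u.1 u.2.1 u.2.2 ∧ (∀ x, 1 ≤ u.2.2 x) ∧ (∃ x, u.2.2 x = 1)} →
      {u : Perm (Fin (2 * n)) × Perm (Fin (2 * n)) × (Fin (2 * n) → ℤ) //
        IsUni n u.1 u.2.1 u.2.2 ∧ u.2.2 ⟨0, by omega⟩ = 0} := fun u =>
    ⟨(u.1.1, u.1.2.1, fun x => u.1.2.2 x - u.1.2.2 z), by
      obtain ⟨h1, h2, h3, h4, h5⟩ := u.2.1
      refine ⟨⟨h1, h2, h3, fun x => ?_, fun x => ?_⟩, ?_⟩
      · simp only [h4]
      · have := h5 x
        rw [show u.1.2.2 (u.1.1 x) - u.1.2.2 z - (u.1.2.2 x - u.1.2.2 z)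
          = u.1.2.2 (u.1.1 x) - u.1.2.2 x by ring]
        exact this
      · simp [z]⟩
  refine Finite.of_injective φ ?_
  rintro ⟨⟨a, s, l⟩, h⟩ ⟨⟨a', s', l'⟩, h'⟩ heq
  have h0 := congrArg Subtype.val heq
  simp only [φ, Prod.mk.injEq] at h0
  obtain ⟨ha, hs, hl⟩ := h0
  have hl' : ∀ x, l x - l z = l' x - l' z := fun x => congrFun hl x
  obtain ⟨x, hx⟩ := h.2.2
  obtain ⟨y, hy⟩ := h'.2.2
  have h1 := h.2.1 y
  have h2 := h'.2.1 x
  simp only at hx hy h1 h2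
  have h3 := hl' x
  have h4 := hl' y
  have h5 : l z = l' z := by omega
  have h6 : l = l' := by
    funext i
    have := hl' i
    omega
  subst ha; subst hs; subst h6
  rfl

theorem pointed_exact (n g : ℕ) (hn : 1 ≤ n) (hg : 2 * g ≤ n) (p : Multiset ℤ → Prop)
    [DecidablePred p] (hp : ∀ (s : Multiset ℤ) (a : ℤ), p (s.map (fun i => i + a)) ↔ p s) :
    4 ^ g * Nat.card {q : (p : LQ n g) × Vtx p.1.1 p.1.2 //
        p (Finset.univ.val.map (Lb q.1.1.1 q.1.1.2 q.2))}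
      = 2 * (2 * n - 1).factorial * ∑ f ∈ (forests n).filter (fun f => p (dl f 0)), W g f := by
  classical
  haveI hf1 := finite_uni n hn
  haveI hf2 := d4_finite_min n hn
  -- the three types
  let X := (p : LQ n g) × Vtx p.1.1 p.1.2
  haveI hfX : Finite X := by
    haveI : ∀ p : LQ n g, Finite (Vtx p.1.1 p.1.2) := fun p => by
      unfold Vtx; infer_instance
    infer_instance
  let mX : X → Multiset ℤ := fun q => Finset.univ.val.map (Lb q.1.1.1 q.1.1.2 q.2)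
  let Y := {u : Perm (Fin (2 * n)) × Perm (Fin (2 * n)) × (Fin (2 * n) → ℤ) //
        (IsUni n u.1 u.2.1 u.2.2 ∧ (∀ x, 1 ≤ u.2.2 x) ∧ (∃ x, u.2.2 x = 1)) ∧
          nc u.2.1 = n + 1 - 2 * g}
  haveI hfY : Finite Y :=
    Finite.of_injective (fun u : Y => (⟨u.1, u.2.1⟩ :
      {u : Perm (Fin (2 * n)) × Perm (Fin (2 * n)) × (Fin (2 * n) → ℤ) //
        IsUni n u.1 u.2.1 u.2.2 ∧ (∀ x, 1 ≤ u.2.2 x) ∧ (∃ x, u.2.2 x = 1)}))
      (fun a b h => Subtype.ext (congrArg Subtype.val h :))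
  let mY : Y → Multiset ℤ := fun u => Finset.univ.val.map u.1.2.2
  let Z := {u : Perm (Fin (2 * n)) × Perm (Fin (2 * n)) × (Fin (2 * n) → ℤ) //
        (IsUni n u.1 u.2.1 u.2.2 ∧ u.2.2 ⟨0, by omega⟩ = 0) ∧ nc u.2.1 = n + 1 - 2 * g}
  haveI hfZ : Finite Z := by
    have hz : 0 < 2 * n := by omega
    refine Finite.of_injective (β := {u : Perm (Fin (2 * n)) × Perm (Fin (2 * n)) ×
        (Fin (2 * n) → ℤ) // IsUni n u.1 u.2.1 u.2.2 ∧ u.2.2 ⟨0, hz⟩ = 0})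
      (fun u : Z => ⟨u.1, u.2.1⟩) ?_
    intro a b h
    have h' := congrArg Subtype.val h
    exact Subtype.ext h'
  let mZ : Z → Multiset ℤ := fun u => Finset.univ.val.map u.1.2.2
  -- a finset containing all values
  haveI := Fintype.ofFinite X
  haveI := Fintype.ofFinite Y
  haveI := Fintype.ofFinite Z
  let F : Finset (Multiset ℤ) := Finset.univ.image mX ∪ Finset.univ.image mY ∪
    Finset.univ.image mZ ∪ (forests n).image (fun f => dl f 0)
  have hFX : ∀ x, mX x ∈ F := fun x => by simp [F]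
  have hFY : ∀ x, mY x ∈ F := fun x => by simp [F]
  have hFZ : ∀ x, mZ x ∈ F := fun x => by simp [F]
  have e1 : Nat.card {x : X // p (mX x)} = 2 * Nat.card {y : Y // p (mY y)} := by
    rw [d4_card_fiber mX p F hFX, d4_card_fiber mY p F hFY, Finset.mul_sum]
    refine Finset.sum_congr rfl fun t _ => ?_
    have h := count_pointed n g hg t
    have h2 : Nat.card {y : Y // mY y = t}
        = Nat.card {u : Perm (Fin (2 * n)) × Perm (Fin (2 * n)) × (Fin (2 * n) → ℤ) //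
        IsUni n u.1 u.2.1 u.2.2 ∧ (∀ x, 1 ≤ u.2.2 x) ∧ (∃ x, u.2.2 x = 1) ∧
          nc u.2.1 = n + 1 - 2 * g ∧ Finset.univ.val.map u.2.2 = t} := by
      refine Nat.card_congr ⟨fun y => ⟨y.1.1, y.1.2.1.1, y.1.2.1.2.1, y.1.2.1.2.2, y.1.2.2, y.2⟩,
        fun u => ⟨⟨u.1, ⟨u.2.1, u.2.2.1, u.2.2.2.1⟩, u.2.2.2.2.1⟩, u.2.2.2.2.2⟩,
        fun y => rfl, fun u => rfl⟩
    rw [h2]
    exact h
  have e2 : Nat.card {y : Y // p (mY y)} = Nat.card {z : Z // p (mZ z)} := by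
    have h := card_shift n (n + 1 - 2 * g) hn p hp
    have h2 : Nat.card {y : Y // p (mY y)}
        = Nat.card {u : Perm (Fin (2 * n)) × Perm (Fin (2 * n)) × (Fin (2 * n) → ℤ) //
        IsUni n u.1 u.2.1 u.2.2 ∧ (∀ x, 1 ≤ u.2.2 x) ∧ (∃ x, u.2.2 x = 1) ∧
          nc u.2.1 = n + 1 - 2 * g ∧ p (Finset.univ.val.map u.2.2)} := by
      refine Nat.card_congr ⟨fun y => ⟨y.1.1, y.1.2.1.1, y.1.2.1.2.1, y.1.2.1.2.2, y.1.2.2, y.2⟩,
        fun u => ⟨⟨u.1, ⟨u.2.1, u.2.2.1, u.2.2.2.1⟩, u.2.2.2.2.1⟩, u.2.2.2.2.2⟩,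
        fun y => rfl, fun u => rfl⟩
    have h3 : Nat.card {z : Z // p (mZ z)}
        = Nat.card {u : Perm (Fin (2 * n)) × Perm (Fin (2 * n)) × (Fin (2 * n) → ℤ) //
        IsUni n u.1 u.2.1 u.2.2 ∧ u.2.2 ⟨0, by omega⟩ = 0 ∧ nc u.2.1 = n + 1 - 2 * g ∧
          p (Finset.univ.val.map u.2.2)} := by
      refine Nat.card_congr ⟨fun y => ⟨y.1.1, y.1.2.1.1, y.1.2.1.2, y.1.2.2, y.2⟩,
        fun u => ⟨⟨u.1, ⟨u.2.1, u.2.2.1⟩, u.2.2.2.1⟩, u.2.2.2.2⟩,
        fun y => rfl, fun u => rfl⟩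
    rw [h2, h3]; exact h
  have e3 : 4 ^ g * Nat.card {z : Z // p (mZ z)}
      = (2 * n - 1).factorial * ∑ f ∈ (forests n).filter (fun f => p (dl f 0)), W g f := by
    rw [d4_card_fiber mZ p F hFZ, Finset.mul_sum]
    have h1 : ∀ t ∈ F.filter p, 4 ^ g * Nat.card {z : Z // mZ z = t}
        = (2 * n - 1).factorial *
          ∑ f ∈ (Forest.forests n).filter (fun f => dl f 0 = t), W g f := by
      intro t _
      rw [← exact_uni' n g hn hg t]
      congr 1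
      refine Nat.card_congr ⟨fun y => ⟨y.1.1, y.1.2.1.1, y.1.2.1.2, y.1.2.2, y.2⟩,
        fun u => ⟨⟨u.1, ⟨u.2.1, u.2.2.1⟩, u.2.2.2.1⟩, u.2.2.2.2⟩,
        fun y => rfl, fun u => rfl⟩
    rw [Finset.sum_congr rfl h1, ← Finset.mul_sum]
    congr 1
    rw [← Finset.sum_fiberwise_of_maps_to (s := (forests n).filter (fun f => p (dl f 0)))
      (t := F.filter p) (g := fun f => dl f 0)]
    · refine Finset.sum_congr rfl fun t ht => ?_
      rw [Finset.mem_filter] at ht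
      refine Finset.sum_congr ?_ fun _ _ => rfl
      ext f
      simp only [Finset.mem_filter]
      constructor
      · rintro ⟨h1, h2⟩; exact ⟨⟨h1, by rw [h2]; exact ht.2⟩, h2⟩
      · rintro ⟨⟨h1, _⟩, h2⟩; exact ⟨h1, h2⟩
    · intro f hf
      rw [Finset.mem_filter] at hf ⊢
      refine ⟨?_, hf.2⟩
      simp only [F, Finset.mem_union, Finset.mem_image]
      exact Or.inr ⟨f, hf.1, rfl⟩
  calc 4 ^ g * Nat.card {x : X // p (mX x)} = 2 * (4 ^ g * Nat.card {z : Z // p (mZ z)}) := by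
        rw [e1, e2]; ring
    _ = _ := by rw [e3]; ring

end HGQ
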