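import Mathlib

/-! # HGQ.EB1 : ballot numbers

`Phi = ∑ 3^n catalan n X^n` satisfies `Phi = 1 + 3 X Phi^2` (`catalan_succ'`), and
`bal k j = coeff k (Phi^j)`. From `Phi^(j+1) = Phi^j + 3 X Phi^(j+2)`:
`bal (k+1) (j+1) = bal (k+1) j + 3 bal k (j+2)`, `bal 0 j = 1`, `bal (k+1) 0 = 0`.
Closed form `(2k+j) bal k j = 3^k j C(2k+j,k)`: induction on `k`, then on `j`. Hence
`(k+1)(k+j+1) bal (k+1) j = 3 (2k+j)(2k+j+1) bal k j` (for `2k+j = 0` both sides are `0`;
it may be easier to prove this ratio via the closed form in `ℚ`).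
-/

namespace HGQ

open PowerSeries

/-- generating function of the labelled plane forests (three increments per edge) -/
noncomputable def Phi : PowerSeries ℕ := PowerSeries.mk fun n => 3 ^ n * catalan n

theorem Phi_eq : Phi = 1 + 3 * X * Phi ^ 2 := by
  ext n
  cases n with
  | zero =>
    simp [Phi, mul_assoc]
  | succ n =>
    have h3 : (3 : PowerSeries ℕ) = C 3 := by simp
    rw [map_add, mul_assoc, h3, coeff_C_mul, coeff_succ_X_mul, pow_two, coeff_mul]
    simp only [Phi, coeff_mk, coeff_one, Nat.succ_ne_zero, if_false, zero_add]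
    rw [catalan_succ', Finset.mul_sum, Finset.mul_sum]
    refine Finset.sum_congr rfl fun x hx => ?_
    rw [← Finset.HasAntidiagonal.mem_antidiagonal.1 hx]
    ring

/-- ballot numbers with weight `3` per edge -/
noncomputable def bal (k j : ℕ) : ℕ := coeff k (Phi ^ j)

private theorem bal_zero_left (j : ℕ) : bal 0 j = 1 := by
  unfold bal
  rw [coeff_zero_eq_constantCoeff_apply, map_pow]
  have : constantCoeff Phi = 1 := by
    rw [← coeff_zero_eq_constantCoeff_apply]
    simp [Phi]
  rw [this, one_pow]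

private theorem bal_succ_zero (k : ℕ) : bal (k + 1) 0 = 0 := by
  unfold bal
  simp [coeff_one]

private theorem bal_rec (k j : ℕ) : bal (k + 1) (j + 1) = bal (k + 1) j + 3 * bal k (j + 2) := by
  unfold bal
  have h3 : (3 : PowerSeries ℕ) = C 3 := by simp
  have e : Phi ^ (j + 1) = Phi ^ j + C 3 * (X * Phi ^ (j + 2)) := by
    calc Phi ^ (j + 1) = Phi ^ j * Phi := pow_succ _ _
      _ = Phi ^ j * (1 + 3 * X * Phi ^ 2) := by rw [← Phi_eq]
      _ = Phi ^ j + C 3 * (X * Phi ^ (j + 2)) := by rw [← h3]; ring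
  rw [e, map_add, coeff_C_mul, coeff_succ_X_mul]

theorem bal_closed (k j : ℕ) : (2 * k + j) * bal k j = 3 ^ k * j * (2 * k + j).choose k := by
  induction k generalizing j with
  | zero => simp [bal_zero_left]
  | succ k ihk =>
    induction j with
    | zero => rw [bal_succ_zero]; simp
    | succ j ihj =>
      have h1 := ihk (j + 2)
      have hc := Nat.choose_succ_right_eq (2 * k + j + 2) k
      have hs : 2 * k + j + 2 - k = k + j + 2 := by omega
      rw [hs] at hc
      have e1 : 2 * (k + 1) + j = 2 * k + j + 2 := by ring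
      have e2 : 2 * k + (j + 2) = 2 * k + j + 2 := by ring
      have e3 : 2 * (k + 1) + (j + 1) = (2 * k + j + 2) + 1 := by ring
      rw [e1] at ihj
      rw [e2] at h1
      rw [e3, Nat.choose_succ_succ' (2 * k + j + 2) k, bal_rec]
      have hpos : 0 < 2 * k + j + 2 := by omega
      refine Nat.eq_of_mul_eq_mul_left hpos ?_
      have hz : ((2 * k + j + 2 : ℕ) : ℤ) * (((2 * k + j + 2 + 1 : ℕ) : ℤ) *
          ((bal (k + 1) j : ℤ) + 3 * (bal k (j + 2) : ℤ))) =
          ((2 * k + j + 2 : ℕ) : ℤ) * (3 ^ (k + 1) * ((j : ℤ) + 1) *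
            (((2 * k + j + 2).choose k : ℤ) + ((2 * k + j + 2).choose (k + 1) : ℤ))) := by
        have a1 : ((2 * k + j + 2 : ℕ) : ℤ) * (bal (k + 1) j : ℤ) =
            3 ^ (k + 1) * (j : ℤ) * ((2 * k + j + 2).choose (k + 1) : ℤ) := by exact_mod_cast ihj
        have a2 : ((2 * k + j + 2 : ℕ) : ℤ) * (bal k (j + 2) : ℤ) =
            3 ^ k * ((j : ℤ) + 2) * ((2 * k + j + 2).choose k : ℤ) := by exact_mod_cast h1
        have a3 : ((2 * k + j + 2).choose (k + 1) : ℤ) * ((k : ℤ) + 1) =
            ((2 * k + j + 2).choose k : ℤ) * ((k : ℤ) + (j : ℤ) + 2) := by exact_mod_cast hc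
        generalize ((2 * k + j + 2).choose (k + 1) : ℤ) = u at *
        generalize ((2 * k + j + 2).choose k : ℤ) = v at *
        generalize (bal (k + 1) j : ℤ) = b at *
        generalize (bal k (j + 2) : ℤ) = c at *
        push_cast at *
        rw [pow_succ] at *
        linear_combination (2 * (k : ℤ) + j + 2 + 1) * a1 + 3 * (2 * (k : ℤ) + j + 2 + 1) * a2
          - 2 * (3 ^ k * 3) * a3
      exact_mod_cast hz

theorem bal_ratio (k j : ℕ) :
    (k + 1) * (k + j + 1) * bal (k + 1) j = 3 * (2 * k + j) * (2 * k + j + 1) * bal k j := by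
  have h1 := bal_closed (k + 1) j
  have h2 := bal_closed k j
  have hpos : 0 < 2 * k + j + 2 := by omega
  have e1 : 2 * (k + 1) + j = 2 * k + j + 2 := by ring
  rw [e1] at h1
  have c1 : (2 * k + j + 2) * (2 * k + j + 1).choose k =
      (2 * k + j + 2).choose (k + 1) * (k + 1) := Nat.add_one_mul_choose_eq (2 * k + j + 1) k
  have c2 : (2 * k + j).choose k * (2 * k + j + 1) = (2 * k + j + 1).choose k * (k + j + 1) := by
    have := Nat.choose_mul_succ_eq (2 * k + j) k
    have e : 2 * k + j + 1 - k = k + j + 1 := by omega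
    rwa [e] at this
  refine Nat.eq_of_mul_eq_mul_left hpos ?_
  calc (2 * k + j + 2) * ((k + 1) * (k + j + 1) * bal (k + 1) j)
      = (k + 1) * (k + j + 1) * ((2 * k + j + 2) * bal (k + 1) j) := by ring
    _ = (k + 1) * (k + j + 1) * (3 ^ (k + 1) * j * (2 * k + j + 2).choose (k + 1)) := by rw [h1]
    _ = (k + j + 1) * 3 ^ (k + 1) * j * ((2 * k + j + 2).choose (k + 1) * (k + 1)) := by ring
    _ = (2 * k + j + 2) * 3 ^ (k + 1) * j * ((2 * k + j + 1).choose k * (k + j + 1)) := by
        rw [← c1]; ring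
    _ = (2 * k + j + 2) * 3 * (2 * k + j + 1) * (3 ^ k * j * (2 * k + j).choose k) := by
        rw [← c2]; ring
    _ = (2 * k + j + 2) * (3 * (2 * k + j) * (2 * k + j + 1) * bal k j) := by rw [← h2]; ring

end HGQ
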