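import Pool.Agent.HGQ.EApi

/-! # HGQ.EB2 : expansion over the non-fixed points

`D w` counts the permutations of `w` points with odd cycles and no fixed point:
`D 0 = 1, D 1 = D 2 = 0, D (w+3) = (w+2)(w+1) X (D (w+1) + D w)`.
* `A_eq_sum_D`: `A m = ∑_{w ≤ m} C(m,w) D w`. Induction on `m`: put `B m = ∑_w C(m,w) D w`; then
  `B (m+1) - B m = ∑_w C(m,w-1) D w = ∑_{w ≥ 2} C(m,w) w (w-1) X (D (w-1) + D (w-2))
  = m (m-1) X ∑_w C(m-2,w-2) (D (w-1) + D (w-2)) = m(m-1) X B (m-1)`
  (since `C(m-2,v) + C(m-2,v-1) = C(m-1,v)`). In index-shifted form: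
  `B (m+2) = B (m+1) + (m+1) m X B m`.
* `D_coeff`: `(D w).coeff g ≠ 0 → (w = 0 ∧ g = 0) ∨ 2 g + 1 ≤ w` (three-step induction).
* `Q z = ∏_c D (count c z)`; `P_eq_sum_Q`: `P s = ∑_{z ∈ powerset s} Q z` (sub-multisets with
  multiplicity). Proof: induction on the set of levels: write `s = t + replicate m c` with
  `c ∉ t`; `powerset (replicate m c)` sums to `∑_w C(m,w)`; both sides are multiplicative.
* `Q_coeff`: `(Q z).coeff g ≠ 0 → g = 0 ∨ 2 g + 1 ≤ card z`.
-/

namespace HGQ

open Polynomial Forest

/-- permutations with odd cycles and without fixed points -/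
noncomputable def D : ℕ → ℕ[X]
  | 0 => 1
  | 1 => 0
  | 2 => 0
  | w + 3 => C ((w + 2) * (w + 1)) * X * (D (w + 1) + D w)

/-- Pascal's rule for sums -/
private theorem EB2_pascal {M : Type*} [AddCommMonoid M] (m : ℕ) (f : ℕ → M) :
    ∑ w ∈ Finset.range (m + 2), (m + 1).choose w • f w
      = ∑ w ∈ Finset.range (m + 1), m.choose w • (f w + f (w + 1)) := by
  have h1 : ∑ w ∈ Finset.range (m + 1), m.choose (w + 1) • f (w + 1) + f 0
      = ∑ w ∈ Finset.range (m + 1), m.choose w • f w := by
    have h2 := Finset.sum_range_succ' (fun w => m.choose w • f w) (m + 1)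
    rw [Finset.sum_range_succ, Nat.choose_succ_self, zero_smul, add_zero] at h2
    rw [h2]; simp
  rw [Finset.sum_range_succ']
  simp only [Nat.choose_succ_succ, add_smul, Finset.sum_add_distrib, smul_add, Nat.choose_zero_right,
    one_smul]
  rw [← h1]
  abel

private theorem EB2_choose (k u : ℕ) :
    (k + 2).choose (u + 2) * ((u + 2) * (u + 1)) = (k + 2) * (k + 1) * k.choose u := by
  have h1 := Nat.add_one_mul_choose_eq (k + 1) (u + 1)
  have h2 := Nat.add_one_mul_choose_eq k u
  calc (k + 2).choose (u + 2) * ((u + 2) * (u + 1))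
      = ((k + 1 + 1).choose (u + 1 + 1) * (u + 1 + 1)) * (u + 1) := by ring
    _ = (k + 2) * ((k + 1).choose (u + 1) * (u + 1)) := by rw [← h1]; ring
    _ = (k + 2) * (k + 1) * k.choose u := by rw [← h2]; ring

private theorem EB2_C (n : ℕ) : (C n : ℕ[X]) = (n : ℕ[X]) := by
  have h := Polynomial.C_eq_natCast (R := ℕ) n
  rwa [Nat.cast_id] at h

private noncomputable def EB2_B (m : ℕ) : ℕ[X] := ∑ w ∈ Finset.range (m + 1), m.choose w • D w

private theorem EB2_D_three (w : ℕ) :
    D (w + 3) = C ((w + 2) * (w + 1)) * X * (D (w + 1) + D w) := by rw [D]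

private theorem EB2_B_succ (m : ℕ) :
    EB2_B (m + 1) = ∑ w ∈ Finset.range (m + 1), m.choose w • (D w + D (w + 1)) :=
  EB2_pascal m D

private theorem EB2_B_add_two (m : ℕ) :
    EB2_B (m + 2) = EB2_B (m + 1) + C ((m + 1) * m) * X * EB2_B m := by
  rw [EB2_B_succ (m + 1)]
  simp only [smul_add, Finset.sum_add_distrib]
  congr 1
  cases m with
  | zero => simp [Finset.sum_range_succ, D]
  | succ k =>
    rw [Finset.sum_range_succ', Finset.sum_range_succ', EB2_B_succ k, Finset.mul_sum]
    have e1 : D (0 + 1 + 1) = 0 := by simp [D]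
    have e2 : D (0 + 1) = 0 := by simp [D]
    rw [e1, e2, smul_zero, smul_zero, add_zero, add_zero]
    refine Finset.sum_congr rfl fun u _ => ?_
    rw [EB2_D_three u, nsmul_eq_mul, nsmul_eq_mul]
    rw [← EB2_C, ← EB2_C]
    calc C ((k + 1 + 1).choose (u + 1 + 1)) * (C ((u + 2) * (u + 1)) * X * (D (u + 1) + D u))
        = C ((k + 2).choose (u + 2) * ((u + 2) * (u + 1))) * (X * (D (u + 1) + D u)) := by
          rw [C_mul (a := (k + 2).choose (u + 2)) (b := (u + 2) * (u + 1))]; ring
      _ = C ((k + 1 + 1) * (k + 1) * k.choose u) * (X * (D (u + 1) + D u)) := by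
          rw [EB2_choose]
      _ = C ((k + 1 + 1) * (k + 1)) * X * (C (k.choose u) * (D u + D (u + 1))) := by
          rw [C_mul (a := (k + 1 + 1) * (k + 1)) (b := k.choose u)]; ring

theorem A_eq_sum_D (m : ℕ) : A m = ∑ w ∈ Finset.range (m + 1), C (m.choose w) * D w := by
  have key : A m = EB2_B m := by
    induction m using Nat.twoStepInduction with
    | zero => simp [A_zero, EB2_B, D]
    | one => simp [A_one, EB2_B, D, Finset.sum_range_succ]
    | more m ih1 ih2 => rw [A_add_two, EB2_B_add_two, ih1, ih2]
  rw [key, EB2_B]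
  refine Finset.sum_congr rfl fun w _ => ?_
  rw [nsmul_eq_mul, EB2_C]

/-- `∏_c D (count c z)` -/
noncomputable def Q (z : Multiset ℤ) : ℕ[X] := ∏ c ∈ z.toFinset, D (z.count c)

private theorem EB2_powerset_replicate (c : ℤ) (t : Multiset ℤ) (m : ℕ) :
    ∀ f : Multiset ℤ → ℕ[X], (((t + Multiset.replicate m c).powerset).map f).sum
      = ∑ w ∈ Finset.range (m + 1), m.choose w •
          (t.powerset.map (fun z => f (z + Multiset.replicate w c))).sum := by
  induction m with
  | zero => intro f; simp
  | succ m ih =>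
    intro f
    rw [Multiset.replicate_succ, Multiset.add_cons, Multiset.powerset_cons, Multiset.map_add,
      Multiset.sum_add, Multiset.map_map, ih f, ih (f ∘ Multiset.cons c), EB2_pascal]
    simp only [smul_add, Finset.sum_add_distrib]
    congr 1
    refine Finset.sum_congr rfl fun w _ => ?_
    congr 2
    refine Multiset.map_congr rfl fun z _ => ?_
    simp [Multiset.replicate_succ, Multiset.add_cons]

private theorem EB2_Q_eq_prod (z : Multiset ℤ) (T : Finset ℤ) (h : z.toFinset ⊆ T) :
    Q z = ∏ c ∈ T, D (z.count c) := by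
  unfold Q
  refine Finset.prod_subset h fun c _ hc => ?_
  rw [Multiset.mem_toFinset] at hc
  rw [Multiset.count_eq_zero_of_notMem hc, D]

private theorem EB2_Q_add (z : Multiset ℤ) (c : ℤ) (w : ℕ) (h : c ∉ z) :
    Q (z + Multiset.replicate w c) = Q z * D w := by
  classical
  have hc : c ∉ z.toFinset := by rwa [Multiset.mem_toFinset]
  rw [EB2_Q_eq_prod (z + Multiset.replicate w c) (insert c z.toFinset), Finset.prod_insert hc,
    mul_comm]
  · congr 1
    · unfold Q
      refine Finset.prod_congr rfl fun x hx => ?_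
      have hxc : x ≠ c := fun e => hc (e ▸ hx)
      rw [Multiset.count_add, Multiset.count_replicate, if_neg (fun e => hxc e.symm), add_zero]
    · rw [Multiset.count_add, Multiset.count_eq_zero_of_notMem h, Multiset.count_replicate_self,
        zero_add]
  · intro x hx
    rw [Multiset.mem_toFinset, Multiset.mem_add] at hx
    rw [Finset.mem_insert, Multiset.mem_toFinset]
    rcases hx with hx | hx
    · exact Or.inr hx
    · exact Or.inl (Multiset.eq_of_mem_replicate hx)

theorem P_eq_sum_Q (s : Multiset ℤ) : P s = (s.powerset.map Q).sum := by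
  classical
  induction hn : s.card using Nat.strong_induction_on generalizing s with
  | _ n ih =>
    rcases s.empty_or_exists_mem with rfl | ⟨c, hc⟩
    · simp [P_zero, Q]
    · obtain ⟨t, ht⟩ : ∃ t, t = s.filter (fun x => ¬ c = x) := ⟨_, rfl⟩
      have hs : s = t + Multiset.replicate (s.count c) c := by
        conv_lhs => rw [← Multiset.filter_add_not (fun x => c = x) s]
        rw [Multiset.filter_eq, ht, add_comm]
      have hct : c ∉ t := by rw [ht]; simp
      have hlt : t.card < n := by
        rw [← hn]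
        conv_rhs => rw [hs]
        rw [Multiset.card_add, Multiset.card_replicate]
        have := Multiset.count_pos.2 hc
        omega
      have iht := ih t.card hlt t rfl
      rw [hs]
      generalize s.count c = m
      rw [P_add_of_disjoint, P_replicate, EB2_powerset_replicate, A_eq_sum_D, iht, Finset.mul_sum]
      · refine Finset.sum_congr rfl fun w _ => ?_
        have e : (t.powerset.map (fun z => Q (z + Multiset.replicate w c)))
            = t.powerset.map (fun z => Q z * D w) := by
          refine Multiset.map_congr rfl fun z hz => ?_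
          exact EB2_Q_add z c w fun hcz => hct (Multiset.mem_of_le (Multiset.mem_powerset.1 hz) hcz)
        rw [e, Multiset.sum_map_mul_right, nsmul_eq_mul, EB2_C]
        ring
      · intro x hx hx'
        exact hct (Multiset.eq_of_mem_replicate hx' ▸ hx)

private theorem EB2_D_coeff (w : ℕ) :
    ∀ g : ℕ, (D w).coeff g ≠ 0 → (w = 0 ∧ g = 0) ∨ 2 * g + 1 ≤ w := by
  induction w using Nat.strong_induction_on with
  | _ w ih =>
    intro g h
    rcases w with _ | _ | _ | w
    · left
      refine ⟨rfl, ?_⟩
      by_contra hg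
      apply h
      simp [D, coeff_one, hg]
    · exfalso; apply h; simp [D]
    · exfalso; apply h; simp [D]
    · right
      rw [EB2_D_three, mul_assoc, coeff_C_mul] at h
      rcases g with _ | g
      · exfalso; apply h; simp
      · rw [coeff_X_mul, coeff_add] at h
        have h' : (D (w + 1)).coeff g ≠ 0 ∨ (D w).coeff g ≠ 0 := by
          by_contra hcon
          push Not at hcon
          apply h
          rw [hcon.1, hcon.2]; simp
        rcases h' with h' | h'
        · rcases ih (w + 1) (by omega) g h' with h2 | h2 <;> omega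
        · rcases ih w (by omega) g h' with h2 | h2 <;> omega

private theorem EB2_prod_coeff (T : Finset ℤ) (n : ℤ → ℕ) :
    ∀ g : ℕ, (∏ c ∈ T, D (n c)).coeff g ≠ 0 → g = 0 ∨ 2 * g + 1 ≤ ∑ c ∈ T, n c := by
  classical
  induction T using Finset.induction_on with
  | empty =>
    intro g h
    left
    by_contra hg
    apply h
    simp [coeff_one, hg]
  | insert a T ha ih =>
    intro g h
    rw [Finset.prod_insert ha, coeff_mul] at h
    obtain ⟨⟨i, j⟩, hij, h1⟩ := Finset.exists_ne_zero_of_sum_ne_zero h
    have hij' : i + j = g := by simpa using hij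
    simp only at h1
    have hi := EB2_D_coeff (n a) i (left_ne_zero_of_mul h1)
    have hj := ih j (right_ne_zero_of_mul h1)
    rw [Finset.sum_insert ha]
    omega

theorem Q_coeff (z : Multiset ℤ) (g : ℕ) (h : (Q z).coeff g ≠ 0) : g = 0 ∨ 2 * g + 1 ≤ z.card := by
  have h1 := EB2_prod_coeff z.toFinset (fun c => z.count c) g h
  rwa [Multiset.toFinset_sum_count_eq] at h1

end HGQ
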