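import Pool.Agent.HGQ.EApi
import Pool.Agent.HGQ.EB1

/-! # HGQ.EB3 : pruning

For a function `Ψ` of a multiset of labels put `T_n = ∑_{f ∈ forests n} ∑_{z ∈ powerset (tl f)} Ψ z`.
Claim: there is `κ : ℕ → ℕ` (depending on `Ψ` only, not on `n`) with
`T_n = ∑_{e ≤ n} κ e * bal (n - e) (2 e + 1)` for all `n`, and `κ e ≠ 0` only if there is `z` with `Ψ z ≠ 0`
and `card z ≤ e + 1`.

Proof. Marked forests: `MF = nil | cons d b c r` (`b : Bool` says that the child vertex is marked);
`marks h x` = labels of the marked non-root vertices. By induction on `f`, the marked forests over `f`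
give the sub-multisets of `vl f x`: `∑_{h over f} Ψ (marks h x + y) = ∑_{z ∈ powerset (vl f x)} Ψ (z + y)`; the mark of
the root gives the two terms of `powerset (0 ::ₘ s)`. Pruning (remove the maximal subtrees without
marks): `prune nil = nil`, `prune (cons d b c r) = if b = false ∧ prune c = nil then prune r else
cons d b (prune c) (prune r)`. It preserves `marks` and its image is the set of skeletons
(`cons d b c r` with `b = true ∨ c ≠ nil` everywhere). The generating function
`Φ_s = ∑_n #{h : edges h = n, prune h = s} X^n` satisfies `Φ_nil = 1 + 3 X Φ_nil^2`,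
so `Φ_nil = Phi` (coefficients are determined recursively), and for a skeleton `s = cons d b c r`:
`Φ_s = 3 X Φ_nil Φ_s + X Φ_c Φ_r`; as `Phi (1 - 3 X Phi) = 1` this gives `Φ_s = X Phi Φ_c Φ_r`, hence
`Φ_s = X^e Phi^(2e+1)` with `e = edges s`. So the fibre of `prune` over a skeleton with `e` edges has
`bal (n-e) (2e+1)` elements with `n` edges. `κ e = ∑_{s skeleton, edges s = e} (Ψ (marks s 0) + Ψ (0 ::ₘ marks s 0))`,
and `card (marks s) ≤ e`.
(It is fine to organise the induction differently, e.g. directly with power series in `X`.)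
-/

namespace HGQ

open Forest

/-! ### ballot numbers -/

private theorem eb3_bal_zero (j : ℕ) : bal 0 j = 1 := by
  unfold bal
  rw [PowerSeries.coeff_zero_eq_constantCoeff_apply, map_pow]
  simp [Phi, ← PowerSeries.coeff_zero_eq_constantCoeff_apply]

private theorem eb3_bal_succ_zero (k : ℕ) : bal (k + 1) 0 = 0 := by
  unfold bal
  rw [pow_zero, PowerSeries.coeff_one, if_neg (by omega)]

private theorem eb3_bal_succ_succ (k j : ℕ) :
    bal (k + 1) (j + 1) = bal (k + 1) j + 3 * bal k (j + 2) := by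
  unfold bal
  have h : Phi ^ (j + 1) = Phi ^ j + PowerSeries.X * (3 * Phi ^ (j + 2)) := by
    calc Phi ^ (j + 1) = Phi ^ j * Phi := pow_succ _ _
      _ = Phi ^ j * (1 + 3 * PowerSeries.X * Phi ^ 2) := by rw [← Phi_eq]
      _ = Phi ^ j + PowerSeries.X * (3 * Phi ^ (j + 2)) := by ring
  rw [h, map_add, PowerSeries.coeff_succ_X_mul]
  congr 1
  have h3 : (3 : PowerSeries ℕ) = PowerSeries.C 3 := by simp
  rw [h3, PowerSeries.coeff_C_mul]

private theorem eb3_bal_conv (m a b : ℕ) :
    ∑ p ∈ Finset.HasAntidiagonal.antidiagonal m, bal p.1 a * bal p.2 b = bal m (a + b) := by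
  unfold bal
  rw [pow_add, PowerSeries.coeff_mul]

/-! ### sums over four numbers -/

private theorem eb3_quad {M : Type*} [AddCommMonoid M] (n : ℕ) (f : ℕ → ℕ → ℕ → ℕ → M) :
    ∑ p ∈ Finset.HasAntidiagonal.antidiagonal n, ∑ q ∈ Finset.HasAntidiagonal.antidiagonal p.1,
      ∑ r ∈ Finset.HasAntidiagonal.antidiagonal p.2, f q.1 q.2 r.1 r.2 =
    ∑ p ∈ Finset.HasAntidiagonal.antidiagonal n, ∑ q ∈ Finset.HasAntidiagonal.antidiagonal p.1,
      ∑ r ∈ Finset.HasAntidiagonal.antidiagonal p.2, f q.1 r.1 q.2 r.2 := by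
  have h1 : ∀ g : ℕ × ℕ → ℕ × ℕ → M,
      ∑ p ∈ Finset.HasAntidiagonal.antidiagonal n, ∑ q ∈ Finset.HasAntidiagonal.antidiagonal p.1,
        ∑ r ∈ Finset.HasAntidiagonal.antidiagonal p.2, g q r =
      ∑ x ∈ (Finset.HasAntidiagonal.antidiagonal n).sigma fun p =>
        Finset.HasAntidiagonal.antidiagonal p.1 ×ˢ Finset.HasAntidiagonal.antidiagonal p.2,
        g x.2.1 x.2.2 := by
    intro g
    rw [Finset.sum_sigma]
    refine Finset.sum_congr rfl fun p _ => ?_
    rw [Finset.sum_product]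
  rw [h1 (fun q r => f q.1 q.2 r.1 r.2), h1 (fun q r => f q.1 r.1 q.2 r.2)]
  refine Finset.sum_bij'
    (fun x _ => ⟨(x.2.1.1 + x.2.2.1, x.2.1.2 + x.2.2.2), ((x.2.1.1, x.2.2.1), (x.2.1.2, x.2.2.2))⟩)
    (fun x _ => ⟨(x.2.1.1 + x.2.2.1, x.2.1.2 + x.2.2.2), ((x.2.1.1, x.2.2.1), (x.2.1.2, x.2.2.2))⟩)
    ?_ ?_ ?_ ?_ ?_
  · rintro ⟨⟨i, j⟩, ⟨a, b⟩, ⟨c, d⟩⟩ h
    simp only [Finset.mem_sigma, Finset.mem_product, Finset.HasAntidiagonal.mem_antidiagonal] at h ⊢
    exact ⟨by omega, trivial, trivial⟩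
  · rintro ⟨⟨i, j⟩, ⟨a, b⟩, ⟨c, d⟩⟩ h
    simp only [Finset.mem_sigma, Finset.mem_product, Finset.HasAntidiagonal.mem_antidiagonal] at h ⊢
    exact ⟨by omega, trivial, trivial⟩
  · rintro ⟨⟨i, j⟩, ⟨a, b⟩, ⟨c, d⟩⟩ h
    simp only [Finset.mem_sigma, Finset.mem_product, Finset.HasAntidiagonal.mem_antidiagonal] at h
    obtain ⟨_, h2, h3⟩ := h
    subst h2
    subst h3
    rfl
  · rintro ⟨⟨i, j⟩, ⟨a, b⟩, ⟨c, d⟩⟩ h
    simp only [Finset.mem_sigma, Finset.mem_product, Finset.HasAntidiagonal.mem_antidiagonal] at h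
    obtain ⟨_, h2, h3⟩ := h
    subst h2
    subst h3
    rfl
  · rintro ⟨⟨i, j⟩, ⟨a, b⟩, ⟨c, d⟩⟩ _
    rfl

section
variable {K : Type*} [CommSemiring K]

/-- the transform of a sequence: `∑ a e X^e Phi^(2e+1)` -/
private noncomputable def eb3U (a : ℕ → K) (n : ℕ) : K :=
  ∑ p ∈ Finset.HasAntidiagonal.antidiagonal n, a p.1 * (bal p.2 (2 * p.1 + 1) : K)

private theorem eb3U_mul (a a' : ℕ → K) (n : ℕ) :
    ∑ p ∈ Finset.HasAntidiagonal.antidiagonal n, eb3U a p.1 * eb3U a' p.2 =
    ∑ p ∈ Finset.HasAntidiagonal.antidiagonal n,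
      (∑ q ∈ Finset.HasAntidiagonal.antidiagonal p.1, a q.1 * a' q.2) *
        (bal p.2 (2 * p.1 + 2) : K) := by
  have h1 : ∑ p ∈ Finset.HasAntidiagonal.antidiagonal n, eb3U a p.1 * eb3U a' p.2 =
      ∑ p ∈ Finset.HasAntidiagonal.antidiagonal n, ∑ q ∈ Finset.HasAntidiagonal.antidiagonal p.1,
        ∑ r ∈ Finset.HasAntidiagonal.antidiagonal p.2,
          a q.1 * (bal q.2 (2 * q.1 + 1) : K) * (a' r.1 * (bal r.2 (2 * r.1 + 1) : K)) := by
    refine Finset.sum_congr rfl fun p _ => ?_
    unfold eb3U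
    rw [Finset.sum_mul_sum]
  rw [h1, eb3_quad n fun e k e' k' => a e * (bal k (2 * e + 1) : K) * (a' e' * (bal k' (2 * e' + 1) : K))]
  refine Finset.sum_congr rfl fun p _ => ?_
  rw [Finset.sum_mul]
  refine Finset.sum_congr rfl fun q hq => ?_
  rw [Finset.HasAntidiagonal.mem_antidiagonal] at hq
  have h2 : (bal p.2 (2 * p.1 + 2) : K) = ∑ r ∈ Finset.HasAntidiagonal.antidiagonal p.2,
      (bal r.1 (2 * q.1 + 1) : K) * (bal r.2 (2 * q.2 + 1) : K) := by
    have h3 : 2 * p.1 + 2 = (2 * q.1 + 1) + (2 * q.2 + 1) := by omega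
    rw [h3, ← eb3_bal_conv]
    push_cast
    rfl
  rw [h2, Finset.mul_sum]
  refine Finset.sum_congr rfl fun r _ => ?_
  ring

private theorem eb3U_zero (a : ℕ → K) : eb3U a 0 = a 0 := by
  unfold eb3U
  rw [Finset.Nat.antidiagonal_zero, Finset.sum_singleton, eb3_bal_zero]
  simp

private theorem eb3U_succ (a : ℕ → K) (n : ℕ) :
    eb3U a (n + 1) = ∑ p ∈ Finset.HasAntidiagonal.antidiagonal n,
      (a (p.1 + 1) + 3 * a p.1) * (bal p.2 (2 * p.1 + 2) : K) := by
  have h1 : eb3U a (n + 1) = (∑ p ∈ Finset.HasAntidiagonal.antidiagonal (n + 1),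
      a p.1 * (bal p.2 (2 * p.1) : K)) + ∑ p ∈ Finset.HasAntidiagonal.antidiagonal n,
        3 * a p.1 * (bal p.2 (2 * p.1 + 2) : K) := by
    unfold eb3U
    rw [Finset.Nat.sum_antidiagonal_succ', Finset.Nat.sum_antidiagonal_succ', eb3_bal_zero,
      eb3_bal_zero, add_assoc, ← Finset.sum_add_distrib]
    congr 1
    refine Finset.sum_congr rfl fun p _ => ?_
    rw [eb3_bal_succ_succ]
    push_cast
    ring
  rw [h1, Finset.Nat.sum_antidiagonal_succ]
  simp only [mul_zero, eb3_bal_succ_zero, Nat.cast_zero, zero_add]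
  rw [← Finset.sum_add_distrib]
  refine Finset.sum_congr rfl fun p _ => ?_
  have h2 : 2 * (p.1 + 1) = 2 * p.1 + 2 := by ring
  rw [h2]
  ring

end

/-! ### the algebra of multisets -/

/-- the monoid algebra of the multisets of labels -/
private abbrev EK : Type := AddMonoidAlgebra ℕ (Multiset ℤ)

/-- the basis element of a multiset -/
private noncomputable def eT (z : Multiset ℤ) : EK := AddMonoidAlgebra.single z 1

private theorem eT_add (z y : Multiset ℤ) : eT (z + y) = eT z * eT y := by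
  unfold eT
  rw [AddMonoidAlgebra.single_mul_single, one_mul]

private theorem eT_zero : eT 0 = 1 := by
  unfold eT
  rw [AddMonoidAlgebra.one_def]

/-- the linear functional attached to `Ψ` -/
private noncomputable def ePsi (Ψ : Multiset ℤ → ℕ) : EK →+ ℕ :=
  (Finsupp.liftAddHom fun z => AddMonoidHom.mulRight (Ψ z)).comp
    (AddMonoidAlgebra.coeffAddEquiv : EK ≃+ (Multiset ℤ →₀ ℕ)).toAddMonoidHom

private theorem ePsi_eT (Ψ : Multiset ℤ → ℕ) (z : Multiset ℤ) : ePsi Ψ (eT z) = Ψ z := by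
  unfold ePsi eT
  simp [AddMonoidAlgebra.coeffAddEquiv]

/-- elements of degree at most `m` -/
private noncomputable def eD (m : ℕ) : AddSubmonoid EK :=
  AddSubmonoid.closure {k | ∃ z : Multiset ℤ, z.card ≤ m ∧ k = eT z}

private theorem eD_mono {m m' : ℕ} (h : m ≤ m') : eD m ≤ eD m' :=
  AddSubmonoid.closure_mono fun _ ⟨z, hz, hk⟩ => ⟨z, hz.trans h, hk⟩

private theorem eT_mem_eD {z : Multiset ℤ} {m : ℕ} (h : z.card ≤ m) : eT z ∈ eD m :=
  AddSubmonoid.subset_closure ⟨z, h, rfl⟩

private theorem one_mem_eD (m : ℕ) : (1 : EK) ∈ eD m := by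
  rw [← eT_zero]
  exact eT_mem_eD (by simp)

private theorem mul_mem_eD {a b : EK} {m m' : ℕ} (ha : a ∈ eD m) (hb : b ∈ eD m') :
    a * b ∈ eD (m + m') := by
  refine AddSubmonoid.closure_induction (motive := fun a _ => a * b ∈ eD (m + m')) ?_ ?_ ?_ ha
  · rintro _ ⟨z, hz, rfl⟩
    refine AddSubmonoid.closure_induction (motive := fun b _ => eT z * b ∈ eD (m + m')) ?_ ?_ ?_ hb
    · rintro _ ⟨y, hy, rfl⟩
      rw [← eT_add]
      refine eT_mem_eD ?_
      rw [Multiset.card_add]
      omega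
    · rw [mul_zero]
      exact (eD _).zero_mem
    · intro x y _ _ hx hy
      rw [mul_add]
      exact (eD _).add_mem hx hy
  · rw [zero_mul]
    exact (eD _).zero_mem
  · intro x y _ _ hx hy
    rw [add_mul]
    exact (eD _).add_mem hx hy

private theorem ePsi_ne_zero {Ψ : Multiset ℤ → ℕ} {k : EK} {m : ℕ} (hk : k ∈ eD m)
    (h : ePsi Ψ k ≠ 0) : ∃ z : Multiset ℤ, Ψ z ≠ 0 ∧ z.card ≤ m := by
  by_contra hc
  push Not at hc
  apply h
  refine AddSubmonoid.closure_induction (motive := fun k _ => ePsi Ψ k = 0) ?_ ?_ ?_ hk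
  · rintro _ ⟨z, hz, rfl⟩
    rw [ePsi_eT]
    by_contra hne
    have := hc z hne
    omega
  · rw [map_zero]
  · intro x y _ _ hx hy
    rw [map_add, hx, hy]

/-- the generating element of the sub-multisets -/
private theorem powerset_eT (s : Multiset ℤ) :
    (s.map fun i => 1 + eT {i}).prod = (s.powerset.map eT).sum := by
  induction s using Multiset.induction_on with
  | empty => simp [eT_zero]
  | cons a s ih =>
    rw [Multiset.map_cons, Multiset.prod_cons, ih, Multiset.powerset_cons, Multiset.map_add,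
      Multiset.sum_add, add_mul, one_mul, Multiset.map_map, ← Multiset.sum_map_mul_left]
    congr 2
    refine Multiset.map_congr rfl fun z _ => ?_
    rw [Function.comp_apply, ← eT_add, Multiset.singleton_add]

/-- the generating element of the marked forests over `f` -/
private noncomputable def eE (f : Forest) (x : ℤ) : EK := ((vl f x).map fun i => 1 + eT {i}).prod

private theorem eE_cons (d : Fin 3) (c r : Forest) (x : ℤ) :
    eE (cons d c r) x = (1 + eT {x + inc d}) * (eE c (x + inc d) * eE r x) := by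
  unfold eE
  rw [vl, Multiset.map_cons, Multiset.prod_cons, Multiset.map_add, Multiset.prod_add]

/-- the generating element of the marked forests with `n` edges -/
private noncomputable def eG (x : ℤ) (n : ℕ) : EK := ∑ f ∈ forests n, eE f x

private theorem eG_zero (x : ℤ) : eG x 0 = 1 := by
  unfold eG
  rw [sum_forests_zero]
  simp [eE, vl]

private theorem eG_succ (x : ℤ) (n : ℕ) :
    eG x (n + 1) = ∑ d : Fin 3, (1 + eT {x + inc d}) *
      ∑ p ∈ Finset.HasAntidiagonal.antidiagonal n, eG (x + inc d) p.1 * eG x p.2 := by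
  unfold eG
  rw [sum_forests_succ, Finset.sum_comm]
  refine Finset.sum_congr rfl fun d _ => ?_
  rw [Finset.mul_sum]
  refine Finset.sum_congr rfl fun p _ => ?_
  rw [Finset.sum_mul_sum, Finset.mul_sum]
  refine Finset.sum_congr rfl fun c _ => ?_
  rw [Finset.mul_sum]
  refine Finset.sum_congr rfl fun r _ => ?_
  rw [eE_cons]

/-- the generating element of the skeletons with `e` edges -/
private noncomputable def eH : ℕ → ℤ → EK
  | 0, _ => 1
  | e + 1, x => ∑ p : Fin (e + 1), ∑ d : Fin 3,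
      (eT {x + inc d} * eH p (x + inc d) + if (p : ℕ) = 0 then 0 else eH p (x + inc d)) *
        eH (e - p) x
  decreasing_by
    all_goals omega

private theorem eH_zero (x : ℤ) : eH 0 x = 1 := by
  rw [eH]

private theorem eH_succ (e : ℕ) (x : ℤ) :
    eH (e + 1) x + 3 * eH e x = ∑ d : Fin 3, (1 + eT {x + inc d}) *
      ∑ q ∈ Finset.HasAntidiagonal.antidiagonal e, eH q.1 (x + inc d) * eH q.2 x := by
  have h1 : eH (e + 1) x = ∑ d : Fin 3, ∑ q ∈ Finset.HasAntidiagonal.antidiagonal e,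
      (eT {x + inc d} * eH q.1 (x + inc d) + if q.1 = 0 then 0 else eH q.1 (x + inc d)) *
        eH q.2 x := by
    rw [eH, Finset.sum_comm]
    refine Finset.sum_congr rfl fun d _ => ?_
    rw [Finset.Nat.sum_antidiagonal_eq_sum_range_succ_mk, ← Fin.sum_univ_eq_sum_range
      (fun p => (eT {x + inc d} * eH p (x + inc d) + if p = 0 then 0 else eH p (x + inc d)) *
        eH (e - p) x)]
  have h2 : 3 * eH e x = ∑ d : Fin 3, ∑ q ∈ Finset.HasAntidiagonal.antidiagonal e,
      (if q.1 = 0 then eH q.1 (x + inc d) else 0) * eH q.2 x := by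
    have h3 : ∀ d : Fin 3, ∑ q ∈ Finset.HasAntidiagonal.antidiagonal e,
        (if q.1 = 0 then eH q.1 (x + inc d) else 0) * eH q.2 x = eH e x := by
      intro d
      rw [Finset.sum_eq_single (0, e)]
      · rw [if_pos rfl, eH_zero, one_mul]
      · rintro ⟨a, b⟩ hab hne
        rw [Finset.HasAntidiagonal.mem_antidiagonal] at hab
        rw [if_neg, zero_mul]
        intro h0
        apply hne
        simp only at h0 hab
        rw [h0, zero_add] at hab
        rw [h0, hab]
      · intro h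
        exact absurd (Finset.HasAntidiagonal.mem_antidiagonal.2 (zero_add e)) h
    rw [Finset.sum_congr rfl fun d _ => h3 d, Finset.sum_const, Finset.card_univ, Fintype.card_fin,
      nsmul_eq_mul]
    norm_num
  rw [h1, h2, ← Finset.sum_add_distrib]
  refine Finset.sum_congr rfl fun d _ => ?_
  rw [← Finset.sum_add_distrib, Finset.mul_sum]
  refine Finset.sum_congr rfl fun q _ => ?_
  split_ifs <;> ring

private theorem eH_mem (e : ℕ) : ∀ x, eH e x ∈ eD e := by
  induction e using Nat.strong_induction_on with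
  | _ e ih =>
    intro x
    cases e with
    | zero =>
      rw [eH_zero]
      exact one_mem_eD _
    | succ e =>
      rw [eH]
      refine AddSubmonoid.sum_mem _ fun p _ => AddSubmonoid.sum_mem _ fun d _ => ?_
      have hp := p.2
      have h1 : eH p (x + inc d) ∈ eD (p : ℕ) := ih p p.2 _
      have h2 : eH (e - p) x ∈ eD (e - p) := ih (e - p) (by omega) _
      have h3 : (eT {x + inc d} * eH p (x + inc d) +
          if (p : ℕ) = 0 then 0 else eH p (x + inc d)) ∈ eD (p + 1) := by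
        refine (eD _).add_mem ?_ ?_
        · rw [add_comm (p : ℕ) 1]
          exact mul_mem_eD (eT_mem_eD (by simp)) h1
        · split_ifs
          · exact (eD _).zero_mem
          · exact eD_mono (by omega) h1
      exact eD_mono (by omega) (mul_mem_eD h3 h2)

private theorem eG_eq (n : ℕ) : ∀ x, eG x n = eb3U (fun e => eH e x) n := by
  induction n using Nat.strong_induction_on with
  | _ n ih =>
    intro x
    cases n with
    | zero => rw [eG_zero, eb3U_zero, eH_zero]
    | succ n =>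
      rw [eG_succ, eb3U_succ]
      have h1 : ∀ p : ℕ × ℕ, (eH (p.1 + 1) x + 3 * eH p.1 x) * (bal p.2 (2 * p.1 + 2) : EK) =
          ∑ d : Fin 3, (1 + eT {x + inc d}) *
            ((∑ q ∈ Finset.HasAntidiagonal.antidiagonal p.1, eH q.1 (x + inc d) * eH q.2 x) *
              (bal p.2 (2 * p.1 + 2) : EK)) := by
        intro p
        rw [eH_succ, Finset.sum_mul]
        refine Finset.sum_congr rfl fun d _ => ?_
        ring
      rw [Finset.sum_congr rfl fun p _ => h1 p, Finset.sum_comm]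
      refine Finset.sum_congr rfl fun d _ => ?_
      rw [← Finset.mul_sum]
      congr 1
      rw [← eb3U_mul (fun e => eH e (x + inc d)) (fun e => eH e x)]
      refine Finset.sum_congr rfl fun p hp => ?_
      rw [Finset.HasAntidiagonal.mem_antidiagonal] at hp
      rw [ih p.1 (by omega), ih p.2 (by omega)]

theorem prune_sum (Ψ : Multiset ℤ → ℕ) : ∃ κ : ℕ → ℕ,
    (∀ n, ∑ f ∈ forests n, ((tl f).powerset.map Ψ).sum
      = ∑ e ∈ Finset.range (n + 1), κ e * bal (n - e) (2 * e + 1)) ∧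
    ∀ e, κ e ≠ 0 → ∃ z, Ψ z ≠ 0 ∧ z.card ≤ e + 1 := by
  refine ⟨fun e => ePsi Ψ ((1 + eT {0}) * eH e 0), fun n => ?_, fun e he => ?_⟩
  · have h1 : ∀ f : Forest, ((tl f).powerset.map Ψ).sum = ePsi Ψ ((1 + eT {0}) * eE f 0) := by
      intro f
      have h2 : (1 + eT {0}) * eE f 0 = ((tl f).map fun i => 1 + eT {i}).prod := by
        rw [tl, Multiset.map_cons, Multiset.prod_cons]
        rfl
      rw [h2, powerset_eT, map_multiset_sum, Multiset.map_map]
      congr 1
      refine Multiset.map_congr rfl fun z _ => ?_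
      rw [Function.comp_apply, ePsi_eT]
    rw [Finset.sum_congr rfl fun f _ => h1 f, ← map_sum, ← Finset.mul_sum]
    have h3 : ∑ f ∈ forests n, eE f 0 = eG 0 n := rfl
    rw [h3, eG_eq n 0, eb3U, Finset.Nat.sum_antidiagonal_eq_sum_range_succ_mk, Finset.mul_sum,
      map_sum]
    refine Finset.sum_congr rfl fun e _ => ?_
    rw [← mul_assoc, mul_comm _ ((bal (n - e) (2 * e + 1) : ℕ) : EK), ← nsmul_eq_mul, map_nsmul,
      smul_eq_mul, mul_comm]
  · refine ePsi_ne_zero ?_ he
    rw [add_comm e 1]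
    refine mul_mem_eD ((eD _).add_mem (one_mem_eD _) (eT_mem_eD (by simp))) (eH_mem e 0)

end HGQ
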