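import Pool.Agent.HGQ.EApi
import Pool.Agent.HGQ.EB1
import Pool.Agent.HGQ.EB2
import Pool.Agent.HGQ.EB3

/-! # HGQ.EB4 : growth when an edge is added (E1)

`S_expand`: from `W_eq`, `P_eq_sum_Q` and `prune_sum` with `Ψ z = (Q z).coeff g` (`g ≥ 1`):
`S n g = ∑_{e ≤ n} κ e * bal (n-e) (2e+1)` with `κ e ≠ 0 → 2 g ≤ e` (`Q_coeff`).

`growth1`: with `k = n - e`, `j = 2e+1`: `2k+j = 2n+1`, `(k+1)(k+j+1) = (n+1-e)(n+e+2) = (n+1)(n+2) - e(e+1)`,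
so `bal (n+1-e) (2e+1) = 3 (2n+1)(2n+2) / ((n+1)(n+2) - e(e+1)) * bal (n-e) (2e+1)` and for `e ≥ 2g ≥ 2θ(n+1)`,
`lam = 1 + θ^2` the factor is `≥ 12 lam`: indeed
`(2n+1)(2n+2) = 4(n+1)(n+2) - 6(n+1)` and
`4 (1+θ^2)((n+1)(n+2) - e(e+1)) ≤ 4(n+1)(n+2) + 4θ^2 (n+1)(n+2) - 16 θ^2 (n+1)^2`, and
`6(n+1) + 4θ^2(n+1)(n+2) ≤ 16θ^2(n+1)^2` as soon as `6 + 4θ^2(n+2) ≤ 16θ^2(n+1)`, true for
`n ≥ 1/θ^2`. (If `2g > n` everything is `0` on the left.)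
-/

namespace HGQ

open Forest

theorem S_expand (g : ℕ) (hg : 1 ≤ g) : ∃ κ : ℕ → ℕ,
    (∀ n, S n g = ∑ e ∈ Finset.range (n + 1), κ e * bal (n - e) (2 * e + 1)) ∧
    ∀ e, κ e ≠ 0 → 2 * g ≤ e := by
  obtain ⟨κ, h1, h2⟩ := prune_sum (fun z => (Q z).coeff g)
  refine ⟨κ, fun n => ?_, fun e he => ?_⟩
  · rw [← h1 n]
    unfold S
    refine Finset.sum_congr rfl fun f _ => ?_
    rw [W_eq, P_eq_sum_Q]
    have := map_multiset_sum (Polynomial.lcoeff ℕ g) ((tl f).powerset.map Q)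
    rw [Multiset.map_map] at this
    exact this
  · obtain ⟨z, hz, hc⟩ := h2 e he
    rcases Q_coeff z g hz with h | h <;> omega

private theorem eb4_real {θ n e : ℝ} (hθ : 0 < θ) (hn : 1 / θ ^ 2 ≤ n)
    (he : 2 * θ * (n + 1) ≤ e) :
    4 * (1 + θ ^ 2) * ((n + 1 - e) * (n + e + 2)) ≤ (2 * n + 1) * (2 * n + 2) := by
  have hθ2 : 0 < θ ^ 2 := by positivity
  have h1 : 1 ≤ θ ^ 2 * n := by
    rw [div_le_iff₀ hθ2] at hn
    linarith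
  have hn0 : 0 < n := lt_of_lt_of_le (by positivity) hn
  have ha : 0 ≤ 2 * θ * (n + 1) := by positivity
  have he2 : (2 * θ * (n + 1)) ^ 2 ≤ e ^ 2 := pow_le_pow_left₀ ha he 2
  have he0 : 0 ≤ e := ha.trans he
  have h2 : 0 ≤ θ ^ 2 * (e ^ 2 + e) := by positivity
  have h3 : 6 * (n + 1) + 4 * θ ^ 2 * (n + 1) * (n + 2) ≤ 16 * θ ^ 2 * (n + 1) ^ 2 := by
    have h4 : (n + 1) * 6 ≤ (n + 1) * (12 * (θ ^ 2 * n) + 8 * θ ^ 2) :=
      mul_le_mul_of_nonneg_left (by nlinarith) (by linarith)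
    nlinarith
  nlinarith

theorem growth1 (θ : ℝ) (hθ : 0 < θ) : ∃ lam : ℝ, 1 < lam ∧ ∃ N : ℕ, ∀ n ≥ N, ∀ g : ℕ,
    θ * (n + 1) ≤ g → 12 * lam * (S n g : ℝ) ≤ (S (n + 1) g : ℝ) := by
  refine ⟨1 + θ ^ 2, by nlinarith [pow_pos hθ 2], ⌈1 / θ ^ 2⌉₊, fun n hn g hg => ?_⟩
  have hn' : 1 / θ ^ 2 ≤ (n : ℝ) := (Nat.le_ceil _).trans (by exact_mod_cast hn)
  have hg1 : 1 ≤ g := by
    have : (0 : ℝ) < g := lt_of_lt_of_le (by positivity) hg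
    exact_mod_cast this
  obtain ⟨κ, h1, h2⟩ := S_expand g hg1
  rw [h1 n, h1 (n + 1), Finset.sum_range_succ _ (n + 1)]
  push_cast
  rw [Finset.mul_sum]
  refine le_trans (Finset.sum_le_sum fun e he => ?_)
    (le_add_of_nonneg_right (by positivity))
  rw [Finset.mem_range] at he
  rcases Nat.eq_zero_or_pos (κ e) with h0 | h0
  · simp [h0]
  have hge : 2 * g ≤ e := h2 e h0.ne'
  have hratio := bal_ratio (n - e) (2 * e + 1)
  rw [show n - e + 1 = n + 1 - e by omega,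
    show n - e + (2 * e + 1) + 1 = n + e + 2 by omega,
    show 2 * (n - e) + (2 * e + 1) = 2 * n + 1 by omega] at hratio
  have hreal : (((n + 1 - e : ℕ) : ℝ)) * (n + e + 2) * (bal (n + 1 - e) (2 * e + 1) : ℝ)
      = 3 * (2 * n + 1) * (2 * n + 1 + 1) * (bal (n - e) (2 * e + 1) : ℝ) := by
    exact_mod_cast hratio
  have hcast : ((n + 1 - e : ℕ) : ℝ) = (n : ℝ) + 1 - e := by
    rw [Nat.cast_sub (by omega)]; push_cast; ring
  rw [hcast] at hreal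
  have heθ : 2 * θ * ((n : ℝ) + 1) ≤ e := by
    have : (2 * (g : ℝ)) ≤ e := by exact_mod_cast hge
    nlinarith
  have hineq := eb4_real hθ hn' heθ
  have hpos : (0 : ℝ) < ((n : ℝ) + 1 - e) * (n + e + 2) := by
    have : (e : ℝ) < n + 1 := by exact_mod_cast he
    have h3 : (0 : ℝ) < (n : ℝ) + 1 - e := by linarith
    positivity
  have hb : (0 : ℝ) ≤ (bal (n - e) (2 * e + 1) : ℝ) := by positivity
  have hmain : 12 * (1 + θ ^ 2) * (bal (n - e) (2 * e + 1) : ℝ)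
      ≤ (bal (n + 1 - e) (2 * e + 1) : ℝ) := by
    refine le_of_mul_le_mul_left ?_ hpos
    rw [hreal]
    have := mul_le_mul_of_nonneg_right hineq (mul_nonneg (by norm_num : (0 : ℝ) ≤ 3) hb)
    nlinarith
  calc 12 * (1 + θ ^ 2) * ((κ e : ℝ) * (bal (n - e) (2 * e + 1) : ℝ))
      = (κ e : ℝ) * (12 * (1 + θ ^ 2) * (bal (n - e) (2 * e + 1) : ℝ)) := by ring
    _ ≤ (κ e : ℝ) * (bal (n + 1 - e) (2 * e + 1) : ℝ) :=
        mul_le_mul_of_nonneg_left hmain (by positivity)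

end HGQ
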