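import Pool.Agent.HGQ.EC3
import Pool.Agent.HGQ.EB4

/-! # HGQ.EC4 : growth along a path (see the header of `EC3`, `path`) -/

namespace HGQ

open Polynomial Forest

private theorem ec4_two {θ c : ℝ} (hθ : 0 < θ) (hc : 0 < c) {N : ℕ}
    (h : ∀ n ≥ N, ∀ g : ℕ, θ * n ≤ g → c * (n : ℝ) ^ 2 * (S n g : ℝ) ≤ (S (n + 2) (g + 1) : ℝ))
    {n₀ : ℕ} (hn : N ≤ n₀) (g₀ : ℕ) : ∀ i : ℕ, θ * ((n₀ : ℝ) + 2 * i) ≤ g₀ →
      (c * (n₀ : ℝ) ^ 2) ^ i * (S n₀ g₀ : ℝ) ≤ (S (n₀ + 2 * i) (g₀ + i) : ℝ) := by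
  intro i
  induction i with
  | zero => intro _; simp
  | succ i ih =>
    intro hg
    push_cast at hg
    have h1 : θ * ((n₀ : ℝ) + 2 * i) ≤ g₀ := by nlinarith
    have h2 := ih h1
    have h3 := h (n₀ + 2 * i) (by omega) (g₀ + i) (by
      push_cast
      have : (0 : ℝ) ≤ i := Nat.cast_nonneg i
      linarith)
    have h4 : (n₀ : ℝ) ^ 2 ≤ ((n₀ + 2 * i : ℕ) : ℝ) ^ 2 := by
      apply pow_le_pow_left₀ (Nat.cast_nonneg _)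
      push_cast
      have : (0 : ℝ) ≤ i := Nat.cast_nonneg i
      linarith
    have h5 : (0 : ℝ) ≤ (S (n₀ + 2 * i) (g₀ + i) : ℝ) := Nat.cast_nonneg _
    have h6 : (0 : ℝ) ≤ c * (n₀ : ℝ) ^ 2 := by positivity
    calc (c * (n₀ : ℝ) ^ 2) ^ (i + 1) * (S n₀ g₀ : ℝ)
        = (c * (n₀ : ℝ) ^ 2) * ((c * (n₀ : ℝ) ^ 2) ^ i * (S n₀ g₀ : ℝ)) := by ring
      _ ≤ (c * (n₀ : ℝ) ^ 2) * (S (n₀ + 2 * i) (g₀ + i) : ℝ) := mul_le_mul_of_nonneg_left h2 h6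
      _ ≤ (c * ((n₀ + 2 * i : ℕ) : ℝ) ^ 2) * (S (n₀ + 2 * i) (g₀ + i) : ℝ) := by
          apply mul_le_mul_of_nonneg_right _ h5
          exact mul_le_mul_of_nonneg_left h4 hc.le
      _ ≤ _ := h3

private theorem ec4_one {θ lam : ℝ} (hθ : 0 < θ) (hl : 1 < lam) {N : ℕ}
    (h : ∀ n ≥ N, ∀ g : ℕ, θ * (n + 1) ≤ g → 12 * lam * (S n g : ℝ) ≤ (S (n + 1) g : ℝ))
    {n : ℕ} (hn : N ≤ n) (g : ℕ) : ∀ a : ℕ, θ * ((n : ℝ) + a) ≤ g →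
      (12 * lam) ^ a * (S n g : ℝ) ≤ (S (n + a) g : ℝ) := by
  intro a
  induction a with
  | zero => intro _; simp
  | succ a ih =>
    intro hg
    push_cast at hg
    have h1 : θ * ((n : ℝ) + a) ≤ g := by nlinarith
    have h2 := ih h1
    have h3 := h (n + a) (by omega) g (by push_cast; linarith)
    have h6 : (0 : ℝ) ≤ 12 * lam := by linarith
    calc (12 * lam) ^ (a + 1) * (S n g : ℝ)
        = (12 * lam) * ((12 * lam) ^ a * (S n g : ℝ)) := by ring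
      _ ≤ (12 * lam) * (S (n + a) g : ℝ) := mul_le_mul_of_nonneg_left h2 h6
      _ ≤ _ := h3

theorem path (θ : ℝ) (hθ : 0 < θ) : ∃ lam : ℝ, 1 < lam ∧ ∃ c : ℝ, 0 < c ∧ ∃ N : ℕ,
    ∀ n₀ ≥ N, ∀ g₀ a i : ℕ, θ * ((n₀ : ℝ) + a + 2 * i) ≤ g₀ →
      (12 * lam) ^ a * (c * (n₀ : ℝ) ^ 2) ^ i * (S n₀ g₀ : ℝ)
        ≤ (S (n₀ + a + 2 * i) (g₀ + i) : ℝ) := by
  obtain ⟨lam, hl, N1, h1⟩ := growth1 θ hθ
  obtain ⟨c, hc, N2, h2⟩ := growth2 θ hθ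
  refine ⟨lam, hl, c, hc, max N1 N2, fun n₀ hn g₀ a i hg => ?_⟩
  have ha : (0 : ℝ) ≤ a := Nat.cast_nonneg a
  have hi : (0 : ℝ) ≤ i := Nat.cast_nonneg i
  have h3 := ec4_two hθ hc h2 (le_trans (le_max_right _ _) hn) g₀ i (by
    have : θ * ((n₀ : ℝ) + 2 * i) ≤ θ * ((n₀ : ℝ) + a + 2 * i) :=
      mul_le_mul_of_nonneg_left (by linarith) hθ.le
    linarith)
  have h4 := ec4_one hθ hl h1 (n := n₀ + 2 * i) (le_trans (le_trans (le_max_left _ _) hn) (by omega))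
    (g₀ + i) a (by
      push_cast
      have : θ * ((n₀ : ℝ) + 2 * i + a) = θ * ((n₀ : ℝ) + a + 2 * i) := by ring
      linarith)
  have h5 : n₀ + a + 2 * i = n₀ + 2 * i + a := by omega
  rw [h5]
  have h6 : (0 : ℝ) ≤ (12 * lam) ^ a := pow_nonneg (by linarith) a
  calc (12 * lam) ^ a * (c * (n₀ : ℝ) ^ 2) ^ i * (S n₀ g₀ : ℝ)
      = (12 * lam) ^ a * ((c * (n₀ : ℝ) ^ 2) ^ i * (S n₀ g₀ : ℝ)) := by ring
    _ ≤ (12 * lam) ^ a * (S (n₀ + 2 * i) (g₀ + i) : ℝ) := mul_le_mul_of_nonneg_left h3 h6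
    _ ≤ _ := h4

end HGQ
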