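import Pool.Agent.HGQ.EApi

/-! # HGQ.EA4 : reduction of a set of levels to `r` points on one level

`Rd K b = ∑_{2i ≤ b} C(b,i) K^i X^i`, `Rd' K b = ∑_{2i < b} C(b,i) K^i X^i`.

* `Rd_mul`, `Rd'_mul`: `Rd K a * Rd K b ⪯ Rd K (a+b)`, `Rd K a * Rd' K b ⪯ Rd' K (a+b)` (Vandermonde;
  `2i ≤ a`, `2j < b` gives `2(i+j) < a+b`).
* `A_red`: `A_{a+b} ⪯ Rd K b * A_a + Rd' K b * A_{a+1}` if `(a+b)^2 ≤ K`. Proof: let
  `q_0 = 0, q_1 = 1, q_{b+2} = q_{b+1} + K X q_b`; by two-step induction on `b`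
  `A_{a+b} ⪯ K X q_{b-1} A_a + q_b A_{a+1}` (`b ≥ 1`), using `A_{m+2} = A_{m+1} + (m+1) m X A_m`
  and `(m+1) m ≤ K` for `m + 2 ≤ a + b`; and `q_b = ∑_{2i<b} C(b-1-i,i) K^i X^i ⪯ Rd' K b`
  (or directly by induction `q_b ⪯ ∑_{2i<b} C(b-1,i) K^i X^i`, Pascal), and
  `K X q_{b-1} ⪯ K X ∑_{2i<b-1} C(b-2,i) K^i X^i ⪯ Rd K b`.
  `A_red0`: `A_b ⪯ Rd K b` if `b^2 ≤ K` (same induction).
* `P_red`: a multiset `u` of labels with `card u = M`, `M^2 ≤ K`, and `r ≤ count c u`:
  `P u ⪯ Rd K (M-r) * A_r + Rd' K (M-r) * A_{r+1}`: level `c` by `A_red` with `a = r`,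
  `b = count c u - r`; every other level by `A_red0`; multiply.
-/

namespace HGQ

open Polynomial Forest

/-- `∑_{2i ≤ b} C(b,i) (K X)^i` -/
noncomputable def Rd (K b : ℕ) : ℕ[X] := ∑ i ∈ Finset.range (b / 2 + 1), C (b.choose i * K ^ i) * X ^ i

/-- `∑_{2i < b} C(b,i) (K X)^i` -/
noncomputable def Rd' (K b : ℕ) : ℕ[X] :=
  ∑ i ∈ Finset.range ((b + 1) / 2), C (b.choose i * K ^ i) * X ^ i

theorem Rd_mul_coeff (K b : ℕ) (p : ℕ[X]) (g : ℕ) : (Rd K b * p).coeff g =
    ∑ i ∈ Finset.range (b / 2 + 1), if i ≤ g then b.choose i * K ^ i * p.coeff (g - i) else 0 := by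
  unfold Rd
  rw [Finset.sum_mul, finsetSum_coeff]
  refine Finset.sum_congr rfl fun i _ => ?_
  rw [mul_assoc, coeff_C_mul, coeff_X_pow_mul']
  split_ifs <;> simp

theorem Rd'_mul_coeff (K b : ℕ) (p : ℕ[X]) (g : ℕ) : (Rd' K b * p).coeff g =
    ∑ i ∈ Finset.range ((b + 1) / 2),
      if i ≤ g then b.choose i * K ^ i * p.coeff (g - i) else 0 := by
  unfold Rd'
  rw [Finset.sum_mul, finsetSum_coeff]
  refine Finset.sum_congr rfl fun i _ => ?_
  rw [mul_assoc, coeff_C_mul, coeff_X_pow_mul']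
  split_ifs <;> simp

private theorem ea4_coeff (K b k : ℕ) :
    (Rd K b).coeff k = if 2 * k ≤ b then b.choose k * K ^ k else 0 := by
  unfold Rd
  rw [finsetSum_coeff]
  simp only [coeff_C_mul, coeff_X_pow, mul_ite, mul_one, mul_zero]
  rw [Finset.sum_ite_eq]
  simp only [Finset.mem_range]
  congr 1
  apply propext
  omega

private theorem ea4_coeff' (K b k : ℕ) :
    (Rd' K b).coeff k = if 2 * k < b then b.choose k * K ^ k else 0 := by
  unfold Rd'
  rw [finsetSum_coeff]
  simp only [coeff_C_mul, coeff_X_pow, mul_ite, mul_one, mul_zero]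
  rw [Finset.sum_ite_eq]
  simp only [Finset.mem_range]
  congr 1
  apply propext
  omega

private theorem ea4_zero (K : ℕ) : Rd K 0 = 1 := by
  simp [Rd]

private theorem ea4_one (K : ℕ) : Rd K 1 = 1 := by
  simp [Rd]

private theorem ea4_zero' (K : ℕ) : Rd' K 0 = 0 := by
  simp [Rd']

private theorem ea4_one' (K : ℕ) : Rd' K 1 = 1 := by
  simp [Rd']

private theorem ea4_step (K b : ℕ) : Cle (Rd K (b + 1) + C K * X * Rd K b) (Rd K (b + 2)) := by
  intro k
  rw [coeff_add, mul_assoc, coeff_C_mul]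
  cases k with
  | zero =>
    rw [coeff_X_mul_zero]
    simp [ea4_coeff]
  | succ k =>
    rw [coeff_X_mul, ea4_coeff, ea4_coeff, ea4_coeff]
    have h1 : (b + 2).choose (k + 1) = (b + 1).choose k + (b + 1).choose (k + 1) :=
      Nat.choose_succ_succ _ _
    have h2 : b.choose k ≤ (b + 1).choose k := Nat.choose_le_choose _ (Nat.le_succ b)
    have h3 : K * (b.choose k * K ^ k) ≤ (b + 1).choose k * K ^ (k + 1) := by
      rw [pow_succ]
      calc K * (b.choose k * K ^ k) = b.choose k * (K ^ k * K) := by ring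
        _ ≤ _ := Nat.mul_le_mul_right _ h2
    by_cases h4 : 2 * k ≤ b
    · rw [if_pos h4, if_pos (show 2 * (k + 1) ≤ b + 2 by omega), h1, add_mul]
      split_ifs <;> omega
    · rw [if_neg h4, if_neg (show ¬ 2 * (k + 1) ≤ b + 1 by omega)]
      simp

private theorem ea4_step' (K b : ℕ) :
    Cle (Rd' K (b + 1) + C K * X * Rd' K b) (Rd' K (b + 2)) := by
  intro k
  rw [coeff_add, mul_assoc, coeff_C_mul]
  cases k with
  | zero =>
    rw [coeff_X_mul_zero]
    simp [ea4_coeff']
  | succ k =>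
    rw [coeff_X_mul, ea4_coeff', ea4_coeff', ea4_coeff']
    have h1 : (b + 2).choose (k + 1) = (b + 1).choose k + (b + 1).choose (k + 1) :=
      Nat.choose_succ_succ _ _
    have h2 : b.choose k ≤ (b + 1).choose k := Nat.choose_le_choose _ (Nat.le_succ b)
    have h3 : K * (b.choose k * K ^ k) ≤ (b + 1).choose k * K ^ (k + 1) := by
      rw [pow_succ]
      calc K * (b.choose k * K ^ k) = b.choose k * (K ^ k * K) := by ring
        _ ≤ _ := Nat.mul_le_mul_right _ h2
    by_cases h4 : 2 * k < b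
    · rw [if_pos h4, if_pos (show 2 * (k + 1) < b + 2 by omega), h1, add_mul]
      split_ifs <;> omega
    · rw [if_neg h4, if_neg (show ¬ 2 * (k + 1) < b + 1 by omega)]
      simp

private theorem ea4_rec {m K : ℕ} (h : (m + 1) * m ≤ K) :
    Cle (A (m + 2)) (A (m + 1) + C K * X * A m) := by
  intro k
  rw [A_add_two, coeff_add, coeff_add, mul_assoc, mul_assoc, coeff_C_mul, coeff_C_mul]
  exact Nat.add_le_add_left (Nat.mul_le_mul_right _ h) _

theorem A_red (a b K : ℕ) (hK : (a + b) ^ 2 ≤ K) :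
    Cle (A (a + b)) (Rd K b * A a + Rd' K b * A (a + 1)) := by
  induction b using Nat.twoStepInduction with
  | zero =>
    rw [ea4_zero, ea4_zero', one_mul, zero_mul, add_zero, add_zero]
    exact Cle.refl _
  | one =>
    rw [ea4_one, ea4_one', one_mul, one_mul]
    intro k
    rw [coeff_add]
    exact Nat.le_add_left _ _
  | more b ih1 ih2 =>
    have h1 : (a + b + 1) * (a + b) ≤ K := by nlinarith
    have h2 := ih1 (by nlinarith)
    have h3 := ih2 (by nlinarith)
    have h4 : Cle (A (a + (b + 2))) (A (a + (b + 1)) + C K * X * A (a + b)) := ea4_rec h1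
    refine h4.trans ?_
    have h5 := h3.add ((Cle.refl (C K * X)).mul h2)
    refine h5.trans ?_
    have e : Rd K (b + 1) * A a + Rd' K (b + 1) * A (a + 1) +
        C K * X * (Rd K b * A a + Rd' K b * A (a + 1)) =
        (Rd K (b + 1) + C K * X * Rd K b) * A a +
          (Rd' K (b + 1) + C K * X * Rd' K b) * A (a + 1) := by ring
    rw [e]
    exact ((ea4_step K b).mul (Cle.refl _)).add ((ea4_step' K b).mul (Cle.refl _))

private theorem ea4_red0 (b K : ℕ) (hK : b ^ 2 ≤ K) : Cle (A b) (Rd K b) := by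
  induction b using Nat.twoStepInduction with
  | zero =>
    rw [ea4_zero, A_zero]
    exact Cle.refl _
  | one =>
    rw [ea4_one, A_one]
    exact Cle.refl _
  | more b ih1 ih2 =>
    have h1 : (b + 1) * b ≤ K := by nlinarith
    refine (ea4_rec h1).trans ?_
    refine ((ih2 (by nlinarith)).add ((Cle.refl (C K * X)).mul (ih1 (by nlinarith)))).trans ?_
    exact ea4_step K b

private theorem ea4_mul (K a b : ℕ) : Cle (Rd K a * Rd K b) (Rd K (a + b)) := by
  intro k
  rw [coeff_mul, ea4_coeff]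
  simp only [ea4_coeff]
  by_cases h : 2 * k ≤ a + b
  · rw [if_pos h, Nat.add_choose_eq, Finset.sum_mul]
    refine Finset.sum_le_sum fun x hx => ?_
    rw [Finset.HasAntidiagonal.mem_antidiagonal] at hx
    rw [← hx, pow_add]
    split_ifs
    · exact le_of_eq (by ring)
    all_goals simp
  · rw [if_neg h]
    apply le_of_eq
    refine Finset.sum_eq_zero fun x hx => ?_
    rw [Finset.HasAntidiagonal.mem_antidiagonal] at hx
    by_cases h1 : 2 * x.1 ≤ a
    · rw [if_neg (show ¬ 2 * x.2 ≤ b by omega), mul_zero]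
    · rw [if_neg h1, zero_mul]

private theorem ea4_mul' (K a b : ℕ) : Cle (Rd K a * Rd' K b) (Rd' K (a + b)) := by
  intro k
  rw [coeff_mul, ea4_coeff']
  simp only [ea4_coeff, ea4_coeff']
  by_cases h : 2 * k < a + b
  · rw [if_pos h, Nat.add_choose_eq, Finset.sum_mul]
    refine Finset.sum_le_sum fun x hx => ?_
    rw [Finset.HasAntidiagonal.mem_antidiagonal] at hx
    rw [← hx, pow_add]
    split_ifs
    · exact le_of_eq (by ring)
    all_goals simp
  · rw [if_neg h]
    apply le_of_eq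
    refine Finset.sum_eq_zero fun x hx => ?_
    rw [Finset.HasAntidiagonal.mem_antidiagonal] at hx
    by_cases h1 : 2 * x.1 ≤ a
    · rw [if_neg (show ¬ 2 * x.2 < b by omega), mul_zero]
    · rw [if_neg h1, zero_mul]

private theorem ea4_prod {ι : Type*} (K : ℕ) (T : Finset ι) (m : ι → ℕ) :
    Cle (∏ x ∈ T, Rd K (m x)) (Rd K (∑ x ∈ T, m x)) := by
  classical
  induction T using Finset.induction_on with
  | empty =>
    rw [Finset.prod_empty, Finset.sum_empty, ea4_zero]
    exact Cle.refl _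
  | insert a T ha ih =>
    rw [Finset.prod_insert ha, Finset.sum_insert ha]
    exact ((Cle.refl _).mul ih).trans (ea4_mul K _ _)

theorem P_red (u : Multiset ℤ) (c : ℤ) (r K : ℕ) (hr : r ≤ u.count c) (hK : u.card ^ 2 ≤ K) :
    Cle (P u) (Rd K (u.card - r) * A r + Rd' K (u.card - r) * A (r + 1)) := by
  classical
  set T : Finset ℤ := insert c u.toFinset with hT
  have hcT : c ∈ T := Finset.mem_insert_self _ _
  have hP : P u = A (u.count c) * ∏ x ∈ T.erase c, A (u.count x) := by
    rw [P_eq_prod u T (Finset.subset_insert _ _),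
      Finset.mul_prod_erase T (fun x => A (u.count x)) hcT]
  have hsum : u.count c + ∑ x ∈ T.erase c, u.count x = u.card := by
    rw [Finset.add_sum_erase T (fun x => u.count x) hcT]
    exact Multiset.sum_count_eq_card (fun x hx =>
      Finset.mem_insert_of_mem (Multiset.mem_toFinset.2 hx))
  set S' := ∑ x ∈ T.erase c, u.count x with hS
  have h1 : Cle (∏ x ∈ T.erase c, A (u.count x)) (Rd K S') := by
    refine (Cle.prod (q := fun x => Rd K (u.count x)) fun x _ => ea4_red0 _ _ ?_).trans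
      (ea4_prod K _ _)
    refine le_trans (Nat.pow_le_pow_left ?_ 2) hK
    exact Multiset.count_le_card x u
  have h2 : Cle (A (u.count c))
      (Rd K (u.count c - r) * A r + Rd' K (u.count c - r) * A (r + 1)) := by
    have h3 := A_red r (u.count c - r) K (by
      rw [Nat.add_sub_cancel' hr]
      exact le_trans (Nat.pow_le_pow_left (Multiset.count_le_card c u) 2) hK)
    rwa [Nat.add_sub_cancel' hr] at h3
  rw [hP]
  refine (h2.mul h1).trans ?_
  have e : (Rd K (u.count c - r) * A r + Rd' K (u.count c - r) * A (r + 1)) * Rd K S' =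
      (Rd K S' * Rd K (u.count c - r)) * A r + (Rd K S' * Rd' K (u.count c - r)) * A (r + 1) := by
    ring
  have e2 : S' + (u.count c - r) = u.card - r := by omega
  rw [e, ← e2]
  exact ((ea4_mul K _ _).mul (Cle.refl _)).add ((ea4_mul' K _ _).mul (Cle.refl _))

end HGQ
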