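import Pool.Agent.HGQ.EApi

/-! # HGQ.EC1 : re-rooting

`rlab j f` is the label (in `f`) of the root of `rot^[j] f`. Facts:
* `tl_rot_iter`: `(tl (rot^[j] f)).map (· + rlab j f) = tl f` (from `tl_rot`, induction on `j`), so
  `mul (rot^[j] f) i = mul f (i + rlab j f)`.
* `rot_iter_app`: `rot^[2 * edges f] (app f h) = app h f`. Induction on `f`: for `f = cons d c r`
  `rot (app f h) = app c (cons d.rev (app r h) nil)`, then `2 edges c` steps give
  `app (cons d.rev (app r h) nil) c = cons d.rev (app r h) c`, one step gives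
  `app (app r h) (cons d c nil)`, and `2 edges r` steps (IH for `r`) give `app (app h (cons d c nil)) r = app h f`.
  In particular `rot^[2 * edges f] f = f`, and `rot` is a bijection of `forests n`.
* `mul_le_card`: for `f` with `n ≥ 1` edges, every label `i`:
  `mul f i ≤ #{j < 2n : rlab j f = i}`. Induction as above with the statement: for `f` and all `h`, the
  sequence of root labels of `rot^[j] (app f h)`, `j < 2 edges f`, starting at label `x`, contains every
  `i` at least `(vl f x).count i` times, plus one more time `x` at `j = 0` if `f ≠ nil`; and the root label after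
  `2 edges f` steps is `x` again.
* `rr_heavy`: `K 1[∃ c, K ≤ mul f c] G f ≤ ∑_{j<2n} G (rot^[j] f) 1[K ≤ mul (rot^[j] f) 0]`; sum over `f` and use that
  `rot^[j]` is a bijection of `forests n`.
* `extra_point`: if `c ∈ labels f` there is `j < 2n` with `rlab j f = c`, and then
  `P (c ::ₘ tl f) = P (0 ::ₘ tl (rot^[j] f)) = P (tl (cons 1 nil (rot^[j] f)))`. So
  `∑_{f, c ∈ labels f} (P (c ::ₘ tl f)).coeff g ≤ ∑_{j<2n} ∑_f W g (cons 1 nil f) ≤ 2n S (n+1) g`.
-/

namespace HGQ

open Polynomial Forest

/-- label of the root of `rot^[j] f` in `f` -/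
def rlab : ℕ → Forest → ℤ
  | 0, _ => 0
  | _ + 1, nil => 0
  | j + 1, cons d c r => inc d + rlab j (rot (cons d c r))

theorem rot_iter_app (f h : Forest) : rot^[2 * f.edges] (app f h) = app h f := by
  induction f generalizing h with
  | nil => simp [edges, app, app_nil]
  | cons d c r ihc ihr =>
    have e : 2 * (cons d c r).edges = 2 * r.edges + (1 + (2 * c.edges + 1)) := by
      simp only [edges]; ring
    rw [e, Function.iterate_add_apply, Function.iterate_add_apply, Function.iterate_add_apply]
    simp only [Function.iterate_one, app, rot]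
    rw [ihc]
    simp only [app, rot, Fin.rev_rev]
    rw [app_assoc, ihr, app_assoc]
    simp only [app]

private theorem rot_iter_self (f : Forest) : rot^[2 * f.edges] f = f := by
  have := rot_iter_app f nil
  rwa [app_nil, app] at this

private theorem edges_rot_iter (j : ℕ) (f : Forest) : (rot^[j] f).edges = f.edges := by
  induction j generalizing f with
  | zero => rfl
  | succ j ih => rw [Function.iterate_succ_apply, ih, edges_rot]

private theorem rot_iter_self_mul (f : Forest) (j : ℕ) : rot^[2 * f.edges * j] f = f := by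
  induction j with
  | zero => rfl
  | succ j ih => rw [Nat.mul_succ, Function.iterate_add_apply, rot_iter_self, ih]

private theorem rot_iter_nil (j : ℕ) : rot^[j] nil = nil := by
  induction j with
  | zero => rfl
  | succ j ih => rw [Function.iterate_succ_apply, rot, ih]

theorem rot_bijOn (n j : ℕ) : Set.BijOn (rot^[j]) (forests n : Set Forest) (forests n) := by
  have hmap : ∀ k : ℕ, Set.MapsTo (rot^[k]) (forests n : Set Forest) (forests n) := by
    intro k f hf
    rw [Finset.mem_coe, mem_forests] at hf ⊢
    rw [edges_rot_iter, hf]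
  rcases Nat.eq_zero_or_pos n with rfl | hn
  · have hz : ∀ f ∈ (forests 0 : Set Forest), f = nil := by
      intro f hf
      rw [Finset.mem_coe, mem_forests] at hf
      cases f with
      | nil => rfl
      | cons d c r => simp [edges] at hf
    refine ⟨hmap j, fun f hf g hg _ => ?_, fun f hf => ?_⟩
    · rw [hz f hf, hz g hg]
    · refine ⟨f, hf, ?_⟩
      rw [hz f hf, rot_iter_nil]
  · have hle : j ≤ 2 * n * j := Nat.le_mul_of_pos_left j (by omega)
    refine Set.InvOn.bijOn (f' := rot^[2 * n * j - j]) ⟨fun f hf => ?_, fun f hf => ?_⟩ (hmap j) (hmap _)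
    · rw [Finset.mem_coe, mem_forests] at hf
      rw [← Function.iterate_add_apply, Nat.sub_add_cancel hle]
      conv_lhs => rw [← hf]
      exact rot_iter_self_mul f j
    · rw [Finset.mem_coe, mem_forests] at hf
      rw [← Function.iterate_add_apply, Nat.add_sub_cancel' hle]
      conv_lhs => rw [← hf]
      exact rot_iter_self_mul f j

private theorem tl_rot_iter (j : ℕ) (f : Forest) :
    (tl (rot^[j] f)).map (fun i => i + rlab j f) = tl f := by
  induction j generalizing f with
  | zero => simp [rlab]
  | succ j ih =>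
    cases f with
    | nil => simp [rlab, rot_iter_nil]
    | cons d c r =>
      rw [Function.iterate_succ_apply, rlab]
      have h := ih (rot (cons d c r))
      rw [← tl_rot, ← h, Multiset.map_map]
      refine Multiset.map_congr rfl (fun i _ => ?_)
      simp only [Function.comp_apply]
      ring

theorem mul_rot_iter (j : ℕ) (f : Forest) (i : ℤ) :
    (rot^[j] f).mul i = f.mul (i + rlab j f) := by
  rw [← count_tl, ← count_tl, ← tl_rot_iter j f,
    Multiset.count_map_eq_count' (fun i => i + rlab j f) _ (add_left_injective _)]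

private theorem rlab_nil (j : ℕ) : rlab j nil = 0 := by cases j <;> rfl

private theorem rlab_add (a b : ℕ) (f : Forest) :
    rlab (a + b) f = rlab a f + rlab b (rot^[a] f) := by
  induction a generalizing f with
  | zero => simp [rlab]
  | succ a ih =>
    cases f with
    | nil => rw [rot_iter_nil, rlab_nil, rlab_nil, rlab_nil]; rfl
    | cons d c r =>
      rw [show a + 1 + b = (a + b) + 1 by ring, rlab, rlab, ih, Function.iterate_succ_apply]
      ring

private theorem rlab_return (f h : Forest) : rlab (2 * f.edges) (app f h) = 0 := by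
  induction f generalizing h with
  | nil => simp [edges, rlab]
  | cons d c r ihc ihr =>
    have e : 2 * (cons d c r).edges = 1 + (2 * c.edges + (1 + 2 * r.edges)) := by
      simp only [edges]; ring
    rw [e, rlab_add, rlab_add, rlab_add]
    simp only [Function.iterate_one, app, rot]
    rw [ihc, rot_iter_app]
    simp only [app, rot, rlab, Fin.rev_rev, inc_rev]
    rw [app_assoc, ihr]
    ring

/-- number of visits of label `i` -/
private def NN (m : ℕ) (f : Forest) (x i : ℤ) : ℕ :=
  ∑ j ∈ Finset.range m, if x + rlab j f = i then 1 else 0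

private theorem NN_add (a b : ℕ) (f : Forest) (x i : ℤ) :
    NN (a + b) f x i = NN a f x i + NN b (rot^[a] f) (x + rlab a f) i := by
  unfold NN
  rw [Finset.sum_range_add]
  congr 1
  refine Finset.sum_congr rfl (fun j _ => ?_)
  rw [rlab_add, add_assoc]

private theorem NN_one (f : Forest) (x i : ℤ) : NN 1 f x i = if x = i then 1 else 0 := by
  unfold NN
  rw [Finset.sum_range_one, rlab, add_zero]

private theorem NN_cons (d : Fin 3) (c r h : Forest) (x i : ℤ) :
    NN (2 * (cons d c r).edges) (app (cons d c r) h) x i =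
      (if x = i then 1 else 0) +
      (NN (2 * c.edges) (app c (cons d.rev (app r h) nil)) (x + inc d) i +
      ((if x + inc d = i then 1 else 0) +
      NN (2 * r.edges) (app r (app h (cons d c nil))) x i)) := by
  have e : 2 * (cons d c r).edges = 1 + (2 * c.edges + (1 + 2 * r.edges)) := by
    simp only [edges]; ring
  rw [e, NN_add, NN_add, NN_add, NN_one, NN_one]
  simp only [Function.iterate_one, app, rot, rlab, add_zero]
  rw [rot_iter_app, rlab_return]
  simp only [app, rot, rlab, add_zero, Fin.rev_rev, inc_rev, add_neg_cancel_right]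
  rw [app_assoc]

private theorem count_le_NN (f h : Forest) (x i : ℤ) :
    (vl f x).count i ≤ NN (2 * f.edges) (app f h) x i := by
  induction f generalizing h x with
  | nil => simp [vl]
  | cons d c r ihc ihr =>
    rw [NN_cons, vl, Multiset.count_cons, Multiset.count_add]
    have h1 := ihc (cons d.rev (app r h) nil) (x + inc d)
    have h2 := ihr (app h (cons d c nil)) x
    have h3 : (if i = x + inc d then 1 else 0) = (if x + inc d = i then 1 else 0 : ℕ) := by
      simp only [eq_comm]
    omega

theorem mul_le_card (f : Forest) (hf : 1 ≤ f.edges) (i : ℤ) :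
    f.mul i ≤ ((Finset.range (2 * f.edges)).filter (fun j => rlab j f = i)).card := by
  have key : f.mul i ≤ NN (2 * f.edges) f 0 i := by
    cases f with
    | nil => simp [edges] at hf
    | cons d c r =>
      have h0 := NN_cons d c r nil 0 i
      rw [app_nil] at h0
      rw [h0, ← count_tl, tl, Multiset.count_cons, vl, Multiset.count_cons, Multiset.count_add]
      have h1 := count_le_NN c (cons d.rev (app r nil) nil) (0 + inc d) i
      have h2 := count_le_NN r (app nil (cons d c nil)) 0 i
      have h3 : (if i = 0 + inc d then 1 else 0) = (if 0 + inc d = i then 1 else 0 : ℕ) := by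
        simp only [eq_comm]
      have h4 : (if i = 0 then 1 else 0) = (if 0 = i then 1 else 0 : ℕ) := by
        simp only [eq_comm]
      omega
  rw [Finset.card_filter]
  unfold NN at key
  simpa using key

theorem W_rot (g : ℕ) (f : Forest) : W g (rot f) = W g f := by
  cases f with
  | nil => rfl
  | cons d c r => rw [W_eq, W_eq, ← tl_rot, P_map_add]

theorem card_labels_rot (f : Forest) : (rot f).labels.card = f.labels.card := by
  cases f with
  | nil => rfl
  | cons d c r =>
    rw [← toFinset_tl, ← toFinset_tl, ← tl_rot, Multiset.toFinset_map,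
      Finset.card_image_of_injective _ (add_left_injective _)]

open scoped Classical in
theorem rr_heavy (n : ℕ) (hn : 1 ≤ n) (G : Forest → ℝ) (h0 : ∀ f, 0 ≤ G f)
    (hG : ∀ f, G (rot f) = G f) (K : ℝ) :
    K * ∑ f ∈ (forests n).filter (fun f => ∃ c, K ≤ (f.mul c : ℝ)), G f
      ≤ 2 * n * ∑ f ∈ (forests n).filter (fun f => K ≤ (f.mul 0 : ℝ)), G f := by
  have hGi : ∀ (j : ℕ) (f : Forest), G (rot^[j] f) = G f := by
    intro j
    induction j with
    | zero => intro f; rfl
    | succ j ih => intro f; rw [Function.iterate_succ_apply, ih, hG]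
  set H : Forest → ℝ := fun f => if K ≤ (f.mul 0 : ℝ) then G f else 0 with hH
  have hH0 : ∀ f, 0 ≤ H f := by
    intro f; rw [hH]; dsimp only; split_ifs; exacts [h0 f, le_rfl]
  have step : ∀ f ∈ (forests n).filter (fun f => ∃ c, K ≤ (f.mul c : ℝ)),
      K * G f ≤ ∑ j ∈ Finset.range (2 * n), H (rot^[j] f) := by
    intro f hf
    rw [Finset.mem_filter, mem_forests] at hf
    obtain ⟨hfn, c, hc⟩ := hf
    have h1 := mul_le_card f (by omega) c
    rw [hfn] at h1
    have h2 : K ≤ (((Finset.range (2 * n)).filter (fun j => rlab j f = c)).card : ℝ) :=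
      hc.trans (by exact_mod_cast h1)
    calc K * G f ≤ (((Finset.range (2 * n)).filter (fun j => rlab j f = c)).card : ℝ) * G f :=
          mul_le_mul_of_nonneg_right h2 (h0 f)
      _ = ∑ _j ∈ (Finset.range (2 * n)).filter (fun j => rlab j f = c), G f := by
          rw [Finset.sum_const, nsmul_eq_mul]
      _ ≤ ∑ j ∈ (Finset.range (2 * n)).filter (fun j => rlab j f = c), H (rot^[j] f) := by
          refine Finset.sum_le_sum (fun j hj => ?_)
          have hj2 := (Finset.mem_filter.1 hj).2
          rw [hH]
          dsimp only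
          rw [mul_rot_iter, zero_add, hj2, if_pos hc, hGi]
      _ ≤ _ := Finset.sum_le_sum_of_subset_of_nonneg (Finset.filter_subset _ _)
          (fun j _ _ => hH0 _)
  have hbij : ∀ j, ∑ f ∈ forests n, H (rot^[j] f) = ∑ f ∈ forests n, H f := by
    intro j
    have hb := rot_bijOn n j
    exact Finset.sum_bij (fun f _ => rot^[j] f) (fun f hf => hb.mapsTo hf)
      (fun f hf g hg h => hb.injOn hf hg h) (fun g hg => by
        obtain ⟨f, hf, hfg⟩ := hb.surjOn hg
        exact ⟨f, hf, hfg⟩) (fun f _ => rfl)
  rw [Finset.mul_sum]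
  calc ∑ f ∈ (forests n).filter (fun f => ∃ c, K ≤ (f.mul c : ℝ)), K * G f
      ≤ ∑ f ∈ (forests n).filter (fun f => ∃ c, K ≤ (f.mul c : ℝ)),
          ∑ j ∈ Finset.range (2 * n), H (rot^[j] f) := Finset.sum_le_sum step
    _ ≤ ∑ f ∈ forests n, ∑ j ∈ Finset.range (2 * n), H (rot^[j] f) :=
        Finset.sum_le_sum_of_subset_of_nonneg (Finset.filter_subset _ _)
          (fun f _ _ => Finset.sum_nonneg (fun j _ => hH0 _))
    _ = ∑ j ∈ Finset.range (2 * n), ∑ f ∈ forests n, H (rot^[j] f) := Finset.sum_comm
    _ = ∑ j ∈ Finset.range (2 * n), ∑ f ∈ forests n, H f :=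
        Finset.sum_congr rfl (fun j _ => hbij j)
    _ = 2 * n * ∑ f ∈ forests n, H f := by
        rw [Finset.sum_const, Finset.card_range, nsmul_eq_mul]; push_cast; ring
    _ = _ := by rw [Finset.sum_filter]

theorem extra_point (n g : ℕ) (hn : 1 ≤ n) (c : ℤ) :
    ∑ f ∈ (forests n).filter (fun f => c ∈ f.labels), (P (c ::ₘ tl f)).coeff g
      ≤ 2 * n * S (n + 1) g := by
  have hP : ∀ f : Forest, W g (cons 1 nil f) = (P (0 ::ₘ tl f)).coeff g := by
    intro f
    rw [W_eq]
    congr 2
    simp [tl, vl, inc_one]
  have step : ∀ f ∈ (forests n).filter (fun f => c ∈ f.labels),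
      (P (c ::ₘ tl f)).coeff g ≤ ∑ j ∈ Finset.range (2 * n), W g (cons 1 nil (rot^[j] f)) := by
    intro f hf
    rw [Finset.mem_filter, mem_forests, mem_labels] at hf
    obtain ⟨hfn, hc⟩ := hf
    have h1 := mul_le_card f (by omega) c
    rw [hfn] at h1
    obtain ⟨j, hj⟩ := Finset.card_pos.1 (lt_of_lt_of_le hc h1)
    rw [Finset.mem_filter] at hj
    have e : c ::ₘ tl f = (0 ::ₘ tl (rot^[j] f)).map (fun i => i + rlab j f) := by
      rw [Multiset.map_cons, tl_rot_iter, zero_add, hj.2]
    rw [e, P_map_add, ← hP]
    exact Finset.single_le_sum (f := fun j => W g (cons 1 nil (rot^[j] f)))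
      (fun _ _ => Nat.zero_le _) hj.1
  have hbij : ∀ j, ∑ f ∈ forests n, W g (cons 1 nil (rot^[j] f)) =
      ∑ f ∈ forests n, W g (cons 1 nil f) := by
    intro j
    have hb := rot_bijOn n j
    exact Finset.sum_bij (fun f _ => rot^[j] f) (fun f hf => hb.mapsTo hf)
      (fun f hf g hg h => hb.injOn hf hg h) (fun g hg => by
        obtain ⟨f, hf, hfg⟩ := hb.surjOn hg
        exact ⟨f, hf, hfg⟩) (fun f _ => rfl)
  have hS : ∑ f ∈ forests n, W g (cons 1 nil f) ≤ S (n + 1) g := by
    unfold S
    rw [← Finset.sum_image (s := forests n) (g := fun f => cons 1 nil f) (f := W g)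
      (fun a _ b _ h => (cons.inj h).2.2)]
    refine Finset.sum_le_sum_of_subset (fun f hf => ?_)
    rw [Finset.mem_image] at hf
    obtain ⟨a, ha, rfl⟩ := hf
    rw [mem_forests] at ha ⊢
    simp [edges, ha]
  calc ∑ f ∈ (forests n).filter (fun f => c ∈ f.labels), (P (c ::ₘ tl f)).coeff g
      ≤ ∑ f ∈ (forests n).filter (fun f => c ∈ f.labels),
          ∑ j ∈ Finset.range (2 * n), W g (cons 1 nil (rot^[j] f)) := Finset.sum_le_sum step
    _ ≤ ∑ f ∈ forests n, ∑ j ∈ Finset.range (2 * n), W g (cons 1 nil (rot^[j] f)) :=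
        Finset.sum_le_sum_of_subset (Finset.filter_subset _ _)
    _ = ∑ j ∈ Finset.range (2 * n), ∑ f ∈ forests n, W g (cons 1 nil (rot^[j] f)) :=
        Finset.sum_comm
    _ = ∑ j ∈ Finset.range (2 * n), ∑ f ∈ forests n, W g (cons 1 nil f) :=
        Finset.sum_congr rfl (fun j _ => hbij j)
    _ = 2 * n * ∑ f ∈ forests n, W g (cons 1 nil f) := by
        rw [Finset.sum_const, Finset.card_range, smul_eq_mul]
    _ ≤ 2 * n * S (n + 1) g := Nat.mul_le_mul_left _ hS

end HGQ
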