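import Pool.Agent.HGQ.EApi

/-! # HGQ.ED1 : contraction of the components of the labels `≥ c`

Fix a level `c`. `cutT c f x` contracts every connected component of the vertices with label `≥ c` to one
vertex (of label `c` when the parent of the component has label `< c`), keeping the subtrees of label `< c`
hanging from it, in order; `cutS c f x` is the list of tokens (in contour order) which records the
contracted components: `u d` = edge to a child in the same component (increment `d`), `x` = edge to a child
of label `< c`, `dn` = end of the list of children of a vertex of label `≥ c`.
Here `x` is the label of the parent (the root) of the forest `f`.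

* `cut_inj`: `f` is determined by `(cutT c f 0, cutS c f 0)` if `0 < c`. Prove by induction on `f` both
  (low, `x < c`): `cutT c f x = cutT c f' x → cutS c f x ++ s = cutS c f' x ++ s' → f = f' ∧ s = s'`;
  (up, `c ≤ x`): `app (cutT c f x) T = app (cutT c f' x) T' → cutS c f x ++ dn :: s = cutS c f' x ++ dn :: s'
   → f = f' ∧ T = T' ∧ s = s'`
  (for all `x, s, s', T, T'`). In the low case, `nil` and `cons` differ in `cutT`; for two `cons` the increments
  agree, so the two children are on the same side; child low: IH low for `ch`, then for `r`; child up: IH up
  for `ch` with `T = T' = nil`, then IH low for `r`. In the up case the first token is `dn`, `x` or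
  `u d` according to `nil`, child low, child up; use `app_assoc`.
* `cutT_vl`: for `x < c`: `vl (cutT c f x) x = (vl f x).filter (· < c) + replicate (rcompF f x c) c`; for
  `c ≤ x`: `vl (cutT c f x) c = (vl f x).filter (· < c) + replicate (rcompF f x c) c` (a child
  of label `< c` of a vertex `x ≥ c` has `x = c`, label `c-1`).
* `cutS_u`, `cutS_dn`, `cutS_x`: number of tokens of each kind: `#u + rcompF f x c = #(labels ≥ c in vl f x)`,
  `#dn = #(labels ≥ c in vl f x)`, `#x + rcompF f x c = crossF f x c`.
-/

namespace HGQ

open Polynomial Forest

/-- tokens describing the contracted components -/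
inductive Tok : Type
  | u (d : Fin 3)
  | dn
  | x
  deriving DecidableEq, Fintype

/-- is it an up token -/
def Tok.isU : Tok → Bool
  | Tok.u _ => true
  | _ => false

/-- contraction of the components of the labels `≥ c` -/
def cutT (c : ℤ) : Forest → ℤ → Forest
  | nil, _ => nil
  | cons d ch r, x =>
      if x < c ∨ x + inc d < c then cons d (cutT c ch (x + inc d)) (cutT c r x)
      else app (cutT c ch (x + inc d)) (cutT c r x)

/-- tokens of the contraction -/
def cutS (c : ℤ) : Forest → ℤ → List Tok
  | nil, _ => []
  | cons d ch r, x =>
      if x < c then
        if x + inc d < c then cutS c ch (x + inc d) ++ cutS c r x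
        else cutS c ch (x + inc d) ++ Tok.dn :: cutS c r x
      else
        if x + inc d < c then Tok.x :: (cutS c ch (x + inc d) ++ cutS c r x)
        else Tok.u d :: (cutS c ch (x + inc d) ++ Tok.dn :: cutS c r x)

end HGQ
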