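import Pool.Agent.HGQ.EApi
import Pool.Agent.HGQ.ED1

/-! # HGQ.ED1a (see the header of ED1 for the definitions and the proof) -/

namespace HGQ

open Polynomial Forest

private theorem ed1a_app_nil : ∀ f : Forest, app f nil = f
  | nil => rfl
  | cons d c r => by rw [app, ed1a_app_nil r]

private theorem ed1a_app_assoc : ∀ f g h : Forest, app (app f g) h = app f (app g h)
  | nil, g, h => rfl
  | cons d c r, g, h => by rw [app, app, app, ed1a_app_assoc r g h]

private theorem ed1a_key (c : ℤ) : ∀ (f : Forest),
    (∀ (f' : Forest) (x : ℤ) (s s' : List Tok), x < c → cutT c f x = cutT c f' x →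
      cutS c f x ++ s = cutS c f' x ++ s' → f = f' ∧ s = s') ∧
    (∀ (f' : Forest) (x : ℤ) (s s' : List Tok) (T T' : Forest), c ≤ x →
      app (cutT c f x) T = app (cutT c f' x) T' →
      cutS c f x ++ Tok.dn :: s = cutS c f' x ++ Tok.dn :: s' → f = f' ∧ T = T' ∧ s = s')
  | nil => by
      refine ⟨?_, ?_⟩
      · intro f' x s s' hx hT hS
        cases f' with
        | nil => exact ⟨rfl, by simpa [cutS] using hS⟩
        | cons d' ch' r' =>
          rw [cutT, cutT, if_pos (Or.inl hx)] at hT
          exact absurd hT (by simp)
      · intro f' x s s' T T' hx hT hS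
        cases f' with
        | nil =>
          refine ⟨rfl, by simpa [cutT, app] using hT, by simpa [cutS] using hS⟩
        | cons d' ch' r' =>
          exfalso
          have hx' : ¬ x < c := not_lt.2 hx
          rw [cutS, cutS, if_neg hx'] at hS
          split_ifs at hS <;> simp at hS
  | cons d ch r => by
      obtain ⟨hl, hu⟩ := ed1a_key c ch
      obtain ⟨rl, ru⟩ := ed1a_key c r
      refine ⟨?_, ?_⟩
      · intro f' x s s' hx hT hS
        cases f' with
        | nil =>
          rw [cutT, cutT, if_pos (Or.inl hx)] at hT
          exact absurd hT (by simp)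
        | cons d' ch' r' =>
          rw [cutT, cutT, if_pos (Or.inl hx), if_pos (Or.inl hx)] at hT
          injection hT with h1 h2 h3
          subst h1
          rw [cutS, cutS, if_pos hx, if_pos hx] at hS
          by_cases hd : x + inc d < c
          · rw [if_pos hd, if_pos hd, List.append_assoc, List.append_assoc] at hS
            obtain ⟨h4, h5⟩ := hl ch' _ _ _ hd h2 hS
            obtain ⟨h6, h7⟩ := rl r' _ _ _ hx h3 h5
            exact ⟨by rw [h4, h6], h7⟩
          · rw [if_neg hd, if_neg hd, List.append_assoc, List.append_assoc, List.cons_append,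
              List.cons_append] at hS
            obtain ⟨h4, _, h5⟩ := hu ch' _ _ _ nil nil (not_lt.1 hd) (by rw [h2]) hS
            obtain ⟨h6, h7⟩ := rl r' _ _ _ hx h3 h5
            exact ⟨by rw [h4, h6], h7⟩
      · intro f' x s s' T T' hx hT hS
        have hx' : ¬ x < c := not_lt.2 hx
        cases f' with
        | nil =>
          exfalso
          rw [cutS, cutS, if_neg hx'] at hS
          split_ifs at hS <;> simp at hS
        | cons d' ch' r' =>
          rw [cutS, cutS, if_neg hx', if_neg hx'] at hS
          by_cases hd : x + inc d < c
          · by_cases hd' : x + inc d' < c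
            · rw [cutT, cutT, if_pos (Or.inr hd), if_pos (Or.inr hd'), app, app] at hT
              injection hT with h1 h2 h3
              subst h1
              rw [if_pos hd, if_pos hd, List.cons_append, List.cons_append, List.cons.injEq,
                List.append_assoc, List.append_assoc] at hS
              obtain ⟨h4, h5⟩ := hl ch' _ _ _ hd h2 hS.2
              obtain ⟨h6, h7, h8⟩ := ru r' _ _ _ _ _ hx h3 h5
              exact ⟨by rw [h4, h6], h7, h8⟩
            · rw [if_pos hd, if_neg hd'] at hS
              simp at hS
          · by_cases hd' : x + inc d' < c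
            · rw [if_neg hd, if_pos hd'] at hS
              simp at hS
            · rw [if_neg hd, if_neg hd', List.cons_append, List.cons_append, List.cons.injEq,
                List.append_assoc, List.append_assoc, List.cons_append, List.cons_append] at hS
              obtain ⟨h0, hS⟩ := hS
              injection h0 with h0
              subst h0
              have hn : ¬ (x < c ∨ x + inc d < c) := by
                rintro (h | h)
                · exact hx' h
                · exact hd h
              rw [cutT, cutT, if_neg hn, if_neg hn, ed1a_app_assoc, ed1a_app_assoc] at hT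
              obtain ⟨h4, h5, h6⟩ := hu ch' _ _ _ _ _ (not_lt.1 hd) hT hS
              obtain ⟨h7, h8, h9⟩ := ru r' _ _ _ _ _ hx h5 h6
              exact ⟨by rw [h4, h7], h8, h9⟩

theorem cut_inj (c : ℤ) (hc : 0 < c) (f f' : Forest) (h1 : cutT c f 0 = cutT c f' 0)
    (h2 : cutS c f 0 = cutS c f' 0) : f = f' :=
  ((ed1a_key c f).1 f' 0 [] [] hc h1 (by rw [h2])).1

end HGQ
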