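import Pool.Agent.HGQ.EApi
import Pool.Agent.HGQ.ED1

/-! # HGQ.ED1b (see the header of ED1 for the definitions and the proof) -/

namespace HGQ

open Polynomial Forest

private theorem ed1b_inc_le (d : Fin 3) : inc d ≤ 1 := by
  rcases inc_cases d with h | h | h <;> omega

private theorem ed1b_le_inc (d : Fin 3) : -1 ≤ inc d := by
  rcases inc_cases d with h | h | h <;> omega

private theorem ed1b_vl (c : ℤ) : ∀ (f : Forest) (x : ℤ),
    vl (cutT c f x) (min x c) =
      (vl f x).filter (fun i => i < c) + Multiset.replicate (rcompF f x c) c
  | nil, x => by simp [cutT, vl, rcompF]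
  | cons d ch r, x => by
    have h1 := ed1b_inc_le d
    have h2 := ed1b_le_inc d
    have ih1 := ed1b_vl c ch (x + inc d)
    have ih2 := ed1b_vl c r x
    by_cases hx : x < c
    · rw [min_eq_left hx.le] at ih2 ⊢
      by_cases hy : x + inc d < c
      · rw [min_eq_left hy.le] at ih1
        rw [cutT, if_pos (Or.inl hx), vl, vl, rcompF, if_neg (by omega), ih1, ih2,
          Multiset.filter_cons_of_pos (p := fun i => i < c) _ hy, Multiset.filter_add, zero_add,
          Multiset.replicate_add, Multiset.cons_add, Multiset.cons_inj_right]
        abel
      · have hyc : x + inc d = c := by omega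
        rw [min_eq_right (by omega), ← hyc] at ih1
        rw [hyc] at ih1
        rw [cutT, if_pos (Or.inl hx), vl, vl, rcompF, if_pos (by omega), hyc, ih1, ih2,
          Multiset.filter_cons_of_neg _ (by omega), Multiset.filter_add,
          Multiset.replicate_add, Multiset.replicate_add, Multiset.replicate_one,
          ← Multiset.singleton_add]
        abel
    · rw [min_eq_right (by omega)] at ih2 ⊢
      by_cases hy : x + inc d < c
      · have hyc : x = c := by omega
        subst hyc
        rw [min_eq_left hy.le] at ih1
        rw [cutT, if_pos (Or.inr hy), vl, vl, rcompF, if_neg (by omega), ih1, ih2,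
          Multiset.filter_cons_of_pos (p := fun i => i < x) _ hy, Multiset.filter_add, zero_add,
          Multiset.replicate_add, Multiset.cons_add, Multiset.cons_inj_right]
        abel
      · rw [min_eq_right (by omega)] at ih1
        rw [cutT, if_neg (by omega), vl_app, vl, rcompF, if_neg (by omega), ih1, ih2,
          Multiset.filter_cons_of_neg _ (by omega), Multiset.filter_add, zero_add,
          Multiset.replicate_add]
        abel

theorem cutT_tl (c : ℤ) (hc : 0 < c) (f : Forest) :
    tl (cutT c f 0) = (tl f).filter (fun i => i < c) + Multiset.replicate (rcomp f c) c := by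
  have h := ed1b_vl c f 0
  rw [min_eq_left hc.le] at h
  rw [tl, h, tl, Multiset.filter_cons_of_pos (p := fun i => i < c) _ hc, Multiset.cons_add]
  rfl

/-- every component of the labels `≥ c` has a vertex of label `c` -/
theorem rcomp_le_mul (c : ℤ) (hc : 0 < c) (f : Forest) : rcomp f c ≤ f.mul c := by
  have key : ∀ (f : Forest) (x : ℤ), rcompF f x c ≤ cnt f x c := by
    intro f
    induction f with
    | nil => intro x; simp [rcompF]
    | cons d ch r ih1 ih2 =>
      intro x
      have h1 := ed1b_inc_le d
      have := ih1 (x + inc d)
      have := ih2 x
      rw [rcompF, cnt]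
      split_ifs <;> omega
  have := key f 0
  rw [mul, rcomp]
  omega

theorem rcomp_le_cross (c : ℤ) (f : Forest) : rcomp f c ≤ cross f c := by
  have key : ∀ (f : Forest) (x : ℤ), rcompF f x c ≤ crossF f x c := by
    intro f
    induction f with
    | nil => intro x; simp [rcompF]
    | cons d ch r ih1 ih2 =>
      intro x
      have := ih1 (x + inc d)
      have := ih2 x
      rw [rcompF, crossF]
      split_ifs <;> omega
  exact key f 0

private theorem ed1b_up (c : ℤ) (hc : 0 < c) (f : Forest) :
    up f c = (vl f 0).countP (fun i => c ≤ i) := by
  rw [up, tl, Multiset.countP_cons_of_neg _ (by omega)]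

/-- if there is a vertex of label `≥ c > 0` then there is a component -/
theorem rcomp_pos (c : ℤ) (hc : 0 < c) (f : Forest) (h : 0 < up f c) : 0 < rcomp f c := by
  have key : ∀ (f : Forest) (x : ℤ), x < c → 0 < (vl f x).countP (fun i => c ≤ i) →
      0 < rcompF f x c := by
    intro f
    induction f with
    | nil => intro x _ h; simp [vl] at h
    | cons d ch r ih1 ih2 =>
      intro x hx h
      rw [vl, Multiset.countP_cons, Multiset.countP_add] at h
      rw [rcompF]
      by_cases hy : c ≤ x + inc d
      · rw [if_pos ⟨hx, hy⟩]; omega
      · rw [if_neg hy] at h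
        have := ih1 (x + inc d) (by omega)
        have := ih2 x hx
        omega
  rw [ed1b_up c hc] at h
  exact key f 0 hc h

theorem cutT_edges (c : ℤ) (hc : 0 < c) (f : Forest) :
    (cutT c f 0).edges + up f c = f.edges + rcomp f c := by
  have h := congrArg Multiset.card (ed1b_vl c f 0)
  rw [card_vl, Multiset.card_add, Multiset.card_replicate] at h
  have h2 : (vl f 0).card = ((vl f 0).filter (fun i => i < c)).card +
      ((vl f 0).filter (fun i => c ≤ i)).card := by
    rw [← Multiset.card_add]
    congr 1
    have h3 := Multiset.filter_add_not (fun i : ℤ => i < c) (vl f 0)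
    simp only [not_lt] at h3
    exact h3.symm
  rw [card_vl, ← Multiset.countP_eq_card_filter (fun i => c ≤ i), ← ed1b_up c hc] at h2
  rw [rcomp]
  omega

theorem cutS_u (c : ℤ) (hc : 0 < c) (f : Forest) :
    (cutS c f 0).countP (fun t => t.isU) + rcomp f c = up f c := by
  have key : ∀ (f : Forest) (x : ℤ), (cutS c f x).countP (fun t => t.isU) + rcompF f x c =
      (vl f x).countP (fun i => c ≤ i) := by
    intro f
    induction f with
    | nil => intro x; simp [cutS, rcompF, vl]
    | cons d ch r ih1 ih2 =>
      intro x
      have e1 := ih1 (x + inc d)
      have e2 := ih2 x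
      rw [vl, Multiset.countP_cons, Multiset.countP_add, rcompF, cutS, ← e1, ← e2]
      by_cases hx : x < c <;> by_cases hy : x + inc d < c
      · rw [if_pos hx, if_pos hy, if_neg (by omega), if_neg (by omega), List.countP_append]
        omega
      · rw [if_pos hx, if_neg hy, if_pos (by omega), if_pos (by omega), List.countP_append,
          List.countP_cons_of_neg (by simp [Tok.isU])]
        omega
      · rw [if_neg hx, if_pos hy, if_neg (by omega), if_neg (by omega),
          List.countP_cons_of_neg (by simp [Tok.isU]), List.countP_append]
        omega
      · rw [if_neg hx, if_neg hy, if_neg (by omega), if_pos (by omega),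
          List.countP_cons_of_pos (by simp [Tok.isU]), List.countP_append,
          List.countP_cons_of_neg (by simp [Tok.isU])]
        omega
  rw [ed1b_up c hc]
  exact key f 0

theorem cutS_dn (c : ℤ) (hc : 0 < c) (f : Forest) : (cutS c f 0).count Tok.dn = up f c := by
  have key : ∀ (f : Forest) (x : ℤ), (cutS c f x).count Tok.dn =
      (vl f x).countP (fun i => c ≤ i) := by
    intro f
    induction f with
    | nil => intro x; simp [cutS, vl]
    | cons d ch r ih1 ih2 =>
      intro x
      have e1 := ih1 (x + inc d)
      have e2 := ih2 x
      rw [vl, Multiset.countP_cons, Multiset.countP_add, cutS, ← e1, ← e2]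
      by_cases hx : x < c <;> by_cases hy : x + inc d < c
      · rw [if_pos hx, if_pos hy, if_neg (by omega), List.count_append]
        omega
      · rw [if_pos hx, if_neg hy, if_pos (by omega), List.count_append, List.count_cons_self]
        omega
      · rw [if_neg hx, if_pos hy, if_neg (by omega), List.count_cons_of_ne (by simp),
          List.count_append]
        omega
      · rw [if_neg hx, if_neg hy, if_pos (by omega), List.count_cons_of_ne (by simp),
          List.count_append, List.count_cons_self]
        omega
  rw [ed1b_up c hc]
  exact key f 0

theorem cutS_x (c : ℤ) (hc : 0 < c) (f : Forest) :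
    (cutS c f 0).count Tok.x + rcomp f c = cross f c := by
  have key : ∀ (f : Forest) (x : ℤ), (cutS c f x).count Tok.x + rcompF f x c = crossF f x c := by
    intro f
    induction f with
    | nil => intro x; simp [cutS, rcompF, crossF]
    | cons d ch r ih1 ih2 =>
      intro x
      have e1 := ih1 (x + inc d)
      have e2 := ih2 x
      rw [crossF, rcompF, cutS, ← e1, ← e2]
      by_cases hx : x < c <;> by_cases hy : x + inc d < c
      · rw [if_pos hx, if_pos hy, if_neg (by omega), if_neg (by omega), List.count_append]
        omega
      · rw [if_pos hx, if_neg hy, if_pos (by omega), if_pos (by omega), List.count_append,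
          List.count_cons_of_ne (by simp)]
        omega
      · rw [if_neg hx, if_pos hy, if_neg (by omega), if_pos (by omega), List.count_cons_self,
          List.count_append]
        omega
      · rw [if_neg hx, if_neg hy, if_neg (by omega), if_neg (by omega),
          List.count_cons_of_ne (by simp), List.count_append, List.count_cons_of_ne (by simp)]
        omega
  exact key f 0

end HGQ
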