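import Pool.Agent.HGQ.EApi
import Pool.Agent.HGQ.ED1

/-! # HGQ.ED2 : number of token strings

`weights_le`: `w : α → ℝ`, `w ≥ 0`, `∑ w ≤ 1` (finite alphabet), `T` a finset of lists all of the same length `L`:
`∑_{l ∈ T} (l.map w).prod ≤ 1` (induction on `L`, group by the first letter).
`tok_card`: `w (u d) = (1-y)/6`, `w dn = (1-y)/2`, `w x = y`; every list in `T` has weight
`((1-y)/6)^k ((1-y)/2)^M y^j` and length `k + M + j`.
-/

namespace HGQ

theorem weights_le {α : Type*} [Fintype α] [DecidableEq α] (w : α → ℝ) (h0 : ∀ a, 0 ≤ w a)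
    (h1 : ∑ a, w a ≤ 1) (L : ℕ) (T : Finset (List α)) (hT : ∀ l ∈ T, l.length = L) :
    ∑ l ∈ T, (l.map w).prod ≤ 1 := by
  have hpos : ∀ l : List α, 0 ≤ (l.map w).prod := by
    intro l
    induction l with
    | nil => simp
    | cons a l ih =>
      rw [List.map_cons, List.prod_cons]
      exact mul_nonneg (h0 a) ih
  induction L generalizing T with
  | zero =>
    have hsub : T ⊆ {([] : List α)} := by
      intro l hl
      rw [Finset.mem_singleton]
      exact List.length_eq_zero_iff.1 (hT l hl)
    refine (Finset.sum_le_sum_of_subset_of_nonneg hsub fun l _ _ => hpos l).trans ?_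
    simp
  | succ L ih =>
    have hsub : T ⊆ (Finset.univ ×ˢ T.image List.tail).image (fun q : α × List α => q.1 :: q.2) := by
      intro l hl
      have hlen := hT l hl
      cases l with
      | nil => simp at hlen
      | cons a l' =>
        rw [Finset.mem_image]
        exact ⟨(a, l'), Finset.mem_product.2 ⟨Finset.mem_univ _, Finset.mem_image.2 ⟨a :: l', hl, rfl⟩⟩, rfl⟩
    refine (Finset.sum_le_sum_of_subset_of_nonneg hsub fun l _ _ => hpos l).trans ?_
    rw [Finset.sum_image (by
      rintro ⟨a, l⟩ _ ⟨b, l'⟩ _ h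
      simp only [List.cons.injEq] at h
      exact Prod.ext h.1 h.2)]
    rw [Finset.sum_product]
    have h2 : ∑ l ∈ T.image List.tail, (l.map w).prod ≤ 1 := by
      apply ih
      intro l hl
      obtain ⟨l', hl', rfl⟩ := Finset.mem_image.1 hl
      rw [List.length_tail, hT l' hl']
      rfl
    have h3 : ∑ a : α, ∑ l ∈ T.image List.tail, (((a, l) : α × List α).1 :: ((a, l) : α × List α).2 |>.map w).prod =
        (∑ a, w a) * ∑ l ∈ T.image List.tail, (l.map w).prod := by
      rw [Finset.sum_mul]
      apply Finset.sum_congr rfl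
      intro a _
      rw [Finset.mul_sum]
      apply Finset.sum_congr rfl
      intro l _
      rw [List.map_cons, List.prod_cons]
    rw [h3]
    have h4 : 0 ≤ ∑ l ∈ T.image List.tail, (l.map w).prod := Finset.sum_nonneg fun l _ => hpos l
    calc (∑ a, w a) * ∑ l ∈ T.image List.tail, (l.map w).prod
        ≤ 1 * ∑ l ∈ T.image List.tail, (l.map w).prod := mul_le_mul_of_nonneg_right h1 h4
      _ ≤ 1 := by rw [one_mul]; exact h2

private noncomputable def tokW (y : ℝ) : Tok → ℝ
  | Tok.u _ => (1 - y) / 6
  | Tok.dn => (1 - y) / 2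
  | Tok.x => y

private theorem tokW_prod (y : ℝ) (l : List Tok) :
    (l.map (tokW y)).prod = ((1 - y) / 6) ^ (l.countP (fun t => t.isU)) *
      ((1 - y) / 2) ^ (l.count Tok.dn) * y ^ (l.count Tok.x) := by
  induction l with
  | nil => simp
  | cons a l ih =>
    rw [List.map_cons, List.prod_cons, ih, List.countP_cons, List.count_cons, List.count_cons]
    cases a with
    | u d =>
      have e1 : (Tok.u d).isU = true := rfl
      have e2 : ((Tok.u d == Tok.dn) : Bool) = false := by simp
      have e3 : ((Tok.u d == Tok.x) : Bool) = false := by simp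
      simp only [e1, e2, e3, tokW, if_true, Bool.false_eq_true, if_false, add_zero, pow_succ]
      ring
    | dn =>
      have e1 : (Tok.dn).isU = false := rfl
      have e2 : ((Tok.dn == Tok.dn) : Bool) = true := by simp
      have e3 : ((Tok.dn == Tok.x) : Bool) = false := by decide
      simp only [e1, e2, e3, tokW, if_true, Bool.false_eq_true, if_false, add_zero, pow_succ]
      ring
    | x =>
      have e1 : (Tok.x).isU = false := rfl
      have e2 : ((Tok.x == Tok.dn) : Bool) = false := by decide
      have e3 : ((Tok.x == Tok.x) : Bool) = true := by simp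
      simp only [e1, e2, e3, tokW, if_true, Bool.false_eq_true, if_false, add_zero, pow_succ]
      ring

private theorem tok_length (l : List Tok) :
    l.length = l.countP (fun t => t.isU) + l.count Tok.dn + l.count Tok.x := by
  induction l with
  | nil => simp
  | cons a l ih =>
    rw [List.length_cons, ih, List.countP_cons, List.count_cons, List.count_cons]
    cases a with
    | u d =>
      have e1 : (Tok.u d).isU = true := rfl
      have e2 : ((Tok.u d == Tok.dn) : Bool) = false := by simp
      have e3 : ((Tok.u d == Tok.x) : Bool) = false := by simp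
      simp only [e1, e2, e3, if_true, Bool.false_eq_true, if_false, add_zero]
      omega
    | dn =>
      have e1 : (Tok.dn).isU = false := rfl
      have e2 : ((Tok.dn == Tok.dn) : Bool) = true := by simp
      have e3 : ((Tok.dn == Tok.x) : Bool) = false := by decide
      simp only [e1, e2, e3, if_true, Bool.false_eq_true, if_false, add_zero]
      omega
    | x =>
      have e1 : (Tok.x).isU = false := rfl
      have e2 : ((Tok.x == Tok.dn) : Bool) = false := by decide
      have e3 : ((Tok.x == Tok.x) : Bool) = true := by simp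
      simp only [e1, e2, e3, if_true, Bool.false_eq_true, if_false, add_zero]
      omega

private def tokEquiv : Tok ≃ (Fin 3 ⊕ Fin 2) where
  toFun
    | Tok.u d => Sum.inl d
    | Tok.dn => Sum.inr 0
    | Tok.x => Sum.inr 1
  invFun
    | Sum.inl d => Tok.u d
    | Sum.inr 0 => Tok.dn
    | Sum.inr 1 => Tok.x
  left_inv t := by cases t <;> rfl
  right_inv t := by
    rcases t with d | d
    · rfl
    · fin_cases d <;> rfl

private theorem tokW_sum (y : ℝ) : ∑ t, tokW y t = 1 := by
  rw [← tokEquiv.symm.sum_comp, Fintype.sum_sum_type, Fin.sum_univ_three, Fin.sum_univ_two]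
  show (1 - y) / 6 + (1 - y) / 6 + (1 - y) / 6 + ((1 - y) / 2 + y) = 1
  ring

theorem tok_card (y : ℝ) (hy : 0 < y) (hy1 : y < 1) (T : Finset (List Tok)) (k M j : ℕ)
    (h : ∀ l ∈ T, l.countP (fun t => t.isU) = k ∧ l.count Tok.dn = M ∧ l.count Tok.x = j) :
    (T.card : ℝ) ≤ (6 / (1 - y)) ^ k * (2 / (1 - y)) ^ M * (1 / y) ^ j := by
  have hy' : 0 < 1 - y := by linarith
  have h0 : ∀ t, 0 ≤ tokW y t := by
    intro t
    cases t with
    | u d => show 0 ≤ (1 - y) / 6; positivity
    | dn => show 0 ≤ (1 - y) / 2; positivity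
    | x => exact hy.le
  have h1 := weights_le (tokW y) h0 (tokW_sum y).le (k + M + j) T (by
    intro l hl
    obtain ⟨a, b, c⟩ := h l hl
    rw [tok_length, a, b, c])
  have h2 : ∑ l ∈ T, (l.map (tokW y)).prod = T.card * (((1 - y) / 6) ^ k * ((1 - y) / 2) ^ M * y ^ j) := by
    rw [← nsmul_eq_mul, ← Finset.sum_const]
    apply Finset.sum_congr rfl
    intro l hl
    obtain ⟨a, b, c⟩ := h l hl
    rw [tokW_prod, a, b, c]
  rw [h2] at h1
  have h3 : 0 < ((1 - y) / 6) ^ k * ((1 - y) / 2) ^ M * y ^ j := by positivity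
  have h4 : (T.card : ℝ) ≤ 1 / (((1 - y) / 6) ^ k * ((1 - y) / 2) ^ M * y ^ j) := by
    rw [le_div_iff₀ h3]
    exact h1
  refine h4.trans (le_of_eq ?_)
  rw [one_div, mul_inv, mul_inv, ← inv_pow, ← inv_pow, ← inv_pow, inv_div, inv_div, one_div]

end HGQ
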