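import Pool.Agent.HGQ.EApi
import Pool.Agent.HGQ.EA4
import Pool.Agent.HGQ.EC1
import Pool.Agent.HGQ.ED1a
import Pool.Agent.HGQ.ED1b
import Pool.Agent.HGQ.ED2

/-! # HGQ.ED3 : the sum over the forests with given data at a level `c ≥ 1`

Let `M = up f c`, `r = rcomp f c ≥ 1` (`rcomp_pos`), `J = cross f c`, `k = M - r`, `T = cutT c f 0 ∈ forests (n-k)` (`cutT_edges`).
`cut_weight`: `P (tl f) = P (low) * P (upper)` with `low = (tl f).filter (< c)`, `upper = (tl f).filter (c ≤ ·)`
(`P_add_of_disjoint`), `card upper = M`, `r ≤ count c upper` (`rcomp_le_mul`), so by `P_red` with `K = M^2`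
`P (tl f) ⪯ Rd (M^2) k * (P low * A r) + Rd' (M^2) k * (P low * A (r+1))` and
`P low * A r = P (tl T)`, `P low * A (r+1) = P (c ::ₘ tl T)` (`cutT_tl`, `P_replicate`).
`cut_sum`: `f ↦ (T, cutS c f 0)` is injective (`cut_inj`); for given `T` the lists satisfy the hypothesis of
`tok_card` with `(k, M, J - r)`; so
`∑_f W g f ≤ B * ∑_{T ∈ forests (n-k), c ∈ labels T} (coefficient of the right side of cut_weight)`, `B = (6/(1-y))^k (2/(1-y))^M (1/y)^(J-r)`;
finally `∑_T (P (tl T)).coeff g' ≤ S (n-k) g'` and `extra_point` (`n - k ≥ 1` because `c ≥ 1` is a label of `T`;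
if there is no such `T` the sum is empty).
-/

namespace HGQ

open Polynomial Forest

private theorem ed3_low (c : ℤ) (s : Multiset ℤ) (m : ℕ) :
    P (s.filter (fun i => i < c) + Multiset.replicate m c) = P (s.filter (fun i => i < c)) * A m := by
  rw [P_add_of_disjoint, P_replicate]
  intro x hx hx'
  have h1 := (Multiset.mem_filter.1 hx).2
  have h2 := Multiset.eq_of_mem_replicate hx'
  rw [h2] at h1
  exact lt_irrefl _ h1

theorem cut_weight (c : ℤ) (hc : 0 < c) (f : Forest) (h : 0 < up f c) :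
    Cle (P (tl f)) (Rd ((up f c) ^ 2) (up f c - rcomp f c) * P (tl (cutT c f 0))
      + Rd' ((up f c) ^ 2) (up f c - rcomp f c) * P (c ::ₘ tl (cutT c f 0))) := by
  have h0 : (tl f).filter (fun i => i < c) + (tl f).filter (fun i => c ≤ i) = tl f := by
    have := Multiset.filter_add_not (fun i : ℤ => i < c) (tl f)
    simpa only [not_lt] using this
  have h1 : P (tl f) = P ((tl f).filter (fun i => i < c)) * P ((tl f).filter (fun i => c ≤ i)) := by
    conv_lhs => rw [← h0]
    rw [P_add_of_disjoint]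
    intro x hx hx'
    have h1 := (Multiset.mem_filter.1 hx).2
    have h2 := (Multiset.mem_filter.1 hx').2
    exact absurd h2 (not_le.2 h1)
  have h2 : ((tl f).filter (fun i => c ≤ i)).card = up f c := by
    rw [up, Multiset.countP_eq_card_filter]
  have h3 : ((tl f).filter (fun i => c ≤ i)).count c = f.mul c := by
    rw [Multiset.count_filter_of_pos (le_refl c), count_tl]
  have h4 := P_red ((tl f).filter (fun i => c ≤ i)) c (rcomp f c) ((up f c) ^ 2)
    (by rw [h3]; exact rcomp_le_mul c hc f) (by rw [h2])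
  rw [h2] at h4
  have h5 : P (tl (cutT c f 0)) = P ((tl f).filter (fun i => i < c)) * A (rcomp f c) := by
    rw [cutT_tl c hc, ed3_low]
  have h6 : P (c ::ₘ tl (cutT c f 0)) =
      P ((tl f).filter (fun i => i < c)) * A (rcomp f c + 1) := by
    rw [cutT_tl c hc, ← Multiset.add_cons, ← Multiset.replicate_succ, ed3_low]
  rw [h1, h5, h6]
  refine ((Cle.refl (P ((tl f).filter (fun i => i < c)))).mul h4).trans ?_
  intro k
  refine le_of_eq ?_
  congr 1
  ring

private theorem ed3_fiber (n M r J : ℕ) (c : ℤ) (hc : 0 < c) (y : ℝ) (hy : 0 < y)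
    (hy1 : y < 1) (T : Forest) :
    ((((forests n).filter (fun f => up f c = M ∧ rcomp f c = r ∧ cross f c = J)).filter
      (fun f => cutT c f 0 = T)).card : ℝ) ≤
      (6 / (1 - y)) ^ (M - r) * (2 / (1 - y)) ^ M * (1 / y) ^ (J - r) := by
  set F := ((forests n).filter (fun f => up f c = M ∧ rcomp f c = r ∧ cross f c = J)).filter
      (fun f => cutT c f 0 = T) with hF
  have h1 : (F.image (fun f => cutS c f 0)).card = F.card := by
    apply Finset.card_image_of_injOn
    intro f hf f' hf' h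
    rw [Finset.mem_coe, hF, Finset.mem_filter] at hf hf'
    exact cut_inj c hc f f' (by rw [hf.2, hf'.2]) h
  rw [← h1]
  apply tok_card y hy hy1
  intro l hl
  obtain ⟨f, hf, rfl⟩ := Finset.mem_image.1 hl
  rw [hF, Finset.mem_filter, Finset.mem_filter] at hf
  obtain ⟨⟨_, hM, hr, hJ⟩, _⟩ := hf
  have e1 := cutS_u c hc f
  have e2 := cutS_dn c hc f
  have e3 := cutS_x c hc f
  rw [hM, hr] at e1
  rw [hM] at e2
  rw [hJ, hr] at e3
  exact ⟨by omega, e2, by omega⟩

theorem cut_sum (n g M r J : ℕ) (c : ℤ) (hc : 0 < c) (hM : 0 < M) (y : ℝ) (hy : 0 < y)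
    (hy1 : y < 1) :
    ∑ f ∈ (forests n).filter (fun f => up f c = M ∧ rcomp f c = r ∧ cross f c = J), (W g f : ℝ)
      ≤ (6 / (1 - y)) ^ (M - r) * (2 / (1 - y)) ^ M * (1 / y) ^ (J - r) *
        (∑ i ∈ Finset.range ((M - r) / 2 + 1),
            (if i ≤ g then ((M - r).choose i : ℝ) * ((M : ℝ) ^ 2) ^ i * (S (n - (M - r)) (g - i) : ℝ)
              else 0)
          + ∑ i ∈ Finset.range ((M - r + 1) / 2),
            (if i ≤ g then ((M - r).choose i : ℝ) * ((M : ℝ) ^ 2) ^ i
              * (2 * n * (S (n - (M - r) + 1) (g - i) : ℝ)) else 0)) := by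
  have hy' : 0 < 1 - y := by linarith
  set B : ℝ := (6 / (1 - y)) ^ (M - r) * (2 / (1 - y)) ^ M * (1 / y) ^ (J - r) with hB
  have hB0 : 0 ≤ B := by positivity
  set F := (forests n).filter (fun f => up f c = M ∧ rcomp f c = r ∧ cross f c = J) with hF
  set Φ : Forest → ℕ := fun T => (Rd (M ^ 2) (M - r) * P (tl T)
    + Rd' (M ^ 2) (M - r) * P (c ::ₘ tl T)).coeff g with hΦ
  set G := (forests (n - (M - r))).filter (fun f => c ∈ f.labels) with hG
  -- the terms
  have h1 : ∀ f ∈ F, (W g f : ℝ) ≤ (Φ (cutT c f 0) : ℝ) := by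
    intro f hf
    rw [hF, Finset.mem_filter] at hf
    obtain ⟨_, hM', hr, hJ⟩ := hf
    have h2 := cut_weight c hc f (by rw [hM']; exact hM) g
    rw [hM', hr, ← W_eq] at h2
    exact_mod_cast h2
  -- the images
  have h2 : ∀ f ∈ F, cutT c f 0 ∈ G := by
    intro f hf
    rw [hF, Finset.mem_filter, mem_forests] at hf
    obtain ⟨hn, hM', hr, hJ⟩ := hf
    have e1 := cutT_edges c hc f
    have e2 := cutS_u c hc f
    have e3 := rcomp_pos c hc f (by rw [hM']; exact hM)
    rw [hG, Finset.mem_filter, mem_forests, mem_labels]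
    constructor
    · rw [hM', hr, hn] at e1
      rw [hM', hr] at e2
      omega
    · rw [← count_tl, cutT_tl c hc, Multiset.count_add, Multiset.count_replicate_self]
      omega
  have h3 : ∑ f ∈ F, (W g f : ℝ) ≤ B * ∑ T ∈ G, (Φ T : ℝ) := by
    calc ∑ f ∈ F, (W g f : ℝ) ≤ ∑ f ∈ F, (Φ (cutT c f 0) : ℝ) := Finset.sum_le_sum h1
      _ = ∑ T ∈ G, ∑ f ∈ F.filter (fun f => cutT c f 0 = T), (Φ (cutT c f 0) : ℝ) :=
          (Finset.sum_fiberwise_of_maps_to h2 _).symm
      _ ≤ ∑ T ∈ G, B * (Φ T : ℝ) := by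
          refine Finset.sum_le_sum fun T _ => ?_
          have e : ∑ f ∈ F.filter (fun f => cutT c f 0 = T), (Φ (cutT c f 0) : ℝ) =
              ∑ f ∈ F.filter (fun f => cutT c f 0 = T), (Φ T : ℝ) :=
            Finset.sum_congr rfl fun f hf => by rw [(Finset.mem_filter.1 hf).2]
          rw [e, Finset.sum_const, nsmul_eq_mul]
          exact mul_le_mul_of_nonneg_right (ed3_fiber n M r J c hc y hy hy1 T) (Nat.cast_nonneg _)
      _ = B * ∑ T ∈ G, (Φ T : ℝ) := by rw [Finset.mul_sum]
  refine h3.trans (mul_le_mul_of_nonneg_left ?_ hB0)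
  -- the sum over the contracted forests
  have h4 : ∀ g', ∑ T ∈ G, (P (tl T)).coeff g' ≤ S (n - (M - r)) g' := by
    intro g'
    unfold S
    rw [Finset.sum_congr rfl fun f _ => W_eq g' f]
    exact Finset.sum_le_sum_of_subset (Finset.filter_subset _ _)
  have h5 : ∀ g', ∑ T ∈ G, (P (c ::ₘ tl T)).coeff g' ≤ 2 * n * S (n - (M - r) + 1) g' := by
    intro g'
    rcases Nat.eq_zero_or_pos (n - (M - r)) with h0 | h0
    · have hG0 : G = ∅ := by
        rw [hG, h0, Finset.filter_eq_empty_iff]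
        intro f hf hcf
        rw [mem_forests] at hf
        cases f with
        | nil =>
          rw [mem_labels] at hcf
          simp [mul, cnt, hc.ne'] at hcf
        | cons d ch r => simp [edges] at hf
      rw [hG0, Finset.sum_empty]
      exact Nat.zero_le _
    · refine (extra_point (n - (M - r)) g' h0 c).trans ?_
      refine Nat.mul_le_mul_right _ ?_
      omega
  have h6 : ∀ T, (Φ T : ℝ) =
      ∑ i ∈ Finset.range ((M - r) / 2 + 1),
        (if i ≤ g then ((M - r).choose i : ℝ) * ((M : ℝ) ^ 2) ^ i * ((P (tl T)).coeff (g - i) : ℝ)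
          else 0)
      + ∑ i ∈ Finset.range ((M - r + 1) / 2),
        (if i ≤ g then ((M - r).choose i : ℝ) * ((M : ℝ) ^ 2) ^ i *
          ((P (c ::ₘ tl T)).coeff (g - i) : ℝ) else 0) := by
    intro T
    rw [hΦ]
    beta_reduce
    rw [coeff_add, Rd_mul_coeff, Rd'_mul_coeff]
    push_cast
    rfl
  rw [Finset.sum_congr rfl fun T _ => h6 T, Finset.sum_add_distrib]
  refine add_le_add ?_ ?_
  · rw [Finset.sum_comm]
    refine Finset.sum_le_sum fun i _ => ?_
    by_cases hi : i ≤ g
    · simp only [if_pos hi]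
      rw [← Finset.mul_sum]
      refine mul_le_mul_of_nonneg_left ?_ (by positivity)
      exact_mod_cast h4 (g - i)
    · simp only [if_neg hi, Finset.sum_const_zero]
      exact le_rfl
  · rw [Finset.sum_comm]
    refine Finset.sum_le_sum fun i _ => ?_
    by_cases hi : i ≤ g
    · simp only [if_pos hi]
      rw [← Finset.mul_sum]
      refine mul_le_mul_of_nonneg_left ?_ (by positivity)
      exact_mod_cast h5 (g - i)
    · simp only [if_neg hi, Finset.sum_const_zero]
      exact le_rfl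

end HGQ
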