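import Pool.Agent.HGQ.EApi
import Pool.Agent.HGQ.EC4
import Pool.Agent.HGQ.ED3

/-! # HGQ.ED4 : no small bottleneck (E3)

Let `lam, c₂, N` be given by `path` for `θ/2`. Let `0 < M ≤ η n`, `J ≤ ε M`, `1 ≤ r ≤ J` (otherwise the set is empty), `k = M - r`;
`η ≤ min(θ, 1/2)`, so `n - k ≥ n/2`, `g - i ≥ θ n - M/2 ≥ (θ/2) n` for `2i ≤ k`, and by `path`
(from `(n-k, g-i)` with `a = k-2i`, resp. from `(n-k+1, g-i)` with `a = k-1-2i`):
`S (n-k) (g-i) ≤ S n g / ((12 lam)^{k-2i} (c₂ n²/4)^i)`, `S (n-k+1) (g-i) ≤ S n g / ((12 lam)^{k-1-2i} (c₂n²/4)^i)`. Hence the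
right side of `cut_sum` is at most
`B (1 + 24 lam n) (12 lam)^{-k} ∑_i C(k,i) (M² 144 lam² 4/(c₂ n²))^i S n g ≤ B (1 + 24 lam n) (12 lam)^{-k} (1 + 576 lam² η²/c₂)^k S n g`
and `B = (6/(1-y))^k (2/(1-y))^M (1/y)^{J-r} ≤ (12/(1-y)²)^k (1/y)^J` if `y ≤ 1/3` (`2/(1-y) ≤ 1/y`, `M = k + r`).
Choose `y ≤ 1/3` with `(1-y)^{-2} ≤ lam^{1/4}`, `η` with `1 + 576 lam² η²/c₂ ≤ lam^{1/4}`, so that the product is
`≤ (1 + 24 lam n) lam^{-k/2} y^{-J} S n g` with `k ≥ (1-ε) M`, `J ≤ ε M`; choose `ε ≤ 1/4` with `lam^{ε/2} y^{-ε} ≤ lam^{1/4}`: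
`≤ (1 + 24 lam n) lam^{-M/4} S n g`. Sum over `r, J ≤ M ≤ n`: factor `(n+1)^2`. (`lam' = lam^{1/4}`, `C = 4 (1 + 24 lam)` or so.)
-/

namespace HGQ

open Polynomial Forest

private theorem ED4_term {L D m q S' S0 : ℝ} {k i : ℕ} (hL : 0 < L) (hD : 0 < D) (hm : 0 ≤ m)
    (hS' : 0 ≤ S') (hq : L ^ 2 * m / D ≤ q) (hi : 2 * i ≤ k)
    (h : L ^ (k - 2 * i) * D ^ i * S' ≤ S0) :
    L ^ k * (m ^ i * S') ≤ q ^ i * S0 := by
  have h1 : L ^ k = L ^ (k - 2 * i) * (L ^ 2) ^ i := by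
    rw [← pow_mul, ← pow_add]
    congr 1
    omega
  have hX : 0 ≤ L ^ 2 * m / D := by positivity
  have h2 : L ^ k * (m ^ i * S') = (L ^ 2 * m / D) ^ i * (L ^ (k - 2 * i) * D ^ i * S') := by
    rw [h1, div_pow, mul_pow]
    have hD' : D ^ i ≠ 0 := pow_ne_zero _ hD.ne'
    field_simp
  rw [h2]
  exact mul_le_mul (pow_le_pow_left₀ hX hq i) h (by positivity) (pow_nonneg (hX.trans hq) _)

private theorem ED4_sum {q S0 : ℝ} (k R : ℕ) (hR : R ≤ k + 1) (u : ℕ → ℝ) (hq : 0 ≤ q)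
    (hS0 : 0 ≤ S0) (h : ∀ i < R, u i ≤ (k.choose i : ℝ) * (q ^ i * S0)) :
    ∑ i ∈ Finset.range R, u i ≤ (1 + q) ^ k * S0 := by
  calc ∑ i ∈ Finset.range R, u i
      ≤ ∑ i ∈ Finset.range R, (k.choose i : ℝ) * (q ^ i * S0) :=
        Finset.sum_le_sum fun i hi => h i (Finset.mem_range.1 hi)
    _ ≤ ∑ i ∈ Finset.range (k + 1), (k.choose i : ℝ) * (q ^ i * S0) :=
        Finset.sum_le_sum_of_subset_of_nonneg (Finset.range_subset_range.2 hR)
          fun i _ _ => by positivity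
    _ = (1 + q) ^ k * S0 := by
        rw [add_comm 1 q, add_pow, Finset.sum_mul]
        refine Finset.sum_congr rfl fun i _ => ?_
        rw [one_pow]
        ring

private theorem ED4_ratio {lam c₂ η x n₀ n : ℝ} (hlam : 0 < lam) (hc₂ : 0 < c₂) (hη : 0 < η)
    (hx0 : 0 ≤ x) (hn₀ : 0 < n₀) (hx : x ≤ η * n) (hn : n ≤ 2 * n₀) :
    (12 * lam) ^ 2 * x ^ 2 / (c₂ * n₀ ^ 2) ≤ 576 * lam ^ 2 * η ^ 2 / c₂ := by
  have h1 : x ≤ 2 * η * n₀ := by nlinarith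
  have h2 : x ^ 2 ≤ (2 * η * n₀) ^ 2 := pow_le_pow_left₀ hx0 h1 2
  rw [div_le_div_iff₀ (by positivity) hc₂]
  have h3 : 0 ≤ 144 * lam ^ 2 * c₂ := by positivity
  nlinarith [mul_le_mul_of_nonneg_left h2 h3]

private theorem ED4_B {y : ℝ} (hy : 0 < y) (hy3 : y ≤ 1 / 3) {M r J : ℕ} (hr : r ≤ J) (hJ : J ≤ M) :
    (6 / (1 - y)) ^ (M - r) * (2 / (1 - y)) ^ M * (1 / y) ^ (J - r)
      ≤ (12 / (1 - y) ^ 2) ^ (M - r) * (1 / y) ^ J := by
  have h1y : 0 < 1 - y := by linarith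
  have h1 : (2 / (1 - y)) ^ M = (2 / (1 - y)) ^ (M - r) * (2 / (1 - y)) ^ r := by
    rw [← pow_add]
    congr 1
    omega
  have h2 : (1 / y) ^ J = (1 / y) ^ r * (1 / y) ^ (J - r) := by
    rw [← pow_add]
    congr 1
    omega
  have h3 : (2 / (1 - y)) ^ r ≤ (1 / y) ^ r := by
    apply pow_le_pow_left₀ (by positivity)
    rw [div_le_div_iff₀ h1y hy]
    linarith
  have h4 : (12 / (1 - y) ^ 2) ^ (M - r) = (6 / (1 - y)) ^ (M - r) * (2 / (1 - y)) ^ (M - r) := by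
    rw [← mul_pow]
    congr 1
    field_simp
    norm_num
  rw [h1, h2, h4]
  have h5 : 0 ≤ (6 / (1 - y)) ^ (M - r) * (2 / (1 - y)) ^ (M - r) * (1 / y) ^ (J - r) := by positivity
  calc (6 / (1 - y)) ^ (M - r) * ((2 / (1 - y)) ^ (M - r) * (2 / (1 - y)) ^ r) * (1 / y) ^ (J - r)
      = ((6 / (1 - y)) ^ (M - r) * (2 / (1 - y)) ^ (M - r) * (1 / y) ^ (J - r)) * (2 / (1 - y)) ^ r := by
        ring
    _ ≤ ((6 / (1 - y)) ^ (M - r) * (2 / (1 - y)) ^ (M - r) * (1 / y) ^ (J - r)) * (1 / y) ^ r :=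
        mul_le_mul_of_nonneg_left h3 h5
    _ = _ := by ring

private theorem ED4_pow {μ y : ℝ} (hμ : 1 < μ) (hy : 0 < y) {M k J K : ℕ} (hJ : J ≤ M)
    (hk : M - J ≤ k) (hKJ : K * J ≤ M) (hK : μ ^ 2 / y ≤ μ ^ K) :
    (1 / μ ^ 2) ^ k * (1 / y) ^ J ≤ (1 / μ) ^ M := by
  have hμ0 : 0 < μ := by linarith
  have h1 : (1 / μ ^ 2) ^ k ≤ (1 / μ ^ 2) ^ (M - J) := by
    apply pow_le_pow_of_le_one (by positivity) _ hk
    rw [div_le_one (by positivity)]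
    nlinarith
  have h2 : (1 / μ ^ 2) ^ M = (1 / μ ^ 2) ^ (M - J) * (1 / μ ^ 2) ^ J := by
    rw [← pow_add]
    congr 1
    omega
  have h3 : (1 / μ ^ 2) ^ (M - J) * (1 / y) ^ J = (1 / μ ^ 2) ^ M * (μ ^ 2 / y) ^ J := by
    rw [h2, mul_assoc, ← mul_pow]
    congr 2
    field_simp
  have h4 : (μ ^ 2 / y) ^ J ≤ μ ^ M := by
    calc (μ ^ 2 / y) ^ J ≤ (μ ^ K) ^ J := pow_le_pow_left₀ (by positivity) hK J
      _ = μ ^ (K * J) := by rw [pow_mul]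
      _ ≤ μ ^ M := pow_le_pow_right₀ hμ.le hKJ
  calc (1 / μ ^ 2) ^ k * (1 / y) ^ J ≤ (1 / μ ^ 2) ^ (M - J) * (1 / y) ^ J :=
        mul_le_mul_of_nonneg_right h1 (by positivity)
    _ = (1 / μ ^ 2) ^ M * (μ ^ 2 / y) ^ J := h3
    _ ≤ (1 / μ ^ 2) ^ M * μ ^ M := mul_le_mul_of_nonneg_left h4 (by positivity)
    _ = (1 / μ) ^ M := by
        rw [← mul_pow]
        congr 1
        field_simp

private theorem ED4_inner {θ lam c₂ μ y η : ℝ} {N₀ n g M r J K : ℕ} {c : ℤ}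
    (hμ : 1 < μ) (hlam : lam = μ ^ 4) (hc₂ : 0 < c₂)
    (hpath : ∀ n₀ ≥ N₀, ∀ g₀ a i : ℕ, θ / 2 * ((n₀ : ℝ) + a + 2 * i) ≤ g₀ →
      (12 * lam) ^ a * (c₂ * (n₀ : ℝ) ^ 2) ^ i * (S n₀ g₀ : ℝ) ≤ (S (n₀ + a + 2 * i) (g₀ + i) : ℝ))
    (hθ : 0 < θ) (hη : 0 < η) (hηθ : η ≤ θ) (hη2 : η ≤ 1 / 2)
    (hq : 576 * lam ^ 2 * η ^ 2 / c₂ ≤ μ - 1)
    (hy : 0 < y) (hy3 : y ≤ 1 / 3) (hyμ : 1 ≤ μ * (1 - y) ^ 2) (hK : μ ^ 2 / y ≤ μ ^ K)
    (hn : 2 * N₀ + 2 ≤ n) (hg : θ * n ≤ g) (hc : 0 < c) (hM : 0 < M) (hMη : (M : ℝ) ≤ η * n)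
    (hr : r ≤ J) (hJ : J ≤ M) (hKJ : K * J ≤ M) :
    ∑ f ∈ (forests n).filter (fun f => up f c = M ∧ rcomp f c = r ∧ cross f c = J), (W g f : ℝ)
      ≤ (1 + 24 * lam * n) * (1 / μ) ^ M * (S n g : ℝ) := by
  have hμ0 : 0 < μ := by linarith
  have hlam0 : 0 < lam := by rw [hlam]; positivity
  have hn0 : (0 : ℝ) < n := by
    have : 0 < n := by omega
    exact_mod_cast this
  have h1y : 0 < 1 - y := by linarith
  set q : ℝ := 576 * lam ^ 2 * η ^ 2 / c₂ with hqdef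
  have hq0 : 0 ≤ q := by rw [hqdef]; positivity
  set S0 : ℝ := (S n g : ℝ) with hS0def
  have hS0 : 0 ≤ S0 := Nat.cast_nonneg _
  set k : ℕ := M - r with hk
  have hkM : k ≤ M := Nat.sub_le _ _
  have hkR : (k : ℝ) ≤ η * n := (Nat.cast_le.2 hkM).trans hMη
  have h2M : 2 * M ≤ n := by
    have : (2 * M : ℝ) ≤ n := by nlinarith
    exact_mod_cast this
  have hkn : k ≤ n := by omega
  have hL : 0 < 12 * lam := by positivity
  -- the point from which the path starts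
  have hstart : ∀ i : ℕ, 2 * i ≤ k → i ≤ g ∧ θ / 2 * (n : ℝ) ≤ ((g - i : ℕ) : ℝ) := by
    intro i hi
    have h1 : (2 * i : ℝ) ≤ k := by exact_mod_cast hi
    have h2 : (i : ℝ) ≤ θ / 2 * n := by nlinarith
    have h3 : i ≤ g := by
      have : (i : ℝ) ≤ g := by nlinarith
      exact_mod_cast this
    refine ⟨h3, ?_⟩
    rw [Nat.cast_sub h3]
    linarith
  -- first sum
  have hsum1 : (12 * lam) ^ k * (∑ i ∈ Finset.range (k / 2 + 1),
      (if i ≤ g then (k.choose i : ℝ) * ((M : ℝ) ^ 2) ^ i * (S (n - k) (g - i) : ℝ) else 0))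
      ≤ (1 + q) ^ k * S0 := by
    rw [Finset.mul_sum]
    apply ED4_sum k (k / 2 + 1) (by omega) _ hq0 hS0
    intro i hi
    have hi2 : 2 * i ≤ k := by omega
    obtain ⟨hig, hst⟩ := hstart i hi2
    rw [if_pos hig]
    have hcast : ((n - k : ℕ) : ℝ) + ((k - 2 * i : ℕ) : ℝ) + 2 * (i : ℝ) = n := by
      exact_mod_cast (by omega : n - k + (k - 2 * i) + 2 * i = n)
    have hp := hpath (n - k) (by omega) (g - i) (k - 2 * i) i (by rw [hcast]; exact hst)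
    rw [show n - k + (k - 2 * i) + 2 * i = n by omega, show g - i + i = g by omega] at hp
    have hn₀ : (0 : ℝ) < ((n - k : ℕ) : ℝ) := by
      exact_mod_cast (by omega : 0 < n - k)
    have hn2 : (n : ℝ) ≤ 2 * ((n - k : ℕ) : ℝ) := by
      exact_mod_cast (by omega : n ≤ 2 * (n - k))
    have ht := ED4_term (q := q) hL (by positivity : 0 < c₂ * ((n - k : ℕ) : ℝ) ^ 2)
      (by positivity : (0 : ℝ) ≤ (M : ℝ) ^ 2) (Nat.cast_nonneg (S (n - k) (g - i)))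
      (ED4_ratio hlam0 hc₂ hη (Nat.cast_nonneg M) hn₀ hMη hn2) hi2 hp
    calc (12 * lam) ^ k * ((k.choose i : ℝ) * ((M : ℝ) ^ 2) ^ i * (S (n - k) (g - i) : ℝ))
        = (k.choose i : ℝ) * ((12 * lam) ^ k * (((M : ℝ) ^ 2) ^ i * (S (n - k) (g - i) : ℝ))) := by ring
      _ ≤ (k.choose i : ℝ) * (q ^ i * S0) := mul_le_mul_of_nonneg_left ht (Nat.cast_nonneg _)
  -- second sum
  have hsum2 : (12 * lam) ^ k * (∑ i ∈ Finset.range ((k + 1) / 2),
      (if i ≤ g then (k.choose i : ℝ) * ((M : ℝ) ^ 2) ^ i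
        * (2 * n * (S (n - k + 1) (g - i) : ℝ)) else 0))
      ≤ (1 + q) ^ k * (24 * lam * n * S0) := by
    rw [Finset.mul_sum]
    apply ED4_sum k ((k + 1) / 2) (by omega) _ hq0 (by positivity)
    intro i hi
    have hi2 : 2 * i ≤ k - 1 := by omega
    have hk1 : 1 ≤ k := by omega
    obtain ⟨hig, hst⟩ := hstart i (by omega)
    rw [if_pos hig]
    have hcast : ((n - k + 1 : ℕ) : ℝ) + ((k - 1 - 2 * i : ℕ) : ℝ) + 2 * (i : ℝ) = n := by
      exact_mod_cast (by omega : n - k + 1 + (k - 1 - 2 * i) + 2 * i = n)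
    have hp := hpath (n - k + 1) (by omega) (g - i) (k - 1 - 2 * i) i (by rw [hcast]; exact hst)
    rw [show n - k + 1 + (k - 1 - 2 * i) + 2 * i = n by omega, show g - i + i = g by omega] at hp
    have hn₀ : (0 : ℝ) < ((n - k + 1 : ℕ) : ℝ) := by
      exact_mod_cast (by omega : 0 < n - k + 1)
    have hn2 : (n : ℝ) ≤ 2 * ((n - k + 1 : ℕ) : ℝ) := by
      exact_mod_cast (by omega : n ≤ 2 * (n - k + 1))
    have ht := ED4_term (q := q) hL (by positivity : 0 < c₂ * ((n - k + 1 : ℕ) : ℝ) ^ 2)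
      (by positivity : (0 : ℝ) ≤ (M : ℝ) ^ 2) (Nat.cast_nonneg (S (n - k + 1) (g - i)))
      (ED4_ratio hlam0 hc₂ hη (Nat.cast_nonneg M) hn₀ hMη hn2) hi2 hp
    have hkk : (12 * lam) ^ k = (12 * lam) * (12 * lam) ^ (k - 1) := by
      rw [← pow_succ']
      congr 1
      omega
    calc (12 * lam) ^ k * ((k.choose i : ℝ) * ((M : ℝ) ^ 2) ^ i
          * (2 * n * (S (n - k + 1) (g - i) : ℝ)))
        = (k.choose i : ℝ) * (24 * lam * n) *
          ((12 * lam) ^ (k - 1) * (((M : ℝ) ^ 2) ^ i * (S (n - k + 1) (g - i) : ℝ))) := by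
            rw [hkk]
            ring
      _ ≤ (k.choose i : ℝ) * (24 * lam * n) * (q ^ i * S0) :=
          mul_le_mul_of_nonneg_left ht (by positivity)
      _ = _ := by ring
  have hcut := cut_sum n g M r J c hc hM y hy (by linarith)
  rw [← hk] at hcut
  refine hcut.trans ?_
  set Z1 : ℝ := ∑ i ∈ Finset.range (k / 2 + 1),
      (if i ≤ g then (k.choose i : ℝ) * ((M : ℝ) ^ 2) ^ i * (S (n - k) (g - i) : ℝ) else 0) with hZ1
  set Z2 : ℝ := ∑ i ∈ Finset.range ((k + 1) / 2),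
      (if i ≤ g then (k.choose i : ℝ) * ((M : ℝ) ^ 2) ^ i
        * (2 * n * (S (n - k + 1) (g - i) : ℝ)) else 0) with hZ2
  have hLk : 0 < (12 * lam) ^ k := by positivity
  have hY : Z1 + Z2 ≤ (1 + 24 * lam * n) * (1 + q) ^ k * S0 / (12 * lam) ^ k := by
    rw [le_div_iff₀ hLk]
    nlinarith [hsum1, hsum2]
  have hY0 : 0 ≤ (1 + 24 * lam * n) * (1 + q) ^ k * S0 / (12 * lam) ^ k := by positivity
  have hB := ED4_B hy hy3 hr hJ
  rw [← hk] at hB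
  have hfac : (1 + q) / ((1 - y) ^ 2 * lam) ≤ 1 / μ ^ 2 := by
    rw [div_le_div_iff₀ (by positivity) (by positivity), hlam]
    have e1 : (1 + q) * μ ^ 2 ≤ μ * μ ^ 2 := by
      apply mul_le_mul_of_nonneg_right _ (by positivity)
      linarith
    have e2 : μ ^ 3 * 1 ≤ μ ^ 3 * (μ * (1 - y) ^ 2) := mul_le_mul_of_nonneg_left hyμ (by positivity)
    nlinarith [e1, e2]
  have hpow := ED4_pow hμ hy (k := k) hJ (by omega) hKJ hK
  calc (6 / (1 - y)) ^ k * (2 / (1 - y)) ^ M * (1 / y) ^ (J - r) * (Z1 + Z2)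
      ≤ (6 / (1 - y)) ^ k * (2 / (1 - y)) ^ M * (1 / y) ^ (J - r)
        * ((1 + 24 * lam * n) * (1 + q) ^ k * S0 / (12 * lam) ^ k) :=
        mul_le_mul_of_nonneg_left hY (by positivity)
    _ ≤ ((12 / (1 - y) ^ 2) ^ k * (1 / y) ^ J)
        * ((1 + 24 * lam * n) * (1 + q) ^ k * S0 / (12 * lam) ^ k) :=
        mul_le_mul_of_nonneg_right hB hY0
    _ = (((1 + q) / ((1 - y) ^ 2 * lam)) ^ k * (1 / y) ^ J) * ((1 + 24 * lam * n) * S0) := by
        have e : (12 / (1 - y) ^ 2) ^ k * ((1 + q) ^ k / (12 * lam) ^ k)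
            = ((1 + q) / ((1 - y) ^ 2 * lam)) ^ k := by
          rw [← div_pow, ← mul_pow]
          congr 1
          field_simp
        rw [← e]
        ring
    _ ≤ ((1 / μ ^ 2) ^ k * (1 / y) ^ J) * ((1 + 24 * lam * n) * S0) := by
        apply mul_le_mul_of_nonneg_right _ (by positivity)
        apply mul_le_mul_of_nonneg_right _ (by positivity)
        exact pow_le_pow_left₀ (by positivity) hfac k
    _ ≤ (1 / μ) ^ M * ((1 + 24 * lam * n) * S0) :=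
        mul_le_mul_of_nonneg_right hpow (by positivity)
    _ = _ := by ring

theorem bottleneck_small (θ : ℝ) (hθ : 0 < θ) : ∃ η : ℝ, 0 < η ∧ ∃ ε : ℝ, 0 < ε ∧
    ∃ lam : ℝ, 1 < lam ∧ ∃ C : ℝ, 0 < C ∧ ∃ N : ℕ, ∀ n ≥ N, ∀ g : ℕ, θ * n ≤ g →
      ∀ c : ℤ, 0 < c → ∀ M : ℕ, 0 < M → (M : ℝ) ≤ η * n →
        ∑ f ∈ (forests n).filter (fun f => up f c = M ∧ (cross f c : ℝ) ≤ ε * M), (W g f : ℝ)
          ≤ C * (n : ℝ) ^ 3 * (1 / lam) ^ M * (S n g : ℝ) := by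
  obtain ⟨lam, hlam, c₂, hc₂, N₀, hpath⟩ := path (θ / 2) (by positivity)
  have hlam0 : 0 < lam := by linarith
  obtain ⟨μ, hμ, hμlam⟩ : ∃ μ : ℝ, 1 < μ ∧ lam = μ ^ 4 := by
    refine ⟨Real.sqrt (Real.sqrt lam), ?_, ?_⟩
    · rw [Real.lt_sqrt (by norm_num), Real.lt_sqrt (by norm_num)]
      norm_num
      exact hlam
    · have h1 := Real.sq_sqrt (Real.sqrt_nonneg lam)
      have h2 := Real.sq_sqrt hlam0.le
      calc lam = (Real.sqrt lam) ^ 2 := h2.symm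
        _ = ((Real.sqrt (Real.sqrt lam)) ^ 2) ^ 2 := by rw [h1]
        _ = _ := by ring
  have hμ0 : 0 < μ := by linarith
  obtain ⟨y, hy, hy3, hyμ⟩ : ∃ y : ℝ, 0 < y ∧ y ≤ 1 / 3 ∧ 1 ≤ μ * (1 - y) ^ 2 := by
    refine ⟨min (1 / 3) ((μ - 1) / (2 * μ)), ?_, min_le_left _ _, ?_⟩
    · apply lt_min (by norm_num)
      apply div_pos (by linarith) (by linarith)
    · have h1 : min (1 / 3) ((μ - 1) / (2 * μ)) ≤ (μ - 1) / (2 * μ) := min_le_right _ _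
      have h2 : 2 * μ * min (1 / 3) ((μ - 1) / (2 * μ)) ≤ μ - 1 := by
        have := mul_le_mul_of_nonneg_left h1 (by positivity : 0 ≤ 2 * μ)
        rwa [mul_div_cancel₀ _ (by positivity)] at this
      nlinarith [mul_nonneg hμ0.le (sq_nonneg (min (1 / 3) ((μ - 1) / (2 * μ))))]
  obtain ⟨K, hK⟩ : ∃ K : ℕ, μ ^ 2 / y ≤ μ ^ K := by
    obtain ⟨K, hK⟩ := pow_unbounded_of_one_lt (μ ^ 2 / y) hμ
    exact ⟨K, hK.le⟩
  have hK1 : 1 ≤ K := by
    by_contra hcon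
    have hK0 : K = 0 := by omega
    rw [hK0, pow_zero, div_le_one hy] at hK
    nlinarith
  have hK0 : (0 : ℝ) < K := by exact_mod_cast hK1
  set η : ℝ := min (min θ (1 / 2)) ((μ - 1) * c₂ / (576 * lam ^ 2)) with hηdef
  have hη : 0 < η := by
    apply lt_min (lt_min hθ (by norm_num))
    apply div_pos (mul_pos (by linarith) hc₂) (by positivity)
  have hηθ : η ≤ θ := (min_le_left _ _).trans (min_le_left _ _)
  have hη2 : η ≤ 1 / 2 := (min_le_left _ _).trans (min_le_right _ _)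
  have hq : 576 * lam ^ 2 * η ^ 2 / c₂ ≤ μ - 1 := by
    have h1 : η ≤ (μ - 1) * c₂ / (576 * lam ^ 2) := min_le_right _ _
    rw [le_div_iff₀ (by positivity)] at h1
    rw [div_le_iff₀ hc₂]
    have h2 : η ^ 2 ≤ η := by nlinarith
    have h3 : 0 ≤ 576 * lam ^ 2 := by positivity
    nlinarith [mul_le_mul_of_nonneg_left h2 h3]
  refine ⟨η, hη, 1 / K, by positivity, μ, hμ, 1 + 24 * lam, by positivity, 2 * N₀ + 2, ?_⟩
  intro n hn g hg c hc M hM hMη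
  have hn0 : (0 : ℝ) < n := by
    have : 0 < n := by omega
    exact_mod_cast this
  have hn1 : (1 : ℝ) ≤ n := by
    have : 1 ≤ n := by omega
    exact_mod_cast this
  have hMn : (M : ℝ) ≤ n := by nlinarith
  set T := (forests n).filter (fun f => up f c = M ∧ (cross f c : ℝ) ≤ 1 / K * M) with hT
  have hcr : ∀ f ∈ T, up f c = M ∧ K * cross f c ≤ M := by
    intro f hf
    rw [hT, Finset.mem_filter] at hf
    refine ⟨hf.2.1, ?_⟩
    have h1 := hf.2.2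
    have h2 : (K : ℝ) * cross f c ≤ M := by
      calc (K : ℝ) * cross f c ≤ K * (1 / K * M) := mul_le_mul_of_nonneg_left h1 hK0.le
        _ = M := by field_simp
    exact_mod_cast h2
  have hmaps : ∀ f ∈ T, (rcomp f c, cross f c) ∈ Finset.Icc 1 M ×ˢ Finset.Icc 1 M := by
    intro f hf
    obtain ⟨h1, h2⟩ := hcr f hf
    have h3 := rcomp_pos c hc f (by omega)
    have h4 := rcomp_le_cross c f
    have h5 : cross f c ≤ M := le_trans (Nat.le_mul_of_pos_left _ hK1) h2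
    rw [Finset.mem_product, Finset.mem_Icc, Finset.mem_Icc]
    exact ⟨⟨h3, by simp only; omega⟩, ⟨by simp only; omega, h5⟩⟩
  set b : ℝ := (1 + 24 * lam * n) * (1 / μ) ^ M * (S n g : ℝ) with hb
  have hb0 : 0 ≤ b := by rw [hb]; positivity
  have hpiece : ∀ p ∈ Finset.Icc 1 M ×ˢ Finset.Icc 1 M,
      ∑ f ∈ T with (rcomp f c, cross f c) = p, (W g f : ℝ) ≤ b := by
    rintro ⟨r, J⟩ hp
    by_cases hcase : r ≤ J ∧ K * J ≤ M
    · have hJ : J ≤ M := le_trans (Nat.le_mul_of_pos_left _ hK1) hcase.2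
      refine le_trans ?_ (ED4_inner hμ hμlam hc₂ hpath hθ hη hηθ hη2 hq hy hy3 hyμ hK hn hg hc hM
        hMη hcase.1 hJ hcase.2)
      apply Finset.sum_le_sum_of_subset_of_nonneg
      · intro f hf
        rw [Finset.mem_filter] at hf
        have hf1 := hf.1
        rw [hT, Finset.mem_filter] at hf1
        have hf2 := hf.2
        rw [Prod.mk.injEq] at hf2
        rw [Finset.mem_filter]
        exact ⟨hf1.1, hf1.2.1, hf2.1, hf2.2⟩
      · intro f _ _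
        exact Nat.cast_nonneg _
    · rw [Finset.sum_eq_zero]
      · exact hb0
      · intro f hf
        exfalso
        rw [Finset.mem_filter] at hf
        obtain ⟨h1, h2⟩ := hcr f hf.1
        have hf2 := hf.2
        rw [Prod.mk.injEq] at hf2
        apply hcase
        rw [← hf2.1, ← hf2.2]
        exact ⟨rcomp_le_cross c f, h2⟩
  calc ∑ f ∈ T, (W g f : ℝ)
      = ∑ p ∈ Finset.Icc 1 M ×ˢ Finset.Icc 1 M, ∑ f ∈ T with (rcomp f c, cross f c) = p, (W g f : ℝ) :=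
        (Finset.sum_fiberwise_of_maps_to hmaps _).symm
    _ ≤ ∑ _p ∈ Finset.Icc 1 M ×ˢ Finset.Icc 1 M, b := Finset.sum_le_sum hpiece
    _ = (M : ℝ) ^ 2 * b := by
        rw [Finset.sum_const, Finset.card_product, Nat.card_Icc, Nat.add_sub_cancel, nsmul_eq_mul]
        push_cast
        ring
    _ ≤ (n : ℝ) ^ 2 * b := by
        apply mul_le_mul_of_nonneg_right _ hb0
        exact pow_le_pow_left₀ (Nat.cast_nonneg _) hMn 2
    _ ≤ (1 + 24 * lam) * (n : ℝ) ^ 3 * (1 / μ) ^ M * (S n g : ℝ) := by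
        rw [hb]
        have h1 : (1 + 24 * lam * n) ≤ (1 + 24 * lam) * n := by nlinarith
        have h2 : 0 ≤ (n : ℝ) ^ 2 * ((1 / μ) ^ M * (S n g : ℝ)) := by positivity
        nlinarith [mul_le_mul_of_nonneg_left h1 h2]

end HGQ
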