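import Pool.Agent.HGQ.EC1
import Pool.Agent.HGQ.EC2
import Pool.Agent.HGQ.ED4
import Pool.Agent.HGQ.EG1

/-! # HGQ.EG2 : the total weight of the forests with few vertices near the minimum

First the mirror image: `f ↦ flp f` is a bijection of `forests n` (`flp_flp`, `edges_flp`) with `W g (flp f) = W g f`
(`tl_flp`, `P_map_neg`), so we may replace `lowc (tl f) R` by
`highc (tl f) R = #{i ∈ tl f : ∀ j ∈ tl f, j ≤ i + R}` (vertices with label `≥ max - R`).
Constants: `ε₀` from `conc θ`; `η, ε, lam, C` from `bottleneck_small θ`; `δ = min(η, ε₀)`; `C₀` with `C₀ log lam ≥ 8`;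
`M` large compared with `1/log(1+ε) + C₀`.
* `∀ c, mul f c < ε₀ n`: total weight `≤ (1/2)^n S`.
* The others: by `rr_heavy` with `K = ε₀ n` and `G f = W g f * 1[highc (tl f) R < δ n]` (invariant under `rot`: `tl_rot` and
  translation invariance) their weight is `≤ (2/ε₀) T₁`, `T₁` = weight of `{ε₀ n ≤ mul f 0, highc (tl f) R < δ n}`.
* Let `f` be in the last set, `mx = max (labels f)`, `c₁ = mx - R`, so `highc (tl f) R = up f c₁`. Then `c₁ ≥ 1`, otherwise
  `mul f 0 ≤ up f c₁ < δ n ≤ ε₀ n`. For `c ≥ c₁`: `up f c ≤ up f c₁ < η n`. As `mx - c₁ = R ≥ M log n` is larger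
  than the bound of `few_top_levels` with `L = C₀ log n` (`n` large), there is `c ≥ c₁` with `C₀ log n ≤ up f c` and `cross f c ≤ ε up f c`; and
  `c ≤ n` (`up_pos_le`). So `T₁ ≤ ∑_{c=1}^n ∑_{C₀ log n ≤ m < ηn} C n³ lam^{-m} S ≤ n * n * C n³ lam^{-C₀ log n} S ≤ C n^{-3} S`
  (`lam^{-C₀ log n} = n^{-C₀ log lam} ≤ n^{-8}`).
All together `≤ n^{-2} S n g` for `n` large.
-/

namespace HGQ

open Polynomial Forest


/-- number of vertices within `R` of the maximum -/
private def hc (R : ℕ) (f : Forest) : ℕ := (tl f).countP (fun i => ∀ j ∈ tl f, j ≤ i + R)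

private theorem lowc_flp (R : ℕ) (f : Forest) : lowc (tl (flp f)) R = hc R f := by
  unfold lowc hc
  rw [tl_flp, Multiset.countP_map, Multiset.countP_eq_card_filter]
  congr 1
  refine Multiset.filter_congr fun i _ => ?_
  constructor
  · intro h j hj
    have := h (-j) (Multiset.mem_map_of_mem _ hj)
    linarith
  · intro h j hj
    obtain ⟨k, hk, rfl⟩ := Multiset.mem_map.1 hj
    have := h k hk
    linarith

private theorem W_flp (g : ℕ) (f : Forest) : W g (flp f) = W g f := by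
  rw [W_eq, W_eq, tl_flp, P_map_neg]

private theorem hc_rot (R : ℕ) (f : Forest) : hc R (rot f) = hc R f := by
  cases f with
  | nil => rfl
  | cons d c r =>
    unfold hc
    rw [← tl_rot d c r, Multiset.countP_map, Multiset.countP_eq_card_filter]
    congr 1
    refine Multiset.filter_congr fun i _ => ?_
    constructor
    · intro h j hj
      obtain ⟨k, hk, rfl⟩ := Multiset.mem_map.1 hj
      have := h k hk
      linarith
    · intro h j hj
      have := h _ (Multiset.mem_map_of_mem (fun i => i + inc d) hj)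
      linarith

/-- the sum over the forests with small `lowc` is the sum over those with small `hc` -/
private theorem sum_flp (n g R : ℕ) (x : ℝ) :
    ∑ f ∈ (forests n).filter (fun f => (lowc (tl f) R : ℝ) < x), (W g f : ℝ)
      = ∑ f ∈ (forests n).filter (fun f => (hc R f : ℝ) < x), (W g f : ℝ) := by
  refine Finset.sum_bij' (fun f _ => flp f) (fun f _ => flp f) ?_ ?_ ?_ ?_ ?_
  · intro f hf
    rw [Finset.mem_filter, mem_forests] at hf ⊢
    refine ⟨by rw [edges_flp]; exact hf.1, ?_⟩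
    rw [← lowc_flp, flp_flp]
    exact hf.2
  · intro f hf
    rw [Finset.mem_filter, mem_forests] at hf ⊢
    refine ⟨by rw [edges_flp]; exact hf.1, ?_⟩
    rw [lowc_flp]
    exact hf.2
  · intro f _; exact flp_flp f
  · intro f _; exact flp_flp f
  · intro f _; rw [W_flp]

/-- the maximal label -/
private theorem exists_max (f : Forest) : ∃ mx ∈ f.labels, ∀ j ∈ tl f, j ≤ mx := by
  have hne : f.labels.Nonempty := ⟨0, by simp [labels]⟩
  refine ⟨f.labels.max' hne, Finset.max'_mem _ _, fun j hj => ?_⟩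
  refine Finset.le_max' _ _ ?_
  rw [← toFinset_tl, Multiset.mem_toFinset]
  exact hj

private theorem hc_eq_up (R : ℕ) (f : Forest) (mx : ℤ) (hmx : mx ∈ f.labels)
    (h : ∀ j ∈ tl f, j ≤ mx) : hc R f = up f (mx - R) := by
  unfold hc up
  rw [Multiset.countP_eq_card_filter, Multiset.countP_eq_card_filter]
  congr 1
  refine Multiset.filter_congr fun i _ => ?_
  have hmx' : mx ∈ tl f := by
    rw [← Multiset.mem_toFinset, toFinset_tl]; exact hmx
  constructor
  · intro h1
    have := h1 mx hmx'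
    linarith
  · intro h1 j hj
    have := h j hj
    linarith

private theorem up_anti (f : Forest) {c c' : ℤ} (h : c ≤ c') : up f c' ≤ up f c := by
  unfold up
  rw [Multiset.countP_eq_card_filter, Multiset.countP_eq_card_filter]
  refine Multiset.card_le_card (Multiset.monotone_filter_right _ fun i hi => ?_)
  exact h.trans hi

private theorem mul_zero_le_up (f : Forest) {c : ℤ} (h : c ≤ 0) : f.mul 0 ≤ up f c := by
  rw [← count_tl, Multiset.count]
  unfold up
  rw [Multiset.countP_eq_card_filter, Multiset.countP_eq_card_filter]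
  refine Multiset.card_le_card (Multiset.monotone_filter_right _ fun i hi => ?_)
  rw [← hi]; exact h

private theorem up_le (f : Forest) (c : ℤ) : up f c ≤ f.edges + 1 := by
  rw [← card_tl]; unfold up; exact Multiset.countP_le_card _ _



/-- the deterministic part: a level with few edges below it -/
private theorem exists_level (n R : ℕ) (f : Forest) (hf : f ∈ forests n) (hn : 1 ≤ n)
    (δ ε L e0 : ℝ) (hε : 0 < ε) (hL : 1 ≤ L) (hδ : δ ≤ e0)
    (hR : Real.log n / Real.log (1 + ε) + L + 3 < R) (h1 : (hc R f : ℝ) < δ * n)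
    (h2 : e0 * n ≤ (f.mul 0 : ℝ)) :
    ∃ c : ℤ, 0 < c ∧ c ≤ n ∧ L ≤ (up f c : ℝ) ∧ (cross f c : ℝ) ≤ ε * (up f c : ℝ) ∧
      (up f c : ℝ) < δ * n := by
  obtain ⟨mx, hmx, hmax⟩ := exists_max f
  have hup := hc_eq_up R f mx hmx hmax
  have hn0 : (0 : ℝ) ≤ n := Nat.cast_nonneg n
  have hc1 : 0 < mx - R := by
    by_contra hcon
    have h3 : f.mul 0 ≤ up f (mx - R) := mul_zero_le_up f (not_lt.1 hcon)
    rw [← hup] at h3
    have h4 : (f.mul 0 : ℝ) ≤ (hc R f : ℝ) := by exact_mod_cast h3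
    have h5 : δ * n ≤ e0 * n := mul_le_mul_of_nonneg_right hδ hn0
    linarith
  by_contra hno
  have h6 : ∀ c : ℤ, mx - R ≤ c → L ≤ (up f c : ℝ) → ε * (up f c : ℝ) < (cross f c : ℝ) := by
    intro c hc hLc
    by_contra hcon
    refine hno ⟨c, lt_of_lt_of_le hc1 hc, ?_, hLc, not_lt.1 hcon, ?_⟩
    · refine up_pos_le f n hf c (lt_of_lt_of_le hc1 hc) ?_
      have : (0 : ℝ) < (up f c : ℝ) := by linarith
      exact_mod_cast this
    · refine lt_of_le_of_lt ?_ h1
      rw [hup]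
      exact_mod_cast up_anti f hc
  have h7 := few_top_levels f n hf hn ε L hε hL (mx - R) mx hc1 hmx h6
  have h8 : ((mx - (mx - R) : ℤ) : ℝ) = R := by push_cast; ring
  rw [h8] at h7
  linarith

/-- union bound over the levels -/
private theorem union_bound (n g R : ℕ) (hn : 1 ≤ n) (δ ε L e0 η B : ℝ) (hε : 0 < ε) (hL : 1 ≤ L)
    (hδ : δ ≤ e0) (hη : δ ≤ η) (hB : 0 ≤ B)
    (hR : Real.log n / Real.log (1 + ε) + L + 3 < R)
    (hF : ∀ c : ℤ, 0 < c → ∀ m : ℕ, 0 < m → L ≤ (m : ℝ) → (m : ℝ) ≤ η * n →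
        ∑ f ∈ (forests n).filter (fun f => up f c = m ∧ (cross f c : ℝ) ≤ ε * m), (W g f : ℝ) ≤ B) :
    ∑ f ∈ (forests n).filter (fun f => e0 * n ≤ (f.mul 0 : ℝ)),
      (if (hc R f : ℝ) < δ * n then (W g f : ℝ) else 0) ≤ 6 * (n : ℝ) ^ 2 * B := by
  classical
  set Q : Finset (ℕ × ℕ) := (Finset.range (n + 1) ×ˢ Finset.range (n + 2)).filter
    (fun p => 0 < p.1 ∧ L ≤ (p.2 : ℝ) ∧ (p.2 : ℝ) ≤ η * n) with hQ
  have hn0 : (0 : ℝ) ≤ n := Nat.cast_nonneg n
  have step1 : ∑ f ∈ (forests n).filter (fun f => e0 * n ≤ (f.mul 0 : ℝ)),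
      (if (hc R f : ℝ) < δ * n then (W g f : ℝ) else 0)
      ≤ ∑ f ∈ forests n, ∑ p ∈ Q,
        (if up f (p.1 : ℤ) = p.2 ∧ (cross f (p.1 : ℤ) : ℝ) ≤ ε * p.2 then (W g f : ℝ) else 0) := by
    refine le_trans (Finset.sum_le_sum (g := fun f => ∑ p ∈ Q,
        (if up f (p.1 : ℤ) = p.2 ∧ (cross f (p.1 : ℤ) : ℝ) ≤ ε * p.2 then (W g f : ℝ) else 0))
        fun f hf => ?_) (Finset.sum_le_sum_of_subset_of_nonneg (Finset.filter_subset _ _)
        fun f _ _ => Finset.sum_nonneg fun p _ => by positivity)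
    rw [Finset.mem_filter] at hf
    split_ifs with h
    · obtain ⟨c, hc0, hcn, hc1, hc2, hc3⟩ :=
        exists_level n R f hf.1 hn δ ε L e0 hε hL hδ hR h hf.2
      obtain ⟨k, rfl⟩ : ∃ k : ℕ, c = (k : ℤ) := ⟨c.toNat, (Int.toNat_of_nonneg hc0.le).symm⟩
      have hmem : ((k, up f (k : ℤ)) : ℕ × ℕ) ∈ Q := by
        rw [hQ, Finset.mem_filter, Finset.mem_product, Finset.mem_range, Finset.mem_range]
        have h5 := up_le f (k : ℤ)
        rw [mem_forests.1 hf.1] at h5
        refine ⟨⟨by omega, by simp only; omega⟩, by exact_mod_cast hc0, hc1, ?_⟩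
        exact hc3.le.trans (mul_le_mul_of_nonneg_right hη hn0)
      have h6 := Finset.single_le_sum (f := fun p : ℕ × ℕ =>
        (if up f (p.1 : ℤ) = p.2 ∧ (cross f (p.1 : ℤ) : ℝ) ≤ ε * p.2 then (W g f : ℝ) else 0))
        (s := Q) (fun p _ => by positivity) hmem
      simp only [hc2, and_self, if_true] at h6
      exact h6
    · exact Finset.sum_nonneg fun p _ => by positivity
  rw [Finset.sum_comm] at step1
  have step2 : ∀ p ∈ Q, ∑ f ∈ forests n,
      (if up f (p.1 : ℤ) = p.2 ∧ (cross f (p.1 : ℤ) : ℝ) ≤ ε * p.2 then (W g f : ℝ) else 0)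
      ≤ B := by
    intro p hp
    rw [hQ, Finset.mem_filter] at hp
    obtain ⟨_, hp1, hp2, hp3⟩ := hp
    rw [← Finset.sum_filter]
    refine hF _ (by exact_mod_cast hp1) p.2 ?_ hp2 hp3
    have : (0 : ℝ) < (p.2 : ℝ) := by linarith
    exact_mod_cast this
  have step3 : (Q.card : ℝ) ≤ 6 * (n : ℝ) ^ 2 := by
    have h7 : Q.card ≤ (n + 1) * (n + 2) := by
      refine (Finset.card_filter_le _ _).trans ?_
      rw [Finset.card_product, Finset.card_range, Finset.card_range]
    have h8 : (n + 1) * (n + 2) ≤ 6 * n ^ 2 := by nlinarith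
    exact_mod_cast h7.trans h8
  calc _ ≤ _ := step1
    _ ≤ ∑ p ∈ Q, B := Finset.sum_le_sum step2
    _ = Q.card * B := by rw [Finset.sum_const, nsmul_eq_mul]
    _ ≤ _ := mul_le_mul_of_nonneg_right step3 hB

private theorem two_pow_ge (n : ℕ) (hn : 7 ≤ n) : 2 * n ^ 2 ≤ 2 ^ n := by
  induction n, hn using Nat.le_induction with
  | base => norm_num
  | succ n hn ih => rw [pow_succ 2]; nlinarith

theorem analysis (θ : ℝ) (hθ : 0 < θ) : ∃ M : ℝ, 0 < M ∧ ∃ δ : ℝ, 0 < δ ∧ ∃ N : ℕ, ∀ n ≥ N,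
    ∀ g : ℕ, θ * n ≤ g → ∀ R : ℕ, M * Real.log n ≤ R →
      ∑ f ∈ (forests n).filter (fun f => (lowc (tl f) R : ℝ) < δ * n), (W g f : ℝ)
        ≤ 1 / (n : ℝ) ^ 2 * (S n g : ℝ) := by
  classical
  obtain ⟨e0, he0, he1, N1, hconc⟩ := conc θ hθ
  obtain ⟨η, hη, ε, hε, lam, hlam, C, hC, N2, hbot⟩ := bottleneck_small θ hθ
  have hlog : 0 < Real.log lam := Real.log_pos hlam
  have hlogε : 0 < Real.log (1 + ε) := Real.log_pos (by linarith)
  set C0 : ℝ := 8 / Real.log lam + 1 with hC0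
  have hC0' : 0 < 8 / Real.log lam := by positivity
  obtain ⟨N3, hN3⟩ := exists_nat_ge (24 * C / e0)
  refine ⟨1 / Real.log (1 + ε) + C0 + 4, by positivity, min η e0, lt_min hη he0,
    max (max N1 N2) (max N3 7), ?_⟩
  intro n hn g hg R hR
  have hnN1 : N1 ≤ n := (le_max_left _ _).trans ((le_max_left _ _).trans hn)
  have hnN2 : N2 ≤ n := (le_max_right _ _).trans ((le_max_left _ _).trans hn)
  have hnN3 : N3 ≤ n := (le_max_left _ _).trans ((le_max_right _ _).trans hn)
  have hn7 : 7 ≤ n := (le_max_right _ _).trans ((le_max_right _ _).trans hn)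
  have hn1 : 1 ≤ n := by omega
  have hnpos : (0 : ℝ) < n := by exact_mod_cast hn1
  have hn7' : (7 : ℝ) ≤ n := by exact_mod_cast hn7
  have hlogn : 1 ≤ Real.log n := by
    rw [Real.le_log_iff_exp_le hnpos]
    have := Real.exp_one_lt_d9
    linarith
  set δ : ℝ := min η e0 with hδ
  set L : ℝ := C0 * Real.log n with hLdef
  have hL : 1 ≤ L := by
    have : 1 ≤ C0 := by rw [hC0]; linarith
    nlinarith
  have hR' : Real.log n / Real.log (1 + ε) + L + 3 < R := by
    have h1 : (1 / Real.log (1 + ε) + C0 + 4) * Real.log n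
        = Real.log n / Real.log (1 + ε) + L + 4 * Real.log n := by
      rw [hLdef]; ring
    linarith
  have hS : (0 : ℝ) ≤ (S n g : ℝ) := Nat.cast_nonneg _
  -- the bound for one level
  set B : ℝ := C / (n : ℝ) ^ 5 * (S n g : ℝ) with hB
  have hF : ∀ c : ℤ, 0 < c → ∀ m : ℕ, 0 < m → L ≤ (m : ℝ) → (m : ℝ) ≤ η * n →
        ∑ f ∈ (forests n).filter (fun f => up f c = m ∧ (cross f c : ℝ) ≤ ε * m), (W g f : ℝ)
          ≤ B := by
    intro c hc m hm hLm hmη
    refine (hbot n hnN2 g hg c hc m hm hmη).trans ?_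
    have h1 : (1 / lam) ^ m ≤ 1 / (n : ℝ) ^ 8 := by
      have h2 : (n : ℝ) ^ 8 ≤ lam ^ m := by
        rw [← Real.log_le_log_iff (by positivity) (by positivity), Real.log_pow, Real.log_pow]
        have h3 : 8 * Real.log n ≤ L * Real.log lam := by
          have : L * Real.log lam = 8 * Real.log n + Real.log n * Real.log lam := by
            rw [hLdef, hC0]; field_simp
          rw [this]
          have := mul_pos (by linarith : 0 < Real.log n) hlog
          linarith
        have h4 : L * Real.log lam ≤ m * Real.log lam := mul_le_mul_of_nonneg_right hLm hlog.le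
        push_cast
        linarith
      rw [one_div, inv_pow, ← one_div]
      exact one_div_le_one_div_of_le (by positivity) h2
    have h5 : C * (n : ℝ) ^ 3 * (1 / lam) ^ m ≤ C / (n : ℝ) ^ 5 := by
      calc C * (n : ℝ) ^ 3 * (1 / lam) ^ m ≤ C * (n : ℝ) ^ 3 * (1 / (n : ℝ) ^ 8) :=
            mul_le_mul_of_nonneg_left h1 (by positivity)
        _ = C / (n : ℝ) ^ 5 := by field_simp
    exact mul_le_mul_of_nonneg_right h5 hS
  have hB0 : 0 ≤ B := by rw [hB]; positivity
  have hU := union_bound n g R hn1 δ ε L e0 η B hε hL (min_le_right _ _) (min_le_left _ _) hB0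
    hR' hF
  -- the function of `rr_heavy`
  set G : Forest → ℝ := fun f => if (hc R f : ℝ) < δ * n then (W g f : ℝ) else 0 with hG
  have hG0 : ∀ f, 0 ≤ G f := fun f => by simp only [hG]; split_ifs <;> positivity
  have hGW : ∀ f, G f ≤ W g f := fun f => by
    simp only [hG]; split_ifs
    · exact le_rfl
    · positivity
  have hGr : ∀ f, G (rot f) = G f := fun f => by simp only [hG, hc_rot, W_rot]
  have hrr := rr_heavy n hn1 G hG0 hGr (e0 * n)
  have hco := hconc n hnN1 g hg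
  rw [sum_flp]
  have hsplit : ∑ f ∈ (forests n).filter (fun f => (hc R f : ℝ) < δ * n), (W g f : ℝ)
      = ∑ f ∈ (forests n).filter (fun f => ∀ c, (f.mul c : ℝ) < e0 * n), G f
        + ∑ f ∈ (forests n).filter (fun f => ∃ c, e0 * n ≤ (f.mul c : ℝ)), G f := by
    have h1 : (forests n).filter (fun f => ∃ c, e0 * n ≤ (f.mul c : ℝ))
        = (forests n).filter (fun f => ¬ ∀ c, (f.mul c : ℝ) < e0 * n) := by
      refine Finset.filter_congr fun f _ => ?_
      push Not
      rfl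
    rw [h1, Finset.sum_filter_add_sum_filter_not, Finset.sum_filter]
  rw [hsplit]
  have h1 : ∑ f ∈ (forests n).filter (fun f => ∀ c, (f.mul c : ℝ) < e0 * n), G f
      ≤ (1 / 2) ^ n * (S n g : ℝ) :=
    (Finset.sum_le_sum fun f _ => hGW f).trans hco
  have h2 : ∑ f ∈ (forests n).filter (fun f => ∃ c, e0 * n ≤ (f.mul c : ℝ)), G f
      ≤ 12 * C / (e0 * (n : ℝ) ^ 3) * (S n g : ℝ) := by
    have h3 : e0 * n * ∑ f ∈ (forests n).filter (fun f => ∃ c, e0 * n ≤ (f.mul c : ℝ)), G f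
        ≤ 2 * n * (6 * (n : ℝ) ^ 2 * B) :=
      hrr.trans (mul_le_mul_of_nonneg_left hU (by positivity))
    have h4 : 2 * n * (6 * (n : ℝ) ^ 2 * B)
        = e0 * n * (12 * C / (e0 * (n : ℝ) ^ 3) * (S n g : ℝ)) := by
      rw [hB]; field_simp; ring
    rw [h4] at h3
    exact le_of_mul_le_mul_left h3 (by positivity)
  have h3 : ((1 : ℝ) / 2) ^ n ≤ 1 / (2 * (n : ℝ) ^ 2) := by
    rw [one_div, inv_pow, ← one_div]
    refine one_div_le_one_div_of_le (by positivity) ?_
    exact_mod_cast two_pow_ge n hn7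
  have h4 : 12 * C / (e0 * (n : ℝ) ^ 3) ≤ 1 / (2 * (n : ℝ) ^ 2) := by
    rw [div_le_div_iff₀ (by positivity) (by positivity)]
    have h5 : 24 * C ≤ e0 * n := by
      have h6 : (24 * C / e0) ≤ n := hN3.trans (by exact_mod_cast hnN3)
      rw [div_le_iff₀ he0] at h6
      linarith
    have h6 : 0 ≤ (n : ℝ) ^ 2 := by positivity
    nlinarith
  calc _ ≤ (1 / 2) ^ n * (S n g : ℝ) + 12 * C / (e0 * (n : ℝ) ^ 3) * (S n g : ℝ) := add_le_add h1 h2
    _ ≤ 1 / (2 * (n : ℝ) ^ 2) * (S n g : ℝ) + 1 / (2 * (n : ℝ) ^ 2) * (S n g : ℝ) :=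
        add_le_add (mul_le_mul_of_nonneg_right h3 hS) (mul_le_mul_of_nonneg_right h4 hS)
    _ = 1 / (n : ℝ) ^ 2 * (S n g : ℝ) := by field_simp; ring

end HGQ
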