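import Pool.Agent.HGQ.D1
import Pool.Agent.HGQ.D2
import Pool.Agent.HGQ.D4
import Pool.Agent.HGQ.EG2

/-! # HGQ.D5 : the diameter of random quadrangulations of high genus is logarithmic -/

namespace HGQ

open Equiv Forest Filter Topology

theorem d5_lowc_map_add (s : Multiset ℤ) (a : ℤ) (R : ℕ) :
    lowc (s.map (fun i => i + a)) R = lowc s R := by
  unfold lowc
  rw [Multiset.countP_map, Multiset.countP_eq_card_filter]
  congr 1
  refine Multiset.filter_congr fun i _ => ?_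
  constructor
  · intro h j hj
    have := h (j + a) (Multiset.mem_map_of_mem _ hj)
    omega
  · intro h j hj
    obtain ⟨k, hk, rfl⟩ := Multiset.mem_map.1 hj
    have := h k hk
    omega

section

variable {n : ℕ} {w b : Perm (Fin (2 * n))}

theorem d5_adj (e : Fin (2 * n)) : (qgraph w b).Adj (wv w b e) (bv w b e) := by
  rw [qgraph, SimpleGraph.fromRel_adj]
  refine ⟨?_, Or.inl ⟨e, rfl, rfl⟩⟩
  simp [wv, bv]

theorem d5_one_le (hn : 1 ≤ n) (h : IsBQ w b) (v : Vtx w b) (e : Fin (2 * n)) :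
    1 ≤ Lb w b v e := by
  have hc := qgraph_connected hn h
  have hne : wv w b e ≠ bv w b e := by simp [wv, bv]
  unfold Lb
  by_contra hlt
  have h0 : max ((qgraph w b).dist v (wv w b e)) ((qgraph w b).dist v (bv w b e)) = 0 := by
    omega
  have h1 : (qgraph w b).dist v (wv w b e) = 0 := by
    have := le_max_left ((qgraph w b).dist v (wv w b e)) ((qgraph w b).dist v (bv w b e))
    omega
  have h2 : (qgraph w b).dist v (bv w b e) = 0 := by
    have := le_max_right ((qgraph w b).dist v (wv w b e)) ((qgraph w b).dist v (bv w b e))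
    omega
  rw [hc.dist_eq_zero_iff] at h1 h2
  exact hne (h1.symm.trans h2)

theorem d5_exists_one (v : Vtx w b) : ∃ e, Lb w b v e = 1 := by
  rcases v with v | v
  · obtain ⟨e, rfl⟩ := Quotient.exists_rep v
    refine ⟨e, ?_⟩
    have h1 : (qgraph w b).dist (wv w b e) (wv w b e) = 0 := SimpleGraph.dist_self
    have h2 : (qgraph w b).dist (wv w b e) (bv w b e) = 1 :=
      SimpleGraph.dist_eq_one_iff_adj.2 (d5_adj e)
    unfold Lb
    change ((max ((qgraph w b).dist (wv w b e) (wv w b e))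
      ((qgraph w b).dist (wv w b e) (bv w b e)) : ℕ) : ℤ) = 1
    rw [h1, h2]; rfl
  · obtain ⟨e, rfl⟩ := Quotient.exists_rep v
    refine ⟨e, ?_⟩
    have h1 : (qgraph w b).dist (bv w b e) (bv w b e) = 0 := SimpleGraph.dist_self
    have h2 : (qgraph w b).dist (bv w b e) (wv w b e) = 1 :=
      SimpleGraph.dist_eq_one_iff_adj.2 (d5_adj e).symm
    unfold Lb
    change ((max ((qgraph w b).dist (bv w b e) (wv w b e))
      ((qgraph w b).dist (bv w b e) (bv w b e)) : ℕ) : ℤ) = 1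
    rw [h1, h2]; rfl

theorem d5_near (hn : 1 ≤ n) (h : IsBQ w b) (v : Vtx w b) (R : ℕ) :
    lowc (Finset.univ.val.map (Lb w b v)) R = near w b (R + 1) v := by
  classical
  unfold lowc near
  rw [Multiset.countP_map, Nat.card_eq_fintype_card, Fintype.card_subtype, Finset.card,
    Finset.filter_val]
  congr 1
  refine Multiset.filter_congr fun e _ => ?_
  obtain ⟨e₁, he₁⟩ := d5_exists_one (w := w) (b := b) v
  constructor
  · intro h1
    have h2 := h1 (Lb w b v e₁) (Multiset.mem_map_of_mem _ (Finset.mem_univ e₁))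
    rw [he₁] at h2
    have h3 : max ((qgraph w b).dist v (wv w b e)) ((qgraph w b).dist v (bv w b e)) ≤ R + 1 := by
      unfold Lb at h2; omega
    exact max_le_iff.1 h3
  · intro h1 j hj
    obtain ⟨e', _, rfl⟩ := Multiset.mem_map.1 hj
    have h2 := d5_one_le hn h v e'
    have h3 := max_le_iff.2 h1
    have h4 : Lb w b v e ≤ R + 1 := by
      unfold Lb; exact_mod_cast h3
    omega

end

theorem d5_finite_vtx {E : Type*} [Finite E] (w b : Perm E) : Finite (Vtx w b) := by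
  unfold Vtx; infer_instance

theorem d5_card_pointed (n g : ℕ) :
    Nat.card ((p : LQ n g) × Vtx p.1.1 p.1.2) = Nat.card (LQ n g) * (n + 2 - 2 * g) := by
  classical
  have : ∀ p : LQ n g, Finite (Vtx p.1.1 p.1.2) := fun p => d5_finite_vtx _ _
  have : Fintype (LQ n g) := Fintype.ofFinite _
  rw [Nat.card_sigma]
  have h : ∀ p : LQ n g, Nat.card (Vtx p.1.1 p.1.2) = n + 2 - 2 * g := by
    intro p
    have h1 : Nat.card (Vtx p.1.1 p.1.2) = nc p.1.1 + nc p.1.2 := by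
      unfold Vtx nc
      rw [Nat.card_sum]
    have h2 := p.2.2
    omega
  rw [Finset.sum_congr rfl fun p _ => h p, Finset.sum_const, Finset.card_univ, smul_eq_mul,
    Nat.card_eq_fintype_card]

theorem d5_bad (θ : ℝ) (hθ : 0 < θ) : ∃ M : ℝ, 0 < M ∧ ∃ δ : ℝ, 0 < δ ∧ ∃ N : ℕ, ∀ n ≥ N,
    ∀ g : ℕ, 1 ≤ n → θ * n ≤ g → 2 * g ≤ n → ∀ R : ℕ, M * Real.log n ≤ R →
      (Nat.card {q : (p : LQ n g) × Vtx p.1.1 p.1.2 //
        (near q.1.1.1 q.1.1.2 (R + 1) q.2 : ℝ) < δ * n} : ℝ)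
        ≤ 1 / (n : ℝ) ^ 2 * (Nat.card ((p : LQ n g) × Vtx p.1.1 p.1.2) : ℝ) := by
  classical
  obtain ⟨M, hM, δ, hδ, N, h⟩ := analysis θ hθ
  refine ⟨M, hM, δ, hδ, N, fun n hnN g hn hg h2g R hR => ?_⟩
  have h1 := h n hnN g hg R hR
  have e1 := pointed_exact n g hn h2g (fun s => (lowc s R : ℝ) < δ * n)
    (fun s a => by simp only [d5_lowc_map_add])
  have e2 := pointed_exact n g hn h2g (fun _ => True) (fun _ _ => Iff.rfl)
  have c1 : Nat.card {q : (p : LQ n g) × Vtx p.1.1 p.1.2 //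
      (lowc (Finset.univ.val.map (Lb q.1.1.1 q.1.1.2 q.2)) R : ℝ) < δ * n}
      = Nat.card {q : (p : LQ n g) × Vtx p.1.1 p.1.2 //
        (near q.1.1.1 q.1.1.2 (R + 1) q.2 : ℝ) < δ * n} := by
    refine Nat.card_congr (Equiv.subtypeEquivRight fun q => ?_)
    rw [d5_near hn q.1.2.1]
  have c2 : Nat.card {q : (p : LQ n g) × Vtx p.1.1 p.1.2 // True}
      = Nat.card ((p : LQ n g) × Vtx p.1.1 p.1.2) :=
    Nat.card_congr (Equiv.subtypeUnivEquiv fun _ => trivial)
  have s1 : ∑ f ∈ (forests n).filter (fun f => (lowc (dl f 0) R : ℝ) < δ * n), (W g f : ℝ)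
      ≤ ∑ f ∈ (forests n).filter (fun f => (lowc (tl f) R : ℝ) < δ * n), (W g f : ℝ) := by
    refine Finset.sum_le_sum_of_subset_of_nonneg ?_ fun _ _ _ => Nat.cast_nonneg _
    intro f hf
    rw [Finset.mem_filter] at hf ⊢
    refine ⟨hf.1, lt_of_le_of_lt ?_ hf.2⟩
    have := mem_forests.1 hf.1
    exact_mod_cast lowc_tl_le_dl f (by omega) R
  rw [← c1, ← c2]
  have e1' : (4 : ℝ) ^ g * (Nat.card {q : (p : LQ n g) × Vtx p.1.1 p.1.2 //
      (lowc (Finset.univ.val.map (Lb q.1.1.1 q.1.1.2 q.2)) R : ℝ) < δ * n} : ℝ)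
      = 2 * ((2 * n - 1).factorial : ℝ) *
        ∑ f ∈ (forests n).filter (fun f => (lowc (dl f 0) R : ℝ) < δ * n), (W g f : ℝ) := by
    exact_mod_cast e1
  have e2' : (4 : ℝ) ^ g * (Nat.card {q : (p : LQ n g) × Vtx p.1.1 p.1.2 // True} : ℝ)
      = 2 * ((2 * n - 1).factorial : ℝ) * (S n g : ℝ) := by
    have : ∑ f ∈ (forests n).filter (fun f => True), W g f = S n g := by
      rw [Finset.filter_true]; rfl
    rw [this] at e2
    exact_mod_cast e2
  have h4 : (0 : ℝ) < 4 ^ g := by positivity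
  have hfac : (0 : ℝ) ≤ 2 * ((2 * n - 1).factorial : ℝ) := by positivity
  have key : (4 : ℝ) ^ g * (Nat.card {q : (p : LQ n g) × Vtx p.1.1 p.1.2 //
      (lowc (Finset.univ.val.map (Lb q.1.1.1 q.1.1.2 q.2)) R : ℝ) < δ * n} : ℝ)
      ≤ 4 ^ g * (1 / (n : ℝ) ^ 2 * (Nat.card {q : (p : LQ n g) × Vtx p.1.1 p.1.2 // True} : ℝ)) := by
    calc _ = _ := e1'
      _ ≤ 2 * ((2 * n - 1).factorial : ℝ) * (1 / (n : ℝ) ^ 2 * (S n g : ℝ)) :=
          mul_le_mul_of_nonneg_left (s1.trans h1) hfac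
      _ = 1 / (n : ℝ) ^ 2 * (2 * ((2 * n - 1).factorial : ℝ) * (S n g : ℝ)) := by ring
      _ = _ := by rw [← e2']; ring
  exact le_of_mul_le_mul_left key h4

theorem d5_pos (n g : ℕ) (hn : 1 ≤ n) (h2g : 2 * g ≤ n) : 0 < Nat.card (LQ n g) := by
  classical
  have e2 := pointed_exact n g hn h2g (fun _ => True) (fun _ _ => Iff.rfl)
  have hS : 0 < S n g := lt_of_lt_of_le (Nat.factorial_pos _) (ec2_fact_le_S n g h2g)
  have c2 : Nat.card {q : (p : LQ n g) × Vtx p.1.1 p.1.2 // True}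
      = Nat.card ((p : LQ n g) × Vtx p.1.1 p.1.2) :=
    Nat.card_congr (Equiv.subtypeUnivEquiv fun _ => trivial)
  have : ∑ f ∈ (forests n).filter (fun f => True), W g f = S n g := by
    rw [Finset.filter_true]; rfl
  rw [this, c2, d5_card_pointed] at e2
  by_contra h0
  have h1 : Nat.card (LQ n g) = 0 := by omega
  rw [h1] at e2
  simp only [zero_mul, mul_zero] at e2
  have : 0 < 2 * (2 * n - 1).factorial * S n g :=
    Nat.mul_pos (Nat.mul_pos (by norm_num) (Nat.factorial_pos _)) hS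
  omega

theorem d5_count (θ : ℝ) (hθ : 0 < θ) : ∃ M : ℝ, 0 < M ∧ ∃ N : ℕ, ∀ n ≥ N, ∀ g : ℕ,
    θ * n ≤ g → 2 * g ≤ n → 0 < Nat.card (RQ n g) ∧
      (Nat.card {x : RQ n g // M * Real.log n < (x.diam : ℝ)} : ℝ)
        ≤ 3 / (n : ℝ) * (Nat.card (RQ n g) : ℝ) := by
  classical
  obtain ⟨M₀, hM₀, δ, hδ, N, h⟩ := d5_bad θ hθ
  refine ⟨(2 * M₀ + 5) * (2 / δ), by positivity, max N 3, fun n hn g hg h2g => ?_⟩
  have hn3 : 3 ≤ n := le_trans (le_max_right _ _) hn
  have hnN : N ≤ n := le_trans (le_max_left _ _) hn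
  have hn1 : 1 ≤ n := by omega
  have hnpos : (0 : ℝ) < n := by exact_mod_cast (by omega : 0 < n)
  have hlog1 : 1 ≤ Real.log n := by
    have h3 : Real.exp 1 ≤ n := by
      have := Real.exp_one_lt_d9
      have h3' : (3 : ℝ) ≤ n := by exact_mod_cast hn3
      linarith
    calc (1 : ℝ) = Real.log (Real.exp 1) := (Real.log_exp 1).symm
      _ ≤ Real.log n := Real.log_le_log (Real.exp_pos 1) h3
  set R : ℕ := ⌈M₀ * Real.log n⌉₊ with hRdef
  have hR : M₀ * Real.log n ≤ R := Nat.le_ceil _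
  have hR2 : (R : ℝ) ≤ M₀ * Real.log n + 1 := by
    have := Nat.ceil_lt_add_one (show 0 ≤ M₀ * Real.log n by positivity)
    exact this.le
  have hbad := h n hnN g hn1 hg h2g R hR
  have hposL := d5_pos n g hn1 h2g
  have hfin : Finite (LQ n g) := by infer_instance
  have hRQ := card_RQ n g hn1 (fun _ => True)
  have hRQ2 := card_RQ n g hn1 (fun x => (2 * M₀ + 5) * (2 / δ) * Real.log n < (x.diam : ℝ))
  have c1 : Nat.card {x : RQ n g // True} = Nat.card (RQ n g) :=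
    Nat.card_congr (Equiv.subtypeUnivEquiv fun _ => trivial)
  have c2 : Nat.card {q : LQ n g // True} = Nat.card (LQ n g) :=
    Nat.card_congr (Equiv.subtypeUnivEquiv fun _ => trivial)
  rw [c1, c2] at hRQ
  have hfac : 0 < (2 * n - 1).factorial := Nat.factorial_pos _
  have hposR : 0 < Nat.card (RQ n g) := by
    rcases Nat.eq_zero_or_pos (Nat.card (RQ n g)) with h0 | h0
    · rw [h0, mul_zero] at hRQ; omega
    · exact h0
  refine ⟨hposR, ?_⟩
  -- bad maps inject into bad pointed maps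
  have hinj : Nat.card {q : LQ n g // (2 * M₀ + 5) * (2 / δ) * Real.log n
        < (RQ.diam (Quotient.mk (Relabel n g) q) : ℝ)}
      ≤ Nat.card {q : (p : LQ n g) × Vtx p.1.1 p.1.2 //
        (near q.1.1.1 q.1.1.2 (R + 1) q.2 : ℝ) < δ * n} := by
    have hex : ∀ q : {q : LQ n g // (2 * M₀ + 5) * (2 / δ) * Real.log n
        < (RQ.diam (Quotient.mk (Relabel n g) q) : ℝ)},
        ∃ v : Vtx q.1.1.1 q.1.1.2, (near q.1.1.1 q.1.1.2 (R + 1) v : ℝ) < δ * n := by
      rintro ⟨q, hq⟩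
      by_contra hcon
      push Not at hcon
      have h1 := diam_le_of_near hn1 q.2.1 (R + 1) δ hδ hcon
      have h2 : (RQ.diam (Quotient.mk (Relabel n g) q) : ℝ)
          = ((qgraph q.1.1 q.1.2).diam : ℝ) := rfl
      rw [h2] at hq
      have h3 : (2 * ((R + 1 : ℕ) : ℝ) + 1) * (2 / δ) ≤ (2 * M₀ + 5) * (2 / δ) * Real.log n := by
        have h4 : 2 * ((R + 1 : ℕ) : ℝ) + 1 ≤ (2 * M₀ + 5) * Real.log n := by
          push_cast
          nlinarith
        calc (2 * ((R + 1 : ℕ) : ℝ) + 1) * (2 / δ)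
            ≤ ((2 * M₀ + 5) * Real.log n) * (2 / δ) :=
              mul_le_mul_of_nonneg_right h4 (by positivity)
          _ = _ := by ring
      linarith
    choose v hv using hex
    have hfin2 : Finite ((p : LQ n g) × Vtx p.1.1 p.1.2) := by
      have : ∀ p : LQ n g, Finite (Vtx p.1.1 p.1.2) := fun p => d5_finite_vtx _ _
      infer_instance
    refine Nat.card_le_card_of_injective
      (fun q => (⟨⟨q.1, v q⟩, hv q⟩ : {q : (p : LQ n g) × Vtx p.1.1 p.1.2 //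
        (near q.1.1.1 q.1.1.2 (R + 1) q.2 : ℝ) < δ * n})) ?_
    intro q q' hqq
    have h1 := congrArg (fun z => z.1.1) hqq
    exact Subtype.ext h1
  rw [d5_card_pointed] at hbad
  have hg2 : (((n + 2 - 2 * g : ℕ)) : ℝ) ≤ n + 2 := by
    have : n + 2 - 2 * g ≤ n + 2 := Nat.sub_le _ _
    exact_mod_cast this
  have hchain : ((2 * n - 1).factorial : ℝ) *
      (Nat.card {x : RQ n g // (2 * M₀ + 5) * (2 / δ) * Real.log n < (x.diam : ℝ)} : ℝ)
      ≤ ((2 * n - 1).factorial : ℝ) * (3 / (n : ℝ) * (Nat.card (RQ n g) : ℝ)) := by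
    have e3 : ((2 * n - 1).factorial : ℝ) *
      (Nat.card {x : RQ n g // (2 * M₀ + 5) * (2 / δ) * Real.log n < (x.diam : ℝ)} : ℝ)
      = (Nat.card {q : LQ n g // (2 * M₀ + 5) * (2 / δ) * Real.log n
        < (RQ.diam (Quotient.mk (Relabel n g) q) : ℝ)} : ℝ) := by
      exact_mod_cast hRQ2
    have e4 : ((2 * n - 1).factorial : ℝ) * (Nat.card (RQ n g) : ℝ) = (Nat.card (LQ n g) : ℝ) := by
      exact_mod_cast hRQ
    calc _ = _ := e3
      _ ≤ (Nat.card {q : (p : LQ n g) × Vtx p.1.1 p.1.2 //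
        (near q.1.1.1 q.1.1.2 (R + 1) q.2 : ℝ) < δ * n} : ℝ) := by exact_mod_cast hinj
      _ ≤ _ := hbad
      _ = 1 / (n : ℝ) ^ 2 * ((Nat.card (LQ n g) : ℝ) * ((n + 2 - 2 * g : ℕ) : ℝ)) := by push_cast; ring
      _ ≤ 1 / (n : ℝ) ^ 2 * ((Nat.card (LQ n g) : ℝ) * (3 * n)) := by
          refine mul_le_mul_of_nonneg_left (mul_le_mul_of_nonneg_left ?_ (Nat.cast_nonneg _))
            (by positivity)
          have : (3 : ℝ) ≤ n := by exact_mod_cast hn3
          linarith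
      _ = 3 / (n : ℝ) * (Nat.card (LQ n g) : ℝ) := by field_simp
      _ = _ := by rw [← e4]; ring
  exact le_of_mul_le_mul_left hchain (by exact_mod_cast hfac)

theorem log_diameter (θ : ℝ) (h0 : 0 < θ) (h1 : θ < 1 / 2) : ∃ M : ℝ, 0 < M ∧ ∀ g : ℕ → ℕ,
    Tendsto (fun n => (g n : ℝ) / n) atTop (𝓝 θ) →
      (∀ᶠ n in atTop, 0 < Nat.card (RQ n (g n))) ∧
      Tendsto (fun n => (Nat.card {x : RQ n (g n) // M * Real.log n < (x.diam : ℝ)} : ℝ)
        / (Nat.card (RQ n (g n)) : ℝ)) atTop (𝓝 0) := by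
  obtain ⟨M, hM, N, h⟩ := d5_count (θ / 2) (by linarith)
  refine ⟨M, hM, fun g hg => ?_⟩
  have hev : ∀ᶠ n in atTop, N ≤ n ∧ 1 ≤ n ∧ θ / 2 * (n : ℝ) ≤ g n ∧ 2 * g n ≤ n := by
    have e1 : ∀ᶠ n in atTop, θ / 2 < (g n : ℝ) / n := hg.eventually (lt_mem_nhds (by linarith))
    have e2 : ∀ᶠ n in atTop, (g n : ℝ) / n < 1 / 2 := hg.eventually (gt_mem_nhds h1)
    filter_upwards [e1, e2, eventually_ge_atTop N, eventually_ge_atTop 1] with n h1 h2 h3 h4
    have hn : (0 : ℝ) < n := by exact_mod_cast (by omega : 0 < n)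
    refine ⟨h3, h4, ?_, ?_⟩
    · rw [lt_div_iff₀ hn] at h1; exact h1.le
    · rw [div_lt_iff₀ hn] at h2
      have : (2 * g n : ℝ) ≤ n := by linarith
      exact_mod_cast this
  have key : ∀ᶠ n in atTop, 0 < Nat.card (RQ n (g n)) ∧
      (Nat.card {x : RQ n (g n) // M * Real.log n < (x.diam : ℝ)} : ℝ)
        / (Nat.card (RQ n (g n)) : ℝ) ≤ 3 / (n : ℝ) := by
    filter_upwards [hev] with n hn
    obtain ⟨hp, hb⟩ := h n hn.1 (g n) hn.2.2.1 hn.2.2.2
    refine ⟨hp, ?_⟩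
    rw [div_le_iff₀ (by exact_mod_cast hp)]
    exact hb
  refine ⟨key.mono fun n hn => hn.1, ?_⟩
  refine squeeze_zero' (Eventually.of_forall fun n => by positivity) (key.mono fun n hn => hn.2) ?_
  exact tendsto_const_div_atTop_nhds_zero_nat 3

end HGQ
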