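import Pool.Agent.HGQ.EDefs

/-! # MP_a7ce40_pr (HGQ): basic API for the estimates -/

namespace HGQ

open Polynomial Forest

/-! ### the coefficientwise order -/

theorem Cle.refl (p : ℕ[X]) : Cle p p := fun _ => le_rfl

theorem Cle.trans {p q r : ℕ[X]} (h : Cle p q) (h' : Cle q r) : Cle p r := fun k => (h k).trans (h' k)

theorem Cle.add {p q p' q' : ℕ[X]} (h : Cle p q) (h' : Cle p' q') :
    Cle (p + p') (q + q') := fun k => by
  simpa using add_le_add (h k) (h' k)

theorem Cle.mul {p q p' q' : ℕ[X]} (h : Cle p q) (h' : Cle p' q') :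
    Cle (p * p') (q * q') := fun k => by
  rw [coeff_mul, coeff_mul]
  exact Finset.sum_le_sum fun x _ => Nat.mul_le_mul (h _) (h' _)

theorem Cle.sum {ι : Type*} {T : Finset ι} {p q : ι → ℕ[X]} (h : ∀ i ∈ T, Cle (p i) (q i)) :
    Cle (∑ i ∈ T, p i) (∑ i ∈ T, q i) := fun k => by
  rw [finsetSum_coeff, finsetSum_coeff]
  exact Finset.sum_le_sum fun i hi => h i hi k

theorem Cle.prod {ι : Type*} {T : Finset ι} {p q : ι → ℕ[X]} (h : ∀ i ∈ T, Cle (p i) (q i)) :
    Cle (∏ i ∈ T, p i) (∏ i ∈ T, q i) := by
  classical
  induction T using Finset.induction_on with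
  | empty => simpa using Cle.refl 1
  | insert a T ha ih =>
    rw [Finset.prod_insert ha, Finset.prod_insert ha]
    exact (h a (Finset.mem_insert_self _ _)).mul
      (ih fun i hi => h i (Finset.mem_insert_of_mem hi))

theorem Cle.zero (p : ℕ[X]) : Cle 0 p := fun k => by simp

/-! ### the polynomials `A` -/

theorem A_zero : A 0 = 1 := by rw [A]
theorem A_one : A 1 = 1 := by rw [A]
theorem A_add_two (m : ℕ) : A (m + 2) = A (m + 1) + C ((m + 1) * m) * X * A m := by rw [A]

theorem coeff_A_add_two_zero (m : ℕ) : (A (m + 2)).coeff 0 = (A (m + 1)).coeff 0 := by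
  rw [A_add_two]; simp [mul_assoc]

theorem coeff_A_add_two_succ (m k : ℕ) :
    (A (m + 2)).coeff (k + 1) = (A (m + 1)).coeff (k + 1) + (m + 1) * m * (A m).coeff k := by
  rw [A_add_two]
  simp only [coeff_add, mul_assoc, coeff_C_mul, coeff_X_mul]

theorem A_le_succ (m : ℕ) : Cle (A m) (A (m + 1)) := by
  cases m with
  | zero => rw [A_zero, A_one]; exact Cle.refl 1
  | succ m =>
    intro k
    rw [A_add_two]; simp

theorem A_mono {m n : ℕ} (h : m ≤ n) : Cle (A m) (A n) := by
  induction n, h using Nat.le_induction with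
  | base => exact Cle.refl _
  | succ n _ ih => exact ih.trans (A_le_succ n)

theorem A_coeff_zero (m : ℕ) : (A m).coeff 0 = 1 := by
  induction m using Nat.twoStepInduction with
  | zero => simp [A_zero]
  | one => simp [A_one]
  | more m _ ih => rw [coeff_A_add_two_zero, ih]

/-- `a_m(k) = 0` for `2k ≥ m`, `k > 0`. -/
theorem A_coeff_eq_zero {m k : ℕ} (h : m ≤ 2 * k) (hk : 0 < k) : (A m).coeff k = 0 := by
  induction m using Nat.twoStepInduction generalizing k with
  | zero => rw [A_zero, coeff_one, if_neg (by omega)]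
  | one => rw [A_one, coeff_one, if_neg (by omega)]
  | more m ih1 ih2 =>
    obtain ⟨k, rfl⟩ : ∃ j, k = j + 1 := ⟨k - 1, by omega⟩
    rw [coeff_A_add_two_succ, ih2 (by omega) (by omega)]
    rcases Nat.eq_zero_or_pos k with rfl | hk'
    · have : m = 0 := by omega
      subst this; simp
    · rw [ih1 (by omega) hk']; simp

/-! ### the polynomials `P` -/

theorem P_eq_prod (s : Multiset ℤ) (T : Finset ℤ) (h : s.toFinset ⊆ T) :
    P s = ∏ c ∈ T, A (s.count c) := by
  unfold P
  refine Finset.prod_subset h fun c _ hc => ?_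
  rw [Multiset.mem_toFinset] at hc
  rw [Multiset.count_eq_zero_of_notMem hc, A_zero]

theorem P_mono {s t : Multiset ℤ} (h : s ≤ t) : Cle (P s) (P t) := by
  rw [P_eq_prod s t.toFinset (Multiset.toFinset_subset.2 (Multiset.subset_of_le h)),
    P_eq_prod t t.toFinset (Finset.Subset.refl _)]
  exact Cle.prod fun c _ => A_mono (Multiset.count_le_of_le c h)

theorem P_zero : P 0 = 1 := by simp [P]

theorem P_replicate (m : ℕ) (c : ℤ) : P (Multiset.replicate m c) = A m := by
  rw [P_eq_prod _ {c}]
  · simp
  · intro x hx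
    rw [Multiset.mem_toFinset] at hx
    simpa using Multiset.eq_of_mem_replicate hx

theorem P_add_of_disjoint {s t : Multiset ℤ} (h : ∀ x ∈ s, x ∉ t) : P (s + t) = P s * P t := by
  classical
  rw [P_eq_prod (s + t) (s.toFinset ∪ t.toFinset) (by rw [Multiset.toFinset_add])]
  have hd : Disjoint s.toFinset t.toFinset := by
    rw [Finset.disjoint_left]; intro x hx hx'
    exact h x (Multiset.mem_toFinset.1 hx) (Multiset.mem_toFinset.1 hx')
  rw [Finset.prod_union hd]
  unfold P
  congr 1
  · refine Finset.prod_congr rfl fun c hc => ?_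
    rw [Multiset.count_add, Multiset.count_eq_zero_of_notMem (h c (Multiset.mem_toFinset.1 hc)),
      add_zero]
  · refine Finset.prod_congr rfl fun c hc => ?_
    have : c ∉ s := fun hs => h c hs (Multiset.mem_toFinset.1 hc)
    rw [Multiset.count_add, Multiset.count_eq_zero_of_notMem this, zero_add]

theorem P_map_of_injective (s : Multiset ℤ) (φ : ℤ → ℤ) (hφ : Function.Injective φ) :
    P (s.map φ) = P s := by
  classical
  unfold P
  rw [Multiset.toFinset_map, Finset.prod_image (fun x _ y _ h => hφ h)]
  exact Finset.prod_congr rfl fun c _ => by rw [Multiset.count_map_eq_count' _ _ hφ]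

theorem P_map_add (s : Multiset ℤ) (a : ℤ) : P (s.map (fun i => i + a)) = P s :=
  P_map_of_injective s _ (add_left_injective a)

theorem P_map_neg (s : Multiset ℤ) : P (s.map (fun i => -i)) = P s :=
  P_map_of_injective s _ neg_injective

theorem P_coeff_zero (s : Multiset ℤ) : (P s).coeff 0 = 1 := by
  unfold P
  rw [coeff_zero_prod]
  simp [A_coeff_zero]

/-! ### labels of forests -/

theorem count_vl (i : ℤ) : ∀ (f : Forest) (x : ℤ), (vl f x).count i = f.cnt x i
  | nil, x => by simp [vl, cnt]
  | cons d c r, x => by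
      simp only [vl, cnt, Multiset.count_cons, Multiset.count_add, count_vl i c, count_vl i r]
      by_cases h : x + inc d = i
      · simp [h]; omega
      · rw [if_neg (fun h' => h h'.symm), if_neg h]; omega

theorem count_tl (f : Forest) (i : ℤ) : (tl f).count i = f.mul i := by
  unfold tl mul
  rw [Multiset.count_cons, count_vl]

theorem toFinset_tl (f : Forest) : (tl f).toFinset = f.labels := by
  ext i
  rw [Multiset.mem_toFinset, mem_labels, ← count_tl, Multiset.count_pos]

theorem W_eq (g : ℕ) (f : Forest) : W g f = (P (tl f)).coeff g := by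
  unfold W P
  rw [toFinset_tl]
  simp only [count_tl]

theorem card_vl : ∀ (f : Forest) (x : ℤ), (vl f x).card = f.edges
  | nil, x => by simp [vl, edges]
  | cons d c r, x => by simp [vl, edges, card_vl c, card_vl r]

theorem card_tl (f : Forest) : (tl f).card = f.edges + 1 := by simp [tl, card_vl]

theorem vl_add (a : ℤ) : ∀ (f : Forest) (x : ℤ), vl f (x + a) = (vl f x).map (fun i => i + a)
  | nil, x => by simp [vl]
  | cons d c r, x => by
      simp only [vl, Multiset.map_cons, Multiset.map_add]
      rw [← vl_add a c, ← vl_add a r, show x + a + inc d = x + inc d + a by ring]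

theorem vl_app (h : Forest) : ∀ (f : Forest) (x : ℤ), vl (app f h) x = vl f x + vl h x
  | nil, x => by simp [vl, app]
  | cons d c r, x => by
      simp only [vl, app, vl_app h r, Multiset.cons_add, add_assoc]

theorem edges_app (h : Forest) : ∀ (f : Forest), (app f h).edges = f.edges + h.edges
  | nil => by simp [edges, app]
  | cons d c r => by simp only [edges, app, edges_app h r]; ring

theorem app_nil : ∀ (f : Forest), app f nil = f
  | nil => rfl
  | cons d c r => by rw [app, app_nil r]

theorem app_assoc (g h : Forest) : ∀ (f : Forest), app (app f g) h = app f (app g h)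
  | nil => rfl
  | cons d c r => by rw [app, app, app, app_assoc g h r]

theorem inc_rev (d : Fin 3) : inc d.rev = - inc d := by
  fin_cases d <;> simp [inc, Fin.rev]

theorem inc_one : inc 1 = 0 := by simp [inc]

theorem inc_two : inc 2 = 1 := by simp [inc]

theorem inc_zero : inc 0 = -1 := by simp [inc]

theorem inc_cases (d : Fin 3) : inc d = -1 ∨ inc d = 0 ∨ inc d = 1 := by
  fin_cases d <;> simp [inc]

theorem inc_injective : Function.Injective inc := by
  intro a b h
  fin_cases a <;> fin_cases b <;> simp_all [inc]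

theorem edges_rot (f : Forest) : (rot f).edges = f.edges := by
  cases f with
  | nil => rfl
  | cons d c r => simp only [rot, edges_app, edges]; omega

/-- re-rooting shifts the labels by the increment of the first edge -/
theorem tl_rot (d : Fin 3) (c r : Forest) :
    (tl (rot (cons d c r))).map (fun i => i + inc d) = tl (cons d c r) := by
  have h1 : (vl c 0).map (fun i => i + inc d) = vl c (0 + inc d) := by rw [vl_add]
  have h2 : (vl r (inc d.rev)).map (fun i => i + inc d) = vl r 0 := by
    rw [← vl_add, inc_rev]; congr 1; ring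
  simp only [tl, rot, vl_app, vl, Multiset.map_cons, Multiset.map_add, zero_add, h1, h2]
  simp only [inc_rev, neg_add_cancel, Multiset.map_zero, add_zero]
  rw [← Multiset.singleton_add, ← Multiset.singleton_add, ← Multiset.singleton_add,
    ← Multiset.singleton_add]
  abel

theorem edges_flp : ∀ (f : Forest), (flp f).edges = f.edges
  | nil => rfl
  | cons d c r => by simp only [flp, edges, edges_flp c, edges_flp r]

theorem flp_flp : ∀ (f : Forest), flp (flp f) = f
  | nil => rfl
  | cons d c r => by simp only [flp, flp_flp c, flp_flp r, Fin.rev_rev]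

theorem vl_flp : ∀ (f : Forest) (x : ℤ), vl (flp f) (-x) = (vl f x).map (fun i => -i)
  | nil, x => by simp [vl, flp]
  | cons d c r, x => by
      simp only [vl, flp, Multiset.map_cons, Multiset.map_add, inc_rev]
      rw [← vl_flp c, ← vl_flp r]
      congr 2
      · ring
      · rw [show -x + -inc d = -(x + inc d) by ring]

theorem tl_flp (f : Forest) : tl (flp f) = (tl f).map (fun i => -i) := by
  simp only [tl, Multiset.map_cons]
  rw [← vl_flp]; simp

/-! ### sums over forests -/

theorem sum_forests_zero {M : Type*} [AddCommMonoid M] (G : Forest → M) :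
    ∑ f ∈ forests 0, G f = G nil := by
  have : forests 0 = {nil} := by
    ext f
    rw [mem_forests, Finset.mem_singleton]
    constructor
    · intro h
      cases f with
      | nil => rfl
      | cons d c r => simp [edges] at h
    · rintro rfl; rfl
  rw [this, Finset.sum_singleton]

theorem sum_forests_succ {M : Type*} [AddCommMonoid M] (G : Forest → M) (n : ℕ) :
    ∑ f ∈ forests (n + 1), G f = ∑ p ∈ Finset.HasAntidiagonal.antidiagonal n, ∑ d : Fin 3,
      ∑ c ∈ forests p.1, ∑ r ∈ forests p.2, G (cons d c r) := by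
  have h1 : ∀ p : ℕ × ℕ, (∑ d : Fin 3, ∑ c ∈ forests p.1, ∑ r ∈ forests p.2, G (cons d c r))
      = ∑ q ∈ (Finset.univ : Finset (Fin 3)) ×ˢ (forests p.1 ×ˢ forests p.2),
        G (cons q.1 q.2.1 q.2.2) := by
    intro p
    rw [Finset.sum_product]
    refine Finset.sum_congr rfl fun d _ => ?_
    rw [Finset.sum_product]
  rw [Finset.sum_congr rfl fun p _ => h1 p, Finset.sum_sigma']
  symm
  refine Finset.sum_bij (fun (x : (_ : ℕ × ℕ) × (Fin 3 × Forest × Forest)) _ =>
    cons x.2.1 x.2.2.1 x.2.2.2) ?_ ?_ ?_ ?_
  · rintro ⟨p, d, c, r⟩ h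
    simp only [Finset.mem_sigma, Finset.HasAntidiagonal.mem_antidiagonal, Finset.mem_product, Finset.mem_univ,
      true_and, mem_forests] at h
    rw [mem_forests]; simp only [edges]; omega
  · rintro ⟨⟨i, j⟩, d, c, r⟩ h ⟨⟨i', j'⟩, d', c', r'⟩ h' heq
    simp only [Finset.mem_sigma, Finset.HasAntidiagonal.mem_antidiagonal, Finset.mem_product, Finset.mem_univ,
      true_and, mem_forests] at h h'
    simp only [cons.injEq] at heq
    obtain ⟨rfl, rfl, rfl⟩ := heq
    obtain ⟨_, h1, h2⟩ := h
    obtain ⟨_, h3, h4⟩ := h'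
    subst h1; subst h2; subst h3; subst h4
    rfl
  · intro f hf
    rw [mem_forests] at hf
    cases f with
    | nil => simp [edges] at hf
    | cons d c r =>
      refine ⟨⟨(c.edges, r.edges), d, c, r⟩, ?_, rfl⟩
      simp only [edges] at hf
      simp only [Finset.mem_sigma, Finset.HasAntidiagonal.mem_antidiagonal, Finset.mem_product, Finset.mem_univ,
        true_and, mem_forests, and_true]
      omega
  · intro x _; rfl

theorem prod_A_coeff {ι : Type*} (T : Finset ι) (m : ι → ℕ) (k : ℕ)
    (h : (∏ c ∈ T, A (m c)).coeff k ≠ 0) : k = 0 ∨ 2 * k + 1 ≤ ∑ c ∈ T, m c := by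
  classical
  induction T using Finset.induction_on generalizing k with
  | empty =>
    left
    by_contra hk
    exact h (by simp [coeff_one, hk])
  | insert a T ha ih =>
    rw [Finset.prod_insert ha, coeff_mul] at h
    obtain ⟨⟨i, j⟩, hij, hne⟩ := Finset.exists_ne_zero_of_sum_ne_zero h
    rw [Finset.HasAntidiagonal.mem_antidiagonal] at hij
    rw [Finset.sum_insert ha]
    have h1 : (A (m a)).coeff i ≠ 0 := left_ne_zero_of_mul hne
    have h2 := ih j (right_ne_zero_of_mul hne)
    have h3 : i = 0 ∨ 2 * i + 1 ≤ m a := by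
      by_contra hc
      push Not at hc
      exact h1 (A_coeff_eq_zero (by omega) (by omega))
    simp only at hij
    omega

/-- `(P s).coeff g` is positive only if `g = 0` or `2 g < card s`. -/
theorem P_coeff_eq_zero (s : Multiset ℤ) (g : ℕ) (h : s.card ≤ 2 * g) (hg : 0 < g) :
    (P s).coeff g = 0 := by
  by_contra hne
  have := prod_A_coeff s.toFinset (fun c => s.count c) g hne
  rw [Multiset.toFinset_sum_count_eq] at this
  omega

theorem W_eq_zero {g n : ℕ} {f : Forest} (hf : f ∈ forests n) (h : n < 2 * g) : W g f = 0 := by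
  rw [W_eq]
  rw [mem_forests] at hf
  exact P_coeff_eq_zero _ _ (by rw [card_tl, hf]; omega) (by omega)

theorem S_eq_zero {g n : ℕ} (h : n < 2 * g) : S n g = 0 :=
  Finset.sum_eq_zero fun _ hf => W_eq_zero hf h

end HGQ
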