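import Pool.Agent.HGQ.EApi
import Pool.Agent.HGQ.EA1
import Pool.Agent.HGQ.EC1
import Pool.Agent.HGQ.EC2

/-! # HGQ.EC3 : the root level may be assumed heavy; growth in the genus (E2)

* `heavy_root`: with `ε` from `conc`, for `n ≥ 1` large: by `conc` (`(1/2)^n ≤ 1/2`)
  `S n g ≤ 2 ∑_{∃ c, ε n ≤ mul f c} W g f`, and by `rr_heavy` with `K = ε n`, `G = W g`:
  `≤ (4/ε) ∑_{ε n ≤ mul f 0} W g f`.
* `growth2`: for `f` with `ε n ≤ m := mul f 0` the forest `cons 1 nil (cons 1 nil f)` has `tl = 0 ::ₘ 0 ::ₘ tl f`, so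
  by `P_add_two` `(ε n)^2 W g f ≤ W (g+1) (cons 1 nil (cons 1 nil f))`; this map is injective from `forests n` to
  `forests (n+2)`. Hence `S (n+2) (g+1) ≥ ε^2 n^2 (ε/4) S n g`.
* `path`: let `lam` from `growth1`, `c` from `growth2`. Apply `growth2` `i` times from `(n₀,g₀)` to `(n₀+2i, g₀+i)` (each factor
  `c (n₀+2i')^2 ≥ c n₀^2`), then `growth1` `a` times; all intermediate `(n',g')` satisfy `g' ≥ g₀ ≥ θ (n₀+a+2i) ≥ θ n'`
  and, for `growth1`, `θ (n'+1) ≤ θ (n₀+a+2i)`.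
-/

namespace HGQ

open Polynomial Forest

theorem heavy_root (θ : ℝ) (hθ : 0 < θ) : ∃ ε : ℝ, 0 < ε ∧ ε < 1 ∧ ∃ N : ℕ, ∀ n ≥ N, ∀ g : ℕ,
    θ * n ≤ g → (S n g : ℝ)
      ≤ 4 / ε * ∑ f ∈ (forests n).filter (fun f => ε * n ≤ (f.mul 0 : ℝ)), (W g f : ℝ) := by
  obtain ⟨ε, hε0, hε1, N, hN⟩ := conc θ hθ
  refine ⟨ε, hε0, hε1, max N 1, fun n hn g hg => ?_⟩
  classical
  have hn1 : 1 ≤ n := le_trans (le_max_right _ _) hn
  have hnR : (1 : ℝ) ≤ n := by exact_mod_cast hn1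
  have hc := hN n (le_trans (le_max_left _ _) hn) g hg
  have hr := rr_heavy n hn1 (fun f => (W g f : ℝ)) (fun f => Nat.cast_nonneg _)
    (fun f => by simp only [W_rot]) (ε * n)
  have hsplit : (S n g : ℝ)
      = ∑ f ∈ (forests n).filter (fun f => ∃ c, ε * n ≤ (f.mul c : ℝ)), (W g f : ℝ)
        + ∑ f ∈ (forests n).filter (fun f => ∀ c, (f.mul c : ℝ) < ε * n), (W g f : ℝ) := by
    unfold S
    push_cast
    rw [← Finset.sum_filter_add_sum_filter_not (forests n)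
      (fun f => ∃ c, ε * n ≤ (f.mul c : ℝ))]
    congr 1
    refine Finset.sum_congr ?_ fun _ _ => rfl
    refine Finset.filter_congr fun f _ => ?_
    push Not
    rfl
  have hS0 : (0 : ℝ) ≤ S n g := Nat.cast_nonneg _
  have hpow : ((1 : ℝ) / 2) ^ n ≤ 1 / 2 := by
    have := pow_le_pow_of_le_one (by norm_num : (0 : ℝ) ≤ 1 / 2) (by norm_num) hn1
    simpa using this
  have h1 : ((1 : ℝ) / 2) ^ n * (S n g : ℝ) ≤ 1 / 2 * (S n g : ℝ) :=
    mul_le_mul_of_nonneg_right hpow hS0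
  set H := ∑ f ∈ (forests n).filter (fun f => ∃ c, ε * n ≤ (f.mul c : ℝ)), (W g f : ℝ) with hH
  set R := ∑ f ∈ (forests n).filter (fun f => ε * n ≤ (f.mul 0 : ℝ)), (W g f : ℝ) with hR
  have h2 : (S n g : ℝ) ≤ 2 * H := by linarith
  have h3 : ε * H ≤ 2 * R := by
    have h4 : (n : ℝ) * (ε * H) ≤ n * (2 * R) := by nlinarith [hr]
    exact le_of_mul_le_mul_left h4 (by linarith)
  have h5 : H ≤ 2 / ε * R := by
    rw [div_mul_eq_mul_div, le_div_iff₀ hε0]
    linarith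
  calc (S n g : ℝ) ≤ 2 * H := h2
    _ ≤ 2 * (2 / ε * R) := by linarith
    _ = 4 / ε * R := by ring

private theorem ec3_W (g : ℕ) (f : Forest) :
    (f.mul 0 + 1) * f.mul 0 * W g f ≤ W (g + 1) (cons 1 nil (cons 1 nil f)) := by
  have htl : tl (cons 1 nil (cons 1 nil f)) = 0 ::ₘ 0 ::ₘ tl f := by
    simp only [tl, vl, inc_one, add_zero, zero_add]
  rw [W_eq, W_eq, htl]
  have := P_add_two (tl f) 0 g
  rwa [count_tl] at this

theorem growth2 (θ : ℝ) (hθ : 0 < θ) : ∃ c : ℝ, 0 < c ∧ ∃ N : ℕ, ∀ n ≥ N, ∀ g : ℕ,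
    θ * n ≤ g → c * (n : ℝ) ^ 2 * (S n g : ℝ) ≤ (S (n + 2) (g + 1) : ℝ) := by
  obtain ⟨ε, hε0, hε1, N, hN⟩ := heavy_root θ hθ
  refine ⟨ε ^ 3 / 4, by positivity, N, fun n hn g hg => ?_⟩
  have h := hN n hn g hg
  set R := ∑ f ∈ (forests n).filter (fun f => ε * n ≤ (f.mul 0 : ℝ)), (W g f : ℝ) with hR
  have h1 : (ε * n) ^ 2 * R ≤ (S (n + 2) (g + 1) : ℝ) := by
    have hinj : Set.InjOn (fun f : Forest => cons 1 nil (cons 1 nil f))
        ((forests n).filter (fun f => ε * n ≤ (f.mul 0 : ℝ)) : Set Forest) := by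
      intro a _ b _ hab
      simpa using hab
    have hsub : ((forests n).filter (fun f => ε * n ≤ (f.mul 0 : ℝ))).image
        (fun f : Forest => cons 1 nil (cons 1 nil f)) ⊆ forests (n + 2) := by
      intro x hx
      obtain ⟨f, hf, rfl⟩ := Finset.mem_image.1 hx
      rw [Finset.mem_filter, mem_forests] at hf
      rw [mem_forests]
      simp only [edges, hf.1]
      omega
    calc (ε * n) ^ 2 * R
        = ∑ f ∈ (forests n).filter (fun f => ε * n ≤ (f.mul 0 : ℝ)),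
            (ε * n) ^ 2 * (W g f : ℝ) := by rw [hR, Finset.mul_sum]
      _ ≤ ∑ f ∈ (forests n).filter (fun f => ε * n ≤ (f.mul 0 : ℝ)),
            (W (g + 1) (cons 1 nil (cons 1 nil f)) : ℝ) := by
          refine Finset.sum_le_sum fun f hf => ?_
          have hm := (Finset.mem_filter.1 hf).2
          have h0 : (0 : ℝ) ≤ ε * n := by positivity
          have hW : ((f.mul 0 : ℝ) + 1) * f.mul 0 * W g f
              ≤ W (g + 1) (cons 1 nil (cons 1 nil f)) := by exact_mod_cast ec3_W g f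
          refine le_trans ?_ hW
          refine mul_le_mul_of_nonneg_right ?_ (Nat.cast_nonneg _)
          nlinarith [hm, h0]
      _ = ∑ x ∈ ((forests n).filter (fun f => ε * n ≤ (f.mul 0 : ℝ))).image
            (fun f : Forest => cons 1 nil (cons 1 nil f)), (W (g + 1) x : ℝ) := by
          rw [Finset.sum_image hinj]
      _ ≤ ∑ x ∈ forests (n + 2), (W (g + 1) x : ℝ) :=
          Finset.sum_le_sum_of_subset_of_nonneg hsub fun _ _ _ => Nat.cast_nonneg _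
      _ = (S (n + 2) (g + 1) : ℝ) := by unfold S; push_cast; rfl
  calc ε ^ 3 / 4 * (n : ℝ) ^ 2 * (S n g : ℝ)
      ≤ ε ^ 3 / 4 * (n : ℝ) ^ 2 * (4 / ε * R) := by
        refine mul_le_mul_of_nonneg_left h (by positivity)
    _ = (ε * n) ^ 2 * R := by field_simp
    _ ≤ _ := h1

end HGQ
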