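import Mathlib

/-! # MP_a7ce40_pr (HGQ): labelled plane forests and the weights

A forest `f : Forest` with `n` edges encodes a plane tree with `n` edges (the root vertex with the
forest of its child subtrees), where every edge carries an increment in `{-1,0,1}`; the labels
of the vertices are obtained from the label of the root (usually `0`) by adding the increments.
-/

namespace HGQ

open Polynomial

/-- Labelled plane forests: `cons d c r` is a first child joined by an edge with increment `d - 1`,
with forest of children `c`, followed by the remaining children `r`. -/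
inductive Forest : Type
  | nil : Forest
  | cons (d : Fin 3) (c r : Forest) : Forest
  deriving DecidableEq

namespace Forest

/-- The increment `d - 1`, in `{-1,0,1}`. -/
def inc (d : Fin 3) : ℤ := (d : ℤ) - 1

/-- number of edges -/
def edges : Forest → ℕ
  | nil => 0
  | cons _ c r => c.edges + r.edges + 1

/-- number of non-root vertices with label `i` if the root vertex has label `x` -/
def cnt : Forest → ℤ → ℤ → ℕ
  | nil, _, _ => 0
  | cons d c r, x, i => (if x + inc d = i then 1 else 0) + cnt c (x + inc d) i + cnt r x i

/-- number of vertices with label `i` of the tree with root label `0` -/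
def mul (f : Forest) (i : ℤ) : ℕ := cnt f 0 i + if i = 0 then 1 else 0

/-- labels of the non-root vertices if the root vertex has label `x` -/
def lab : Forest → ℤ → Finset ℤ
  | nil, _ => ∅
  | cons d c r, x => insert (x + inc d) (lab c (x + inc d) ∪ lab r x)

/-- the set of labels of all vertices (root label `0`) -/
def labels (f : Forest) : Finset ℤ := insert 0 (lab f 0)

/-- all forests with at most `n` edges (auxiliary) -/
def upTo : ℕ → Finset Forest
  | 0 => {nil}
  | n + 1 => insert nil ((Finset.univ ×ˢ (upTo n ×ˢ upTo n)).image
      (fun p : Fin 3 × (Forest × Forest) => cons p.1 p.2.1 p.2.2))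

/-- the finset of forests with `n` edges -/
def forests (n : ℕ) : Finset Forest := (upTo n).filter (fun f => f.edges = n)

theorem mem_upTo : ∀ (n : ℕ) (f : Forest), f.edges ≤ n → f ∈ upTo n
  | 0, nil, _ => by simp [upTo]
  | 0, cons d c r, h => by simp [edges] at h
  | n + 1, nil, _ => by simp [upTo]
  | n + 1, cons d c r, h => by
      simp only [edges] at h
      have hc := mem_upTo n c (by omega)
      have hr := mem_upTo n r (by omega)
      simp only [upTo, Finset.mem_insert, Finset.mem_image, Finset.mem_product, Finset.mem_univ,
        true_and]
      exact Or.inr ⟨(d, (c, r)), ⟨hc, hr⟩, rfl⟩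

theorem mem_forests {n : ℕ} {f : Forest} : f ∈ forests n ↔ f.edges = n := by
  simp only [forests, Finset.mem_filter]
  exact ⟨fun h => h.2, fun h => ⟨mem_upTo n f h.le, h⟩⟩

theorem mem_lab : ∀ (f : Forest) (x i : ℤ), i ∈ f.lab x ↔ 0 < f.cnt x i
  | nil, x, i => by simp [lab, cnt]
  | cons d c r, x, i => by
      simp only [lab, cnt, Finset.mem_insert, Finset.mem_union, mem_lab c, mem_lab r]
      by_cases h : x + inc d = i
      · simp only [h, if_true]; constructor
        · intro _; omega
        · intro _; exact Or.inl trivial
      · simp only [h, if_false]
        constructor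
        · rintro (h1 | h1 | h1)
          · exact absurd h1.symm h
          · omega
          · omega
        · intro h1
          by_cases h2 : 0 < c.cnt (x + inc d) i
          · exact Or.inr (Or.inl h2)
          · exact Or.inr (Or.inr (by omega))

theorem mem_labels {f : Forest} {i : ℤ} : i ∈ f.labels ↔ 0 < f.mul i := by
  simp only [labels, mul, Finset.mem_insert, mem_lab]
  by_cases h : i = 0
  · simp [h]
  · simp [h]

end Forest

/-- `A m = ∑_k #(odd-cycle permutations of `m` elements with `m - 2k` cycles) X^k`. -/
noncomputable def A : ℕ → ℕ[X]
  | 0 => 1
  | 1 => 1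
  | m + 2 => A (m + 1) + C ((m + 1) * m) * X * A m

/-- weight of a forest: coefficient of `s^g` in the product over the labels of `A (mul f i)` -/
noncomputable def W (g : ℕ) (f : Forest) : ℕ := (∏ i ∈ f.labels, A (f.mul i)).coeff g

/-- total weight -/
noncomputable def S (n g : ℕ) : ℕ := ∑ f ∈ Forest.forests n, W g f

end HGQ
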