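import Pool.Agent.HGQ.Forest
import Pool.Agent.HGQ.EApi
import Pool.Agent.HGQ.BDefs

/-! # HGQ part T: number of forests and number of fixed-point-free involutions

PAPER PROOF. `card_forests`: `(forests (n+1)).card = 3 * ∑_{i ≤ n} (forests i).card * (forests (n-i)).card`, so
`(forests n).card = 3^n * catalan n`; Mathlib: `catalan_succ`, `catalan_eq_centralBinom_div`,
`succ_mul_catalan_eq_centralBinom`.
`card_edges`: fixed-point-free involutions are the permutations of cycle type `replicate n 2`; use
`Equiv.Perm.card_of_cycleType` (or a bijection/induction: `Perm (Fin (2n))` maps onto them by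
`π ↦ π a π⁻¹` with fibres of size `2^n n!`).
-/

namespace HGQ

open Equiv

theorem card_forests (n : ℕ) : (Forest.forests n).card = 3 ^ n * catalan n := by
  induction n using Nat.strong_induction_on with
  | _ n ih =>
    cases n with
    | zero =>
      have := sum_forests_zero (fun _ => 1)
      rw [Finset.card_eq_sum_ones, this]; simp
    | succ n =>
      have h := sum_forests_succ (fun _ => 1) n
      rw [Finset.card_eq_sum_ones, h, catalan_succ', Finset.mul_sum]
      refine Finset.sum_congr rfl fun p hp => ?_
      rw [Finset.HasAntidiagonal.mem_antidiagonal] at hp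
      simp only [Finset.sum_const, smul_eq_mul, mul_one, Finset.card_univ, Fintype.card_fin]
      rw [ih p.1 (by omega), ih p.2 (by omega), ← hp]
      ring

theorem card_forests' (n : ℕ) :
    (Forest.forests n).card * ((n + 1).factorial * n.factorial) = 3 ^ n * (2 * n).factorial := by
  rw [card_forests, Nat.factorial_succ]
  have h := succ_mul_catalan_eq_centralBinom n
  have h2 : Nat.centralBinom n * n.factorial * n.factorial = (2 * n).factorial := by
    rw [Nat.centralBinom_eq_two_mul_choose]
    have := Nat.choose_mul_factorial_mul_factorial (show n ≤ 2 * n by omega)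
    rwa [show 2 * n - n = n by omega] at this
  rw [← h2, ← h]
  ring

theorem card_isEdges {H : Type*} [Fintype H] [DecidableEq H] {n : ℕ}
    (hcard : Fintype.card H = 2 * n) :
    Nat.card {al : Perm H // IsEdges al} * (2 ^ n * n.factorial) = (2 * n).factorial := by
  classical
  have key : ∀ al : Perm H, IsEdges al ↔ al.cycleType = Multiset.replicate n 2 := by
    intro al
    constructor
    · intro h
      have h2 : al ^ 2 = 1 := by
        ext x; simp [pow_two, h.inv]
      haveI : Fact (Nat.Prime 2) := ⟨Nat.prime_two⟩
      have h3 := Perm.pow_prime_eq_one_iff.1 h2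
      have h4 : al.cycleType = Multiset.replicate (Multiset.card al.cycleType) 2 :=
        Multiset.eq_replicate.2 ⟨rfl, h3⟩
      have h5 : al.support = Finset.univ := by
        ext x; simp [h.ne x]
      have h6 := al.sum_cycleType
      rw [h5, Finset.card_univ, hcard, h4, Multiset.sum_replicate, smul_eq_mul] at h6
      rw [h4]
      congr 1; omega
    · intro h
      haveI : Fact (Nat.Prime 2) := ⟨Nat.prime_two⟩
      have h2 : al ^ 2 = 1 := Perm.pow_prime_eq_one_iff.2 (by
        rw [h]; intro c hc; exact Multiset.eq_of_mem_replicate hc)
      have h6 := al.sum_cycleType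
      rw [h, Multiset.sum_replicate, smul_eq_mul] at h6
      have h7 : al.support = Finset.univ := by
        apply Finset.eq_univ_of_card
        omega
      refine ⟨fun x => ?_, fun x => ?_⟩
      · have := congrArg (fun σ : Perm H => σ x) h2
        simpa [pow_two] using this
      · have : x ∈ al.support := by rw [h7]; exact Finset.mem_univ x
        exact Perm.mem_support.1 this
  have h1 : Nat.card {al : Perm H // IsEdges al}
      = (Finset.univ.filter (fun g : Perm H => g.cycleType = Multiset.replicate n 2)).card := by
    rw [Nat.card_eq_fintype_card, Fintype.card_subtype]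
    congr 1
    ext al
    simp [key]
  have h2 := Perm.card_of_cycleType_mul_eq (α := H) (Multiset.replicate n 2)
  rw [if_pos] at h2
  · rw [h1]
    rw [hcard] at h2
    rw [← h2]
    congr 1
    rcases Nat.eq_zero_or_pos n with rfl | hn
    · simp
    · have h3 : (Multiset.replicate n 2).toFinset = {2} := by
        rw [Multiset.toFinset_replicate, if_neg (by omega)]
      rw [h3]
      simp [Multiset.sum_replicate, mul_comm n 2]
  · constructor
    · rw [Multiset.sum_replicate, hcard, smul_eq_mul]; omega
    · intro a ha
      rw [Multiset.eq_of_mem_replicate ha]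

end HGQ
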