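import Pool.Agent.HGQ.BTotal

/-! # HGQ part T: at most `3^n` labellings of a one-face permutation

PAPER PROOF. Let `γ = σ * al`, one face. For a labelling `x` with `x (σ h) = x h`, `x r = 0`,
`|x (al h) - x h| ≤ 1` put `δ h = x (al h) - x h ∈ {-1,0,1}`; then `δ (al h) = - δ h`, and
`x (γ h) = x (σ (al h)) = x (al h) = x h + δ h`. As `γ` is transitive and `x r = 0`, `x` is determined by `δ`
(two labellings with the same `δ` differ by a `γ`-invariant function vanishing at `r`), and `δ` is
determined by its restriction to a set `R` of `n` representatives of the `al`-orbits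
(`R = {h : f h < f (al h)}` for an injection `f : H → ℕ`, or use a tour), so there are at most `3^n`.
-/

namespace HGQ

open Equiv

variable {H : Type*} [Fintype H] [DecidableEq H]

/-- half of the half-edges: one for each edge -/
private noncomputable def tuR (al : Perm H) : Finset H :=
  Finset.univ.filter fun h => Fintype.equivFin H h < Fintype.equivFin H (al h)

private theorem tu_mem {al : Perm H} (h : H) :
    h ∈ tuR al ↔ Fintype.equivFin H h < Fintype.equivFin H (al h) := by simp [tuR]

private theorem tu_card {al : Perm H} (hal : IsEdges al) {n : ℕ}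
    (hcard : Fintype.card H = 2 * n) : (tuR al).card = n := by
  have h1 : (tuR al).card = ((tuR al)ᶜ).card := by
    refine Finset.card_bij (fun h _ => al h) ?_ ?_ ?_
    · intro h hh
      rw [Finset.mem_compl, tu_mem, hal.inv, not_lt]
      exact ((tu_mem h).1 hh).le
    · intro a _ b _ hab; exact al.injective hab
    · intro b hb
      refine ⟨al b, ?_, hal.inv b⟩
      rw [Finset.mem_compl, tu_mem, not_lt] at hb
      rw [tu_mem, hal.inv]
      refine lt_of_le_of_ne hb fun h => hal.ne b ?_
      exact (Fintype.equivFin H).injective h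
  have h2 := Finset.card_add_card_compl (tuR al)
  omega

private theorem tu_abs {a : ℤ} (h : |a| ≤ 1) : 0 ≤ a + 1 ∧ a + 1 < 3 := by
  rw [abs_le] at h; omega

/-- restriction of the increments to the representatives -/
private noncomputable def tuF (al σ : Perm H) (r : H)
    (x : {x : H → ℤ // (∀ h, x (σ h) = x h) ∧ (∀ h, |x (al h) - x h| ≤ 1) ∧ x r = 0}) :
    tuR al → Fin 3 := fun h =>
  ⟨(x.1 (al h) - x.1 h + 1).toNat, by have := tu_abs (x.2.2.1 h); omega⟩

private theorem tu_inj {al : Perm H} (hal : IsEdges al) (σ : Perm H) (r : H)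
    (hσ : OneFace (σ * al)) : Function.Injective (tuF al σ r) := by
  rintro ⟨x, hx1, hx2, hx3⟩ ⟨y, hy1, hy2, hy3⟩ hxy
  have hR : ∀ h ∈ tuR al, x (al h) - x h = y (al h) - y h := by
    intro h hh
    have h1 := congrArg Fin.val (congrFun hxy ⟨h, hh⟩)
    simp only [tuF] at h1
    have h2 := tu_abs (hx2 h)
    have h3 := tu_abs (hy2 h)
    omega
  have hall : ∀ h, x (al h) - x h = y (al h) - y h := by
    intro h
    by_cases hh : h ∈ tuR al
    · exact hR h hh
    · have h1 : al h ∈ tuR al := by
        rw [tu_mem, not_lt] at hh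
        rw [tu_mem, hal.inv]
        refine lt_of_le_of_ne hh fun h' => hal.ne h ?_
        exact (Fintype.equivFin H).injective h'
      have h2 := hR (al h) h1
      rw [hal.inv] at h2
      omega
  have hinv : ∀ h, x ((σ * al) h) - y ((σ * al) h) = x h - y h := by
    intro h
    rw [Perm.mul_apply, hx1, hy1]
    have := hall h
    omega
  have hz : ∀ k : ℤ, ∀ h, x (((σ * al) ^ k) h) - y (((σ * al) ^ k) h) = x h - y h := by
    intro k
    induction k using Int.induction_on with
    | zero => intro h; simp
    | succ i ih =>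
      intro h
      rw [zpow_add_one, Perm.mul_apply, ih, hinv]
    | pred i ih =>
      intro h
      have h1 := ih ((σ * al)⁻¹ h)
      rw [zpow_sub_one, Perm.mul_apply, h1]
      have h2 := hinv ((σ * al)⁻¹ h)
      rw [show (σ * al) ((σ * al)⁻¹ h) = h from Equiv.apply_symm_apply (σ * al) h] at h2
      exact h2.symm
  apply Subtype.ext
  funext h
  obtain ⟨k, hk⟩ := hσ r h
  have h1 := hz k r
  rw [hk, hx3, hy3] at h1
  simp only at h1 ⊢
  omega

theorem finite_labellings {al : Perm H} (σ : Perm H) (r : H) (hσ : OneFace (σ * al)) :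
    Finite {x : H → ℤ // (∀ h, x (σ h) = x h) ∧ (∀ h, |x (al h) - x h| ≤ 1) ∧ x r = 0} := by
  -- determined by the increments of all half-edges
  let F : {x : H → ℤ // (∀ h, x (σ h) = x h) ∧ (∀ h, |x (al h) - x h| ≤ 1) ∧ x r = 0} →
      (H → Fin 3) := fun x h => ⟨(x.1 (al h) - x.1 h + 1).toNat, by
    have := tu_abs (x.2.2.1 h); omega⟩
  refine Finite.of_injective F ?_
  rintro ⟨x, hx1, hx2, hx3⟩ ⟨y, hy1, hy2, hy3⟩ hxy
  have hall : ∀ h, x (al h) - x h = y (al h) - y h := by
    intro h
    have h1 := congrArg Fin.val (congrFun hxy h)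
    simp only [F] at h1
    have h2 := tu_abs (hx2 h)
    have h3 := tu_abs (hy2 h)
    omega
  have hinv : ∀ h, x ((σ * al) h) - y ((σ * al) h) = x h - y h := by
    intro h
    rw [Perm.mul_apply, hx1, hy1]
    have := hall h
    omega
  have hz : ∀ k : ℤ, ∀ h, x (((σ * al) ^ k) h) - y (((σ * al) ^ k) h) = x h - y h := by
    intro k
    induction k using Int.induction_on with
    | zero => intro h; simp
    | succ i ih =>
      intro h
      rw [zpow_add_one, Perm.mul_apply, ih, hinv]
    | pred i ih =>
      intro h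
      have h1 := ih ((σ * al)⁻¹ h)
      rw [zpow_sub_one, Perm.mul_apply, h1]
      have h2 := hinv ((σ * al)⁻¹ h)
      rw [show (σ * al) ((σ * al)⁻¹ h) = h from Equiv.apply_symm_apply (σ * al) h] at h2
      exact h2.symm
  apply Subtype.ext
  funext h
  obtain ⟨k, hk⟩ := hσ r h
  have h1 := hz k r
  rw [hk, hx3, hy3] at h1
  simp only at h1 ⊢
  omega

theorem card_labellings_le {al : Perm H} (hal : IsEdges al) {n : ℕ}
    (hcard : Fintype.card H = 2 * n) (σ : Perm H) (r : H) (hσ : OneFace (σ * al)) :
    Nat.card {x : H → ℤ // (∀ h, x (σ h) = x h) ∧ (∀ h, |x (al h) - x h| ≤ 1) ∧ x r = 0} ≤ 3 ^ n := by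
  refine (Nat.card_le_card_of_injective _ (tu_inj hal σ r hσ)).trans ?_
  rw [Nat.card_eq_fintype_card, Fintype.card_fun, Fintype.card_fin, Fintype.card_coe,
    tu_card hal hcard]

end HGQ
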