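import Pool.Agent.HGQ.TTour2
import Pool.Agent.HGQ.TUpper
import Pool.Agent.HGQ.TCard

/-! # HGQ part T: genus-0 labelled one-face permutations are forests with tours

PAPER PROOF. Let `r : H`, `PL` = set of `(al, σ, x)` with `IsEdges al`, `OneFace (σ * al)`, `x ∘ σ = x`,
`|x (al h) - x h| ≤ 1`, `x r = 0`, `ncyc σ = n + 1`. The map
`Ψ (f, e) = (alF n f e, sg (alF n f e) e, lbF f e)` from `{f ∈ forests n} × {e : rk e r = 0}` to `PL` is injective
(`forest_tour_inj`); the source has `(forests n).card * (2n-1)!` elements and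
`PL` has at most `#edges * 3^n * #planar` elements (`card_labellings_le`, `card_planar`), which is the same number
(`card_forests'`, `card_isEdges`, `card_planar`: both sides times `(n+1)! 2^n n!` are
`3^n 2^n (2n)! (2n-1)!`). So `Ψ` is a bijection, and `prof x σ i = f.mul i`, `image x = labels f`.
-/

namespace HGQ

open Equiv

variable {H : Type*} [Fintype H] [DecidableEq H]

/-- labelled one-face permutations with root `r` and root label `0` -/
structure IsLU (r : H) (t : Perm H × Perm H × (H → ℤ)) : Prop where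
  edges : IsEdges t.1
  face : OneFace (t.2.1 * t.1)
  good : ∀ h, t.2.2 (t.2.1 h) = t.2.2 h
  adj : ∀ h, |t.2.2 (t.1 h) - t.2.2 h| ≤ 1
  root : t.2.2 r = 0

theorem finite_LU (r : H) : Finite {t : Perm H × Perm H × (H → ℤ) // IsLU r t} := by
  have key : ∀ p : Perm H × Perm H, {x : H → ℤ | IsLU r (p.1, p.2, x)}.Finite := by
    intro p
    by_cases h : OneFace (p.2 * p.1)
    · have h1 : {x : H → ℤ | (∀ h, x (p.2 h) = x h) ∧ (∀ h, |x (p.1 h) - x h| ≤ 1) ∧
          x r = 0}.Finite := finite_labellings (al := p.1) p.2 r h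
      exact h1.subset fun x hx => ⟨hx.good, hx.adj, hx.root⟩
    · convert Set.finite_empty
      ext x
      simp only [Set.mem_ofPred_eq, Set.mem_empty_iff_false, iff_false]
      exact fun hx => h hx.face
  have h2 : {t : Perm H × Perm H × (H → ℤ) | IsLU r t}.Finite := by
    refine (Set.finite_iUnion fun p : Perm H × Perm H =>
      (key p).image (fun x => (p.1, p.2, x))).subset fun t ht => ?_
    exact Set.mem_iUnion.2 ⟨(t.1, t.2.1), t.2.2, ht, rfl⟩
  exact h2

theorem card_tours_root {n : ℕ} (hn : 0 < n) (hcard : Fintype.card H = 2 * n) (r : H) :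
    Nat.card {e : H ≃ Fin (2 * n) // rk e r = 0} = (2 * n - 1).factorial := by
  classical
  have : NeZero (2 * n) := ⟨by omega⟩
  have e1 : {e : H ≃ Fin (2 * n) // rk e r = 0} ≃
      {e : Option {h : H // h ≠ r} ≃ Fin (2 * n) // e none = 0} :=
    Equiv.subtypeEquiv (Equiv.equivCongr (Equiv.optionSubtypeNe r).symm (Equiv.refl _))
      (fun e => by
        rw [Equiv.equivCongr_apply_apply]
        simp only [Equiv.symm_symm, Equiv.optionSubtypeNe_none, Equiv.coe_refl, id_eq]
        rw [rk, ← Fin.val_eq_zero_iff])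
  rw [Nat.card_congr e1, Nat.card_congr (Equiv.optionSubtype (0 : Fin (2 * n)))]
  have h1 : Fintype.card {h : H // h ≠ r} = 2 * n - 1 := by
    rw [Fintype.card_subtype_compl, hcard]; simp
  have h2 : Fintype.card {j : Fin (2 * n) // j ≠ 0} = 2 * n - 1 := by
    rw [Fintype.card_subtype_compl]; simp
  rw [Nat.card_eq_fintype_card, Fintype.card_equiv (Fintype.equivOfCardEq (h1.trans h2.symm)), h1]

theorem card_planar_le {n : ℕ} (hn : 0 < n) (hcard : Fintype.card H = 2 * n) (r : H) :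
    Nat.card {t : Perm H × Perm H × (H → ℤ) // IsLU r t ∧ ncyc t.2.1 = n + 1} ≤
      (Forest.forests n).card * (2 * n - 1).factorial := by
  classical
  -- fibres
  let Pl : {al : Perm H // IsEdges al} → Type _ := fun al =>
    {σ : Perm H // OneFace (σ * al.1) ∧ ncyc σ = n + 1}
  let Lb : (al : {al : Perm H // IsEdges al}) → Pl al → Type _ := fun al σ =>
    {x : H → ℤ // (∀ h, x (σ.1 h) = x h) ∧ (∀ h, |x (al.1 h) - x h| ≤ 1) ∧ x r = 0}
  have hfL : ∀ al σ, Finite (Lb al σ) := fun al σ => finite_labellings σ.1 r σ.2.1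
  let φ : {t : Perm H × Perm H × (H → ℤ) // IsLU r t ∧ ncyc t.2.1 = n + 1} →
      Σ al, Σ σ : Pl al, Lb al σ := fun t =>
    ⟨⟨t.1.1, t.2.1.edges⟩, ⟨t.1.2.1, t.2.1.face, t.2.2⟩,
      ⟨t.1.2.2, t.2.1.good, t.2.1.adj, t.2.1.root⟩⟩
  have hφ : Function.Injective φ := by
    let ψ : (Σ al, Σ σ : Pl al, Lb al σ) → Perm H × Perm H × (H → ℤ) :=
      fun u => (u.1.1, u.2.1.1, u.2.2.1)
    intro t t' h
    exact Subtype.ext (congrArg ψ h)
  have h1 := Nat.card_le_card_of_injective φ hφ
  have h2 : Nat.card (Σ al, Σ σ : Pl al, Lb al σ) ≤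
      ∑ al : {al : Perm H // IsEdges al}, Nat.card (Pl al) * 3 ^ n := by
    rw [Nat.card_sigma]
    refine Finset.sum_le_sum fun al _ => ?_
    rw [Nat.card_sigma, Nat.card_eq_fintype_card, ← Finset.card_univ, ← smul_eq_mul]
    exact Finset.sum_le_card_nsmul _ _ _ fun σ _ =>
      card_labellings_le al.2 hcard σ.1 r σ.2.1
  have h3 : (n + 1).factorial * ∑ al : {al : Perm H // IsEdges al}, Nat.card (Pl al) * 3 ^ n =
      Nat.card {al : Perm H // IsEdges al} * (2 ^ n * (2 * n - 1).factorial * 3 ^ n) := by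
    rw [Finset.mul_sum]
    have : ∀ al : {al : Perm H // IsEdges al},
        (n + 1).factorial * (Nat.card (Pl al) * 3 ^ n) = 2 ^ n * (2 * n - 1).factorial * 3 ^ n := by
      intro al
      rw [← card_planar al.2 hn hcard, mul_assoc]
    simp only [this, Finset.sum_const, Finset.card_univ, smul_eq_mul]
    rw [Nat.card_eq_fintype_card]
  have h4 := card_isEdges hcard
  have h5 := card_forests' n
  have h6 : 0 < (n + 1).factorial * n.factorial :=
    Nat.mul_pos (Nat.factorial_pos _) (Nat.factorial_pos _)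
  refine le_of_mul_le_mul_left (a := (n + 1).factorial * n.factorial) ?_ h6
  calc (n + 1).factorial * n.factorial *
        Nat.card {t : Perm H × Perm H × (H → ℤ) // IsLU r t ∧ ncyc t.2.1 = n + 1}
      ≤ (n + 1).factorial * n.factorial *
        ∑ al : {al : Perm H // IsEdges al}, Nat.card (Pl al) * 3 ^ n :=
        Nat.mul_le_mul_left _ (h1.trans h2)
    _ = n.factorial * ((n + 1).factorial *
        ∑ al : {al : Perm H // IsEdges al}, Nat.card (Pl al) * 3 ^ n) := by ring
    _ = Nat.card {al : Perm H // IsEdges al} * (2 ^ n * n.factorial) *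
        ((2 * n - 1).factorial * 3 ^ n) := by rw [h3]; ring
    _ = 3 ^ n * (2 * n).factorial * (2 * n - 1).factorial := by rw [h4]; ring
    _ = (n + 1).factorial * n.factorial *
        ((Forest.forests n).card * (2 * n - 1).factorial) := by rw [← h5]; ring

/-- the map -/
private noncomputable def psi (n : ℕ) (p : Forest × (H ≃ Fin (2 * n))) :
    Perm H × Perm H × (H → ℤ) :=
  (alF n p.1 p.2, sg (alF n p.1 p.2) p.2, lbF p.1 p.2)

private theorem psi_mem {n : ℕ} (hn : 0 < n) (r : H)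
    {p : Forest × (H ≃ Fin (2 * n))} (hp : p.1.edges = n) (hr : rk p.2 r = 0) :
    IsLU r (psi n p) ∧ ncyc (psi n p).2.1 = n + 1 := by
  refine ⟨⟨isEdges_alF hp p.2, ?_, lbF_sg hp p.2, lbF_alF hp p.2, ?_⟩, ncyc_forest hn hp p.2⟩
  · change OneFace (sg (alF n p.1 p.2) p.2 * alF n p.1 p.2)
    rw [sg_mul_al (isEdges_alF hp p.2)]
    exact oneFace_gam p.2
  · change p.1.lb (rk p.2 r) = 0
    rw [hr, Forest.lb_zero]

private theorem psi_inj {n : ℕ} (hn : 0 < n) (r : H) {p p' : Forest × (H ≃ Fin (2 * n))}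
    (hp : p.1.edges = n) (hr : rk p.2 r = 0) (hp' : p'.1.edges = n) (hr' : rk p'.2 r = 0)
    (h : psi n p = psi n p') : p = p' := by
  have h1 := forest_tour_inj hn hp hp' hr hr' (congrArg (fun t => t.1) h)
    (congrArg (fun t => t.2.1) h) (congrArg (fun t => t.2.2) h)
  exact Prod.ext h1.1 h1.2

/-- the bijection -/
theorem planar_surj {n : ℕ} (hn : 0 < n) (hcard : Fintype.card H = 2 * n) (r : H)
    (t : Perm H × Perm H × (H → ℤ)) (ht : IsLU r t) (hp : ncyc t.2.1 = n + 1) :
    ∃ (f : Forest) (e : H ≃ Fin (2 * n)), f.edges = n ∧ rk e r = 0 ∧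
      t = (alF n f e, sg (alF n f e) e, lbF f e) := by
  classical
  have := finite_LU r
  have : Finite {t : Perm H × Perm H × (H → ℤ) // IsLU r t ∧ ncyc t.2.1 = n + 1} :=
    Finite.of_injective (fun t => (⟨t.1, t.2.1⟩ : {t : Perm H × Perm H × (H → ℤ) // IsLU r t}))
      fun a b h => Subtype.ext (Subtype.mk.inj h)
  let Ψ : {f : Forest // f ∈ Forest.forests n} × {e : H ≃ Fin (2 * n) // rk e r = 0} →
      {t : Perm H × Perm H × (H → ℤ) // IsLU r t ∧ ncyc t.2.1 = n + 1} := fun q =>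
    ⟨psi n (q.1.1, q.2.1), psi_mem hn r (Forest.mem_forests.1 q.1.2) q.2.2⟩
  have hΨ : Function.Injective Ψ := by
    intro q q' h
    have h1 := psi_inj hn r (p := (q.1.1, q.2.1)) (p' := (q'.1.1, q'.2.1))
      (Forest.mem_forests.1 q.1.2) q.2.2 (Forest.mem_forests.1 q'.1.2) q'.2.2
      (congrArg Subtype.val h)
    exact Prod.ext (Subtype.ext (congrArg Prod.fst h1)) (Subtype.ext (congrArg Prod.snd h1))
  have hc : Nat.card {t : Perm H × Perm H × (H → ℤ) // IsLU r t ∧ ncyc t.2.1 = n + 1} ≤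
      Nat.card ({f : Forest // f ∈ Forest.forests n} × {e : H ≃ Fin (2 * n) // rk e r = 0}) := by
    have h1 : Nat.card {f : Forest // f ∈ Forest.forests n} = (Forest.forests n).card := by
      rw [Nat.card_eq_fintype_card, Fintype.card_coe]
    rw [Nat.card_prod, card_tours_root hn hcard r, h1]
    exact card_planar_le hn hcard r
  obtain ⟨q, hq⟩ := (hΨ.bijective_of_nat_card_le hc).2 ⟨t, ht, hp⟩
  exact ⟨q.1.1, q.2.1, Forest.mem_forests.1 q.1.2, q.2.2, (congrArg Subtype.val hq).symm⟩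

/-- summation over genus-0 labelled one-face permutations with label set `L` -/
theorem planar_sum {n : ℕ} (hn : 0 < n) (hcard : Fintype.card H = 2 * n) (r : H)
    (L : Finset ℤ) (g : ℕ) :
    ∑ᶠ t ∈ {t : Perm H × Perm H × (H → ℤ) | IsLU r t ∧ ncyc t.2.1 = n + 1 ∧
        Finset.univ.image t.2.2 = L}, (∏ i ∈ L, A (prof t.2.2 t.2.1 i)).coeff g =
      (2 * n - 1).factorial *
        ∑ f ∈ (Forest.forests n).filter (fun f => f.labels = L), W g f := by
  classical
  set Q : Finset (Forest × (H ≃ Fin (2 * n))) :=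
    ((Forest.forests n).filter (fun f => f.labels = L)) ×ˢ
      (Finset.univ.filter fun e : H ≃ Fin (2 * n) => rk e r = 0) with hQ
  have hmem : ∀ p ∈ (Q : Set (Forest × (H ≃ Fin (2 * n)))),
      p.1.edges = n ∧ p.1.labels = L ∧ rk p.2 r = 0 := by
    intro p hp
    rw [Finset.mem_coe, hQ, Finset.mem_product, Finset.mem_filter, Finset.mem_filter] at hp
    exact ⟨Forest.mem_forests.1 hp.1.1, hp.1.2, hp.2.2⟩
  have hbij : Set.BijOn (psi n) (Q : Set (Forest × (H ≃ Fin (2 * n))))
      {t : Perm H × Perm H × (H → ℤ) | IsLU r t ∧ ncyc t.2.1 = n + 1 ∧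
        Finset.univ.image t.2.2 = L} := by
    refine ⟨fun p hp => ?_, fun p hp p' hp' h => ?_, fun t ht => ?_⟩
    · obtain ⟨h1, h2, h3⟩ := hmem p hp
      obtain ⟨h4, h5⟩ := psi_mem hn r h1 h3
      exact ⟨h4, h5, (image_lbF hn h1 p.2).trans h2⟩
    · obtain ⟨h1, -, h3⟩ := hmem p hp
      obtain ⟨h1', -, h3'⟩ := hmem p' hp'
      exact psi_inj hn r h1 h3 h1' h3' h
    · obtain ⟨f, e, hf, he, rfl⟩ := planar_surj hn hcard r t ht.1 ht.2.1
      refine ⟨(f, e), ?_, rfl⟩
      rw [Finset.mem_coe, hQ, Finset.mem_product, Finset.mem_filter, Finset.mem_filter]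
      exact ⟨⟨Forest.mem_forests.2 hf, (image_lbF hn hf e).symm.trans ht.2.2⟩,
        Finset.mem_univ _, he⟩
  have h1 := finsum_mem_eq_of_bijOn (f := fun p : Forest × (H ≃ Fin (2 * n)) => W g p.1)
    (g := fun t : Perm H × Perm H × (H → ℤ) => (∏ i ∈ L, A (prof t.2.2 t.2.1 i)).coeff g)
    (psi n) hbij (fun p hp => by
      obtain ⟨h1, h2, h3⟩ := hmem p hp
      simp only [W, h2]
      congr 1
      refine Finset.prod_congr rfl fun i _ => ?_
      exact congrArg A (prof_forest hn h1 p.2 i).symm)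
  rw [← h1, finsum_mem_coe_finset, hQ, Finset.sum_product, Finset.mul_sum]
  refine Finset.sum_congr rfl fun f _ => ?_
  simp only [Finset.sum_const, smul_eq_mul]
  congr 1
  rw [← card_tours_root hn hcard r, Nat.card_eq_fintype_card, Fintype.card_subtype]

end HGQ
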