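import Pool.Agent.HGQ.TWord
import Pool.Agent.HGQ.BTotal

/-! # HGQ part T: the one-face permutation of a forest

For a forest `f` with `n ≥ 1` edges and a tour `e : H ≃ Fin (2n)`: `alF n f e` = the involution of `H` that
corresponds to the matching `am f`, `lbF f e` = labels of the half-edges.

PAPER PROOF. With `j = rk e h`: `rk e (alF h) = am f j`, and `σ = sg (alF) e` sends rank `j` to `am f j + 1`
(to `0` if this is `2n`; `lb f 0 = lb f (2n) = 0`). So labels are constant on the cycles of `σ` (`lb_am`), and
`lb f (am f j)` is `lb f (j+1)` (apply `lb_am` to `am f j`), which differs from `lb f j` by at most 1.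
Genus 0: `card_down` says there are `n + 1` half-edges `c` with `c ≤ σ⁻¹ c`; we claim all of them are minima
of their cycles (and conversely minima satisfy it), so `ncyc = n + 1` (`card_isMn_total`). `σ⁻¹ c` has rank
`am f (j-1)` for `j = rk e c ≥ 1`, so the condition is `j ≤ am f (j-1)`, i.e. `j - 1 < am f (j-1)`, i.e. step
`j-1` is up; the set of ranks `[j, am f (j-1)]` is then mapped into itself by `σ` (`noncross`: for
`j ≤ i < am f (j-1)` we have `j - 1 < am f i < am f (j-1)` and `σ` sends `i` to `am f i + 1`; and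
`i = am f (j-1)` is sent to `j`), so the whole cycle of `c` has ranks `≥ j`. For `j = 0` it is clear.
Profile: `prof i` = number of minima with label `i` (`card_isMn`) = number of ranks `j` with (`j = 0` or step
`j-1` up) and `lb f j = i`, which is `[i = 0] + cnt f 0 i` (`card_first`).
-/

namespace HGQ

open Equiv

variable {H : Type*} [Fintype H] [DecidableEq H]

open Classical in
/-- matching of a forest as a permutation of `Fin (2n)` -/
noncomputable def amP (n : ℕ) (f : Forest) : Perm (Fin (2 * n)) :=
  if hf : f.edges = n then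
    { toFun := fun j => ⟨f.am j, by have h1 := j.2; subst hf; exact f.am_lt h1⟩
      invFun := fun j => ⟨f.am j, by have h1 := j.2; subst hf; exact f.am_lt h1⟩
      left_inv := fun j => Fin.ext (by have h1 := j.2; subst hf; exact f.am_am h1)
      right_inv := fun j => Fin.ext (by have h1 := j.2; subst hf; exact f.am_am h1) }
  else 1

/-- edge involution of a forest with a tour -/
noncomputable def alF (n : ℕ) (f : Forest) (e : H ≃ Fin (2 * n)) : Perm H :=
  (e.trans (amP n f)).trans e.symm

/-- labels of the half-edges -/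
noncomputable def lbF {n : ℕ} (f : Forest) (e : H ≃ Fin (2 * n)) (h : H) : ℤ := f.lb (rk e h)

theorem rk_alF {n : ℕ} {f : Forest} (hf : f.edges = n) (e : H ≃ Fin (2 * n)) (h : H) :
    rk e (alF n f e h) = f.am (rk e h) := by
  have h1 : rk e (alF n f e h) = ((amP n f (e h) : Fin (2 * n)) : ℕ) := by
    simp [rk, alF]
  rw [h1]
  unfold amP
  rw [dif_pos hf]
  rfl

theorem isEdges_alF {n : ℕ} {f : Forest} (hf : f.edges = n) (e : H ≃ Fin (2 * n)) :
    IsEdges (alF n f e) := by
  have hlt : ∀ h, rk e h < 2 * f.edges := fun h => by rw [hf]; exact rk_lt e h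
  refine ⟨fun h => rk_injective e ?_, fun h hh => ?_⟩
  · rw [rk_alF hf, rk_alF hf]
    exact f.am_am (hlt h)
  · have h1 := congrArg (rk e) hh
    rw [rk_alF hf] at h1
    exact f.am_ne (hlt h) h1

theorem lbF_sg {n : ℕ} {f : Forest} (hf : f.edges = n) (e : H ≃ Fin (2 * n)) (h : H) :
    lbF f e (sg (alF n f e) e h) = lbF f e h := by
  have hlt : ∀ h, rk e h < 2 * f.edges := fun h => by rw [hf]; exact rk_lt e h
  have h1 : sg (alF n f e) e h = gam e (alF n f e h) := rfl
  unfold lbF
  rw [h1, rk_gam, rk_alF hf]
  split_ifs with h2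
  · have h3 := f.lb_am (hlt h)
    have h4 : f.am (rk e h) + 1 = 2 * f.edges := by rw [h2, hf]
    rw [h4, f.lb_end] at h3
    rw [f.lb_zero]; exact h3
  · exact f.lb_am (hlt h)

theorem lbF_alF {n : ℕ} {f : Forest} (hf : f.edges = n) (e : H ≃ Fin (2 * n)) (h : H) :
    |lbF f e (alF n f e h) - lbF f e h| ≤ 1 := by
  have hlt : ∀ h, rk e h < 2 * f.edges := fun h => by rw [hf]; exact rk_lt e h
  unfold lbF
  rw [rk_alF hf]
  have h1 := f.lb_am (f.am_lt (hlt h))
  rw [f.am_am (hlt h)] at h1
  rw [← h1]
  exact f.lb_step (hlt h)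

end HGQ
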