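import Pool.Agent.HGQ.TWord

/-! # HGQ part T: contour of a forest, second part

PAPER PROOF. Induction on `f = cons d c r`; the range `2|f| = 1 + 2|c| + 1 + 2|r|` splits into `{0}`,
`[1, 2|c|]`, `{2|c|+1}`, `[2|c|+2, 2|f|-1]`. `image_lb`: prove first for all `f` that the image of
`range (2|f|+1)` under `x + lb` is `insert x (lab f x)`; for `2|f| > 0` the last corner has the same label as the
first one (`lb_end`, `lb_zero`). `ext_word`: `am f 0 = 2|c|+1` determines `|c|` (and `nil` has no edges),
`lb f 1 = inc d` (as `lb c 0 = 0`) determines `d`, and the restrictions determine `am c`, `lb c`, `am r`, `lb r`.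
-/

namespace HGQ

namespace Forest

private theorem tword2_lb_one (d : Fin 3) (c r : Forest) {k : ℕ} (hk : k ≤ 2 * c.edges) :
    (cons d c r).lb (k + 1) = inc d + c.lb k := by
  rw [lb, if_neg (by omega), if_pos (by omega), Nat.add_sub_cancel]

private theorem tword2_lb_two (d : Fin 3) (c r : Forest) (k : ℕ) :
    (cons d c r).lb (k + (2 * c.edges + 2)) = r.lb k := by
  rw [lb, if_neg (by omega), if_neg (by omega), Nat.add_sub_cancel]

private theorem tword2_lb_nought (d : Fin 3) (c r : Forest) : (cons d c r).lb 0 = 0 := by
  rw [lb, if_pos rfl]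

private theorem tword2_am_nought (d : Fin 3) (c r : Forest) :
    (cons d c r).am 0 = 2 * c.edges + 1 := by
  rw [am, if_pos rfl]

private theorem tword2_am_one (d : Fin 3) (c r : Forest) {k : ℕ} (hk : k < 2 * c.edges) :
    (cons d c r).am (k + 1) = c.am k + 1 := by
  rw [am, if_neg (by omega), if_pos (by omega), Nat.add_sub_cancel]

private theorem tword2_am_two (d : Fin 3) (c r : Forest) (k : ℕ) :
    (cons d c r).am (k + (2 * c.edges + 2)) = r.am k + (2 * c.edges + 2) := by
  rw [am, if_neg (by omega), if_neg (by omega), if_neg (by omega), Nat.add_sub_cancel]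

private theorem tword2_up_nought (d : Fin 3) (c r : Forest) : (cons d c r).ups 0 := by
  rw [ups, if_pos rfl]
  trivial

private theorem tword2_up_one (d : Fin 3) (c r : Forest) {k : ℕ} (hk : k < 2 * c.edges) :
    (cons d c r).ups (k + 1) ↔ c.ups k := by
  rw [ups, if_neg (by omega), if_pos (by omega), Nat.add_sub_cancel]

private theorem tword2_up_mid (d : Fin 3) (c r : Forest) :
    ¬ (cons d c r).ups (2 * c.edges + 1) := by
  rw [ups, if_neg (by omega), if_neg (by omega), if_pos rfl]
  exact not_false

private theorem tword2_up_two (d : Fin 3) (c r : Forest) (k : ℕ) :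
    (cons d c r).ups (k + (2 * c.edges + 2)) ↔ r.ups k := by
  rw [ups, if_neg (by omega), if_neg (by omega), if_neg (by omega), Nat.add_sub_cancel]

open Classical in
private theorem tword2_sum : ∀ (f : Forest) (x i : ℤ),
    (∑ j ∈ Finset.range (2 * f.edges), if f.ups j ∧ x + f.lb (j + 1) = i then 1 else 0) =
      f.cnt x i
  | nil, x, i => by simp [edges, cnt]
  | cons d c r, x, i => by
      have h1 : 2 * (cons d c r).edges = ((2 * c.edges + 1) + 1) + 2 * r.edges := by
        rw [edges]; ring
      rw [h1, Finset.sum_range_add, Finset.sum_range_succ, Finset.sum_range_succ', cnt,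
        ← tword2_sum c, ← tword2_sum r]
      have h2 : (∑ k ∈ Finset.range (2 * c.edges),
          if (cons d c r).ups (k + 1) ∧ x + (cons d c r).lb (k + 1 + 1) = i then 1 else 0) =
          ∑ j ∈ Finset.range (2 * c.edges),
            if c.ups j ∧ x + inc d + c.lb (j + 1) = i then 1 else 0 := by
        refine Finset.sum_congr rfl fun k hk => ?_
        have hk' := Finset.mem_range.1 hk
        rw [tword2_up_one d c r hk', tword2_lb_one d c r (by omega), ← add_assoc]
      have h3 : (∑ k ∈ Finset.range (2 * r.edges),
          if (cons d c r).ups (2 * c.edges + 1 + 1 + k) ∧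
            x + (cons d c r).lb (2 * c.edges + 1 + 1 + k + 1) = i then 1 else 0) =
          ∑ j ∈ Finset.range (2 * r.edges), if r.ups j ∧ x + r.lb (j + 1) = i then 1 else 0 := by
        refine Finset.sum_congr rfl fun k _ => ?_
        have h4 : 2 * c.edges + 1 + 1 + k = k + (2 * c.edges + 2) := by omega
        have h5 : 2 * c.edges + 1 + 1 + k + 1 = (k + 1) + (2 * c.edges + 2) := by omega
        rw [h5, h4, tword2_up_two, tword2_lb_two]
      rw [h2, h3]
      have h6 : (if (cons d c r).ups (2 * c.edges + 1) ∧
          x + (cons d c r).lb (2 * c.edges + 1 + 1) = i then 1 else 0) = 0 :=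
        if_neg fun h => tword2_up_mid d c r h.1
      have h7 : (if (cons d c r).ups 0 ∧ x + (cons d c r).lb (0 + 1) = i then 1 else 0) =
          if x + inc d = i then 1 else 0 := by
        rw [tword2_lb_one d c r (Nat.zero_le _), lb_zero, add_zero]
        simp [tword2_up_nought]
      rw [h6, h7]
      ring

open Classical in
/-- first visits of the non-root vertices with label `i` -/
theorem card_first (f : Forest) (x i : ℤ) :
    ((Finset.range (2 * f.edges)).filter (fun j => f.ups j ∧ x + f.lb (j + 1) = i)).card =
      f.cnt x i := by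
  rw [Finset.card_filter]
  exact tword2_sum f x i

private theorem tword2_mem : ∀ (f : Forest) (x i : ℤ),
    (∃ j, j ≤ 2 * f.edges ∧ x + f.lb j = i) ↔ i = x ∨ i ∈ f.lab x
  | nil, x, i => by
      simp only [edges, lab, lb, Finset.notMem_empty, or_false]
      constructor
      · rintro ⟨_, _, h⟩; omega
      · intro h; exact ⟨0, by omega, by omega⟩
  | cons d c r, x, i => by
      have hc := tword2_mem c (x + inc d) i
      have hr := tword2_mem r x i
      simp only [lab, Finset.mem_insert, Finset.mem_union]
      have he : (cons d c r).edges = c.edges + r.edges + 1 := rfl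
      constructor
      · rintro ⟨j, hj, h⟩
        rcases Nat.eq_zero_or_pos j with rfl | hj0
        · rw [tword2_lb_nought] at h
          left; omega
        · by_cases h1 : j ≤ 2 * c.edges + 1
          · obtain ⟨k, rfl⟩ : ∃ k, j = k + 1 := ⟨j - 1, by omega⟩
            rw [tword2_lb_one d c r (by omega), ← add_assoc] at h
            rcases hc.1 ⟨k, by omega, h⟩ with h2 | h2
            · exact Or.inr (Or.inl h2)
            · exact Or.inr (Or.inr (Or.inl h2))
          · obtain ⟨k, rfl⟩ : ∃ k, j = k + (2 * c.edges + 2) :=
              ⟨j - (2 * c.edges + 2), by omega⟩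
            rw [tword2_lb_two] at h
            rcases hr.1 ⟨k, by omega, h⟩ with h2 | h2
            · exact Or.inl h2
            · exact Or.inr (Or.inr (Or.inr h2))
      · rintro (h | h | h | h)
        · refine ⟨0, by omega, ?_⟩
          rw [tword2_lb_nought]; omega
        · obtain ⟨k, hk, hk2⟩ := hc.2 (Or.inl h)
          refine ⟨k + 1, by omega, ?_⟩
          rw [tword2_lb_one d c r hk, ← add_assoc, hk2]
        · obtain ⟨k, hk, hk2⟩ := hc.2 (Or.inr h)
          refine ⟨k + 1, by omega, ?_⟩
          rw [tword2_lb_one d c r hk, ← add_assoc, hk2]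
        · obtain ⟨k, hk, hk2⟩ := hr.2 (Or.inr h)
          refine ⟨k + (2 * c.edges + 2), by omega, ?_⟩
          rw [tword2_lb_two, hk2]

theorem image_lb (f : Forest) (hf : 0 < f.edges) :
    (Finset.range (2 * f.edges)).image f.lb = f.labels := by
  ext i
  have h := tword2_mem f 0 i
  simp only [zero_add] at h
  rw [labels, Finset.mem_insert, ← h, Finset.mem_image]
  constructor
  · rintro ⟨j, hj, h1⟩
    exact ⟨j, (Finset.mem_range.1 hj).le, h1⟩
  · rintro ⟨j, hj, h1⟩
    rcases hj.eq_or_lt with h2 | h2
    · refine ⟨0, Finset.mem_range.2 (by omega), ?_⟩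
      rw [lb_zero, ← h1, h2, lb_end]
    · exact ⟨j, Finset.mem_range.2 h2, h1⟩

/-- a forest is determined by its matching and its labels -/
theorem ext_word {f f' : Forest} (he : f.edges = f'.edges)
    (ha : ∀ j < 2 * f.edges, f.am j = f'.am j) (hl : ∀ j < 2 * f.edges, f.lb j = f'.lb j) :
    f = f' := by
  induction f generalizing f' with
  | nil =>
    cases f' with
    | nil => rfl
    | cons d c r => simp [edges] at he
  | cons d c r ihc ihr =>
    cases f' with
    | nil => simp [edges] at he
    | cons d' c' r' =>
      have e1 : (cons d c r).edges = c.edges + r.edges + 1 := rfl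
      have e2 : (cons d' c' r').edges = c'.edges + r'.edges + 1 := rfl
      have hc : c.edges = c'.edges := by
        have h1 := ha 0 (by omega)
        rw [tword2_am_nought, tword2_am_nought] at h1
        omega
      have hr : r.edges = r'.edges := by omega
      have hd : d = d' := by
        have h1 := hl (0 + 1) (by omega)
        rw [tword2_lb_one d c r (Nat.zero_le _), tword2_lb_one d' c' r' (Nat.zero_le _), lb_zero,
          lb_zero] at h1
        simp only [inc] at h1
        apply Fin.ext
        omega
      subst hd
      have h2 : c = c' := by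
        refine ihc hc (fun j hj => ?_) (fun j hj => ?_)
        · have h1 := ha (j + 1) (by omega)
          rw [tword2_am_one d c r hj, tword2_am_one d c' r' (by omega)] at h1
          omega
        · have h1 := hl (j + 1) (by omega)
          rw [tword2_lb_one d c r hj.le, tword2_lb_one d c' r' (by omega)] at h1
          omega
      have h3 : r = r' := by
        refine ihr hr (fun j hj => ?_) (fun j hj => ?_)
        · have h1 := ha (j + (2 * c.edges + 2)) (by omega)
          rw [tword2_am_two d c r, hc, tword2_am_two d c' r'] at h1
          omega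
        · have h1 := hl (j + (2 * c.edges + 2)) (by omega)
          rw [tword2_lb_two d c r, hc, tword2_lb_two d c' r'] at h1
          exact h1
      rw [h2, h3]

end Forest

end HGQ
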