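import Pool.Agent.HGQ.TTour
import Pool.Agent.HGQ.TWord2

/-! # HGQ part T: genus, profile and injectivity for the one-face permutation of a forest

PAPER PROOF. With `j = rk e h`: `rk e (alF h) = am f j`, and `σ = sg (alF) e` sends rank `j` to `am f j + 1`
(to `0` if this is `2n`). Genus 0: `card_down` says there are `n + 1` half-edges `c` with `c ≤ σ⁻¹ c`; all of
them are minima of their cycles (and conversely minima satisfy it), so `ncyc = n + 1`
(`card_isMn_total`). `σ⁻¹ c` has rank `am f (j-1)` for `j = rk e c ≥ 1`, so the condition is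
`j ≤ am f (j-1)`, i.e. `j - 1 < am f (j-1)`, i.e. step `j-1` is up; the set of ranks `[j, am f (j-1)]` is then
mapped into itself by `σ` (`noncross`: for `j ≤ i < am f (j-1)` we have `j - 1 < am f i < am f (j-1)` and `σ`
sends `i` to `am f i + 1`; and `i = am f (j-1)` is sent to `j`), so the whole cycle of `c` has ranks `≥ j`
(a finite set invariant under `σ` is invariant under `σ⁻¹`). For `j = 0` it is clear.
Profile: `prof i` = number of minima with label `i` (`card_isMn`) = number of ranks `j` with (`j = 0` or step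
`j-1` up) and `lb f j = i`, which is `[i = 0] + cnt f 0 i` (`card_first`).
Injectivity: `gam e = sg (alF) e * alF` (`sg_mul_al`) and `rk e r = 0` determine `e` (`exists_unique_tour`);
then `am f = am f'` on ranks and `lb f = lb f'`, so `f = f'` (`ext_word`).
-/

namespace HGQ

open Equiv

variable {H : Type*} [Fintype H] [DecidableEq H]

/-- rank of `σ h` -/
theorem ttour_rk_sg {n : ℕ} {f : Forest} (hf : f.edges = n) (e : H ≃ Fin (2 * n)) (h : H) :
    rk e (sg (alF n f e) e h) =
      if f.am (rk e h) + 1 = 2 * n then 0 else f.am (rk e h) + 1 := by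
  have h1 : sg (alF n f e) e h = gam e (alF n f e h) := rfl
  rw [h1, rk_gam, rk_alF hf]

/-- rank of `σ⁻¹ c` when `rk c ≠ 0` -/
theorem ttour_rk_inv {n : ℕ} {f : Forest} (hf : f.edges = n) (e : H ≃ Fin (2 * n)) (c : H)
    (hc : rk e c ≠ 0) :
    rk e ((sg (alF n f e) e)⁻¹ c) = f.am (rk e c - 1) := by
  have hM : rk e c < 2 * n := rk_lt e c
  set k := (sg (alF n f e) e)⁻¹ c with hk
  have h1 : sg (alF n f e) e k = c := by rw [hk]; simp
  have h2 := ttour_rk_sg hf e k
  rw [h1] at h2
  have hkM : rk e k < 2 * n := rk_lt e k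
  have h3 : f.am (rk e k) < 2 * f.edges := f.am_lt (by omega)
  by_cases h4 : f.am (rk e k) + 1 = 2 * n
  · rw [if_pos h4] at h2; exact absurd h2 hc
  · rw [if_neg h4] at h2
    have h5 : rk e c - 1 = f.am (rk e k) := by omega
    rw [h5, f.am_am (by omega)]

theorem down_iff {n : ℕ} (hn : 0 < n) {f : Forest} (hf : f.edges = n) (e : H ≃ Fin (2 * n)) (c : H) :
    rk e c ≤ rk e ((sg (alF n f e) e)⁻¹ c) ↔ rk e c = 0 ∨ f.ups (rk e c - 1) := by
  have hM : rk e c < 2 * n := rk_lt e c
  by_cases hc : rk e c = 0
  · simp [hc]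
  · rw [ttour_rk_inv hf e c hc, f.up_iff (by omega)]
    omega

/-- under the noncrossing matching the half-edges `c ≤ σ⁻¹ c` are exactly the minima -/
theorem isMn_iff {n : ℕ} (hn : 0 < n) {f : Forest} (hf : f.edges = n) (e : H ≃ Fin (2 * n)) (c : H) :
    IsMn (alF n f e) e c ↔ rk e c ≤ rk e ((sg (alF n f e) e)⁻¹ c) := by
  constructor
  · intro h
    apply h
    exact ⟨-1, by simp⟩
  · intro h
    by_cases hc : rk e c = 0
    · intro k _; omega
    have hM : rk e c < 2 * n := rk_lt e c
    rw [ttour_rk_inv hf e c hc] at h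
    have hKlt : f.am (rk e c - 1) < 2 * f.edges := f.am_lt (by omega)
    have hinv : ∀ k, (rk e c ≤ rk e k ∧ rk e k ≤ f.am (rk e c - 1)) →
        (rk e c ≤ rk e (sg (alF n f e) e k) ∧
          rk e (sg (alF n f e) e k) ≤ f.am (rk e c - 1)) := by
      rintro k ⟨h1, h2⟩
      rw [ttour_rk_sg hf e k]
      have hk2 := rk_lt e k
      have h4 : f.am (rk e k) + 1 ≤ 2 * n := by
        have := f.am_lt (j := rk e k) (by omega); omega
      rcases Nat.lt_or_ge (rk e k) (f.am (rk e c - 1)) with h3 | h3
      · have h5 := f.noncross (j := rk e c - 1) (i := rk e k) (by omega) (by omega) h3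
        rw [if_neg (by omega)]
        omega
      · have h6 : rk e k = f.am (rk e c - 1) := le_antisymm h2 h3
        rw [h6, f.am_am (by omega), if_neg (by omega)]
        omega
    intro k hk
    obtain ⟨i, _, hi⟩ := hk.exists_pow_eq'
    have hpow : ∀ i : ℕ, rk e c ≤ rk e (((sg (alF n f e) e) ^ i) c) ∧
        rk e (((sg (alF n f e) e) ^ i) c) ≤ f.am (rk e c - 1) := by
      intro i
      induction i with
      | zero => exact ⟨by simp, by simpa using h⟩
      | succ i ih =>
        rw [pow_succ', Perm.mul_apply]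
        exact hinv _ ih
    have := (hpow i).1
    rwa [hi] at this

open Classical in
theorem ncyc_forest {n : ℕ} (hn : 0 < n) {f : Forest} (hf : f.edges = n) (e : H ≃ Fin (2 * n)) :
    ncyc (sg (alF n f e) e) = n + 1 := by
  rw [← card_isMn_total, ← card_down (isEdges_alF hf e) hn rfl e]
  congr 1
  ext c
  simp only [Finset.mem_filter, Finset.mem_univ, true_and]
  exact isMn_iff hn hf e c

/-- transport of a count of half-edges to a count of ranks -/
theorem ttour_card_rk {M : ℕ} (e : H ≃ Fin M) (p : ℕ → Prop) [DecidablePred p]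
    [DecidablePred (fun c : H => p (rk e c))] :
    (Finset.univ.filter (fun c : H => p (rk e c))).card = ((Finset.range M).filter p).card := by
  apply Finset.card_bij (fun c _ => rk e c)
  · intro c hc
    simp only [Finset.mem_filter, Finset.mem_univ, true_and] at hc
    simp only [Finset.mem_filter, Finset.mem_range]
    exact ⟨rk_lt e c, hc⟩
  · intro a _ b _ h
    exact rk_injective e h
  · intro j hj
    simp only [Finset.mem_filter, Finset.mem_range] at hj
    refine ⟨e.symm ⟨j, hj.1⟩, ?_, ?_⟩
    · simp only [Finset.mem_filter, Finset.mem_univ, true_and, rk, Equiv.apply_symm_apply]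
      exact hj.2
    · simp [rk]

open Classical in
theorem prof_forest {n : ℕ} (hn : 0 < n) {f : Forest} (hf : f.edges = n) (e : H ≃ Fin (2 * n))
    (i : ℤ) : prof (lbF f e) (sg (alF n f e) e) i = f.mul i := by
  rw [← card_isMn (fun h => lbF_sg hf e h) i]
  have h1 : (Finset.univ.filter (fun m => IsMn (alF n f e) e m ∧ lbF f e m = i)).card =
      (Finset.univ.filter (fun m : H => (fun j => (j = 0 ∨ f.ups (j - 1)) ∧ f.lb j = i) (rk e m))).card := by
    congr 1
    ext c
    simp only [Finset.mem_filter, Finset.mem_univ, true_and]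
    rw [isMn_iff hn hf e c, down_iff hn hf e c]
    rfl
  rw [h1, ttour_card_rk e (fun j => (j = 0 ∨ f.ups (j - 1)) ∧ f.lb j = i)]
  have h2 := f.card_first 0 i
  unfold Forest.mul
  rw [← h2]
  have h3 : (Finset.range (2 * n)).filter (fun j => (j = 0 ∨ f.ups (j - 1)) ∧ f.lb j = i) =
      (((Finset.range (2 * f.edges)).filter (fun j => f.ups j ∧ 0 + f.lb (j + 1) = i)).image (· + 1)) ∪
        (if i = 0 then {0} else ∅) := by
    ext j
    simp only [Finset.mem_filter, Finset.mem_range, Finset.mem_union, Finset.mem_image]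
    constructor
    · rintro ⟨hj, h4, h5⟩
      by_cases hj0 : j = 0
      · right
        subst hj0
        rw [f.lb_zero] at h5
        rw [if_pos h5.symm]; simp
      · left
        refine ⟨j - 1, ⟨by omega, ?_, ?_⟩, by omega⟩
        · rcases h4 with h4 | h4
          · exact absurd h4 hj0
          · exact h4
        · rw [Nat.sub_add_cancel (by omega), zero_add]; exact h5
    · rintro (⟨a, ⟨ha, h4, h5⟩, rfl⟩ | h4)
      · have h6 : a < f.am a := (f.up_iff ha).mp h4
        have h7 := f.am_lt ha
        refine ⟨by omega, Or.inr (by simpa using h4), by simpa using h5⟩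
      · by_cases hi : i = 0
        · rw [if_pos hi] at h4
          have : j = 0 := by simpa using h4
          subst this
          exact ⟨by omega, Or.inl rfl, by rw [f.lb_zero]; exact hi.symm⟩
        · rw [if_neg hi] at h4; simp at h4
  rw [h3, Finset.card_union_of_disjoint, Finset.card_image_of_injective _ (add_left_injective 1)]
  · congr 1
    by_cases hi : i = 0
    · simp [hi]
    · simp [hi]
  · rw [Finset.disjoint_left]
    intro j hj
    simp only [Finset.mem_image] at hj
    obtain ⟨a, _, rfl⟩ := hj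
    by_cases hi : i = 0
    · simp [hi]
    · simp [hi]

theorem image_lbF {n : ℕ} (hn : 0 < n) {f : Forest} (hf : f.edges = n) (e : H ≃ Fin (2 * n)) :
    Finset.univ.image (lbF f e) = f.labels := by
  rw [← f.image_lb (by omega)]
  ext i
  simp only [Finset.mem_image, Finset.mem_univ, true_and, Finset.mem_range]
  constructor
  · rintro ⟨h, rfl⟩
    exact ⟨rk e h, by have := rk_lt e h; omega, rfl⟩
  · rintro ⟨j, hj, rfl⟩
    refine ⟨e.symm ⟨j, by omega⟩, ?_⟩
    simp [lbF, rk]

/-- a forest and a tour starting at `r` are determined by the permutations and the labels -/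
theorem forest_tour_inj {n : ℕ} (hn : 0 < n) {f f' : Forest} (hf : f.edges = n) (hf' : f'.edges = n)
    {e e' : H ≃ Fin (2 * n)} {r : H} (he : rk e r = 0) (he' : rk e' r = 0)
    (h1 : alF n f e = alF n f' e') (h2 : sg (alF n f e) e = sg (alF n f' e') e')
    (h3 : lbF f e = lbF f' e') : f = f' ∧ e = e' := by
  have hcard : Fintype.card H = 2 * n := by
    rw [Fintype.card_congr e, Fintype.card_fin]
  have hg : gam e = gam e' := by
    rw [← sg_mul_al (isEdges_alF hf e) e, ← sg_mul_al (isEdges_alF hf' e') e', h2, h1]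
  have hee : e = e' := by
    obtain ⟨e0, -, hu⟩ := exists_unique_tour hn hcard (oneFace_gam e) r
    rw [hu e ⟨rfl, he⟩, hu e' ⟨hg.symm, he'⟩]
  subst hee
  refine ⟨?_, rfl⟩
  apply Forest.ext_word (by omega)
  · intro j hj
    have hj' : j < 2 * n := by omega
    have h5 := rk_alF hf e (e.symm ⟨j, hj'⟩)
    have h6 := rk_alF hf' e (e.symm ⟨j, hj'⟩)
    rw [h1, h6] at h5
    simpa [rk] using h5.symm
  · intro j hj
    have hj' : j < 2 * n := by omega
    have h5 := congrFun h3 (e.symm ⟨j, hj'⟩)
    simpa [lbF, rk] using h5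

end HGQ
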