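import Pool.Agent.HGQ.Forest

/-! # HGQ part T: contour of a forest

For a forest with `n` edges the contour has `2n` steps `0, …, 2n-1`; `j` is also the corner before step `j`.
`ups f j`: step `j` goes up (away from the root); `am f j`: the matching step (same edge, other direction);
`lb f j`: label of the corner `j` (root label `0`), for `0 ≤ j ≤ 2n`.

PAPER PROOF. Everything by induction on `f = cons d c r`, with the four cases `j = 0`, `0 < j < 2|c|+1`,
`j = 2|c|+1`, `j ≥ 2|c|+2`, and `omega`.
-/

namespace HGQ

namespace Forest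

/-- matching step -/
def am : Forest → ℕ → ℕ
  | nil, _ => 0
  | cons _ c r, j =>
    if j = 0 then 2 * c.edges + 1
    else if j < 2 * c.edges + 1 then am c (j - 1) + 1
    else if j = 2 * c.edges + 1 then 0
    else am r (j - (2 * c.edges + 2)) + (2 * c.edges + 2)

/-- step `j` is an up-step -/
def ups : Forest → ℕ → Prop
  | nil, _ => False
  | cons _ c r, j =>
    if j = 0 then True
    else if j < 2 * c.edges + 1 then ups c (j - 1)
    else if j = 2 * c.edges + 1 then False
    else ups r (j - (2 * c.edges + 2))

/-- label of the corner `j` -/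
def lb : Forest → ℕ → ℤ
  | nil, _ => 0
  | cons d c r, j =>
    if j = 0 then 0
    else if j ≤ 2 * c.edges + 1 then inc d + lb c (j - 1)
    else lb r (j - (2 * c.edges + 2))

theorem lb_zero (f : Forest) : f.lb 0 = 0 := by
  cases f <;> simp [lb]

theorem TWord_lb_in (d : Fin 3) (c r : Forest) {j : ℕ} (h0 : 0 < j) (h : j ≤ 2 * c.edges + 1) :
    (cons d c r).lb j = inc d + c.lb (j - 1) := by
  have h1 : j ≠ 0 := by omega
  simp [lb, h1, h]

theorem TWord_lb_out (d : Fin 3) (c r : Forest) {j : ℕ} (h : 2 * c.edges + 2 ≤ j) :
    (cons d c r).lb j = r.lb (j - (2 * c.edges + 2)) := by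
  have h1 : j ≠ 0 := by omega
  have h2 : ¬ j ≤ 2 * c.edges + 1 := by omega
  simp [lb, h1, h2]

theorem TWord_am_zero (d : Fin 3) (c r : Forest) : (cons d c r).am 0 = 2 * c.edges + 1 := by
  simp [am]

theorem TWord_am_in (d : Fin 3) (c r : Forest) {j : ℕ} (h0 : 0 < j) (h : j < 2 * c.edges + 1) :
    (cons d c r).am j = c.am (j - 1) + 1 := by
  have h1 : j ≠ 0 := by omega
  simp [am, h1, h]

theorem TWord_am_cl (d : Fin 3) (c r : Forest) : (cons d c r).am (2 * c.edges + 1) = 0 := by
  simp [am]

theorem TWord_am_out (d : Fin 3) (c r : Forest) {j : ℕ} (h : 2 * c.edges + 2 ≤ j) :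
    (cons d c r).am j = r.am (j - (2 * c.edges + 2)) + (2 * c.edges + 2) := by
  have h1 : j ≠ 0 := by omega
  have h2 : ¬ j < 2 * c.edges + 1 := by omega
  have h3 : j ≠ 2 * c.edges + 1 := by omega
  simp [am, h1, h2, h3]

theorem TWord_up_zero (d : Fin 3) (c r : Forest) : (cons d c r).ups 0 := by
  simp [ups]

theorem TWord_up_in (d : Fin 3) (c r : Forest) {j : ℕ} (h0 : 0 < j) (h : j < 2 * c.edges + 1) :
    (cons d c r).ups j ↔ c.ups (j - 1) := by
  have h1 : j ≠ 0 := by omega
  simp [ups, h1, h]

theorem TWord_up_cl (d : Fin 3) (c r : Forest) : ¬ (cons d c r).ups (2 * c.edges + 1) := by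
  simp [ups]

theorem TWord_up_out (d : Fin 3) (c r : Forest) {j : ℕ} (h : 2 * c.edges + 2 ≤ j) :
    (cons d c r).ups j ↔ r.ups (j - (2 * c.edges + 2)) := by
  have h1 : j ≠ 0 := by omega
  have h2 : ¬ j < 2 * c.edges + 1 := by omega
  have h3 : j ≠ 2 * c.edges + 1 := by omega
  simp [ups, h1, h2, h3]

theorem lb_end (f : Forest) : f.lb (2 * f.edges) = 0 := by
  induction f with
  | nil => simp [lb]
  | cons d c r _ ihr =>
    rw [TWord_lb_out d c r (by simp only [edges]; omega)]
    have : 2 * (cons d c r).edges - (2 * c.edges + 2) = 2 * r.edges := by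
      simp only [edges]; omega
    rw [this, ihr]

theorem TWord_cases (c : Forest) (j : ℕ) :
    j = 0 ∨ (0 < j ∧ j < 2 * c.edges + 1) ∨ j = 2 * c.edges + 1 ∨ 2 * c.edges + 2 ≤ j := by
  omega

theorem am_lt (f : Forest) {j : ℕ} (hj : j < 2 * f.edges) : f.am j < 2 * f.edges := by
  induction f generalizing j with
  | nil => simp [edges] at hj
  | cons d c r ihc ihr =>
    have he : (cons d c r).edges = c.edges + r.edges + 1 := rfl
    rcases TWord_cases c j with h | ⟨h, h'⟩ | h | h
    · subst h; rw [TWord_am_zero, he]; omega
    · rw [TWord_am_in d c r h h', he]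
      have := ihc (j := j - 1) (by omega)
      omega
    · subst h; rw [TWord_am_cl, he]; omega
    · rw [TWord_am_out d c r h, he]
      have := ihr (j := j - (2 * c.edges + 2)) (by omega)
      omega

theorem am_am (f : Forest) {j : ℕ} (hj : j < 2 * f.edges) : f.am (f.am j) = j := by
  induction f generalizing j with
  | nil => simp [edges] at hj
  | cons d c r ihc ihr =>
    have he : (cons d c r).edges = c.edges + r.edges + 1 := rfl
    rcases TWord_cases c j with h | ⟨h, h'⟩ | h | h
    · subst h; rw [TWord_am_zero, TWord_am_cl]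
    · have h1 := am_lt c (j := j - 1) (by omega)
      rw [TWord_am_in d c r h h', TWord_am_in d c r (by omega) (by omega)]
      have h2 := ihc (j := j - 1) (by omega)
      have h3 : c.am (j - 1) + 1 - 1 = c.am (j - 1) := by omega
      rw [h3, h2]; omega
    · subst h; rw [TWord_am_cl, TWord_am_zero]
    · rw [TWord_am_out d c r h, TWord_am_out d c r (by omega)]
      have h2 := ihr (j := j - (2 * c.edges + 2)) (by omega)
      have h3 : r.am (j - (2 * c.edges + 2)) + (2 * c.edges + 2) - (2 * c.edges + 2)
          = r.am (j - (2 * c.edges + 2)) := by omega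
      rw [h3, h2]; omega

theorem am_ne (f : Forest) {j : ℕ} (hj : j < 2 * f.edges) : f.am j ≠ j := by
  induction f generalizing j with
  | nil => simp [edges] at hj
  | cons d c r ihc ihr =>
    have he : (cons d c r).edges = c.edges + r.edges + 1 := rfl
    rcases TWord_cases c j with h | ⟨h, h'⟩ | h | h
    · subst h; rw [TWord_am_zero]; omega
    · rw [TWord_am_in d c r h h']
      have := ihc (j := j - 1) (by omega)
      omega
    · subst h; rw [TWord_am_cl]; omega
    · rw [TWord_am_out d c r h]
      have := ihr (j := j - (2 * c.edges + 2)) (by omega)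
      omega

theorem up_iff (f : Forest) {j : ℕ} (hj : j < 2 * f.edges) : f.ups j ↔ j < f.am j := by
  induction f generalizing j with
  | nil => simp [edges] at hj
  | cons d c r ihc ihr =>
    have he : (cons d c r).edges = c.edges + r.edges + 1 := rfl
    rcases TWord_cases c j with h | ⟨h, h'⟩ | h | h
    · subst h; rw [TWord_am_zero]
      exact iff_of_true (TWord_up_zero d c r) (by omega)
    · rw [TWord_am_in d c r h h', TWord_up_in d c r h h', ihc (j := j - 1) (by omega)]
      omega
    · subst h; rw [TWord_am_cl]
      exact iff_of_false (TWord_up_cl d c r) (by omega)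
    · rw [TWord_am_out d c r h, TWord_up_out d c r h, ihr (j := j - (2 * c.edges + 2)) (by omega)]
      omega

/-- the corner after the matching step has the same label (same vertex) -/
theorem lb_am (f : Forest) {j : ℕ} (hj : j < 2 * f.edges) : f.lb (f.am j + 1) = f.lb j := by
  induction f generalizing j with
  | nil => simp [edges] at hj
  | cons d c r ihc ihr =>
    have he : (cons d c r).edges = c.edges + r.edges + 1 := rfl
    rcases TWord_cases c j with h | ⟨h, h'⟩ | h | h
    · subst h
      rw [TWord_am_zero, TWord_lb_out d c r (by omega), lb_zero]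
      have h3 : 2 * c.edges + 1 + 1 - (2 * c.edges + 2) = 0 := by omega
      rw [h3, lb_zero]
    · have h1 := am_lt c (j := j - 1) (by omega)
      rw [TWord_am_in d c r h h', TWord_lb_in d c r (by omega) (by omega),
        TWord_lb_in d c r h (by omega)]
      have h2 := ihc (j := j - 1) (by omega)
      have h3 : c.am (j - 1) + 1 + 1 - 1 = c.am (j - 1) + 1 := by omega
      rw [h3, h2]
    · subst h
      rw [TWord_am_cl, TWord_lb_in d c r (by omega) (by omega),
        TWord_lb_in d c r (by omega) (by omega)]
      have h3 : 2 * c.edges + 1 - 1 = 2 * c.edges := by omega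
      rw [h3, lb_end]
      have h4 : 0 + 1 - 1 = 0 := rfl
      rw [h4, lb_zero]
    · rw [TWord_am_out d c r h, TWord_lb_out d c r (by omega), TWord_lb_out d c r h]
      have h2 := ihr (j := j - (2 * c.edges + 2)) (by omega)
      have h3 : r.am (j - (2 * c.edges + 2)) + (2 * c.edges + 2) + 1 - (2 * c.edges + 2)
          = r.am (j - (2 * c.edges + 2)) + 1 := by omega
      rw [h3, h2]

theorem TWord_inc_abs (d : Fin 3) : |inc d| ≤ 1 := by
  unfold inc
  fin_cases d <;> simp

theorem lb_step (f : Forest) {j : ℕ} (hj : j < 2 * f.edges) : |f.lb (j + 1) - f.lb j| ≤ 1 := by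
  induction f generalizing j with
  | nil => simp [edges] at hj
  | cons d c r ihc ihr =>
    have he : (cons d c r).edges = c.edges + r.edges + 1 := rfl
    have hd := TWord_inc_abs d
    rcases TWord_cases c j with h | ⟨h, h'⟩ | h | h
    · subst h
      have h4 : 0 + 1 - 1 = 0 := rfl
      rw [TWord_lb_in d c r (by omega) (by omega), lb_zero (cons d c r), h4, lb_zero]
      simpa using hd
    · rw [TWord_lb_in d c r (by omega) (by omega), TWord_lb_in d c r h (by omega)]
      have h2 := ihc (j := j - 1) (by omega)
      have h3 : j - 1 + 1 = j := by omega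
      have h4 : j + 1 - 1 = j := by omega
      rw [h3] at h2
      rw [h4]
      simpa using h2
    · subst h
      rw [TWord_lb_out d c r (by omega), TWord_lb_in d c r (by omega) (by omega)]
      have h3 : 2 * c.edges + 1 - 1 = 2 * c.edges := by omega
      have h5 : 2 * c.edges + 1 + 1 - (2 * c.edges + 2) = 0 := by omega
      rw [h3, h5, lb_end, lb_zero]
      simpa using hd
    · rw [TWord_lb_out d c r (by omega), TWord_lb_out d c r h]
      have h2 := ihr (j := j - (2 * c.edges + 2)) (by omega)
      have h3 : j + 1 - (2 * c.edges + 2) = j - (2 * c.edges + 2) + 1 := by omega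
      rw [h3]
      exact h2

/-- the matching is noncrossing -/
theorem noncross (f : Forest) {j i : ℕ} (hj : j < 2 * f.edges) (h1 : j < i) (h2 : i < f.am j) :
    j < f.am i ∧ f.am i < f.am j := by
  induction f generalizing j i with
  | nil => simp [edges] at hj
  | cons d c r ihc ihr =>
    have he : (cons d c r).edges = c.edges + r.edges + 1 := rfl
    rcases TWord_cases c j with h | ⟨h, h'⟩ | h | h
    · subst h
      rw [TWord_am_zero] at h2 ⊢
      rw [TWord_am_in d c r (by omega) (by omega)]
      have := am_lt c (j := i - 1) (by omega)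
      omega
    · have h3 := am_lt c (j := j - 1) (by omega)
      rw [TWord_am_in d c r h h'] at h2 ⊢
      rw [TWord_am_in d c r (by omega) (by omega)]
      have := ihc (j := j - 1) (i := i - 1) (by omega) (by omega) (by omega)
      omega
    · subst h
      rw [TWord_am_cl] at h2
      omega
    · rw [TWord_am_out d c r h] at h2 ⊢
      rw [TWord_am_out d c r (by omega)]
      have := ihr (j := j - (2 * c.edges + 2)) (i := i - (2 * c.edges + 2)) (by omega) (by omega)
        (by omega)
      omega

end Forest

end HGQ
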